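import Mathlib

section

/-!
Cyclic subspaces of a nilpotent endomorphism.

* `cyc_indep`: if `L ^ n v = 0` and `L ^ (n - 1) v ≠ 0` then `v, L v, .., L ^ (n-1) v` are
  independent: in a nontrivial relation let `i` be the smallest index with `c_i ≠ 0` and apply
  `L ^ (n - 1 - i)`.
* `cyc_compl`: let `L ^ n = 0` on `V`, `L ^ (n-1) v ≠ 0`. Choose a functional `f` with
  `f (L ^ (n-1) v) = 1` (`Module.forall_dual_apply_eq_zero_iff`, `exists_dual..`).
  `W := {u | ∀ i < n, f (L ^ i u) = 0}` is stable under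
  `L` (as `L ^ n = 0`), `finrank W ≥ finrank V - n` (kernel of a map to `Fin n → K`), and
  `W ∩ span (v, .., L ^ (n-1) v) = 0`: for `u = ∑ c_i L ^ i v ∈ W` with `i` the smallest index
  with `c_i ≠ 0`: `f (L ^ (n-1-i) u) = c_i`. So `finrank W = finrank V - n` and the two spaces are
  complementary (the span has dimension `n` by `cyc_indep`).
-/

set_option autoImplicit false
set_option linter.unusedSectionVars false
set_option linter.unusedSimpArgs false
set_option linter.unusedVariables false

namespace Pool.Agent.Lib.MP_745d3a_ag.PF.GA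

open Module

variable {K V : Type*} [Field K] [AddCommGroup V] [Module K V]

private lemma A1_pow_zero (L : V →ₗ[K] V) (n : ℕ) (v : V) (h0 : (L ^ n) v = 0) (m : ℕ)
    (hm : n ≤ m) : (L ^ m) v = 0 := by
  obtain ⟨k, rfl⟩ := Nat.exists_eq_add_of_le hm
  rw [add_comm n k, pow_add, Module.End.mul_apply, h0, map_zero]

private lemma A1_key (L : V →ₗ[K] V) (n : ℕ) (v : V) (h0 : (L ^ n) v = 0) (c : Fin n → K)
    (i : Fin n) (hi : ∀ j < i, c j = 0) :
    (L ^ (n - 1 - (i : ℕ))) (∑ j, c j • (L ^ (j : ℕ)) v) = c i • (L ^ (n - 1)) v := by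
  have hin := i.2
  rw [map_sum, Finset.sum_eq_single i]
  · rw [map_smul, ← Module.End.mul_apply, ← pow_add]
    congr 3
    omega
  · intro j _ hj
    rcases lt_or_gt_of_ne hj with h | h
    · rw [hi j h, zero_smul, map_zero]
    · rw [map_smul, ← Module.End.mul_apply, ← pow_add, A1_pow_zero L n v h0, smul_zero]
      have : (i : ℕ) < (j : ℕ) := h
      omega
  · intro h
    exact absurd (Finset.mem_univ i) h

theorem cyc_indep (L : V →ₗ[K] V) (n : ℕ) (v : V) (h0 : (L ^ n) v = 0) (h1 : (L ^ (n - 1)) v ≠ 0)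
    (hn : 1 ≤ n) : LinearIndependent K (fun i : Fin n => (L ^ (i : ℕ)) v) := by
  rw [Fintype.linearIndependent_iff]
  intro c hc i
  induction i using WellFoundedLT.induction with
  | ind i ih =>
    have h2 := A1_key L n v h0 c i ih
    rw [hc, map_zero] at h2
    exact (smul_eq_zero.1 h2.symm).resolve_right h1

theorem cyc_compl [FiniteDimensional K V] (L : V →ₗ[K] V) (n : ℕ) (hn : 1 ≤ n) (h0 : L ^ n = 0)
    (v : V) (h1 : (L ^ (n - 1)) v ≠ 0) :
    ∃ W : Submodule K V, (∀ u ∈ W, L u ∈ W) ∧
      IsCompl (Submodule.span K (Set.range fun i : Fin n => (L ^ (i : ℕ)) v)) W ∧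
      finrank K W + n = finrank K V := by
  have h0v : (L ^ n) v = 0 := by rw [h0]; rfl
  obtain ⟨f, hf⟩ : ∃ f : Dual K V, f ((L ^ (n - 1)) v) ≠ 0 := by
    by_contra hcon
    push Not at hcon
    exact h1 ((Module.forall_dual_apply_eq_zero_iff K _).1 hcon)
  let T : V →ₗ[K] (Fin n → K) := LinearMap.pi fun i : Fin n => f ∘ₗ (L ^ (i : ℕ))
  have hT : ∀ u, u ∈ LinearMap.ker T ↔ ∀ i : Fin n, f ((L ^ (i : ℕ)) u) = 0 := by
    intro u
    rw [LinearMap.mem_ker]
    constructor
    · intro h i
      exact congrFun h i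
    · intro h
      funext i
      exact h i
  have hdis : Disjoint (Submodule.span K (Set.range fun i : Fin n => (L ^ (i : ℕ)) v))
      (LinearMap.ker T) := by
    rw [Submodule.disjoint_def]
    intro u hu hu'
    obtain ⟨c, rfl⟩ := (Submodule.mem_span_range_iff_exists_fun K).1 hu
    have hc : ∀ i, c i = 0 := by
      intro i
      induction i using WellFoundedLT.induction with
      | ind i ih =>
        have h2 := A1_key L n v h0v c i ih
        have h3 := (hT _).1 hu' ⟨n - 1 - (i : ℕ), by have := i.2; omega⟩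
        have h4 := congrArg f h2
        rw [map_smul] at h4
        have h5 : f ((L ^ (n - 1 - (i : ℕ))) (∑ j, c j • (L ^ (j : ℕ)) v)) = 0 := h3
        rw [h5] at h4
        exact (smul_eq_zero.1 h4.symm).resolve_right hf
    simp [hc]
  have hspan : finrank K (Submodule.span K (Set.range fun i : Fin n => (L ^ (i : ℕ)) v)) = n := by
    rw [finrank_span_eq_card (cyc_indep L n v h0v h1 hn), Fintype.card_fin]
  have hle := Submodule.finrank_add_finrank_le_of_disjoint hdis
  have hrn := LinearMap.finrank_range_add_finrank_ker T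
  have hr : finrank K (LinearMap.range T) ≤ n := by
    refine (Submodule.finrank_le _).trans ?_
    rw [Module.finrank_fin_fun]
  have hfin : finrank K (LinearMap.ker T) + n = finrank K V := by
    rw [hspan] at hle
    omega
  refine ⟨LinearMap.ker T, ?_, ⟨hdis, ?_⟩, hfin⟩
  · intro u hu
    rw [hT] at hu ⊢
    intro i
    rw [← Module.End.mul_apply, ← pow_succ]
    by_cases hi : (i : ℕ) + 1 < n
    · exact hu ⟨(i : ℕ) + 1, hi⟩
    · have : (i : ℕ) + 1 = n := by have := i.2; omega
      rw [this, h0]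
      exact map_zero f
  · rw [codisjoint_iff]
    exact Submodule.eq_top_of_disjoint _ _ (by rw [hspan]; omega) hdis

end Pool.Agent.Lib.MP_745d3a_ag.PF.GA

end

section

/-!
Nilpotent endomorphisms with nonzero square of a space of dimension five.

Let `n` be the nilpotency index, `3 ≤ n ≤ 5` (`L ^ 2 ≠ 0`; the index is at most the
dimension, by `cyc_indep`). Choose `v` with `L ^ (n-1) v ≠ 0` and `W` by `cyc_compl`.
`n = 5`: basis `v, L v, .., L ^ 4 v`. `n = 4`: `W` is a line, stable under the nilpotent `L`, so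
`L = 0` on `W`. `n = 3`: `W` is a plane; `L` restricted to `W` is nilpotent, so its square is zero
(for `u ∈ W` with `L (L u) ≠ 0`: three independent vectors of `W` by `cyc_indep` if
`L (L (L u)) = 0`, which holds as `L ^ 3 = 0`);
if it is zero on `W`: last type, with any basis of `W`; if `L u ≠ 0` for some `u ∈ W` then
`u, L u` is a basis of `W` (`L (L u) = 0`): type (3, 2).
The basis of `V` is put together with `basisOfLinearIndependentOfCardEqFinrank` from the family
`![v, L v, .., u, ..]`; independence from `cyc_indep` and the complement (`IsCompl`), e.g. by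
`LinearIndependent.sum_type` / a direct computation with `Fin.sum_univ_five`.
-/

set_option autoImplicit false
set_option linter.unusedSectionVars false
set_option linter.unusedSimpArgs false
set_option linter.unusedVariables false

namespace Pool.Agent.Lib.MP_745d3a_ag.PF.GA

open Module

variable {K V : Type*} [Field K] [AddCommGroup V] [Module K V]

private lemma A2_basis [FiniteDimensional K V] (hV : finrank K V = 5) (n m : ℕ) (hnm : n + m = 5)
    (a : Fin n → V) (b : Fin m → V) (ha : LinearIndependent K a) (hb : LinearIndependent K b)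
    (W : Submodule K V) (hbW : ∀ i, b i ∈ W) (hd : Disjoint (Submodule.span K (Set.range a)) W) :
    ∃ B : Basis (Fin 5) K V, (∀ i : Fin n, B (Fin.cast hnm (Fin.castAdd m i)) = a i) ∧
      (∀ i : Fin m, B (Fin.cast hnm (Fin.natAdd n i)) = b i) := by
  have h1 : LinearIndependent K (Sum.elim a b) := by
    refine LinearIndependent.sum_type ha hb (hd.mono_right ?_)
    rw [Submodule.span_le]
    rintro _ ⟨i, rfl⟩
    exact hbW i
  have h2 : LinearIndependent K
      (Sum.elim a b ∘ (finSumFinEquiv.symm ∘ (Fin.cast hnm.symm : Fin 5 → Fin (n + m)))) := by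
    refine h1.comp _ ?_
    exact finSumFinEquiv.symm.injective.comp (Fin.cast_injective _)
  refine ⟨basisOfLinearIndependentOfCardEqFinrank h2 (by rw [hV]; simp), ?_, ?_⟩
  · intro i
    rw [coe_basisOfLinearIndependentOfCardEqFinrank]
    simp
  · intro i
    rw [coe_basisOfLinearIndependentOfCardEqFinrank]
    simp

private lemma A2_le_five [FiniteDimensional K V] (hV : finrank K V = 5) (L : V →ₗ[K] V) (n : ℕ)
    (v : V) (h0 : (L ^ n) v = 0) (h1 : (L ^ (n - 1)) v ≠ 0) (hn : 1 ≤ n) : n ≤ 5 := by
  have h := (cyc_indep L n v h0 h1 hn).fintype_card_le_finrank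
  rw [Fintype.card_fin, hV] at h
  exact h

theorem nil5 (hV : finrank K V = 5) (L : V →ₗ[K] V) (hnil : IsNilpotent L) (h2 : L ^ 2 ≠ 0) :
    ∃ b : Basis (Fin 5) K V,
      (L (b 0) = b 1 ∧ L (b 1) = b 2 ∧ L (b 2) = b 3 ∧ L (b 3) = b 4 ∧ L (b 4) = 0) ∨
      (L (b 0) = b 1 ∧ L (b 1) = b 2 ∧ L (b 2) = b 3 ∧ L (b 3) = 0 ∧ L (b 4) = 0) ∨
      (L (b 0) = b 1 ∧ L (b 1) = b 2 ∧ L (b 2) = 0 ∧ L (b 3) = b 4 ∧ L (b 4) = 0) ∨
      (L (b 0) = b 1 ∧ L (b 1) = b 2 ∧ L (b 2) = 0 ∧ L (b 3) = 0 ∧ L (b 4) = 0) := by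
  have : FiniteDimensional K V := Module.finite_of_finrank_pos (by rw [hV]; norm_num)
  classical
  -- the nilpotency index
  obtain ⟨n, hn0, hn1⟩ : ∃ n : ℕ, L ^ n = 0 ∧ ∀ m < n, L ^ m ≠ 0 :=
    ⟨Nat.find hnil, Nat.find_spec hnil, fun m hm => Nat.find_min hnil hm⟩
  have hn3 : 3 ≤ n := by
    by_contra hlt
    push Not at hlt
    apply h2
    have : L ^ 2 = L ^ n * L ^ (2 - n) := by
      rw [← pow_add]
      congr 1
      omega
    rw [this, hn0, zero_mul]
  obtain ⟨v, hv⟩ : ∃ v : V, (L ^ (n - 1)) v ≠ 0 := by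
    by_contra hcon
    push Not at hcon
    exact hn1 (n - 1) (by omega) (LinearMap.ext hcon)
  have hv0 : (L ^ n) v = 0 := by rw [hn0]; rfl
  have hn5 : n ≤ 5 := A2_le_five hV L n v hv0 hv (by omega)
  have hind := cyc_indep L n v hv0 hv (by omega)
  obtain ⟨W, hW, hcompl, hrank⟩ := cyc_compl L n (by omega) hn0 v hv
  have hstep : ∀ (u : V) (k : ℕ), L ((L ^ k) u) = (L ^ (k + 1)) u := by
    intro u k
    rw [pow_succ', Module.End.mul_apply]
  obtain rfl | rfl | rfl : n = 5 ∨ n = 4 ∨ n = 3 := by omega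
  · -- index five
    obtain ⟨B, hB, -⟩ := A2_basis hV 5 0 rfl (fun i : Fin 5 => (L ^ (i : ℕ)) v)
      (fun i : Fin 0 => i.elim0) hind (linearIndependent_empty_type) W (fun i => i.elim0)
      hcompl.disjoint
    have e0 : B 0 = (L ^ 0) v := hB 0
    have e1 : B 1 = (L ^ 1) v := hB 1
    have e2 : B 2 = (L ^ 2) v := hB 2
    have e3 : B 3 = (L ^ 3) v := hB 3
    have e4 : B 4 = (L ^ 4) v := hB 4
    refine ⟨B, Or.inl ⟨?_, ?_, ?_, ?_, ?_⟩⟩
    · rw [e0, e1]; exact hstep v 0
    · rw [e1, e2]; exact hstep v 1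
    · rw [e2, e3]; exact hstep v 2
    · rw [e3, e4]; exact hstep v 3
    · rw [e4, hstep]; exact hv0
  · -- index four
    have hW1 : finrank K W = 1 := by omega
    obtain ⟨w, hw0, hwspan⟩ := finrank_eq_one_iff'.mp hW1
    have hw0' : (w : V) ≠ 0 := fun h => hw0 (Subtype.ext h)
    have hLw : L (w : V) = 0 := by
      obtain ⟨c, hc⟩ := hwspan ⟨L (w : V), hW _ w.2⟩
      have hc' : L (w : V) = c • (w : V) := by
        have := congrArg Subtype.val hc
        simpa using this.symm
      have hpow : ∀ k : ℕ, (L ^ k) (w : V) = c ^ k • (w : V) := by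
        intro k
        induction k with
        | zero => simp
        | succ k ih =>
          rw [← hstep, ih, map_smul, hc', smul_smul, pow_succ]
      have h4 := hpow 4
      rw [hn0, LinearMap.zero_apply] at h4
      have hc0 : c = 0 := by
        rcases smul_eq_zero.mp h4.symm with h | h
        · exact pow_eq_zero_iff (by norm_num) |>.mp h
        · exact absurd h hw0'
      rw [hc', hc0, zero_smul]
    obtain ⟨B, hB, hB'⟩ := A2_basis hV 4 1 rfl (fun i : Fin 4 => (L ^ (i : ℕ)) v)
      (fun _ : Fin 1 => (w : V)) hind (linearIndependent_unique_iff.mpr hw0') W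
      (fun _ => w.2) hcompl.disjoint
    have e0 : B 0 = (L ^ 0) v := hB 0
    have e1 : B 1 = (L ^ 1) v := hB 1
    have e2 : B 2 = (L ^ 2) v := hB 2
    have e3 : B 3 = (L ^ 3) v := hB 3
    have e4 : B 4 = (w : V) := hB' 0
    refine ⟨B, Or.inr (Or.inl ⟨?_, ?_, ?_, ?_, ?_⟩)⟩
    · rw [e0, e1]; exact hstep v 0
    · rw [e1, e2]; exact hstep v 1
    · rw [e2, e3]; exact hstep v 2
    · rw [e3, hstep]; exact hv0
    · rw [e4]; exact hLw
  · -- index three
    have hW2 : finrank K W = 2 := by omega
    by_cases hu : ∃ u ∈ W, L u ≠ 0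
    · obtain ⟨u, huW, hu1⟩ := hu
      have hstepu : ∀ k : ℕ, (L ^ k) u ∈ W := by
        intro k
        induction k with
        | zero => simpa using huW
        | succ k ih => rw [← hstep]; exact hW _ ih
      have hu2 : (L ^ 2) u = 0 := by
        by_contra hne
        have h3 := cyc_indep L 3 u (by rw [hn0]; rfl) hne (by norm_num)
        have h4 : LinearIndependent K
            (fun i : Fin 3 => (⟨(L ^ (i : ℕ)) u, hstepu i⟩ : W)) := by
          apply LinearIndependent.of_comp W.subtype
          exact h3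
        have h5 := h4.fintype_card_le_finrank
        rw [Fintype.card_fin, hW2] at h5
        omega
      have h6 := cyc_indep L 2 u hu2 (by simpa using hu1) (by norm_num)
      obtain ⟨B, hB, hB'⟩ := A2_basis hV 3 2 rfl (fun i : Fin 3 => (L ^ (i : ℕ)) v)
        (fun i : Fin 2 => (L ^ (i : ℕ)) u) hind h6 W (fun i => hstepu i) hcompl.disjoint
      have e0 : B 0 = (L ^ 0) v := hB 0
      have e1 : B 1 = (L ^ 1) v := hB 1
      have e2 : B 2 = (L ^ 2) v := hB 2
      have e3 : B 3 = (L ^ 0) u := hB' 0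
      have e4 : B 4 = (L ^ 1) u := hB' 1
      refine ⟨B, Or.inr (Or.inr (Or.inl ⟨?_, ?_, ?_, ?_, ?_⟩))⟩
      · rw [e0, e1]; exact hstep v 0
      · rw [e1, e2]; exact hstep v 1
      · rw [e2, hstep]; exact hv0
      · rw [e3, e4]; exact hstep u 0
      · rw [e4, hstep]; exact hu2
    · push Not at hu
      have bW := Module.finBasisOfFinrankEq K W hW2
      have hb : LinearIndependent K (fun i : Fin 2 => ((bW i : W) : V)) :=
        bW.linearIndependent.map' W.subtype (Submodule.ker_subtype W)
      obtain ⟨B, hB, hB'⟩ := A2_basis hV 3 2 rfl (fun i : Fin 3 => (L ^ (i : ℕ)) v)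
        (fun i : Fin 2 => ((bW i : W) : V)) hind hb W (fun i => (bW i).2) hcompl.disjoint
      have e0 : B 0 = (L ^ 0) v := hB 0
      have e1 : B 1 = (L ^ 1) v := hB 1
      have e2 : B 2 = (L ^ 2) v := hB 2
      have e3 : B 3 = ((bW 0 : W) : V) := hB' 0
      have e4 : B 4 = ((bW 1 : W) : V) := hB' 1
      refine ⟨B, Or.inr (Or.inr (Or.inr ⟨?_, ?_, ?_, ?_, ?_⟩))⟩
      · rw [e0, e1]; exact hstep v 0
      · rw [e1, e2]; exact hstep v 1
      · rw [e2, hstep]; exact hv0
      · rw [e3]; exact hu _ (bW 0).2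
      · rw [e4]; exact hu _ (bW 1).2

end Pool.Agent.Lib.MP_745d3a_ag.PF.GA

end

section

/-!
Rank, generalised eigenvectors.

* `rank_le_two`: `range L ≤ ker L`, and rank-nullity.
* `gen_basis`: `Module.End.iSup_maxGenEigenspace_eq_top` and
  `Module.End.independent_maxGenEigenspace`: internal direct sum, take
  `DirectSum.IsInternal.collectedBasis` of bases of the pieces and reindex it by `Fin 5`
  (`Module.finBasis..`, cardinality from `hV`). Or: the union of the generalised eigenspaces spans
  `V`, so it contains a basis (`Basis.extend`-type lemma: `exists_linearIndependent`,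
  `Module.Basis.ofSpan`), with `α` chosen for each basis vector.
* `nil_of_const`: `V = maxGenEigenspace L c` since it contains a basis; so every vector is killed
  by a power of `L - c`; `V` is finite-dimensional: take the maximum over the basis.
-/

set_option autoImplicit false
set_option linter.unusedSectionVars false
set_option linter.unusedSimpArgs false
set_option linter.unusedVariables false

namespace Pool.Agent.Lib.MP_745d3a_ag.PF.GA

open Module

variable {K V : Type*} [Field K] [AddCommGroup V] [Module K V]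

/-- An endomorphism of square zero of a space of dimension five has rank at most two. -/
theorem rank_le_two (hV : finrank K V = 5) (L : V →ₗ[K] V) (h2 : L ^ 2 = 0) :
    finrank K (LinearMap.range L) ≤ 2 := by
  have : FiniteDimensional K V := FiniteDimensional.of_finrank_pos (by omega)
  have h1 : LinearMap.range L ≤ LinearMap.ker L := by
    rintro _ ⟨v, rfl⟩
    have h3 : (L ^ 2) v = 0 := by rw [h2]; rfl
    rw [LinearMap.mem_ker]
    rw [pow_two] at h3
    exact h3
  have h4 := Submodule.finrank_mono h1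
  have h5 := LinearMap.finrank_range_add_finrank_ker L
  omega

/-- A basis of generalised eigenvectors. -/
theorem gen_basis [IsAlgClosed K] (hV : finrank K V = 5) (L : V →ₗ[K] V) :
    ∃ (b : Basis (Fin 5) K V) (α : Fin 5 → K),
      ∀ i, b i ∈ Module.End.maxGenEigenspace (L : Module.End K V) (α i) := by
  have : FiniteDimensional K V := FiniteDimensional.of_finrank_pos (by omega)
  have htop := Module.End.iSup_maxGenEigenspace_eq_top (L : Module.End K V)
  have hs : (⊤ : Submodule K V) ≤ Submodule.span K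
      (⋃ c : K, (Module.End.maxGenEigenspace (L : Module.End K V) c : Set V)) := by
    rw [← htop]
    refine iSup_le fun c => ?_
    intro v hv
    exact Submodule.subset_span (Set.mem_iUnion.mpr ⟨c, hv⟩)
  let b0 := Module.Basis.ofSpan hs
  have := FiniteDimensional.fintypeBasisIndex b0
  have hcard := (finrank_eq_card_basis b0).symm.trans hV
  let b : Basis (Fin 5) K V := b0.reindex (Fintype.equivFinOfCardEq hcard)
  have hb : ∀ i, ∃ c : K, b i ∈ Module.End.maxGenEigenspace (L : Module.End K V) c := by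
    intro i
    have h1 : b i ∈ (⋃ c : K, (Module.End.maxGenEigenspace (L : Module.End K V) c : Set V)) := by
      rw [Module.Basis.reindex_apply]
      exact Module.Basis.ofSpan_subset hs ⟨_, rfl⟩
    obtain ⟨c, hc⟩ := Set.mem_iUnion.mp h1
    exact ⟨c, hc⟩
  choose α hα using hb
  exact ⟨b, α, hα⟩

/-- If all generalised eigenvalues are equal then `L - c` is nilpotent. -/
theorem nil_of_const (hV : finrank K V = 5) (L : V →ₗ[K] V) (b : Basis (Fin 5) K V) (c : K)
    (hb : ∀ i, b i ∈ Module.End.maxGenEigenspace (L : Module.End K V) c) :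
    IsNilpotent (L - c • LinearMap.id) := by
  have h1 : ∀ i, ∃ k : ℕ, ((L - c • (1 : Module.End K V)) ^ k) (b i) = 0 := by
    intro i
    exact Module.End.mem_maxGenEigenspace _ _ _ |>.mp (hb i)
  choose k hk using h1
  refine ⟨∑ i, k i, ?_⟩
  apply b.ext
  intro i
  have h2 : (∑ i, k i) = (∑ i, k i - k i) + k i := by
    have := Finset.single_le_sum (f := k) (fun i _ => Nat.zero_le _) (Finset.mem_univ i)
    omega
  rw [h2, pow_add]
  have h3 := hk i
  change ((L - c • (1 : Module.End K V)) ^ (∑ i, k i - k i))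
    (((L - c • (1 : Module.End K V)) ^ (k i)) (b i)) = 0
  rw [h3, map_zero]

end Pool.Agent.Lib.MP_745d3a_ag.PF.GA

end

section

/-!
An additive map to the rational numbers, integral on a finite set.

`K` is a vector space over `ℚ`; take a `ℚ`-linear functional `f : K →ₗ[ℚ] ℚ` with
`f (α - β) ≠ 0` (`Module.forall_dual_apply_eq_zero_iff`), multiply it by the product of the
denominators of `f t`, `t ∈ T`.
-/

set_option autoImplicit false
set_option linter.unusedSectionVars false
set_option linter.unusedSimpArgs false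
set_option linter.unusedVariables false

namespace Pool.Agent.Lib.MP_745d3a_ag.PF.GA

section

theorem exists_chi {K : Type*} [Field K] [CharZero K] {α β : K} (h : α ≠ β) (T : Finset K) :
    ∃ χ : K →+ ℚ, χ α ≠ χ β ∧ ∀ t ∈ T, ∃ z : ℤ, χ t = z := by
  classical
  have : Module.Projective ℚ K := Module.Projective.of_free
  have h1 : ∃ f : Module.Dual ℚ K, f (α - β) ≠ 0 := by
    by_contra hcon
    refine h (sub_eq_zero.mp ((Module.forall_dual_apply_eq_zero_iff ℚ (α - β)).mp fun f => ?_))
    by_contra hf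
    exact hcon ⟨f, hf⟩
  obtain ⟨f, hf⟩ := h1
  have hN : (∏ t ∈ T, ((f t).den : ℚ)) ≠ 0 :=
    Finset.prod_ne_zero_iff.mpr fun t _ => Nat.cast_ne_zero.mpr (f t).den_ne_zero
  refine ⟨((∏ t ∈ T, ((f t).den : ℚ)) • f).toAddMonoidHom, ?_, ?_⟩
  · intro he
    have he' : (∏ t ∈ T, ((f t).den : ℚ)) * f α = (∏ t ∈ T, ((f t).den : ℚ)) * f β := he
    have h2 := mul_left_cancel₀ hN he'
    exact hf (by rw [map_sub, h2, sub_self])
  · intro t ht
    refine ⟨(∏ s ∈ T.erase t, ((f s).den : ℤ)) * (f t).num, ?_⟩
    show (∏ t ∈ T, ((f t).den : ℚ)) * f t = _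
    rw [← Finset.prod_erase_mul T _ ht, mul_assoc, Rat.den_mul_eq_num]
    push_cast
    rfl

end

end Pool.Agent.Lib.MP_745d3a_ag.PF.GA

end

section

/-!
Eigenvectors of a `2 × 2` matrix.

* `eig_G`: `∏_{i ≤ N} (G + i) = 0` implies that `G` has a basis of eigenvectors with
  eigenvalues in `{0, -1, .., -N}`: the minimal polynomial divides `∏ (T + i)`, which is separable
  and split. Elementary for `2 × 2` matrices: if `G + r` is invertible for all `r ≤ N` then the
  product is invertible, impossible; so `G` has an eigenvalue `-r₁`. If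
  `G = -r₁` any basis is fine. Otherwise `(G + r₁) ≠ 0` and `det (G + r₁) = 0`. Let `c` be the
  other eigenvalue (`c = trace + r₁`): `(G + r₁) (G - c) = 0` (Cayley-Hamilton). The columns of
  `G + r₁` are eigenvectors of eigenvalue `c`, so `∏ (c + i) = 0` and `c = -r₂`. If `r₂ ≠ r₁`:
  eigenvectors of different eigenvalues are independent. If `r₂ = r₁`: `(G + r₁) ^ 2 = 0`,
  `G + r₁ ≠ 0`, and `∏ (G + i) = (G + r₁) ∏_{i ≠ r₁} (G + i)`, where the second factor is
  invertible (`G + i = (i - r₁) + nilpotent`), so `G + r₁ = 0`, contradiction.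
-/

set_option autoImplicit false
set_option linter.unusedSectionVars false
set_option linter.unusedSimpArgs false
set_option linter.unusedVariables false

namespace Pool.Agent.Lib.MP_745d3a_ag.PF.GA

section

variable {K : Type*} [Field K] [CharZero K]

open Polynomial in
private theorem P3b_ker {V : Type*} [AddCommGroup V] [Module K V] (f : Module.End K V)
    (W : Submodule K V) (hW : ∀ (i : ℕ) (v : V), f v = -(i : K) • v → v ∈ W) (n : ℕ) :
    LinearMap.ker (aeval f (∏ i ∈ Finset.range n, (X + C (i : K) : K[X]))) ≤ W := by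
  induction n with
  | zero =>
    intro v hv
    rw [Finset.range_zero, Finset.prod_empty, map_one, LinearMap.mem_ker] at hv
    have : v = 0 := hv
    rw [this]
    exact W.zero_mem
  | succ n ih =>
    have hco : IsCoprime (∏ i ∈ Finset.range n, (X + C (i : K) : K[X])) (X + C (n : K)) := by
      apply IsCoprime.prod_left
      intro i hi
      have hne : (i : K) - (n : K) ≠ 0 := by
        rw [sub_ne_zero]
        exact_mod_cast (Finset.mem_range.1 hi).ne
      refine ⟨C ((i : K) - n)⁻¹, -C ((i : K) - n)⁻¹, ?_⟩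
      have h : C ((i : K) - n)⁻¹ * (X + C (i : K)) + -C ((i : K) - n)⁻¹ * (X + C (n : K))
          = C (((i : K) - n)⁻¹ * ((i : K) - n)) := by
        rw [C_mul, C_sub]
        ring
      rw [h, inv_mul_cancel₀ hne, C_1]
    rw [Finset.prod_range_succ, ← sup_ker_aeval_eq_ker_aeval_mul_of_coprime f hco]
    refine sup_le ih ?_
    intro v hv
    apply hW n v
    rw [LinearMap.mem_ker, map_add, aeval_X, aeval_C, LinearMap.add_apply,
      Module.algebraMap_end_apply] at hv
    rw [neg_smul]
    exact eq_neg_of_add_eq_zero_left hv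

theorem eig_G (G : Matrix (Fin 2) (Fin 2) K) (N : ℕ)
    (h : Polynomial.aeval G (∏ i ∈ Finset.range (N + 1),
      (Polynomial.X + Polynomial.C (i : K) : Polynomial K)) = 0) :
    ∃ (r₁ r₂ : ℕ) (p q p' q' : K), p * q' - q * p' ≠ 0 ∧
      G 0 0 * p + G 0 1 * q = -(r₁ : K) * p ∧ G 1 0 * p + G 1 1 * q = -(r₁ : K) * q ∧
      G 0 0 * p' + G 0 1 * q' = -(r₂ : K) * p' ∧
      G 1 0 * p' + G 1 1 * q' = -(r₂ : K) * q' := by
  have hf : Polynomial.aeval (Matrix.toLinAlgEquiv' G : Module.End K (Fin 2 → K))
      (∏ i ∈ Finset.range (N + 1), (Polynomial.X + Polynomial.C (i : K) : Polynomial K)) = 0 := by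
    have e := Polynomial.aeval_algHom_apply
      (Matrix.toLinAlgEquiv' : Matrix (Fin 2) (Fin 2) K ≃ₐ[K] _).toAlgHom G
      (∏ i ∈ Finset.range (N + 1), (Polynomial.X + Polynomial.C (i : K) : Polynomial K))
    rw [h, map_zero] at e
    exact e
  have hker : LinearMap.ker (Polynomial.aeval
      (Matrix.toLinAlgEquiv' G : Module.End K (Fin 2 → K))
      (∏ i ∈ Finset.range (N + 1), (Polynomial.X + Polynomial.C (i : K) : Polynomial K))) = ⊤ := by
    rw [hf]
    exact LinearMap.ker_zero
  have happ : ∀ v : Fin 2 → K, (Matrix.toLinAlgEquiv' G : Module.End K (Fin 2 → K)) v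
      = ![G 0 0 * v 0 + G 0 1 * v 1, G 1 0 * v 0 + G 1 1 * v 1] := by
    intro v
    rw [Matrix.toLinAlgEquiv'_apply]
    ext i
    fin_cases i <;> simp [Matrix.mulVec, dotProduct, Fin.sum_univ_two]
  by_contra hcon
  -- the functional
  have key : ∀ v : Fin 2 → K, (∃ r : ℕ, (Matrix.toLinAlgEquiv' G : Module.End K (Fin 2 → K)) v
      = -(r : K) • v) → v = 0 := by
    rintro v ⟨r, hv⟩
    obtain ⟨L, hL⟩ : ∃ L : (Fin 2 → K) →ₗ[K] K, ∀ w, L w = v 0 * w 1 - v 1 * w 0 := by
      refine ⟨v 0 • LinearMap.proj 1 - v 1 • LinearMap.proj 0, fun w => ?_⟩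
      simp
    have hW := P3b_ker (Matrix.toLinAlgEquiv' G : Module.End K (Fin 2 → K)) (LinearMap.ker L) (by
      intro i w hw
      rw [LinearMap.mem_ker, hL]
      by_contra hne
      apply hcon
      rw [happ] at hv hw
      have v0 := congrFun hv 0
      have v1 := congrFun hv 1
      have w0 := congrFun hw 0
      have w1 := congrFun hw 1
      simp at v0 v1 w0 w1
      exact ⟨r, i, v 0, v 1, w 0, w 1, hne, by rw [v0]; ring, by rw [v1]; ring,
        by rw [w0]; ring, by rw [w1]; ring⟩) (N + 1)
    rw [hker] at hW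
    have h0 : L ![1, 0] = 0 := hW (Submodule.mem_top)
    have h1 : L ![0, 1] = 0 := hW (Submodule.mem_top)
    rw [hL] at h0 h1
    simp at h0 h1
    ext i
    fin_cases i
    · exact h1
    · exact h0
  have hW := P3b_ker (Matrix.toLinAlgEquiv' G : Module.End K (Fin 2 → K)) ⊥ (by
    intro i w hw
    exact key w ⟨i, hw⟩) (N + 1)
  rw [hker] at hW
  have h1 : (![1, 0] : Fin 2 → K) = 0 := hW (Submodule.mem_top)
  have h2 := congrFun h1 0
  simp at h2

end

end Pool.Agent.Lib.MP_745d3a_ag.PF.GA

end
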