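import Pool.Agent.Lib.MP_745d3a_ag.PFFin
import Pool.Agent.Lib.MP_745d3a_ag.BS.Rad

/-!
Bigraded modules over a polynomial ring, filtration by the weight, leading forms: definitions.

Everything is in the language of the files `PF*`: `S` is a `K`-algebra with coordinates
`x : ι → S` (`Coord K x`), gradings are given by diagonalisable operators with integral
eigenvalues (`Diag`), and `comp T d v` is the component of `v` of eigenvalue `d`.
-/

set_option autoImplicit false
set_option linter.unusedSectionVars false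

open MvPolynomial

namespace Pool.Agent.Lib.MP_745d3a_ag.PF.GA

/-- Coordinates, the Euler derivation `E` and the weight derivation `H`; the weights are not
negative. -/
structure Base {K S ι : Type*} [Field K] [CommRing S] [Algebra K S] (x : ι → S) (w : ι → ℤ)
    (E H : Derivation K S S) : Prop where
  cx : Coord K x
  eu : IsEuler x E
  wt : ∀ i, H (x i) = (w i : K) • x i
  nn : ∀ i, 0 ≤ w i

/-- A torsion free module with two commuting gradings `ε` (degree) and `η` (weight). -/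
structure GMod {K S ι V : Type*} [Field K] [CommRing S] [Algebra K S] [AddCommGroup V]
    [Module K V] [Module S V] (x : ι → S) (w : ι → ℤ) (E H : Derivation K S S)
    (ε η : V →ₗ[K] V) : Prop where
  base : Base x w E H
  cE : IsConn E ε
  dE : Diag ε
  cH : IsConn H η
  dH : Diag η
  comm : ∀ m, ε (η m) = η (ε m)
  tf : ∀ (a : S) (m : V), a • m = 0 → a = 0 ∨ m = 0

section fl

variable {K V : Type*} [Field K] [AddCommGroup V] [Module K V]

/-- The weight of `v` is at least `k`. -/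
def Fl (η : V →ₗ[K] V) (k : ℤ) (v : V) : Prop := ∀ j < k, comp η j v = 0

/-- `y ∈ N` has weight at least `k` and its component of weight `k` is `c`. -/
def Ld {S : Type*} [CommRing S] [Module S V] (η : V →ₗ[K] V) (N : Submodule S V) (k : ℤ)
    (y c : V) : Prop := y ∈ N ∧ Fl η k y ∧ comp η k y = c

/-- The submodule spanned by the leading forms of the elements of `N`. -/
def M0 {S : Type*} [CommRing S] [Module S V] (η : V →ₗ[K] V) (N : Submodule S V) :
    Submodule S V := Submodule.span S {c | ∃ k y, Ld η N k y c}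

end fl

section pair

variable {K S : Type*} [Field K] [CommRing S] [Algebra K S]

/-- The operator `T` on `S × S`, shifted by `s₁`, `s₂`. -/
def shp (T : S →ₗ[K] S) (s₁ s₂ : ℤ) : (S × S) →ₗ[K] (S × S) where
  toFun v := (T v.1 + (s₁ : K) • v.1, T v.2 + (s₂ : K) • v.2)
  map_add' u v := by
    ext
    · simp only [Prod.fst_add, map_add, smul_add]; abel
    · simp only [Prod.snd_add, map_add, smul_add]; abel
  map_smul' c v := by
    ext
    · simp only [Prod.smul_fst, map_smul, smul_add, RingHom.id_apply, smul_comm c (s₁ : K)]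
    · simp only [Prod.smul_snd, map_smul, smul_add, RingHom.id_apply, smul_comm c (s₂ : K)]

lemma shp_apply (T : S →ₗ[K] S) (s₁ s₂ : ℤ) (v : S × S) :
    shp T s₁ s₂ v = (T v.1 + (s₁ : K) • v.1, T v.2 + (s₂ : K) • v.2) := rfl

/-- The determinant of two vectors. -/
def dt (u v : S × S) : S := u.1 * v.2 - u.2 * v.1

end pair

section alt

variable {K S ι M : Type*} [Field K] [CommRing S] [Algebra K S] [AddCommGroup M] [Module K M]
  [Module S M]

/-- An alternating pairing with values in `S`, of degree `-d`, satisfying the Plücker relation,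
whose values generate an ideal containing a power of each coordinate. -/
structure Pr (x : ι → S) (E : Derivation K S S) (ε : M →ₗ[K] M) (d : ℤ)
    (B : M →ₗ[S] M →ₗ[S] S) : Prop where
  alt : ∀ m, B m m = 0
  plu : ∀ a b c, B a b • c + B b c • a + B c a • b = 0
  hom : ∀ m n, E (B m n) = B (ε m) n + B m (ε n) - (d : K) • B m n
  full : ∀ i, ∃ N : ℕ, x i ^ N ∈ Ideal.span {p : S | ∃ a b, B a b = p}

/-- The setting of the degeneration: a derivation `D` of weight one lifts to a rank two module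
with its pairing and has an invariant element. -/
structure S1 (x : ι → S) (w : ι → ℤ) (E H D : Derivation K S S) (ε δ : M →ₗ[K] M) (d : ℤ)
    (B : M →ₗ[S] M →ₗ[S] S) : Prop where
  base : Base x w E H
  ED : ∀ a, E (D a) = D (E a)
  HD : ∀ a, H (D a) = D (H a) + D a
  root : ∀ i, w i ≠ 0 → ∃ j, w j + 1 = w i ∧ D (x j) = x i
  cE : IsConn E ε
  dE : Diag ε
  cD : IsConn D δ
  comm : ∀ m, ε (δ m) = δ (ε m)
  bun : Bun x M
  pr : Pr x E ε d B
  DB : ∀ m n, D (B m n) = B (δ m) n + B m (δ n)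
  inv : ∃ f, f ≠ 0 ∧ δ f = 0

/-- Adapted pair of elements. -/
structure Dat (H : Derivation K S S) (ε δ : M →ₗ[K] M) (B : M →ₗ[S] M →ₗ[S] S) (e₁ e₂ : M)
    (a₁ a₂ n₁ n₂ : ℤ) : Prop where
  u0 : comp (H : S →ₗ[K] S) 0 (B e₁ e₂) ≠ 0
  hom₁ : ε e₁ = (n₁ : K) • e₁
  hom₂ : ε e₂ = (n₂ : K) • e₂
  G11 : Fl (H : S →ₗ[K] S) 1 (B (δ e₁) e₂)
  G21 : Fl (H : S →ₗ[K] S) (1 + a₁ - a₂) (B e₁ (δ e₁))
  G12 : Fl (H : S →ₗ[K] S) (1 + a₂ - a₁) (B (δ e₂) e₂)
  G22 : Fl (H : S →ₗ[K] S) 1 (B e₁ (δ e₂))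

/-- The filtration of `M`. -/
def Gf (H : Derivation K S S) (B : M →ₗ[S] M →ₗ[S] S) (e₁ e₂ : M) (a₁ a₂ : ℤ) (k : ℤ) (m : M) :
    Prop :=
  Fl (H : S →ₗ[K] S) (k - a₁) (B m e₂) ∧ Fl (H : S →ₗ[K] S) (k - a₂) (B e₁ m)

/-- The ideal generated by the leading parts of the values of the pairing. -/
def aI (H : Derivation K S S) (B : M →ₗ[S] M →ₗ[S] S) (e₁ e₂ : M) (a₁ a₂ : ℤ) : Ideal S :=
  Ideal.span {p : S | ∃ (j k : ℤ) (m n : M), Gf H B e₁ e₂ a₁ a₂ j m ∧ Gf H B e₁ e₂ a₁ a₂ k n ∧
    comp (H : S →ₗ[K] S) (j + k - a₁ - a₂) (B m n) = p}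

/-- The coordinates of `m` with respect to `e₁`, `e₂` and the denominator `B e₁ e₂`. -/
def ph (B : M →ₗ[S] M →ₗ[S] S) (e₁ e₂ : M) : M →ₗ[S] (S × S) :=
  (B.flip e₂).prod (B e₁)

lemma ph_apply (B : M →ₗ[S] M →ₗ[S] S) (e₁ e₂ m : M) : ph B e₁ e₂ m = (B m e₂, B e₁ m) := rfl

end alt

end Pool.Agent.Lib.MP_745d3a_ag.PF.GA
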