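import Pool.Agent.Lib.MP_745d3a_ag.NV.Defs

section

/-!
The gradings of the polynomial ring.

* `EH`: `⁅E, H⁆` is a derivation which kills the coordinates (`Coord.der_ext`, as at the end of
  `PFFin.main`).
* `wt_decomp`: as `euler_decomp` (PFMod.lean), by `Coord.induction`: constants have weight `0`,
  multiplication by `x i` shifts the decomposition by `w i ≥ 0` (reindex with
  `Finsupp.mapDomain (· + w i)`), so all weights are `≥ 0`.
* `dH`, `H_neg`: from `wt_decomp` as `euler_diag` and `euler_comp`.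
* `E_zero`: `euler_comp`, second part, and `comp_of_eig` for the eigenvalue `0`.
* `gmod`: `tf` from `cx.isDomain`; `cE`, `cH` from `Derivation.leibniz` (with `smul_eq_mul`, `ring`).
-/

set_option autoImplicit false
set_option linter.unusedSectionVars false
set_option linter.unusedSimpArgs false
set_option linter.unusedVariables false

open MvPolynomial

namespace Pool.Agent.Lib.MP_745d3a_ag.PF.GA

section

variable {K S ι : Type*} [Field K] [CharZero K] [CommRing S] [Algebra K S] {x : ι → S}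
  {w : ι → ℤ} {E H : Derivation K S S}

theorem Base.EH (h : Base x w E H) (a : S) : E (H a) = H (E a) := by
  have h1 : ⁅E, H⁆ = 0 := by
    refine h.cx.der_ext fun i => ?_
    rw [Derivation.commutator_apply, h.wt, h.eu, h.wt, Derivation.map_smul, h.eu, sub_self]
    rfl
  have h2 := congrArg (fun Z : Derivation K S S => Z a) h1
  simp only [Derivation.commutator_apply] at h2
  exact sub_eq_zero.mp h2

theorem Base.wt_decomp (h : Base x w E H) (a : S) :
    ∃ f : ℤ →₀ S, (∀ d, H (f d) = (d : K) • f d) ∧ (∀ d < 0, f d = 0) ∧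
      (f.sum fun _ y => y) = a := by
  classical
  refine h.cx.induction (P := fun a => ∃ f : ℤ →₀ S, (∀ d, H (f d) = (d : K) • f d) ∧
      (∀ d < 0, f d = 0) ∧ (f.sum fun _ y => y) = a) ?_ ?_ ?_ a
  · intro c
    refine ⟨Finsupp.single 0 (algebraMap K S c), ?_, ?_, by simp⟩
    · intro d
      by_cases hd : d = 0
      · subst hd; simp
      · simp [Ne.symm hd]
    · intro d hd
      simp [(ne_of_lt hd).symm]
  · rintro a b ⟨f, hf1, hf2, hf5⟩ ⟨g, hg1, hg2, hg5⟩
    refine ⟨f + g, ?_, ?_, ?_⟩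
    · intro d; rw [Finsupp.add_apply, map_add, hf1, hg1, smul_add]
    · intro d hd; rw [Finsupp.add_apply, hf2 d hd, hg2 d hd, add_zero]
    · rw [Finsupp.sum_add_index' (fun _ => rfl) (fun _ _ _ => rfl), hf5, hg5]
  · rintro a i ⟨f, hf1, hf2, hf5⟩
    have hinj : Function.Injective (fun d : ℤ => d + w i) := fun a b h => by simpa using h
    have hg : ∀ d, ((f.mapRange (fun y => y * x i) (by simp)).mapDomain (fun d : ℤ => d + w i))
        (d + w i) = f d * x i := by
      intro d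
      show (Finsupp.mapDomain (fun d : ℤ => d + w i) _) ((fun d : ℤ => d + w i) d) = _
      rw [Finsupp.mapDomain_apply hinj]; simp
    have hg' : ∀ d, ((f.mapRange (fun y => y * x i) (by simp)).mapDomain (fun d : ℤ => d + w i)) d =
        f (d - w i) * x i := by
      intro d
      have := hg (d - w i)
      rwa [sub_add_cancel] at this
    refine ⟨(f.mapRange (fun y => y * x i) (by simp)).mapDomain (fun d : ℤ => d + w i), ?_, ?_, ?_⟩
    · intro d
      rw [hg', Derivation.leibniz, h.wt i, hf1, smul_eq_mul, smul_eq_mul, mul_smul_comm,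
        mul_smul_comm, Int.cast_sub, sub_smul, mul_comm (x i) (f (d - w i))]
      abel
    · intro d hd
      have := h.nn i
      rw [hg', hf2 (d - w i) (by omega), zero_mul]
    · rw [Finsupp.sum_mapDomain_index (fun _ => rfl) (fun _ _ _ => rfl),
        Finsupp.sum_mapRange_index (fun _ => rfl), ← hf5, Finsupp.sum_mul]

theorem Base.dE (h : Base x w E H) : Diag (E : S →ₗ[K] S) :=
  euler_diag h.cx h.eu

theorem Base.dH (h : Base x w E H) : Diag (H : S →ₗ[K] S) := by
  intro a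
  obtain ⟨f, h1, _, h5⟩ := h.wt_decomp a
  exact ⟨f.support, f, h1, h5.symm⟩

theorem Base.H_neg (h : Base x w E H) {k : ℤ} (hk : k < 0) (a : S) :
    comp (H : S →ₗ[K] S) k a = 0 := by
  classical
  obtain ⟨f, h1, h2, h5⟩ := h.wt_decomp a
  rw [comp_unique (T := (H : S →ₗ[K] S)) f.support f (fun d _ => h1 d) h5.symm]
  by_cases hd : k ∈ f.support
  · rw [if_pos hd, h2 k hk]
  · rw [if_neg hd]

theorem Base.E_neg (h : Base x w E H) {k : ℤ} (hk : k < 0) (a : S) :
    comp (E : S →ₗ[K] S) k a = 0 :=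
  (euler_comp h.cx h.eu a).1 k hk

theorem Base.E_zero (h : Base x w E H) {a : S} (ha : E a = 0) : ∃ c : K, a = algebraMap K S c := by
  obtain ⟨c, hc⟩ := (euler_comp h.cx h.eu a).2.1
  refine ⟨c, ?_⟩
  rw [← hc, comp_of_eig (T := (E : S →ₗ[K] S))]
  rw [Int.cast_zero, zero_smul]
  exact ha

theorem Base.gmod (h : Base x w E H) :
    GMod x w E H (E : S →ₗ[K] S) (H : S →ₗ[K] S) where
  base := h
  cE := by
    intro a m
    show E (a • m) = E a • m + a • E m
    rw [smul_eq_mul, smul_eq_mul, smul_eq_mul, Derivation.leibniz, smul_eq_mul, smul_eq_mul]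
    ring
  dE := h.dE
  cH := by
    intro a m
    show H (a • m) = H a • m + a • H m
    rw [smul_eq_mul, smul_eq_mul, smul_eq_mul, Derivation.leibniz, smul_eq_mul, smul_eq_mul]
    ring
  dH := h.dH
  comm := h.EH
  tf := by
    intro a m hm
    have := h.cx.isDomain
    exact mul_eq_zero.mp hm

end

end Pool.Agent.Lib.MP_745d3a_ag.PF.GA

end

section

/-!
The filtration by the weight.

* `Fl.add` .. `Fl.smulK`: from `comp_zero`, `comp_add`, `comp_sub`, `comp_smulK`. `Fl.succ`: the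
  indices `< k + 1` are those `< k` and `k`.
* `comp_comm`: `comp_shift` with `A = comp ε n` as an additive map (`compL`), `k = 0`, or: write
  `v = ∑ comp η k v` (`exists_comp`); `ε` maps the `η`-eigenspace to itself, so `comp ε n` does
  (`comp_mem` for the additive subgroup of eigenvectors), and use `comp_sum`, `comp_of_eig`,
  `comp_of_ne`. `Fl.cmp`: from it.
* `exists_order`: `v ≠ 0` has a nonzero component (`eq_zero_of_comp`), and only finitely many
  (`exists_comp`); take the smallest index.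
* `fl_raise`: `comp_shift` with `A = D`, `k = 1` (the eigenvectors: `η' (D v) = D (η v) + D v`
  `= (d + 1) • D v`, as additive maps: `D` commutes with integral scalars `(d : K) •`? `D` is only
  additive, but `(d : K) • v = d • v` for `d : ℤ` (`Int.cast_smul_eq_zsmul`), and additive maps commute
  with `ℤ`-multiples).
* `fl_all`: from `exists_order`.
-/

set_option autoImplicit false
set_option linter.unusedSectionVars false
set_option linter.unusedSimpArgs false
set_option linter.unusedVariables false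

open MvPolynomial

namespace Pool.Agent.Lib.MP_745d3a_ag.PF.GA

section

variable {K V : Type*} [Field K] [CharZero K] [AddCommGroup V] [Module K V] {ε η : V →ₗ[K] V}

theorem Fl.mono {j k : ℤ} {v : V} (h : Fl η k v) (hjk : j ≤ k) : Fl η j v :=
  fun i hi => h i (lt_of_lt_of_le hi hjk)

theorem Fl.zero (k : ℤ) : Fl η k (0 : V) := fun j _ => comp_zero j

theorem Fl.add (hη : Diag η) {k : ℤ} {u v : V} (hu : Fl η k u) (hv : Fl η k v) :
    Fl η k (u + v) := by
  intro j hj
  rw [comp_add hη, hu j hj, hv j hj, add_zero]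

theorem Fl.sub (hη : Diag η) {k : ℤ} {u v : V} (hu : Fl η k u) (hv : Fl η k v) :
    Fl η k (u - v) := by
  intro j hj
  rw [comp_sub hη, hu j hj, hv j hj, sub_zero]

theorem Fl.smulK (hη : Diag η) {k : ℤ} {v : V} (c : K) (hv : Fl η k v) : Fl η k (c • v) := by
  intro j hj
  rw [comp_smulK hη, hv j hj, smul_zero]

/-- An element of weight at least `k` whose component of weight `k` vanishes. -/
theorem Fl.succ {k : ℤ} {v : V} (hv : Fl η k v) (h0 : comp η k v = 0) : Fl η (k + 1) v := by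
  intro j hj
  rcases lt_or_eq_of_le (Int.lt_add_one_iff.mp hj) with h | h
  · exact hv j h
  · rw [h]; exact h0

theorem comp_comm (hε : Diag ε) (hη : Diag η) (hc : ∀ m, ε (η m) = η (ε m)) (n k : ℤ) (v : V) :
    comp ε n (comp η k v) = comp η k (comp ε n v) := by
  have key : ∀ v, ∀ d : ℤ, η v = (d : K) • v →
      η ((compL hε n).toAddMonoidHom v) = ((d + 0 : ℤ) : K) • (compL hε n).toAddMonoidHom v := by
    intro v d hv
    rw [add_zero]
    let W : AddSubgroup V :=
      { carrier := {w | η w = (d : K) • w}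
        zero_mem' := by
          show η 0 = (d : K) • (0 : V)
          rw [map_zero, smul_zero]
        add_mem' := by
          intro a b ha hb
          show η (a + b) = (d : K) • (a + b)
          have ha' : η a = (d : K) • a := ha
          have hb' : η b = (d : K) • b := hb
          rw [map_add, ha', hb', smul_add]
        neg_mem' := by
          intro a ha
          show η (-a) = (d : K) • (-a)
          have ha' : η a = (d : K) • a := ha
          rw [map_neg, ha', smul_neg] }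
    have h1 : comp ε n v ∈ W := by
      refine comp_mem hε W ?_ ?_ hv n
      · intro u hu
        have hu' : η u = (d : K) • u := hu
        show η (ε u) = (d : K) • ε u
        rw [← hc, hu', map_smul]
      · intro c u hu
        have hu' : η u = (d : K) • u := hu
        show η (c • u) = (d : K) • (c • u)
        rw [map_smul, hu', smul_comm]
    exact h1
  have h2 := comp_shift hη (compL hε n).toAddMonoidHom 0 key k v
  rw [add_zero] at h2
  exact h2.symm

theorem Fl.cmp (hε : Diag ε) (hη : Diag η) (hc : ∀ m, ε (η m) = η (ε m)) (n : ℤ) {k : ℤ} {v : V}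
    (hv : Fl η k v) : Fl η k (comp ε n v) := by
  intro j hj
  rw [← comp_comm hε hη hc, hv j hj, comp_zero]

theorem exists_order (hη : Diag η) {v : V} (hv : v ≠ 0) : ∃ k, Fl η k v ∧ comp η k v ≠ 0 := by
  classical
  obtain ⟨s, _, hs⟩ := exists_comp hη v
  have h1 : ∃ d, comp η d v ≠ 0 := by
    by_contra h
    push Not at h
    exact hv (eq_zero_of_comp hη h)
  obtain ⟨d, hd⟩ := h1
  have hne : (s.filter (fun d => comp η d v ≠ 0)).Nonempty :=
    ⟨d, Finset.mem_filter.mpr ⟨by
      by_contra hds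
      exact hd (hs d hds), hd⟩⟩
  refine ⟨(s.filter (fun d => comp η d v ≠ 0)).min' hne, ?_,
    (Finset.mem_filter.mp (Finset.min'_mem _ hne)).2⟩
  intro j hj
  by_contra hj0
  have hjs : j ∈ s.filter (fun d => comp η d v ≠ 0) :=
    Finset.mem_filter.mpr ⟨by
      by_contra hds
      exact hj0 (hs j hds), hj0⟩
  exact absurd (Finset.min'_le _ j hjs) (not_le.mpr hj)

theorem fl_all (hη : Diag η) {v : V} (h : ∀ k, Fl η k v) : v = 0 := by
  by_contra hv
  obtain ⟨k, _, hk⟩ := exists_order hη hv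
  exact hk (h (k + 1) k (lt_add_one k))

/-- Additive maps which raise the weight by one. -/
theorem fl_raise {V' : Type*} [AddCommGroup V'] [Module K V'] {η' : V' →ₗ[K] V'} (hη : Diag η)
    (D : V →+ V') (hD : ∀ v, η' (D v) = D (η v) + D v) (k : ℤ) (v : V) :
    comp η' (k + 1) (D v) = D (comp η k v) ∧ (Fl η k v → Fl η' (k + 1) (D v)) := by
  have key : ∀ v, ∀ d : ℤ, η v = (d : K) • v → η' (D v) = ((d + 1 : ℤ) : K) • D v := by
    intro v d hv
    rw [hD, hv, Int.cast_smul_eq_zsmul, map_zsmul, Int.cast_smul_eq_zsmul, add_smul, one_smul]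
  have h1 := fun j => comp_shift hη D 1 key j v
  refine ⟨h1 k, ?_⟩
  intro hv j hj
  have h2 := h1 (j - 1)
  rw [sub_add_cancel] at h2
  rw [h2, hv (j - 1) (by omega), map_zero]

end

end Pool.Agent.Lib.MP_745d3a_ag.PF.GA

end

section

/-!
The filtration by the weight: multiplication.

* `fl_hsmul`: `comp_hsmul` (PFMod.lean) gives `comp η (i + j) (a • v) = a • comp η i v`.
* `fl_smul`: apply `fl_hsmul` to each component of `a`
  (`exists_comp` for `H`, `hV.base.dH`): `a • v = ∑ l ∈ s, comp H l a • v` and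
  `comp η i (comp H l a • v) = comp H l a • comp η (i - l) v` (`comp_hsmul`, `comp_eig`); for
  `i < j + k` every term vanishes (`l < j` or `i - l < k`), for `i = j + k` only `l = j` remains
  (if `j ∉ s` then `comp H j a = 0` by the last part of `exists_comp`).
* `fl_cancel`: if `Fl η k v` fails then `v ≠ 0`; let `i` be the order of `v` (`exists_order`),
  `i < k`. By `fl_smul` the component of `a • v` of index `j + i < j + k` is
  `comp H j a • comp η i v ≠ 0` (`tf`), a contradiction.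
-/

set_option autoImplicit false
set_option linter.unusedSectionVars false
set_option linter.unusedSimpArgs false
set_option linter.unusedVariables false

open MvPolynomial

namespace Pool.Agent.Lib.MP_745d3a_ag.PF.GA

section

variable {K S ι V : Type*} [Field K] [CharZero K] [CommRing S] [Algebra K S] {x : ι → S}
  {w : ι → ℤ} {E H : Derivation K S S} [AddCommGroup V] [Module K V] [Module S V]
  [IsScalarTower K S V] {ε η : V →ₗ[K] V}

theorem GMod.fl_hsmul (hV : GMod x w E H ε η) {a : S} {j k : ℤ} {v : V}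
    (ha : H a = (j : K) • a) (hv : Fl η k v) :
    Fl η (j + k) (a • v) ∧ comp η (j + k) (a • v) = a • comp η k v := by
  have key : ∀ i : ℤ, comp η (i + j) (a • v) = a • comp η i v := fun i =>
    comp_hsmul hV.cH hV.dH ha i v
  refine ⟨fun i hi => ?_, ?_⟩
  · have h1 := key (i - j)
    rw [sub_add_cancel] at h1
    rw [h1, hv (i - j) (by omega), smul_zero]
  · rw [add_comm]
    exact key k

private lemma D2b_comp_smul (hV : GMod x w E H ε η) (a : S) (v : V) (i : ℤ) {s : Finset ℤ}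
    (hs : a = ∑ l ∈ s, comp (H : S →ₗ[K] S) l a) :
    comp η i (a • v) = ∑ l ∈ s, comp (H : S →ₗ[K] S) l a • comp η (i - l) v := by
  conv_lhs => rw [hs, Finset.sum_smul, comp_sum hV.dH]
  refine Finset.sum_congr rfl fun l _ => ?_
  have h1 := comp_hsmul hV.cH hV.dH (comp_eig hV.base.dH l a) (i - l) v
  rwa [sub_add_cancel] at h1

theorem GMod.fl_smul (hV : GMod x w E H ε η) {a : S} {j k : ℤ} {v : V}
    (ha : Fl (H : S →ₗ[K] S) j a) (hv : Fl η k v) :
    Fl η (j + k) (a • v) ∧ comp η (j + k) (a • v) = comp (H : S →ₗ[K] S) j a • comp η k v := by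
  classical
  obtain ⟨s, hs, hs'⟩ := exists_comp hV.base.dH a
  refine ⟨fun i hi => ?_, ?_⟩
  · rw [D2b_comp_smul hV a v i hs]
    refine Finset.sum_eq_zero fun l _ => ?_
    by_cases hl : l < j
    · rw [ha l hl, zero_smul]
    · rw [hv (i - l) (by omega), smul_zero]
  · rw [D2b_comp_smul hV a v (j + k) hs]
    have h2 : j + k - j = k := by ring
    by_cases hj : j ∈ s
    · rw [Finset.sum_eq_single_of_mem j hj, h2]
      intro l _ hlj
      by_cases hl : l < j
      · rw [ha l hl, zero_smul]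
      · rw [hv (j + k - l) (by omega), smul_zero]
    · rw [hs' j hj, zero_smul]
      refine Finset.sum_eq_zero fun l hls => ?_
      by_cases hl : l < j
      · rw [ha l hl, zero_smul]
      · have hlj : l ≠ j := fun h => hj (h ▸ hls)
        rw [hv (j + k - l) (by omega), smul_zero]

theorem GMod.fl_cancel (hV : GMod x w E H ε η) {a : S} {j k : ℤ} {v : V}
    (ha : Fl (H : S →ₗ[K] S) j a) (ha0 : comp (H : S →ₗ[K] S) j a ≠ 0)
    (h : Fl η (j + k) (a • v)) : Fl η k v := by
  by_contra hcon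
  have hv0 : v ≠ 0 := by
    rintro rfl
    exact hcon (Fl.zero k)
  obtain ⟨i, hi, hi0⟩ := exists_order hV.dH hv0
  have hik : i < k := by
    by_contra hk
    exact hcon (hi.mono (not_lt.mp hk))
  have h1 := (hV.fl_smul ha hi).2
  rw [h (j + i) (by omega)] at h1
  rcases hV.tf _ _ h1.symm with h2 | h2
  · exact ha0 h2
  · exact hi0 h2

/-- The filtration of the ring: multiplicative version of `fl_smul`. -/
theorem Base.fl_mul (h : Base x w E H) {a b : S} {j k : ℤ} (ha : Fl (H : S →ₗ[K] S) j a)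
    (hb : Fl (H : S →ₗ[K] S) k b) : Fl (H : S →ₗ[K] S) (j + k) (a * b) ∧
      comp (H : S →ₗ[K] S) (j + k) (a * b) =
        comp (H : S →ₗ[K] S) j a * comp (H : S →ₗ[K] S) k b :=
  h.gmod.fl_smul ha hb

theorem Base.fl_mul_cancel (h : Base x w E H) {a b : S} {j k : ℤ} (ha : Fl (H : S →ₗ[K] S) j a)
    (ha0 : comp (H : S →ₗ[K] S) j a ≠ 0) (hab : Fl (H : S →ₗ[K] S) (j + k) (a * b)) :
    Fl (H : S →ₗ[K] S) k b :=
  h.gmod.fl_cancel ha ha0 hab

theorem Base.fl_zero (h : Base x w E H) (a : S) {k : ℤ} (hk : k ≤ 0) :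
    Fl (H : S →ₗ[K] S) k a :=
  fun j hj => h.H_neg (lt_of_lt_of_le hj hk) a

/-- The component of weight zero is a ring homomorphism. -/
theorem Base.comp_zero_mul (h : Base x w E H) (a b : S) :
    comp (H : S →ₗ[K] S) 0 (a * b) = comp (H : S →ₗ[K] S) 0 a * comp (H : S →ₗ[K] S) 0 b := by
  have h1 := (h.fl_mul (h.fl_zero a le_rfl) (h.fl_zero b le_rfl)).2
  rwa [add_zero] at h1

end

end Pool.Agent.Lib.MP_745d3a_ag.PF.GA

end

section

/-!
Leading forms of a submodule.

* `Ld.add`, `Ld.hsmul`: `comp_add`, `Fl.add`, `fl_hsmul`.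
* `Ld.cmp`: `N` is stable under `ε`, hence under `comp ε n` (`comp_mem` with the additive
  subgroup of `N`, as in `exists_eigenvector` in PFBun.lean; scalars of `K` through
  `algebraMap_smul`); `comp_comm`, `Fl.cmp`.
* `M0_comp`: let `P v` be `∀ k, ∃ y, Ld η N k y (comp η k v)`. Span induction: for a leading form
  `c` of weight `k`: `η c = k • c` (`comp_eig`), so `comp η k c = c` and the other components
  vanish (`comp_of_eig`, `comp_of_ne`; the zero element has the lift `0`); sums: `Ld.add`; for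
  `a • v`: by `exists_comp` for `a` (`a = ∑ l ∈ s, comp H l a`) the component of weight `k` of
  `a • v` is `∑ l ∈ s, comp H l a • comp η (k - l) v` (`comp_sum`, `comp_hsmul`); each term has the
  lift `comp H l a • y_l` by `Ld.hsmul`, and sums again.
* `M0_mem`: `v` is the sum of its components, each in `M0`.
-/

set_option autoImplicit false
set_option linter.unusedSectionVars false
set_option linter.unusedSimpArgs false
set_option linter.unusedVariables false

open MvPolynomial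

namespace Pool.Agent.Lib.MP_745d3a_ag.PF.GA

section

variable {K S ι V : Type*} [Field K] [CharZero K] [CommRing S] [Algebra K S] {x : ι → S}
  {w : ι → ℤ} {E H : Derivation K S S} [AddCommGroup V] [Module K V] [Module S V]
  [IsScalarTower K S V] {ε η : V →ₗ[K] V}

theorem Ld.zero (N : Submodule S V) (k : ℤ) : Ld η N k 0 0 :=
  ⟨N.zero_mem, Fl.zero k, comp_zero k⟩

theorem Ld.add (hη : Diag η) {N : Submodule S V} {k : ℤ} {y y' c c' : V} (h : Ld η N k y c)
    (h' : Ld η N k y' c') : Ld η N k (y + y') (c + c') := by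
  exact ⟨N.add_mem h.1 h'.1, Fl.add hη h.2.1 h'.2.1, by rw [comp_add hη, h.2.2, h'.2.2]⟩

theorem Ld.sub (hη : Diag η) {N : Submodule S V} {k : ℤ} {y y' c c' : V} (h : Ld η N k y c)
    (h' : Ld η N k y' c') : Ld η N k (y - y') (c - c') := by
  exact ⟨N.sub_mem h.1 h'.1, Fl.sub hη h.2.1 h'.2.1, by rw [comp_sub hη, h.2.2, h'.2.2]⟩

theorem Ld.sum (hη : Diag η) {N : Submodule S V} {k : ℤ} {α : Type*} (s : Finset α)
    (y c : α → V) (h : ∀ a ∈ s, Ld η N k (y a) (c a)) :
    Ld η N k (∑ a ∈ s, y a) (∑ a ∈ s, c a) := by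
  classical
  induction s using Finset.induction_on with
  | empty => rw [Finset.sum_empty, Finset.sum_empty]; exact Ld.zero N k
  | insert a s ha ih =>
    rw [Finset.sum_insert ha, Finset.sum_insert ha]
    exact Ld.add hη (h a (Finset.mem_insert_self a s))
      (ih fun b hb => h b (Finset.mem_insert_of_mem hb))

theorem Ld.hsmul (hV : GMod x w E H ε η) {N : Submodule S V} {k l : ℤ} {a : S} {y c : V}
    (ha : H a = (l : K) • a) (h : Ld η N k y c) : Ld η N (l + k) (a • y) (a • c) := by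
  have h1 := hV.fl_hsmul ha h.2.1
  exact ⟨N.smul_mem a h.1, h1.1, by rw [h1.2, h.2.2]⟩

theorem Ld.eta (hη : Diag η) {N : Submodule S V} {k : ℤ} {y c : V} (h : Ld η N k y c) :
    η c = (k : K) • c := by
  rw [← h.2.2]
  exact comp_eig hη k y

private lemma D3_stable {F : Submodule S V} {T : V →ₗ[K] V} (hT : Diag T)
    (hF : ∀ v ∈ F, T v ∈ F) {v : V} (hv : v ∈ F) (k : ℤ) : comp T k v ∈ F := by
  refine comp_mem hT F.toAddSubgroup hF ?_ hv k
  intro c w hw
  show c • w ∈ F
  rw [← algebraMap_smul S c w]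
  exact F.smul_mem _ hw

theorem Ld.cmp (hV : GMod x w E H ε η) {N : Submodule S V} (Nε : ∀ y ∈ N, ε y ∈ N) {k : ℤ}
    {y c : V} (n : ℤ) (h : Ld η N k y c) : Ld η N k (comp ε n y) (comp ε n c) := by
  refine ⟨D3_stable hV.dE Nε h.1 n, Fl.cmp hV.dE hV.dH hV.comm n h.2.1, ?_⟩
  rw [← comp_comm hV.dE hV.dH hV.comm n k y, h.2.2]

theorem Ld.mem_M0 {N : Submodule S V} {k : ℤ} {y c : V} (h : Ld η N k y c) : c ∈ M0 η N :=
  Submodule.subset_span ⟨k, y, h⟩

theorem M0_comp (hV : GMod x w E H ε η) {N : Submodule S V} {v : V} (hv : v ∈ M0 η N) (k : ℤ) :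
    ∃ y, Ld η N k y (comp η k v) := by
  revert k
  unfold M0 at hv
  induction hv using Submodule.span_induction with
  | mem c hc =>
    obtain ⟨k', y, h⟩ := hc
    intro k
    have h1 := Ld.eta hV.dH h
    by_cases hk : k = k'
    · subst hk
      rw [comp_of_eig h1]
      exact ⟨y, h⟩
    · rw [comp_of_ne h1 hk]
      exact ⟨0, Ld.zero N k⟩
  | zero => intro k; rw [comp_zero]; exact ⟨0, Ld.zero N k⟩
  | add u v _ _ hu hv =>
    intro k
    obtain ⟨y, hy⟩ := hu k
    obtain ⟨z, hz⟩ := hv k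
    rw [comp_add hV.dH]
    exact ⟨y + z, Ld.add hV.dH hy hz⟩
  | smul a v _ hv =>
    intro k
    obtain ⟨s, hs⟩ := comp_smul hV.cH hV.dH hV.base.dH a k v
    choose y hy using hv
    rw [hs]
    refine ⟨∑ l ∈ s, comp (H : S →ₗ[K] S) l a • y (k - l), Ld.sum hV.dH s _ _ fun l _ => ?_⟩
    have h1 := Ld.hsmul hV (a := comp (H : S →ₗ[K] S) l a) (l := l)
      (comp_eig hV.base.dH l a) (hy (k - l))
    rwa [add_sub_cancel] at h1

theorem M0_mem (hV : GMod x w E H ε η) {N : Submodule S V} {v : V}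
    (h : ∀ k, ∃ y, Ld η N k y (comp η k v)) : v ∈ M0 η N := by
  obtain ⟨s, hs, _⟩ := exists_comp hV.dH v
  rw [hs]
  refine Submodule.sum_mem _ fun k _ => ?_
  obtain ⟨y, hy⟩ := h k
  exact hy.mem_M0

/-- Submodules which are stable under both gradings contain the components of their elements. -/
theorem comp_mem_of_stable {F : Submodule S V} {T : V →ₗ[K] V} (hT : Diag T)
    (hF : ∀ v ∈ F, T v ∈ F) {v : V} (hv : v ∈ F) (k : ℤ) : comp T k v ∈ F := by
  exact D3_stable hT hF hv k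

end

end Pool.Agent.Lib.MP_745d3a_ag.PF.GA

end

section

/-!
Exactness of the Koszul complex of three coordinates on a free module, bigraded version.

Write `r01 = a01 • f1 + b01 • f2` etc. (`hF`). By `hind` the coefficients `a` (and the `b`)
satisfy `x2 * a01 - x1 * a02 + x0 * a12 = 0` (write `x0 = x i0` ..). It is enough to find, for such
`a01 a02 a12 : S`, elements `t0 t1 t2 : S` with `a01 = x1 * t0 - x0 * t1`,
`a02 = x2 * t0 - x0 * t2`, `a12 = x2 * t1 - x1 * t2`: by `Coord.koszul` (with all exponents `1`;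
`x2 * a01 = x1 * a02 + x0 * (-a12)`) `a01 = x1 * t0 + x0 * p`; then
`x1 * (a02 - x2 * t0) = x0 * (x2 * p + a12)`, and `x0` is prime and does not divide `x1`
(`Coord.prime_x`, `Coord.relPrime_pow` or `Coord.mem_span`), so `a02 = x2 * t0 + x0 * q`; cancelling
`x0` (`hV.base.cx.isDomain`) in `x0 * a12 = x1 * a02 - x2 * a01` gives `a12 = x1 * q - x2 * p`; put
`t1 = -p`, `t2 = -q`. So there are `s0 s1 s2 ∈ F` with the three equations, not yet homogeneous.
Replace `s0` by `comp ε (n + 1) (comp η (k + w i0) s0)`, `s1` by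
`comp ε (n + 1) (comp η (k + w i1) s1)`, `s2` similarly; apply
`comp ε (n + 2) (comp η (k + w i0 + w i1) ·)` to `r01 = x1 • s0 - x0 • s1`: the left side does
not change (`comp_of_eig`), and `comp_hsmul` (for `x1`: `H x1 = w i1 • x1`, `E x1 = 1 • x1`) gives
the equation for the new elements. They are in `F` by `comp_mem_of_stable` and homogeneous by
`comp_eig`, `comp_comm`.
-/

set_option autoImplicit false
set_option linter.unusedSectionVars false
set_option linter.unusedSimpArgs false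
set_option linter.unusedVariables false

open MvPolynomial

namespace Pool.Agent.Lib.MP_745d3a_ag.PF.GA

section

variable {K S ι V : Type*} [Field K] [CharZero K] [CommRing S] [Algebra K S] {x : ι → S}
  {w : ι → ℤ} {E H : Derivation K S S} [AddCommGroup V] [Module K V] [Module S V]
  [IsScalarTower K S V] {ε η : V →ₗ[K] V}

theorem koszul_ring (hx : Coord K x) {i0 i1 i2 : ι} (h01 : i0 ≠ i1) (h02 : i0 ≠ i2)
    (h12 : i1 ≠ i2) {a01 a02 a12 : S} (h : x i2 * a01 - x i1 * a02 + x i0 * a12 = 0) :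
    ∃ t0 t1 t2 : S, a01 = x i1 * t0 - x i0 * t1 ∧ a02 = x i2 * t0 - x i0 * t2 ∧
      a12 = x i2 * t1 - x i1 * t2 := by
  have hdom := hx.isDomain
  obtain ⟨t0, p, hp⟩ := hx.koszul (i := i1) (j := i0) (k := i2) h01.symm h12 h02 1 1 1
    (g := a01) (u := a02) (v := -a12) (by linear_combination h)
  rw [pow_one, pow_one] at hp
  have h1 : x i1 * (a02 - x i2 * t0) = x i0 * (x i2 * p + a12) := by
    rw [hp] at h
    linear_combination -h
  have h2 : ¬ x i0 ∣ x i1 := by
    rw [← Ideal.mem_span_singleton, ← Set.image_singleton, hx.mem_span {i0} i1,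
      Set.mem_singleton_iff]
    exact fun h => h01 h.symm
  have h3 : x i0 ∣ a02 - x i2 * t0 :=
    ((hx.prime_x i0).dvd_or_dvd (Dvd.intro _ h1.symm)).resolve_left h2
  obtain ⟨q, hq⟩ := h3
  have h4 : x i0 * a12 = x i0 * (x i1 * q - x i2 * p) := by
    rw [hq] at h1
    linear_combination -h1
  have h5 : a12 = x i1 * q - x i2 * p := mul_left_cancel₀ (hx.prime_x i0).ne_zero h4
  refine ⟨t0, -p, -q, ?_, ?_, ?_⟩
  · rw [hp]; ring
  · linear_combination hq
  · rw [h5]; ring

/-- Taking bihomogeneous components in one of the equations. -/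
private theorem D4_comp (hV : GMod x w E H ε η) (i j : ι) (n k : ℤ) {r s s' : V}
    (hε : ε r = ((n + 2 : ℤ) : K) • r) (hη : η r = ((k + w i + w j : ℤ) : K) • r)
    (h : r = x j • s - x i • s') :
    r = x j • comp ε (n + 1) (comp η (k + w i) s) -
      x i • comp ε (n + 1) (comp η (k + w j) s') := by
  have e1 : ∀ l, E (x l) = ((1 : ℤ) : K) • x l := by
    intro l
    rw [Int.cast_one, one_smul]
    exact hV.base.eu l
  have h1 : comp η (k + w i + w j) r = x j • comp η (k + w i) s - x i • comp η (k + w j) s' := by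
    rw [h, comp_sub hV.dH, comp_hsmul hV.cH hV.dH (hV.base.wt j),
      show k + w i + w j = k + w j + w i by ring, comp_hsmul hV.cH hV.dH (hV.base.wt i)]
  rw [comp_of_eig hη] at h1
  have h2 : comp ε (n + 1 + 1) r = x j • comp ε (n + 1) (comp η (k + w i) s) -
      x i • comp ε (n + 1) (comp η (k + w j) s') := by
    conv_lhs => rw [h1]
    rw [comp_sub hV.dE, comp_hsmul hV.cE hV.dE (e1 j), comp_hsmul hV.cE hV.dE (e1 i)]
  rw [show n + 1 + 1 = n + 2 by ring, comp_of_eig hε] at h2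
  exact h2

theorem koszul_free (hV : GMod x w E H ε η) {i0 i1 i2 : ι} (h01 : i0 ≠ i1) (h02 : i0 ≠ i2)
    (h12 : i1 ≠ i2) (F : Submodule S V) (Fε : ∀ v ∈ F, ε v ∈ F) (Fη : ∀ v ∈ F, η v ∈ F)
    (f1 f2 : V) (hF : ∀ v, v ∈ F ↔ ∃ a b : S, v = a • f1 + b • f2)
    (hind : ∀ a b : S, a • f1 + b • f2 = 0 → a = 0 ∧ b = 0) (n k : ℤ) (r01 r02 r12 : V)
    (h1 : r01 ∈ F) (h2 : r02 ∈ F) (h3 : r12 ∈ F)
    (e1 : ε r01 = ((n + 2 : ℤ) : K) • r01) (e2 : ε r02 = ((n + 2 : ℤ) : K) • r02)
    (e3 : ε r12 = ((n + 2 : ℤ) : K) • r12)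
    (g1 : η r01 = ((k + w i0 + w i1 : ℤ) : K) • r01)
    (g2 : η r02 = ((k + w i0 + w i2 : ℤ) : K) • r02)
    (g3 : η r12 = ((k + w i1 + w i2 : ℤ) : K) • r12)
    (hrel : x i2 • r01 - x i1 • r02 + x i0 • r12 = 0) :
    ∃ s0 s1 s2 : V, s0 ∈ F ∧ s1 ∈ F ∧ s2 ∈ F ∧
      ε s0 = ((n + 1 : ℤ) : K) • s0 ∧ ε s1 = ((n + 1 : ℤ) : K) • s1 ∧
      ε s2 = ((n + 1 : ℤ) : K) • s2 ∧ η s0 = ((k + w i0 : ℤ) : K) • s0 ∧
      η s1 = ((k + w i1 : ℤ) : K) • s1 ∧ η s2 = ((k + w i2 : ℤ) : K) • s2 ∧
      r01 = x i1 • s0 - x i0 • s1 ∧ r02 = x i2 • s0 - x i0 • s2 ∧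
      r12 = x i2 • s1 - x i1 • s2 := by
  obtain ⟨a01, b01, k1⟩ := (hF r01).1 h1
  obtain ⟨a02, b02, k2⟩ := (hF r02).1 h2
  obtain ⟨a12, b12, k3⟩ := (hF r12).1 h3
  have hrel' : (x i2 * a01 - x i1 * a02 + x i0 * a12) • f1 +
      (x i2 * b01 - x i1 * b02 + x i0 * b12) • f2 = 0 := by
    rw [← hrel, k1, k2, k3]
    module
  obtain ⟨ha, hb⟩ := hind _ _ hrel'
  obtain ⟨t0, t1, t2, ta, tb, tc⟩ := koszul_ring hV.base.cx h01 h02 h12 ha
  obtain ⟨u0, u1, u2, ua, ub, uc⟩ := koszul_ring hV.base.cx h01 h02 h12 hb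
  have hs : ∀ t u : S, t • f1 + u • f2 ∈ F := fun t u => (hF _).2 ⟨t, u, rfl⟩
  have hmem : ∀ (m : ℤ) (v : V), v ∈ F → comp ε (n + 1) (comp η m v) ∈ F := fun m v hv =>
    comp_mem_of_stable hV.dE Fε (comp_mem_of_stable hV.dH Fη hv m) (n + 1)
  have heig : ∀ (m : ℤ) (v : V), η (comp ε (n + 1) (comp η m v)) =
      (m : K) • comp ε (n + 1) (comp η m v) := by
    intro m v
    rw [comp_comm hV.dE hV.dH hV.comm]
    exact comp_eig hV.dH m _
  refine ⟨comp ε (n + 1) (comp η (k + w i0) (t0 • f1 + u0 • f2)),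
    comp ε (n + 1) (comp η (k + w i1) (t1 • f1 + u1 • f2)),
    comp ε (n + 1) (comp η (k + w i2) (t2 • f1 + u2 • f2)), hmem _ _ (hs _ _), hmem _ _ (hs _ _),
    hmem _ _ (hs _ _), comp_eig hV.dE _ _, comp_eig hV.dE _ _, comp_eig hV.dE _ _,
    heig _ _, heig _ _, heig _ _, ?_, ?_, ?_⟩
  · refine D4_comp hV i0 i1 n k e1 g1 ?_
    rw [k1, ta, ua]
    module
  · refine D4_comp hV i0 i2 n k e2 g2 ?_
    rw [k2, tb, ub]
    module
  · refine D4_comp hV i1 i2 n k e3 g3 ?_
    rw [k3, tc, uc]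
    module

end

end Pool.Agent.Lib.MP_745d3a_ag.PF.GA

end

section

/-!
One step of the lifting of a leading form.

`Trip`: lifts `m0 m1 m2` of `x0 • c`, `x1 • c`, `x2 • c` which nearly satisfy the relations
`x1 • m0 = x0 • m1` etc.: the differences have weight at least `e` more than expected.

* `Trip.start`: `x i0 • c ∈ F` is homogeneous of degree `n + 1` and weight `k + w i0`, so it has a
  lift by `IH`; take its component of degree `n + 1` (`Ld.cmp`, `comp_eig`, `comp_of_eig`). The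
  difference `x1 • m0 - x0 • m1` has a lift of weight `k + w i0 + w i1` (`Ld.hsmul`, `Ld.sub`)
  with leading form `x1 • x0 • c - x0 • x1 • c = 0`: `Fl.succ`.
* `Trip.step`: put `r01 := comp η (k + w i0 + w i1 + e) (x1 • m0 - x0 • m1)` etc.; these are
  leading forms of elements of `N`, so in `F` (`hLF`); `ε r01 = (n + 2) • r01` (`comp_comm`,
  `hV.cE`), `η r01 = .. • r01` (`comp_eig`). From
  `x2 • (x1 • m0 - x0 • m1) - x1 • (x2 • m0 - x0 • m2) + x0 • (x2 • m1 - x1 • m2) = 0` and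
  `comp_hsmul`: `x2 • r01 - x1 • r02 + x0 • r12 = 0`. `koszul_free` (with `k + e` for `k`) gives
  `s0 s1 s2 ∈ F`; `IH` gives lifts `t0 t1 t2` of them of weight `k + e + w i0` .. , again
  homogeneous of degree `n + 1` after `Ld.cmp`. Put `m0' := m0 - t0` etc. Since `e ≥ 1` the leading
  forms do not change: `comp η (k + w i0) t0 = 0`. The difference `x1 • m0' - x0 • m1'` has weight
  at least `k + w i0 + w i1 + e` and its component of this weight is
  `r01 - (x1 • s0 - x0 • s1) = 0`: `Fl.succ`.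
-/

set_option autoImplicit false
set_option linter.unusedSectionVars false
set_option linter.unusedSimpArgs false
set_option linter.unusedVariables false

open MvPolynomial

namespace Pool.Agent.Lib.MP_745d3a_ag.PF.GA

/-- Approximate solutions of the lifting problem. -/
structure Trip {K S ι V : Type*} [Field K] [CommRing S] [AddCommGroup V]
    [Module K V] [Module S V] (x : ι → S) (w : ι → ℤ) (ε η : V →ₗ[K] V) (N : Submodule S V)
    (i0 i1 i2 : ι) (n k e : ℤ) (c m0 m1 m2 : V) : Prop where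
  l0 : Ld η N (k + w i0) m0 (x i0 • c)
  l1 : Ld η N (k + w i1) m1 (x i1 • c)
  l2 : Ld η N (k + w i2) m2 (x i2 • c)
  h0 : ε m0 = ((n + 1 : ℤ) : K) • m0
  h1 : ε m1 = ((n + 1 : ℤ) : K) • m1
  h2 : ε m2 = ((n + 1 : ℤ) : K) • m2
  f01 : Fl η (k + w i0 + w i1 + e) (x i1 • m0 - x i0 • m1)
  f02 : Fl η (k + w i0 + w i2 + e) (x i2 • m0 - x i0 • m2)
  f12 : Fl η (k + w i1 + w i2 + e) (x i2 • m1 - x i1 • m2)

section

variable {K S ι V : Type*} [Field K] [CharZero K] [CommRing S] [Algebra K S] {x : ι → S}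
  {w : ι → ℤ} {E H : Derivation K S S} [AddCommGroup V] [Module K V] [Module S V]
  [IsScalarTower K S V] {ε η : V →ₗ[K] V}

private theorem D5_lift (hV : GMod x w E H ε η) (N F : Submodule S V)
    (Nε : ∀ y ∈ N, ε y ∈ N) (n k : ℤ)
    (IH : ∀ (k : ℤ), ∀ c ∈ F, ε c = ((n + 1 : ℤ) : K) • c → η c = (k : K) • c →
      ∃ y, Ld η N k y c)
    (c : V) (hc : c ∈ F) (hcε : ε c = (n : K) • c) (hcη : η c = (k : K) • c) (i : ι) :
    ∃ m, Ld η N (k + w i) m (x i • c) ∧ ε m = ((n + 1 : ℤ) : K) • m := by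
  have h1 : ε (x i • c) = ((n + 1 : ℤ) : K) • (x i • c) := by
    rw [hV.cE, hV.base.eu i, hcε, smul_comm (x i) (n : K) c, Int.cast_add, Int.cast_one, add_smul,
      one_smul, add_comm]
  have h2 : η (x i • c) = ((k + w i : ℤ) : K) • (x i • c) := by
    rw [hV.cH, hV.base.wt i, hcη, smul_comm (x i) (k : K) c, Int.cast_add, add_smul, smul_assoc,
      add_comm]
  obtain ⟨y, hy⟩ := IH (k + w i) (x i • c) (F.smul_mem _ hc) h1 h2
  refine ⟨comp ε (n + 1) y, ?_, comp_eig hV.dE (n + 1) y⟩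
  have h3 := Ld.cmp hV Nε (n + 1) hy
  rwa [comp_of_eig h1] at h3

private theorem D5_diff (hV : GMod x w E H ε η) {N : Submodule S V} {k : ℤ} {c m m' : V} {i j : ι}
    (h : Ld η N (k + w i) m (x i • c)) (h' : Ld η N (k + w j) m' (x j • c)) :
    Fl η (k + w i + w j + 1) (x j • m - x i • m') := by
  have h1 := Ld.hsmul hV (hV.base.wt j) h
  have h2 := Ld.hsmul hV (hV.base.wt i) h'
  rw [show w j + (k + w i) = k + w i + w j by ring] at h1
  rw [show w i + (k + w j) = k + w i + w j by ring] at h2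
  have h3 := Ld.sub hV.dH h1 h2
  refine Fl.succ h3.2.1 (h3.2.2.trans ?_)
  rw [smul_comm (x j) (x i) c, sub_self]

theorem Trip.start (hV : GMod x w E H ε η) (i0 i1 i2 : ι) (N F : Submodule S V)
    (Nε : ∀ y ∈ N, ε y ∈ N) (n k : ℤ)
    (IH : ∀ (k : ℤ), ∀ c ∈ F, ε c = ((n + 1 : ℤ) : K) • c → η c = (k : K) • c →
      ∃ y, Ld η N k y c)
    (c : V) (hc : c ∈ F) (hcε : ε c = (n : K) • c) (hcη : η c = (k : K) • c) :
    ∃ m0 m1 m2, Trip x w ε η N i0 i1 i2 n k 1 c m0 m1 m2 := by
  obtain ⟨m0, l0, h0⟩ := D5_lift hV N F Nε n k IH c hc hcε hcη i0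
  obtain ⟨m1, l1, h1⟩ := D5_lift hV N F Nε n k IH c hc hcε hcη i1
  obtain ⟨m2, l2, h2⟩ := D5_lift hV N F Nε n k IH c hc hcε hcη i2
  exact ⟨m0, m1, m2, ⟨l0, l1, l2, h0, h1, h2, D5_diff hV l0 l1, D5_diff hV l0 l2,
    D5_diff hV l1 l2⟩⟩

end

end Pool.Agent.Lib.MP_745d3a_ag.PF.GA

end

section

/-!
One step of the lifting: `Trip.step`. Proof in the docstring of D5.lean.
-/

set_option autoImplicit false
set_option linter.unusedSectionVars false
set_option linter.unusedSimpArgs false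
set_option linter.unusedVariables false

open MvPolynomial

namespace Pool.Agent.Lib.MP_745d3a_ag.PF.GA

section

variable {K S ι V : Type*} [Field K] [CharZero K] [CommRing S] [Algebra K S] {x : ι → S}
  {w : ι → ℤ} {E H : Derivation K S S} [AddCommGroup V] [Module K V] [Module S V]
  [IsScalarTower K S V] {ε η : V →ₗ[K] V}

/-- The leading form of a difference `x j • m - x i • m'`. -/
private theorem D5b_lead (hV : GMod x w E H ε η) {N F : Submodule S V}
    (hLF : ∀ k y c, Ld η N k y c → c ∈ F) {n κ : ℤ} {i j : ι} {m m' : V} (hm : m ∈ N)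
    (hm' : m' ∈ N) (e : ε m = ((n + 1 : ℤ) : K) • m) (e' : ε m' = ((n + 1 : ℤ) : K) • m')
    (hf : Fl η κ (x j • m - x i • m')) :
    comp η κ (x j • m - x i • m') ∈ F ∧
      ε (comp η κ (x j • m - x i • m')) =
        ((n + 2 : ℤ) : K) • comp η κ (x j • m - x i • m') := by
  have hN : x j • m - x i • m' ∈ N := N.sub_mem (N.smul_mem _ hm) (N.smul_mem _ hm')
  refine ⟨hLF κ _ _ ⟨hN, hf, rfl⟩, ?_⟩
  have hx1 : ∀ (l : ι) (v : V), ε v = ((n + 1 : ℤ) : K) • v →
      ε (x l • v) = ((n + 2 : ℤ) : K) • (x l • v) := by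
    intro l v hv
    rw [hV.cE, hV.base.eu l, hv, smul_comm (x l) (((n + 1 : ℤ) : K)) v]
    have h2 : ((n + 2 : ℤ) : K) = 1 + ((n + 1 : ℤ) : K) := by
      push_cast
      ring
    rw [h2, add_smul, one_smul]
  have hd : ε (x j • m - x i • m') = ((n + 2 : ℤ) : K) • (x j • m - x i • m') := by
    rw [map_sub, hx1 j m e, hx1 i m' e', smul_sub]
  have h1 := comp_comm hV.dE hV.dH hV.comm (n + 2) κ (x j • m - x i • m')
  rw [comp_of_eig hd] at h1
  have h2 := comp_eig hV.dE (n + 2) (comp η κ (x j • m - x i • m'))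
  rwa [h1] at h2

/-- The component of a product with a coordinate. -/
private theorem D5b_comp (hV : GMod x w E H ε η) (i : ι) {κ κ' : ℤ} (v : V)
    (h : κ + w i = κ') : comp η κ' (x i • v) = x i • comp η κ v := by
  rw [← h]
  exact comp_hsmul hV.cH hV.dH (hV.base.wt i) κ v

/-- The filtration of a product with a coordinate. -/
private theorem D5b_fl (hV : GMod x w E H ε η) (i : ι) {κ κ' : ℤ} {v : V}
    (h : κ + w i = κ') (hv : Fl η κ v) : Fl η κ' (x i • v) := by
  have h1 := (hV.fl_hsmul (hV.base.wt i) hv).1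
  have h2 : w i + κ = κ' := by omega
  rwa [h2] at h1

/-- The improved difference. -/
private theorem D5b_succ (hV : GMod x w E H ε η) {N : Submodule S V} {i j : ι}
    {κ κi κj κ' : ℤ} {t t' s s' m m' : V} (h1 : κi + w j = κ) (h2 : κj + w i = κ)
    (h3 : κ + 1 = κ') (hd : Fl η κ (x j • m - x i • m'))
    (hr : comp η κ (x j • m - x i • m') = x j • s - x i • s')
    (ht : Ld η N κi t s) (ht' : Ld η N κj t' s') :
    Fl η κ' (x j • (m - t) - x i • (m' - t')) := by
  have e1 : x j • (m - t) - x i • (m' - t') =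
      (x j • m - x i • m') - (x j • t - x i • t') := by
    rw [smul_sub, smul_sub]
    abel
  rw [e1, ← h3]
  have f1 : Fl η κ (x j • t - x i • t') :=
    Fl.sub hV.dH (D5b_fl hV j h1 ht.2.1) (D5b_fl hV i h2 ht'.2.1)
  refine Fl.succ (Fl.sub hV.dH hd f1) ?_
  rw [comp_sub hV.dH, hr, comp_sub hV.dH, D5b_comp hV j t h1, D5b_comp hV i t' h2, ht.2.2,
    ht'.2.2, sub_self]

/-- The corrected lift. -/
private theorem D5b_ld (hV : GMod x w E H ε η) {N : Submodule S V} {κ κ' : ℤ} {m t c s : V}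
    (h : κ < κ') (hm : Ld η N κ m c) (ht : Ld η N κ' t s) : Ld η N κ (m - t) c := by
  refine ⟨N.sub_mem hm.1 ht.1, Fl.sub hV.dH hm.2.1 (ht.2.1.mono h.le), ?_⟩
  rw [comp_sub hV.dH, hm.2.2, ht.2.1 κ h, sub_zero]

theorem Trip.step (hV : GMod x w E H ε η) {i0 i1 i2 : ι} (h01 : i0 ≠ i1) (h02 : i0 ≠ i2)
    (h12 : i1 ≠ i2) (N F : Submodule S V) (Nε : ∀ y ∈ N, ε y ∈ N)
    (hLF : ∀ k y c, Ld η N k y c → c ∈ F) (Fε : ∀ v ∈ F, ε v ∈ F) (Fη : ∀ v ∈ F, η v ∈ F)
    (f1 f2 : V) (hF : ∀ v, v ∈ F ↔ ∃ a b : S, v = a • f1 + b • f2)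
    (hind : ∀ a b : S, a • f1 + b • f2 = 0 → a = 0 ∧ b = 0) {n k e : ℤ} (he : 1 ≤ e)
    (IH : ∀ (k : ℤ), ∀ c ∈ F, ε c = ((n + 1 : ℤ) : K) • c → η c = (k : K) • c →
      ∃ y, Ld η N k y c)
    {c m0 m1 m2 : V} (h : Trip x w ε η N i0 i1 i2 n k e c m0 m1 m2) :
    ∃ m0' m1' m2', Trip x w ε η N i0 i1 i2 n k (e + 1) c m0' m1' m2' := by
  obtain ⟨r01F, r01ε⟩ := D5b_lead hV hLF h.l0.1 h.l1.1 h.h0 h.h1 h.f01
  obtain ⟨r02F, r02ε⟩ := D5b_lead hV hLF h.l0.1 h.l2.1 h.h0 h.h2 h.f02
  obtain ⟨r12F, r12ε⟩ := D5b_lead hV hLF h.l1.1 h.l2.1 h.h1 h.h2 h.f12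
  have g1 : η (comp η (k + w i0 + w i1 + e) (x i1 • m0 - x i0 • m1)) =
      ((k + e + w i0 + w i1 : ℤ) : K) • comp η (k + w i0 + w i1 + e) (x i1 • m0 - x i0 • m1) := by
    have hk : k + e + w i0 + w i1 = k + w i0 + w i1 + e := by ring
    rw [hk]
    exact comp_eig hV.dH _ _
  have g2 : η (comp η (k + w i0 + w i2 + e) (x i2 • m0 - x i0 • m2)) =
      ((k + e + w i0 + w i2 : ℤ) : K) • comp η (k + w i0 + w i2 + e) (x i2 • m0 - x i0 • m2) := by
    have hk : k + e + w i0 + w i2 = k + w i0 + w i2 + e := by ring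
    rw [hk]
    exact comp_eig hV.dH _ _
  have g3 : η (comp η (k + w i1 + w i2 + e) (x i2 • m1 - x i1 • m2)) =
      ((k + e + w i1 + w i2 : ℤ) : K) • comp η (k + w i1 + w i2 + e) (x i2 • m1 - x i1 • m2) := by
    have hk : k + e + w i1 + w i2 = k + w i1 + w i2 + e := by ring
    rw [hk]
    exact comp_eig hV.dH _ _
  have hrel : x i2 • comp η (k + w i0 + w i1 + e) (x i1 • m0 - x i0 • m1) -
      x i1 • comp η (k + w i0 + w i2 + e) (x i2 • m0 - x i0 • m2) +
      x i0 • comp η (k + w i1 + w i2 + e) (x i2 • m1 - x i1 • m2) = 0 := by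
    rw [← D5b_comp hV i2 (κ' := k + w i0 + w i1 + w i2 + e) (x i1 • m0 - x i0 • m1) (by ring),
      ← D5b_comp hV i1 (κ' := k + w i0 + w i1 + w i2 + e) (x i2 • m0 - x i0 • m2) (by ring),
      ← D5b_comp hV i0 (κ' := k + w i0 + w i1 + w i2 + e) (x i2 • m1 - x i1 • m2) (by ring),
      ← comp_sub hV.dH, ← comp_add hV.dH]
    have hz : x i2 • (x i1 • m0 - x i0 • m1) - x i1 • (x i2 • m0 - x i0 • m2) +
        x i0 • (x i2 • m1 - x i1 • m2) = 0 := by
      module
    rw [hz, comp_zero]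
  obtain ⟨s0, s1, s2, hs0, hs1, hs2, es0, es1, es2, gs0, gs1, gs2, q01, q02, q12⟩ :=
    koszul_free hV h01 h02 h12 F Fε Fη f1 f2 hF hind n (k + e) _ _ _ r01F r02F r12F r01ε r02ε
      r12ε g1 g2 g3 hrel
  obtain ⟨y0, hy0⟩ := IH _ s0 hs0 es0 gs0
  obtain ⟨y1, hy1⟩ := IH _ s1 hs1 es1 gs1
  obtain ⟨y2, hy2⟩ := IH _ s2 hs2 es2 gs2
  have ht0 := Ld.cmp hV Nε (n + 1) hy0
  have ht1 := Ld.cmp hV Nε (n + 1) hy1
  have ht2 := Ld.cmp hV Nε (n + 1) hy2
  rw [comp_of_eig es0] at ht0
  rw [comp_of_eig es1] at ht1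
  rw [comp_of_eig es2] at ht2
  refine ⟨m0 - comp ε (n + 1) y0, m1 - comp ε (n + 1) y1, m2 - comp ε (n + 1) y2, ?_⟩
  exact
    { l0 := D5b_ld hV (by linarith) h.l0 ht0
      l1 := D5b_ld hV (by linarith) h.l1 ht1
      l2 := D5b_ld hV (by linarith) h.l2 ht2
      h0 := by rw [map_sub, h.h0, comp_eig hV.dE, smul_sub]
      h1 := by rw [map_sub, h.h1, comp_eig hV.dE, smul_sub]
      h2 := by rw [map_sub, h.h2, comp_eig hV.dE, smul_sub]
      f01 := D5b_succ hV (by ring) (by ring) (by ring) h.f01 q01 ht0 ht1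
      f02 := D5b_succ hV (by ring) (by ring) (by ring) h.f02 q02 ht0 ht2
      f12 := D5b_succ hV (by ring) (by ring) (by ring) h.f12 q12 ht1 ht2 }

end

end Pool.Agent.Lib.MP_745d3a_ag.PF.GA

end

section

/-!
Every homogeneous element of the free module `F` is a leading form.

Descending induction on the degree: prove `∀ t : ℕ, ∀ n ≥ n0 - t, ∀ k c, ..` by induction on `t`
(`t = 0` is `hbig`). In the step let `IH` be the statement for `n + 1`. `Trip.start` and
`Trip.step` give, for every `e ≥ 1` (induction on `e`, natural number), a `Trip` for `e`. Let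
`k0` be the bound `bd (n + 2)` and choose `e` with `k + w i0 + w i1 + e ≥ k0`, `e ≥ 1`. Then
`x1 • m0 - x0 • m1` has degree `n + 2` and weight at least `k0`, so it is zero. `Nht` gives `y ∈ N`
with `m0 = x0 • y`. From `ε m0 = (n + 1) • m0` and `hV.cE`, `eu`: `x0 • (ε y - n • y) = 0`, so
`ε y = n • y` (`tf`; `x0 ≠ 0` by `Coord.prime_x`). `Fl η k y` by `fl_cancel` (`x0` is homogeneous
of weight `w i0`: `comp_of_eig`, `comp_of_ne`), and `comp η k y = c` by cancelling `x0` in
`x0 • comp η k y = comp η (k + w i0) (x0 • y) = x0 • c` (`comp_hsmul`).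
-/

set_option autoImplicit false
set_option linter.unusedSectionVars false
set_option linter.unusedSimpArgs false
set_option linter.unusedVariables false

open MvPolynomial

namespace Pool.Agent.Lib.MP_745d3a_ag.PF.GA

section

variable {K S ι V : Type*} [Field K] [CharZero K] [CommRing S] [Algebra K S] {x : ι → S}
  {w : ι → ℤ} {E H : Derivation K S S} [AddCommGroup V] [Module K V] [Module S V]
  [IsScalarTower K S V] {ε η : V →ₗ[K] V}

theorem lift (hV : GMod x w E H ε η) {i0 i1 i2 : ι} (h01 : i0 ≠ i1) (h02 : i0 ≠ i2)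
    (h12 : i1 ≠ i2)
    (bd : ∀ n : ℤ, ∃ k0 : ℤ, ∀ v : V, ε v = (n : K) • v → Fl η k0 v → v = 0)
    (N F : Submodule S V) (Nε : ∀ y ∈ N, ε y ∈ N)
    (Nht : ∀ y0 ∈ N, ∀ y1 ∈ N, x i1 • y0 = x i0 • y1 →
      ∃ y ∈ N, y0 = x i0 • y ∧ y1 = x i1 • y)
    (hLF : ∀ k y c, Ld η N k y c → c ∈ F) (Fε : ∀ v ∈ F, ε v ∈ F) (Fη : ∀ v ∈ F, η v ∈ F)
    (f1 f2 : V) (hF : ∀ v, v ∈ F ↔ ∃ a b : S, v = a • f1 + b • f2)
    (hind : ∀ a b : S, a • f1 + b • f2 = 0 → a = 0 ∧ b = 0)
    (hbig : ∃ n0 : ℤ, ∀ n ≥ n0, ∀ k : ℤ, ∀ c ∈ F, ε c = (n : K) • c → η c = (k : K) • c →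
      ∃ y, Ld η N k y c)
    (n k : ℤ) (c : V) (hc : c ∈ F) (hcε : ε c = (n : K) • c) (hcη : η c = (k : K) • c) :
    ∃ y, Ld η N k y c ∧ ε y = (n : K) • y := by
  obtain ⟨n0, hn0⟩ := hbig
  have main : ∀ t : ℕ, ∀ n : ℤ, n0 - t ≤ n → ∀ (k : ℤ), ∀ c ∈ F, ε c = (n : K) • c →
      η c = (k : K) • c → ∃ y, Ld η N k y c := by
    intro t
    induction t with
    | zero =>
      intro n hn k c hc h1 h2
      exact hn0 n (by simpa using hn) k c hc h1 h2
    | succ t ih =>
      intro n hn k c hc h1 h2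
      have IH : ∀ (k : ℤ), ∀ c ∈ F, ε c = ((n + 1 : ℤ) : K) • c → η c = (k : K) • c →
          ∃ y, Ld η N k y c := ih (n + 1) (by push_cast at hn; linarith)
      have htrip : ∀ e : ℕ, ∃ m0 m1 m2, Trip x w ε η N i0 i1 i2 n k ((e : ℤ) + 1) c m0 m1 m2 := by
        intro e
        induction e with
        | zero =>
          have h3 := Trip.start hV i0 i1 i2 N F Nε n k IH c hc h1 h2
          simpa using h3
        | succ e ihe =>
          obtain ⟨m0, m1, m2, h⟩ := ihe
          obtain ⟨m0', m1', m2', h'⟩ := Trip.step hV h01 h02 h12 N F Nε hLF Fε Fη f1 f2 hF hind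
            (by omega) IH h
          refine ⟨m0', m1', m2', ?_⟩
          have he : ((e + 1 : ℕ) : ℤ) + 1 = (e : ℤ) + 1 + 1 := by push_cast; ring
          rw [he]
          exact h'
      obtain ⟨k0, hk0⟩ := bd (n + 2)
      obtain ⟨e, he⟩ : ∃ e : ℕ, k0 ≤ k + w i0 + w i1 + ((e : ℤ) + 1) :=
        ⟨(k0 - (k + w i0 + w i1)).toNat, by
          have h3 := Int.self_le_toNat (k0 - (k + w i0 + w i1))
          linarith⟩
      obtain ⟨m0, m1, m2, hT⟩ := htrip e
      have hdeg : ∀ (i : ι) (m : V), ε m = ((n + 1 : ℤ) : K) • m →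
          ε (x i • m) = ((n + 2 : ℤ) : K) • (x i • m) := by
        intro i m hm
        rw [hV.cE, hV.base.eu i, hm, smul_comm (x i) ((n + 1 : ℤ) : K) m]
        have h3 : ((n + 2 : ℤ) : K) = 1 + ((n + 1 : ℤ) : K) := by push_cast; ring
        rw [h3, add_smul, one_smul]
      have hz : x i1 • m0 - x i0 • m1 = 0 := by
        apply hk0
        · rw [map_sub, hdeg _ _ hT.h0, hdeg _ _ hT.h1, smul_sub]
        · exact hT.f01.mono he
      obtain ⟨y, hyN, hy0, -⟩ := Nht m0 hT.l0.1 m1 hT.l1.1 (sub_eq_zero.mp hz)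
      have hwt : (H : S →ₗ[K] S) (x i0) = (w i0 : K) • x i0 := hV.base.wt i0
      have hx0 : x i0 ≠ 0 := (hV.base.cx.prime_x i0).ne_zero
      refine ⟨y, hyN, ?_, ?_⟩
      · refine hV.fl_cancel (a := x i0) (j := w i0) ?_ ?_ ?_
        · intro j hj
          exact comp_of_ne hwt (ne_of_lt hj)
        · rw [comp_of_eig hwt]
          exact hx0
        · rw [← hy0, add_comm]
          exact hT.l0.2.1
      · have h3 := comp_hsmul hV.cH hV.dH (hV.base.wt i0) k y
        rw [← hy0, hT.l0.2.2] at h3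
        have h4 : x i0 • (c - comp η k y) = 0 := by
          rw [smul_sub, h3, sub_self]
        rcases hV.tf _ _ h4 with h5 | h5
        · exact absurd h5 hx0
        · exact (sub_eq_zero.mp h5).symm
  obtain ⟨y, hy⟩ := main (n0 - n).toNat n (by
    have h3 := Int.self_le_toNat (n0 - n)
    linarith) k c hc hcε hcη
  refine ⟨comp ε n y, ?_, comp_eig hV.dE n y⟩
  have h1 := Ld.cmp hV Nε n hy
  rwa [comp_of_eig hcε] at h1

end

end Pool.Agent.Lib.MP_745d3a_ag.PF.GA

end

section

/-!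
Lifts of the generators of the module of leading forms are generators; large degrees.

`gen`: first let `y ∈ N` with `ε y = n • y`. Prove by induction on `t : ℕ`:
`∃ a b, Fl η (k1 + t) (y - a • y1 - b • y2) ∧ ε (y - a • y1 - b • y2) = n • (..)`.
Start: `a = b = 0`, `htop`. Step: let `z` be the difference, `k = k1 + t`,
`c := comp η k z` is in `F` (`hLF`), so `c = a • f1 + b • f2`; apply `comp ε n`
and `comp η k` (they fix `c`: `comp_comm`, `comp_of_eig`, `comp_eig`) and `comp_hsmul` to each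
homogeneous component: `c = a' • f1 + b' • f2` with
`a' := comp E (n - n1) (comp H (k - l1) a)`, `b' := comp E (n - n2) (comp H (k - l2) b)`
(use `exists_comp` for `a` with respect to `H`, then `E`; or the lemma `comp_smul_eig` below).
Then `a' • y1` is a lift of `a' • f1` of weight `k` (`Ld.hsmul`) and degree `n`, so subtracting
`a' • y1 + b' • y2` gives weight at least `k + 1` (`Fl.succ`). With the bound `bd n` for `n` the
difference is `0` for `t` large. A general `y ∈ N` is the sum of its components `comp ε n y ∈ N`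
(`exists_comp`, `comp_mem_of_stable`).
-/

set_option autoImplicit false
set_option linter.unusedSectionVars false
set_option linter.unusedSimpArgs false
set_option linter.unusedVariables false

open MvPolynomial

namespace Pool.Agent.Lib.MP_745d3a_ag.PF.GA

section

variable {K S ι V : Type*} [Field K] [CharZero K] [CommRing S] [Algebra K S] {x : ι → S}
  {w : ι → ℤ} {E H : Derivation K S S} [AddCommGroup V] [Module K V] [Module S V]
  [IsScalarTower K S V] {ε η : V →ₗ[K] V}

/-- Components of multiples of an eigenvector (use it for `ε`, `E` and for `η`, `H`). -/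
theorem comp_smul_eig {T : V →ₗ[K] V} {A : Derivation K S S} (hT : IsConn A T) (dT : Diag T)
    (dA : Diag (A : S →ₗ[K] S)) {f : V} {l : ℤ} (hf : T f = (l : K) • f) (k : ℤ) (a : S) :
    comp T k (a • f) = comp (A : S →ₗ[K] S) (k - l) a • f := by
  have h := comp_shift (T := (A : S →ₗ[K] S)) (T' := T) dA
    ({ toFun := fun b => b • f, map_zero' := zero_smul S f,
       map_add' := fun b c => add_smul b c f } : S →+ V) l (fun v d hv => by
      have hv' : A v = (d : K) • v := hv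
      show T (v • f) = _ • (v • f)
      rw [hT, hv', hf, Int.cast_add, add_smul, smul_assoc, smul_comm v (l : K) f]) (k - l) a
  rw [sub_add_cancel] at h
  exact h

/-- The induction step. -/
private theorem gen_step (hV : GMod x w E H ε η)
    (N F : Submodule S V) (hLF : ∀ k y c, Ld η N k y c → c ∈ F)
    (f1 f2 : V) (hF : ∀ v, v ∈ F ↔ ∃ a b : S, v = a • f1 + b • f2) (n1 l1 n2 l2 : ℤ)
    (e1 : ε f1 = (n1 : K) • f1) (g1 : η f1 = (l1 : K) • f1)
    (e2 : ε f2 = (n2 : K) • f2) (g2 : η f2 = (l2 : K) • f2) (y1 y2 : V)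
    (hy1 : Ld η N l1 y1 f1) (hy2 : Ld η N l2 y2 f2) (k1 : ε y1 = (n1 : K) • y1)
    (k2 : ε y2 = (n2 : K) • y2) (n k : ℤ) (z : V) (hz : z ∈ N) (hzk : Fl η k z)
    (hzn : ε z = (n : K) • z) :
    ∃ a b : S, Fl η (k + 1) (z - a • y1 - b • y2) ∧
      ε (z - a • y1 - b • y2) = (n : K) • (z - a • y1 - b • y2) := by
  obtain ⟨c, hc⟩ : ∃ c, c = comp η k z := ⟨_, rfl⟩
  have hLd : Ld η N k z c := ⟨hz, hzk, hc.symm⟩
  obtain ⟨a0, b0, hab⟩ := (hF c).mp (hLF k z c hLd)
  have hcη : comp η k c = c := comp_of_eig (hLd.eta hV.dH)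
  have hcε : comp ε n c = c := by
    rw [hc, comp_comm hV.dE hV.dH hV.comm, comp_of_eig hzn]
  have hdE := hV.base.dE
  have hdH := hV.base.dH
  have key : ∀ (f : V) (n' l' : ℤ), ε f = (n' : K) • f → η f = (l' : K) • f → ∀ a : S,
      comp η k (comp ε n (a • f)) =
        comp (H : S →ₗ[K] S) (k - l') (comp (E : S →ₗ[K] S) (n - n') a) • f := by
    intro f n' l' h h' a
    rw [comp_smul_eig hV.cE hV.dE hdE h, comp_smul_eig hV.cH hV.dH hdH h']
  obtain ⟨a, ha⟩ : ∃ a, a = comp (H : S →ₗ[K] S) (k - l1) (comp (E : S →ₗ[K] S) (n - n1) a0) :=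
    ⟨_, rfl⟩
  obtain ⟨b, hb⟩ : ∃ b, b = comp (H : S →ₗ[K] S) (k - l2) (comp (E : S →ₗ[K] S) (n - n2) b0) :=
    ⟨_, rfl⟩
  have hcab : c = a • f1 + b • f2 := by
    have h : comp η k (comp ε n c) = c := by rw [hcε, hcη]
    rw [hab] at h
    rw [comp_add hV.dE, comp_add hV.dH, key f1 n1 l1 e1 g1, key f2 n2 l2 e2 g2, ← ha, ← hb,
      ← hab] at h
    exact h.symm
  have hcomm : ∀ s : S, (E : S →ₗ[K] S) ((H : S →ₗ[K] S) s) =
      (H : S →ₗ[K] S) ((E : S →ₗ[K] S) s) := fun s => hV.base.EH s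
  have haH : H a = ((k - l1 : ℤ) : K) • a := by
    rw [ha]; exact comp_eig hdH _ _
  have hbH : H b = ((k - l2 : ℤ) : K) • b := by
    rw [hb]; exact comp_eig hdH _ _
  have haE : E a = ((n - n1 : ℤ) : K) • a := by
    rw [ha, ← comp_comm hdE hdH hcomm]; exact comp_eig hdE _ _
  have hbE : E b = ((n - n2 : ℤ) : K) • b := by
    rw [hb, ← comp_comm hdE hdH hcomm]; exact comp_eig hdE _ _
  have h1 := Ld.hsmul hV haH hy1
  have h2 := Ld.hsmul hV hbH hy2
  rw [sub_add_cancel] at h1 h2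
  have h3 := Ld.sub hV.dH (Ld.sub hV.dH hLd h1) h2
  have h0 : c - a • f1 - b • f2 = 0 := by rw [hcab]; abel
  rw [h0] at h3
  refine ⟨a, b, Fl.succ h3.2.1 h3.2.2, ?_⟩
  have e3 : ε (a • y1) = (n : K) • (a • y1) := by
    rw [hV.cE, haE, k1, smul_assoc, smul_comm a (n1 : K) y1, ← add_smul]
    congr 1; push_cast; ring
  have e4 : ε (b • y2) = (n : K) • (b • y2) := by
    rw [hV.cE, hbE, k2, smul_assoc, smul_comm b (n2 : K) y2, ← add_smul]
    congr 1; push_cast; ring
  rw [map_sub, map_sub, hzn, e3, e4, smul_sub, smul_sub]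

theorem gen (hV : GMod x w E H ε η)
    (bd : ∀ n : ℤ, ∃ k0 : ℤ, ∀ v : V, ε v = (n : K) • v → Fl η k0 v → v = 0)
    (htop : ∃ k1 : ℤ, ∀ v : V, Fl η k1 v)
    (N F : Submodule S V) (Nε : ∀ y ∈ N, ε y ∈ N) (hLF : ∀ k y c, Ld η N k y c → c ∈ F)
    (f1 f2 : V) (hF : ∀ v, v ∈ F ↔ ∃ a b : S, v = a • f1 + b • f2) (n1 l1 n2 l2 : ℤ)
    (e1 : ε f1 = (n1 : K) • f1) (g1 : η f1 = (l1 : K) • f1)
    (e2 : ε f2 = (n2 : K) • f2) (g2 : η f2 = (l2 : K) • f2) (y1 y2 : V)
    (hy1 : Ld η N l1 y1 f1) (hy2 : Ld η N l2 y2 f2) (k1 : ε y1 = (n1 : K) • y1)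
    (k2 : ε y2 = (n2 : K) • y2) : ∀ y ∈ N, ∃ a b : S, y = a • y1 + b • y2 := by
  classical
  obtain ⟨m1, hm1⟩ := htop
  have hN1 : y1 ∈ N := hy1.1
  have hN2 : y2 ∈ N := hy2.1
  have hom : ∀ n : ℤ, ∀ y ∈ N, ε y = (n : K) • y → ∃ a b : S, y = a • y1 + b • y2 := by
    intro n y hy hyn
    have ind : ∀ t : ℕ, ∃ a b : S, Fl η (m1 + t) (y - a • y1 - b • y2) ∧
        ε (y - a • y1 - b • y2) = (n : K) • (y - a • y1 - b • y2) := by
      intro t
      induction t with
      | zero => exact ⟨0, 0, by simpa using hm1 _, by simpa using hyn⟩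
      | succ t ih =>
        obtain ⟨a, b, h1, h2⟩ := ih
        obtain ⟨a', b', h3, h4⟩ := gen_step hV N F hLF f1 f2 hF n1 l1 n2 l2 e1 g1 e2 g2 y1 y2
          hy1 hy2 k1 k2 n (m1 + t) (y - a • y1 - b • y2)
          (N.sub_mem (N.sub_mem hy (N.smul_mem _ hN1)) (N.smul_mem _ hN2)) h1 h2
        have e : y - a • y1 - b • y2 - a' • y1 - b' • y2 =
            y - (a + a') • y1 - (b + b') • y2 := by
          rw [add_smul, add_smul]; abel
        rw [e] at h3 h4
        refine ⟨a + a', b + b', ?_, h4⟩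
        rw [Nat.cast_succ, ← add_assoc]
        exact h3
    obtain ⟨k0, hk0⟩ := bd n
    obtain ⟨a, b, h1, h2⟩ := ind (k0 - m1).toNat
    have h3 := hk0 _ h2 (h1.mono (by have := Int.self_le_toNat (k0 - m1); omega))
    refine ⟨a, b, ?_⟩
    rw [sub_sub, sub_eq_zero] at h3
    exact h3
  intro y hy
  obtain ⟨s, hs, -⟩ := exists_comp hV.dE y
  choose a b hab using fun n => hom n (comp ε n y) (comp_mem_of_stable hV.dE Nε hy n)
    (comp_eig hV.dE n y)
  refine ⟨∑ n ∈ s, a n, ∑ n ∈ s, b n, ?_⟩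
  rw [Finset.sum_smul, Finset.sum_smul, ← Finset.sum_add_distrib]
  conv_lhs => rw [hs]
  exact Finset.sum_congr rfl fun n _ => hab n

end

end Pool.Agent.Lib.MP_745d3a_ag.PF.GA

end

section

/-!
Homogeneous elements of large degree.

`big_ring`: `a` is a `K`-combination of monomials of degree `n` (transport to `MvPolynomial ι K` by
`hx.equiv`; `E` becomes `mkDerivation X`, whose eigenvectors are the homogeneous polynomials:
compare coefficients, or use `Coord.induction` for the statement: every `a` is the sum of its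
components `comp E d a` and each `comp E d a` is a `K`-combination of products of `d` coordinates).
A product of `n ≥ card ι * N` coordinates contains some `x i` at least `N` times (pigeonhole), so it
is in the ideal.
-/

set_option autoImplicit false
set_option linter.unusedSectionVars false
set_option linter.unusedSimpArgs false
set_option linter.unusedVariables false

open MvPolynomial

namespace Pool.Agent.Lib.MP_745d3a_ag.PF.GA

section

variable {K S ι V : Type*} [Field K] [CharZero K] [CommRing S] [Algebra K S] {x : ι → S}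
  {w : ι → ℤ} {E H : Derivation K S S} [AddCommGroup V] [Module K V] [Module S V]
  [IsScalarTower K S V] {ε η : V →ₗ[K] V}

private lemma D7b_pow (hE : IsEuler x E) (i : ι) (n : ℕ) :
    E (x i ^ n) = (n : K) • x i ^ n := by
  induction n with
  | zero => simp
  | succ n ih =>
    rw [pow_succ, Derivation.leibniz, ih, hE i, smul_eq_mul, smul_eq_mul, Nat.cast_add,
      Nat.cast_one, add_smul, one_smul, mul_smul_comm, mul_comm (x i) (x i ^ n), add_comm]

private lemma D7b_prod (hE : IsEuler x E) (ν : ι → ℕ) (s : Finset ι) :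
    E (∏ i ∈ s, x i ^ ν i) = ((∑ i ∈ s, ν i : ℕ) : K) • ∏ i ∈ s, x i ^ ν i := by
  classical
  induction s using Finset.induction_on with
  | empty => simp
  | insert a s ha ih =>
    rw [Finset.prod_insert ha, Finset.sum_insert ha, Derivation.leibniz, ih, D7b_pow hE,
      smul_eq_mul, smul_eq_mul, Nat.cast_add, add_smul, mul_smul_comm, mul_smul_comm,
      mul_comm (∏ i ∈ s, x i ^ ν i) (x a ^ ν a), add_comm]

theorem big_ring [Fintype ι] (hx : Coord K x) (hE : IsEuler x E) (N : ℕ) {a : S} {n : ℤ}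
    (ha : E a = (n : K) • a) (hn : ((Fintype.card ι * N + 1 : ℕ) : ℤ) ≤ n) :
    a ∈ Ideal.span (Set.range fun i => x i ^ N) := by
  classical
  set J : Ideal S := Ideal.span (Set.range fun i => x i ^ N) with hJ
  have hd : Diag (E : S →ₗ[K] S) := euler_diag hx hE
  have hmon : ∀ ν : ι →₀ ℕ, comp (E : S →ₗ[K] S) n (∏ i, x i ^ ν i) ∈ J := by
    intro ν
    have h1 : (E : S →ₗ[K] S) (∏ i, x i ^ ν i) =
        (((∑ i, ν i : ℕ) : ℤ) : K) • ∏ i, x i ^ ν i := by
      rw [Int.cast_natCast]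
      exact D7b_prod hE ν Finset.univ
    by_cases h2 : n = ((∑ i, ν i : ℕ) : ℤ)
    · rw [h2, comp_of_eig h1]
      have h3 : ∃ i, N ≤ ν i := by
        by_contra hcon
        push Not at hcon
        have h4 : ∑ i, ν i ≤ ∑ _i : ι, N := Finset.sum_le_sum fun i _ => (hcon i).le
        rw [Finset.sum_const, Finset.card_univ, smul_eq_mul] at h4
        rw [h2] at hn
        have : Fintype.card ι * N + 1 ≤ ∑ i, ν i := by exact_mod_cast hn
        omega
      obtain ⟨i, hi⟩ := h3
      rw [← Finset.mul_prod_erase Finset.univ _ (Finset.mem_univ i)]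
      refine Ideal.mul_mem_right _ _ ?_
      rw [← Nat.sub_add_cancel hi, pow_add]
      exact Ideal.mul_mem_left _ _ (Ideal.subset_span ⟨i, rfl⟩)
    · rw [comp_of_ne h1 h2]
      exact J.zero_mem
  have key : ∀ p : MvPolynomial ι K, comp (E : S →ₗ[K] S) n (hx.equiv p) ∈ J := by
    intro p
    have h1 : hx.equiv p = ∑ ν ∈ p.support, (coeff ν p) • ∏ i, x i ^ ν i := by
      conv_lhs => rw [p.as_sum]
      rw [map_sum]
      refine Finset.sum_congr rfl fun ν _ => ?_
      show aeval x (monomial ν (coeff ν p)) = _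
      rw [aeval_monomial, Algebra.smul_def, Finsupp.prod_fintype _ _ (by intro i; simp)]
    rw [h1, comp_sum hd]
    refine Ideal.sum_mem _ fun ν _ => ?_
    rw [comp_smulK hd, Algebra.smul_def]
    exact Ideal.mul_mem_left _ _ (hmon ν)
  obtain ⟨p, rfl⟩ := hx.equiv.surjective a
  have h1 := key p
  rwa [comp_of_eig (T := (E : S →ₗ[K] S)) ha] at h1

end

end Pool.Agent.Lib.MP_745d3a_ag.PF.GA

end

section

/-!
Homogeneous elements of large degree are leading forms.

`big`: let `c = a • f1 + b • f2` be homogeneous of degree `n`; as above we may assume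
`E a = (n - n1) • a`, `E b = (n - n2) • b`. For `n` large `a`, `b` are in the ideal of the
`x i ^ N'` (`N'` a common exponent, `big_ring`), so `c ∈ M0 η N`, and `M0_comp` for the weight `k`
gives the lift (`comp η k c = c`).
-/

set_option autoImplicit false
set_option linter.unusedSectionVars false
set_option linter.unusedSimpArgs false
set_option linter.unusedVariables false

open MvPolynomial

namespace Pool.Agent.Lib.MP_745d3a_ag.PF.GA

section

variable {K S ι V : Type*} [Field K] [CharZero K] [CommRing S] [Algebra K S] {x : ι → S}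
  {w : ι → ℤ} {E H : Derivation K S S} [AddCommGroup V] [Module K V] [Module S V]
  [IsScalarTower K S V] {ε η : V →ₗ[K] V}

theorem big [Fintype ι] (hV : GMod x w E H ε η) (N F : Submodule S V)
    (f1 f2 : V) (hF : ∀ v, v ∈ F ↔ ∃ a b : S, v = a • f1 + b • f2) (n1 n2 : ℤ)
    (e1 : ε f1 = (n1 : K) • f1) (e2 : ε f2 = (n2 : K) • f2)
    (hpow : ∀ i, ∃ N' : ℕ, x i ^ N' • f1 ∈ M0 η N ∧ x i ^ N' • f2 ∈ M0 η N) :
    ∃ n0 : ℤ, ∀ n ≥ n0, ∀ k : ℤ, ∀ c ∈ F, ε c = (n : K) • c → η c = (k : K) • c →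
      ∃ y, Ld η N k y c := by
  classical
  choose P hP1 hP2 using hpow
  have hle : ∀ i, P i ≤ Finset.univ.sup P := fun i => Finset.le_sup (Finset.mem_univ i)
  have hup : ∀ (f : V), (∀ i, x i ^ P i • f ∈ M0 η N) → ∀ a : S,
      a ∈ Ideal.span (Set.range fun i => x i ^ (Finset.univ.sup P)) → a • f ∈ M0 η N := by
    intro f hf a ha
    have h1 : Ideal.span (Set.range fun i => x i ^ (Finset.univ.sup P)) ≤
        (M0 η N).comap (LinearMap.toSpanSingleton S V f) := by
      rw [Ideal.span, Submodule.span_le]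
      rintro _ ⟨i, rfl⟩
      show LinearMap.toSpanSingleton S V f (x i ^ (Finset.univ.sup P)) ∈ M0 η N
      rw [LinearMap.toSpanSingleton_apply]
      have h2 : x i ^ (Finset.univ.sup P) = x i ^ (Finset.univ.sup P - P i) * x i ^ P i := by
        rw [← pow_add, Nat.sub_add_cancel (hle i)]
      rw [h2, mul_smul]
      exact (M0 η N).smul_mem _ (hf i)
    have h3 := h1 ha
    rwa [Submodule.mem_comap, LinearMap.toSpanSingleton_apply] at h3
  refine ⟨max n1 n2 + ((Fintype.card ι * (Finset.univ.sup P) + 1 : ℕ) : ℤ), ?_⟩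
  intro n hn k c hc e g
  obtain ⟨a, b, hab⟩ := (hF c).mp hc
  have hbE : Diag (E : S →ₗ[K] S) := hV.base.dE
  have hn1 : ((Fintype.card ι * (Finset.univ.sup P) + 1 : ℕ) : ℤ) ≤ n - n1 := by
    have := le_max_left n1 n2
    linarith
  have hn2 : ((Fintype.card ι * (Finset.univ.sup P) + 1 : ℕ) : ℤ) ≤ n - n2 := by
    have := le_max_right n1 n2
    linarith
  have h4 : c = comp (E : S →ₗ[K] S) (n - n1) a • f1 + comp (E : S →ₗ[K] S) (n - n2) b • f2 := by
    have h5 : comp ε n c = c := comp_of_eig e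
    rw [hab, comp_add hV.dE, comp_smul_eig hV.cE hV.dE hbE e1, comp_smul_eig hV.cE hV.dE hbE e2]
      at h5
    rw [hab]
    exact h5.symm
  have h6 : comp (E : S →ₗ[K] S) (n - n1) a ∈
      Ideal.span (Set.range fun i => x i ^ (Finset.univ.sup P)) :=
    big_ring hV.base.cx hV.base.eu _ (comp_eig hbE (n - n1) a) hn1
  have h7 : comp (E : S →ₗ[K] S) (n - n2) b ∈
      Ideal.span (Set.range fun i => x i ^ (Finset.univ.sup P)) :=
    big_ring hV.base.cx hV.base.eu _ (comp_eig hbE (n - n2) b) hn2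
  have h8 : c ∈ M0 η N := by
    rw [h4]
    exact (M0 η N).add_mem (hup f1 hP1 _ h6) (hup f2 hP2 _ h7)
  obtain ⟨y, hy⟩ := M0_comp hV h8 k
  rw [comp_of_eig g] at hy
  exact ⟨y, hy⟩

end

end Pool.Agent.Lib.MP_745d3a_ag.PF.GA

end

section

/-!
The module `S × S` with shifted gradings.

* `diag_shp`: decompose both coordinates (`exists_comp` for `T`), the component of eigenvalue `d` is
  `(comp T (d - s₁) v.1, comp T (d - s₂) v.2)`; the finset is the image of the two finsets under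
  `· + s₁`, `· + s₂`.
* `comp_shp`: `comp_unique` with this decomposition.
* `gmod_pair`: `conn_shp`, `diag_shp`, `Base.EH`.
-/

set_option autoImplicit false
set_option linter.unusedSectionVars false
set_option linter.unusedSimpArgs false
set_option linter.unusedVariables false

open MvPolynomial

namespace Pool.Agent.Lib.MP_745d3a_ag.PF.GA

section

variable {K S ι : Type*} [Field K] [CharZero K] [CommRing S] [Algebra K S] {x : ι → S}
  {w : ι → ℤ} {E H : Derivation K S S}

theorem conn_shp (A : Derivation K S S) (s₁ s₂ : ℤ) :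
    IsConn A (shp (A : S →ₗ[K] S) s₁ s₂) := by
  intro a m
  have key : ∀ (s : ℤ) (b : S), A (a * b) + (s : K) • (a * b) = A a * b + a * (A b + (s : K) • b) := by
    intro s b
    rw [Derivation.leibniz, smul_eq_mul, smul_eq_mul, mul_add, mul_smul_comm]
    ring
  exact Prod.ext (key s₁ m.1) (key s₂ m.2)

private lemma shp_eig {T : S →ₗ[K] S} (hT : Diag T) (s₁ s₂ : ℤ) (v : S × S) (d : ℤ) :
    shp T s₁ s₂ (comp T (d - s₁) v.1, comp T (d - s₂) v.2) =
      (d : K) • ((comp T (d - s₁) v.1, comp T (d - s₂) v.2) : S × S) := by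
  rw [shp_apply]
  simp only [comp_eig hT]
  ext
  · simp only [Prod.smul_fst]
    rw [← add_smul, Int.cast_sub, sub_add_cancel]
  · simp only [Prod.smul_snd]
    rw [← add_smul, Int.cast_sub, sub_add_cancel]

private lemma shp_dec {T : S →ₗ[K] S} (hT : Diag T) (s₁ s₂ : ℤ) (v : S × S) :
    ∃ s : Finset ℤ, v = ∑ d ∈ s, ((comp T (d - s₁) v.1, comp T (d - s₂) v.2) : S × S) ∧
      ∀ d, d ∉ s → ((comp T (d - s₁) v.1, comp T (d - s₂) v.2) : S × S) = 0 := by
  classical
  obtain ⟨t₁, h₁, h₁'⟩ := exists_comp hT v.1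
  obtain ⟨t₂, h₂, h₂'⟩ := exists_comp hT v.2
  have key : ∀ (t : Finset ℤ) (s : ℤ) (u : Finset ℤ) (a : S), a = ∑ d ∈ t, comp T d a →
      (∀ d, d ∉ t → comp T d a = 0) → t.image (fun d => d + s) ⊆ u →
      a = ∑ d ∈ u, comp T (d - s) a := by
    intro t s u a h1 h2 h3
    have h4 : ∑ d ∈ u, comp T (d - s) a = ∑ d ∈ t.image (fun d => d + s), comp T (d - s) a := by
      symm
      refine Finset.sum_subset h3 ?_
      intro d _ hd
      refine h2 _ ?_
      intro h5
      exact hd (Finset.mem_image.mpr ⟨d - s, h5, by ring⟩)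
    rw [h4, Finset.sum_image (fun a _ b _ h => by simpa using h)]
    conv_lhs => rw [h1]
    refine Finset.sum_congr rfl fun d _ => ?_
    rw [add_sub_cancel_right]
  refine ⟨t₁.image (fun d => d + s₁) ∪ t₂.image (fun d => d + s₂), ?_, ?_⟩
  · ext
    · rw [Prod.fst_sum]
      exact key t₁ s₁ _ v.1 h₁ h₁' Finset.subset_union_left
    · rw [Prod.snd_sum]
      exact key t₂ s₂ _ v.2 h₂ h₂' Finset.subset_union_right
  · intro d hd
    rw [Finset.mem_union, not_or] at hd
    ext
    · refine h₁' _ fun h5 => hd.1 (Finset.mem_image.mpr ⟨_, h5, by ring⟩)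
    · refine h₂' _ fun h5 => hd.2 (Finset.mem_image.mpr ⟨_, h5, by ring⟩)

theorem diag_shp {T : S →ₗ[K] S} (hT : Diag T) (s₁ s₂ : ℤ) : Diag (shp T s₁ s₂) := by
  intro v
  obtain ⟨s, hs, _⟩ := shp_dec hT s₁ s₂ v
  exact ⟨s, fun d => (comp T (d - s₁) v.1, comp T (d - s₂) v.2),
    fun d => shp_eig hT s₁ s₂ v d, hs⟩

theorem comp_shp {T : S →ₗ[K] S} (hT : Diag T) (s₁ s₂ k : ℤ) (v : S × S) :
    comp (shp T s₁ s₂) k v = (comp T (k - s₁) v.1, comp T (k - s₂) v.2) := by
  classical
  obtain ⟨s, hs, hs'⟩ := shp_dec hT s₁ s₂ v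
  rw [comp_unique (T := shp T s₁ s₂) s (fun d => (comp T (d - s₁) v.1, comp T (d - s₂) v.2))
    (fun d _ => shp_eig hT s₁ s₂ v d) hs]
  by_cases hk : k ∈ s
  · rw [if_pos hk]
  · rw [if_neg hk, hs' k hk]

theorem Fl_shp {T : S →ₗ[K] S} (hT : Diag T) (s₁ s₂ k : ℤ) (v : S × S) :
    Fl (shp T s₁ s₂) k v ↔ Fl T (k - s₁) v.1 ∧ Fl T (k - s₂) v.2 := by
  constructor
  · intro h
    constructor
    · intro j hj
      have h1 := h (j + s₁) (by omega)
      rw [comp_shp hT] at h1
      have h2 := congrArg Prod.fst h1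
      simpa using h2
    · intro j hj
      have h1 := h (j + s₂) (by omega)
      rw [comp_shp hT] at h1
      have h2 := congrArg Prod.snd h1
      simpa using h2
  · rintro ⟨h1, h2⟩ j hj
    rw [comp_shp hT, h1 _ (by omega), h2 _ (by omega)]
    rfl

theorem gmod_pair (h : Base x w E H) (s₁ s₂ a₁ a₂ : ℤ) :
    GMod x w E H (shp (E : S →ₗ[K] S) s₁ s₂) (shp (H : S →ₗ[K] S) a₁ a₂) where
  base := h
  cE := conn_shp E s₁ s₂
  dE := diag_shp h.dE s₁ s₂
  cH := conn_shp H a₁ a₂
  dH := diag_shp h.dH a₁ a₂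
  comm := by
    intro m
    simp only [shp_apply, map_add, map_smul, Derivation.coeFn_coe, smul_add]
    ext
    · simp only [h.EH, smul_comm (s₁ : K) (a₁ : K)]
      abel
    · simp only [h.EH, smul_comm (s₂ : K) (a₂ : K)]
      abel
  tf := by
    intro a m ham
    have := h.cx.isDomain
    by_cases ha : a = 0
    · exact Or.inl ha
    · right
      have h1 := congrArg Prod.fst ham
      have h2 := congrArg Prod.snd ham
      simp only [Prod.smul_fst, Prod.smul_snd, Prod.fst_zero, Prod.snd_zero, smul_eq_mul,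
        mul_eq_zero, ha, false_or] at h1 h2
      exact Prod.ext h1 h2

end

end Pool.Agent.Lib.MP_745d3a_ag.PF.GA

end

section

/-!
Bounds for the weight.

* `bd_ring`: a homogeneous element of degree `n` has weight at most `n * W`, where `W` is the
  maximum of the weights (`0` if `n < 0`): transport to `MvPolynomial ι K` by `hx.equiv` and look at
  monomials; or by `Coord.induction`: `∀ a, ∀ d j, comp E d (comp H j a) ≠ 0 → 0 ≤ d ∧ j ≤ d * W`
  (`comp_shift` for the multiplication by `x i`).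
* `bd_pair`: `bd_ring` for both coordinates.
* `top_pair`: `Base.H_neg`: `k1 = min a₁ a₂`.
-/

set_option autoImplicit false
set_option linter.unusedSectionVars false
set_option linter.unusedSimpArgs false
set_option linter.unusedVariables false

open MvPolynomial

namespace Pool.Agent.Lib.MP_745d3a_ag.PF.GA

section

variable {K S ι : Type*} [Field K] [CharZero K] [CommRing S] [Algebra K S] {x : ι → S}
  {w : ι → ℤ} {E H : Derivation K S S}

/-- Joint eigenvectors for the two gradings with the bound `W` span the ring. -/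
theorem bd_span (h : Base x w E H) (W : ℤ) (hW : ∀ i, w i ≤ W) (a : S) :
    a ∈ Submodule.span K {b : S | ∃ d j : ℤ, E b = (d : K) • b ∧ H b = (j : K) • b ∧ 0 ≤ d ∧
      j ≤ d * W} := by
  refine h.cx.induction (P := fun a => a ∈ Submodule.span K {b : S | ∃ d j : ℤ,
    E b = (d : K) • b ∧ H b = (j : K) • b ∧ 0 ≤ d ∧ j ≤ d * W}) ?_ ?_ ?_ a
  · intro c
    refine Submodule.subset_span ⟨0, 0, ?_, ?_, le_refl _, by simp⟩
    · rw [Derivation.map_algebraMap, Int.cast_zero, zero_smul]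
    · rw [Derivation.map_algebraMap, Int.cast_zero, zero_smul]
  · intro a b ha hb
    exact Submodule.add_mem _ ha hb
  · intro a i ha
    have h1 : LinearMap.mulRight K (x i) a ∈ Submodule.span K {b : S | ∃ d j : ℤ,
        E b = (d : K) • b ∧ H b = (j : K) • b ∧ 0 ≤ d ∧ j ≤ d * W} := by
      refine Submodule.span_induction (p := fun a _ => LinearMap.mulRight K (x i) a ∈
        Submodule.span K {b : S | ∃ d j : ℤ, E b = (d : K) • b ∧ H b = (j : K) • b ∧ 0 ≤ d ∧
          j ≤ d * W}) ?_ ?_ ?_ ?_ ha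
      · rintro b ⟨d, j, hE, hH, hd, hj⟩
        refine Submodule.subset_span ⟨d + 1, j + w i, ?_, ?_, by omega, ?_⟩
        · rw [LinearMap.mulRight_apply, Derivation.leibniz, hE, h.eu i, smul_eq_mul, smul_eq_mul,
            mul_smul_comm, Int.cast_add, add_smul, Int.cast_one, one_smul, mul_comm (x i) b]
          abel
        · rw [LinearMap.mulRight_apply, Derivation.leibniz, hH, h.wt i, smul_eq_mul, smul_eq_mul,
            mul_smul_comm, mul_smul_comm, Int.cast_add, add_smul, mul_comm (x i) b]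
          abel
        · have := hW i
          nlinarith
      · rw [map_zero]; exact Submodule.zero_mem _
      · intro u v _ _ hu hv
        rw [map_add]; exact Submodule.add_mem _ hu hv
      · intro c u _ hu
        rw [map_smul]; exact Submodule.smul_mem _ c hu
    exact h1

theorem bd_comp (h : Base x w E H) (W : ℤ) (hW : ∀ i, w i ≤ W) (n j : ℤ) (hj : n * W < j)
    (a : S) : comp (H : S →ₗ[K] S) j (comp (E : S →ₗ[K] S) n a) = 0 := by
  refine Submodule.span_induction (p := fun a _ => comp (H : S →ₗ[K] S) j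
    (comp (E : S →ₗ[K] S) n a) = 0) ?_ ?_ ?_ ?_ (bd_span h W hW a)
  · rintro b ⟨d, j', hE, hH, hd, hj'⟩
    by_cases hn : n = d
    · subst hn
      rw [comp_of_eig (T := (E : S →ₗ[K] S)) hE]
      exact comp_of_ne (T := (H : S →ₗ[K] S)) hH (by omega)
    · rw [comp_of_ne (T := (E : S →ₗ[K] S)) hE hn]
      exact comp_zero _
  · rw [comp_zero, comp_zero]
  · intro u v _ _ hu hv
    rw [comp_add h.dE, comp_add h.dH, hu, hv, add_zero]
  · intro c u _ hu
    rw [comp_smulK h.dE, comp_smulK h.dH, hu, smul_zero]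

theorem bd_ring [Finite ι] (h : Base x w E H) (n : ℤ) :
    ∃ k0 : ℤ, ∀ a : S, E a = (n : K) • a → Fl (H : S →ₗ[K] S) k0 a → a = 0 := by
  obtain ⟨W, hW⟩ := (Set.finite_range w).bddAbove
  have hW' : ∀ i, w i ≤ W := fun i => hW ⟨i, rfl⟩
  refine ⟨n * W + 1, fun a ha hF => ?_⟩
  refine eq_zero_of_comp h.dH fun j => ?_
  by_cases hj : j < n * W + 1
  · exact hF j hj
  · have h1 := bd_comp h W hW' n j (by omega) a
    rwa [comp_of_eig (T := (E : S →ₗ[K] S)) ha] at h1

theorem bd_pair [Finite ι] (h : Base x w E H) (s₁ s₂ a₁ a₂ n : ℤ) :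
    ∃ k0 : ℤ, ∀ v : S × S, shp (E : S →ₗ[K] S) s₁ s₂ v = (n : K) • v →
      Fl (shp (H : S →ₗ[K] S) a₁ a₂) k0 v → v = 0 := by
  obtain ⟨k, hk⟩ := bd_ring h (n - s₁)
  obtain ⟨k', hk'⟩ := bd_ring h (n - s₂)
  refine ⟨max (k + a₁) (k' + a₂), fun v hv hF => ?_⟩
  rw [Fl_shp h.dH] at hF
  rw [shp_apply] at hv
  have e1 := congrArg Prod.fst hv
  have e2 := congrArg Prod.snd hv
  rw [Prod.smul_fst] at e1
  rw [Prod.smul_snd] at e2
  simp only at e1 e2
  have m1 : k + a₁ ≤ max (k + a₁) (k' + a₂) := le_max_left _ _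
  have m2 : k' + a₂ ≤ max (k + a₁) (k' + a₂) := le_max_right _ _
  refine Prod.ext ?_ ?_
  · refine hk v.1 ?_ fun j hj => hF.1 j (by omega)
    rw [Int.cast_sub, sub_smul, ← e1]
    exact (add_sub_cancel_right _ _).symm
  · refine hk' v.2 ?_ fun j hj => hF.2 j (by omega)
    rw [Int.cast_sub, sub_smul, ← e2]
    exact (add_sub_cancel_right _ _).symm

theorem top_pair (h : Base x w E H) (a₁ a₂ : ℤ) :
    ∃ k1 : ℤ, ∀ v : S × S, Fl (shp (H : S →ₗ[K] S) a₁ a₂) k1 v := by
  refine ⟨min a₁ a₂, fun v => ?_⟩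
  have m1 : min a₁ a₂ ≤ a₁ := min_le_left _ _
  have m2 : min a₁ a₂ ≤ a₂ := min_le_right _ _
  rw [Fl_shp h.dH]
  exact ⟨fun j hj => h.H_neg (by omega) _, fun j hj => h.H_neg (by omega) _⟩

end

end Pool.Agent.Lib.MP_745d3a_ag.PF.GA

end
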