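import Pool.Agent.Lib.MP_745d3a_ag.NV.Defs
import Pool.Agent.Lib.MP_745d3a_ag.GM.Form
import Pool.Agent.Lib.MP_745d3a_ag.NV.Deg

section

/-!
The statement of the theorem on bundles with a multiplicative group action (proved in the
files `GM/*`, which are imported at the end), and the existence of the pairing.
-/

set_option autoImplicit false
set_option linter.unusedSectionVars false
set_option linter.unusedSimpArgs false
set_option linter.unusedVariables false

open MvPolynomial

namespace Pool.Agent.Lib.MP_745d3a_ag.PF.GA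

/-- The theorem on multiplicative group actions over the field `K`. -/
def GmThm.{u, v} (K : Type v) [Field K] : Prop :=
  ∀ (w : Fin 5 → ℤ), (∃ i j, w i ≠ w j) →
    ∀ (M : Type u) [AddCommGroup M] [Module (MvPolynomial (Fin 5) K) M]
    [Module.Finite (MvPolynomial (Fin 5) K) M] [Module.IsReflexive (MvPolynomial (Fin 5) K) M],
    Module.finrank (MvPolynomial (Fin 5) K) M = 2 →
    (∀ (p : Ideal (MvPolynomial (Fin 5) K)) [p.IsPrime],
      (∃ i, (X i : MvPolynomial (Fin 5) K) ∉ p) →
        Module.Free (Localization.AtPrime p) (LocalizedModule p.primeCompl M)) →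
    ∀ (𝓜 : ℤ × ℤ → AddSubgroup M) [DirectSum.Decomposition 𝓜]
    [SetLike.GradedSMul (weightedHomogeneousSubmodule K (fun i : Fin 5 => ((1 : ℤ), w i))) 𝓜],
    ∃ (b : Module.Basis (Fin 2) (MvPolynomial (Fin 5) K) M) (d : Fin 2 → ℤ × ℤ),
      ∀ k, b k ∈ 𝓜 (d k)

/-- The exterior pairing of a bundle of rank two. -/
theorem pairing_main {K : Type*} [Field K] [CharZero K]
    (M : Type*) [AddCommGroup M] [Module (MvPolynomial (Fin 5) K) M]
    [Module.Finite (MvPolynomial (Fin 5) K) M] [Module.IsReflexive (MvPolynomial (Fin 5) K) M]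
    (hrank : Module.finrank (MvPolynomial (Fin 5) K) M = 2)
    (hfree : ∀ (p : Ideal (MvPolynomial (Fin 5) K)) [p.IsPrime],
      (∃ i, (X i : MvPolynomial (Fin 5) K) ∉ p) →
        Module.Free (Localization.AtPrime p) (LocalizedModule p.primeCompl M))
    (w : Fin 5 → ℤ) (𝓜 : ℤ × ℤ → AddSubgroup M) [DirectSum.Decomposition 𝓜]
    [SetLike.GradedSMul (weightedHomogeneousSubmodule K (fun i : Fin 5 => ((1 : ℤ), w i))) 𝓜] :
    ∃ (d : ℤ × ℤ)
      (br : M →ₗ[MvPolynomial (Fin 5) K] M →ₗ[MvPolynomial (Fin 5) K] MvPolynomial (Fin 5) K),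
      (∀ z, br z z = 0) ∧
      (∀ a b c, br a b • c + br b c • a + br c a • b = 0) ∧
      (∀ g h, ∀ a ∈ 𝓜 g, ∀ b ∈ 𝓜 h, IsWeightedHomogeneous (fun i : Fin 5 => ((1 : ℤ), w i))
        (br a b) (g + h - d)) ∧
      (∀ c : Fin 5, ∃ N : ℕ, (X c : MvPolynomial (Fin 5) K) ^ N ∈
        Ideal.span {p : MvPolynomial (Fin 5) K | ∃ a b, br a b = p}) := by
  have hg : SetLike.GradedSMul (weightedHomogeneousSubmodule K (GM.om w)) 𝓜 :=
    inferInstanceAs (SetLike.GradedSMul
      (weightedHomogeneousSubmodule K (fun i : Fin 5 => ((1 : ℤ), w i))) 𝓜)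
  obtain ⟨d, br, P⟩ := GM.exists_pairing (w := w) (𝓜 := 𝓜) (fun p _ hp => hfree p hp) hrank
  exact ⟨d, br, P.alt, P.plu, P.hom, P.full⟩

end Pool.Agent.Lib.MP_745d3a_ag.PF.GA

end

section

/-!
From `Bun` to reflexive, punctured free modules of rank two over the polynomial ring, and transport
along an isomorphism with the polynomial ring.

* `Bun.transport`: `e : T ≃+* S` a ring isomorphism with `e (y i) = x i`, `M` a module over both
  rings with `a • m = e a • m`: every clause of `Bun` is translated through `e`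
  (finite: the same generators, `Module.Finite.of_restrictScalars_finite` or span induction;
  `IsRelPrime` is preserved by `e`; primes by `Ideal.comap e` / `Ideal.map`).
* `Bun.finrank_two`: `Module.finrank = 2`: by `lf` at `⊥` there are `m₁, m₂` independent with
  `s • m ∈ span {m₁, m₂}`, `s ≠ 0`. The map `m ↦ s • m` is injective into the free module
  `span {m₁, m₂}` of rank two, which is contained in `M`:
  `LinearMap.finrank_le_finrank_of_injective` twice.
-/

set_option autoImplicit false
set_option linter.unusedSectionVars false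
set_option linter.unusedSimpArgs false
set_option linter.unusedVariables false

open MvPolynomial

namespace Pool.Agent.Lib.MP_745d3a_ag.PF.GA

section

variable {K S ι M : Type*} [Field K] [CommRing S] [Algebra K S] {x : ι → S}
  [AddCommGroup M] [Module S M]

theorem bun_transport {T : Type*} [CommRing T] [Module T M] (e : T ≃+* S)
    (hT : ∀ (a : T) (m : M), a • m = e a • m) {y : ι → T} (hy : ∀ i, e (y i) = x i)
    (hM : Bun x M) : Bun y M := by
  have hS : ∀ (a : S) (m : M), a • m = e.symm a • m := by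
    intro a m
    rw [hT, RingEquiv.apply_symm_apply]
  refine ⟨?_, ?_, ?_, ?_⟩
  · obtain ⟨G, hG⟩ := hM.fin.fg_top
    refine ⟨⟨G, ?_⟩⟩
    rw [eq_top_iff]
    intro m _
    have hm : m ∈ Submodule.span S (G : Set M) := by rw [hG]; trivial
    induction hm using Submodule.span_induction with
    | mem m hm => exact Submodule.subset_span hm
    | zero => exact Submodule.zero_mem _
    | add a b _ _ ha hb => exact Submodule.add_mem _ (ha trivial) (hb trivial)
    | smul a m _ hm =>
      rw [hS]
      exact Submodule.smul_mem _ _ (hm trivial)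
  · intro a m ham
    rw [hT] at ham
    rcases hM.tf _ _ ham with h | h
    · left
      exact (map_eq_zero_iff e e.injective).mp h
    · exact Or.inr h
  · intro a b hab m n hmn
    rw [hT, hT] at hmn
    have hrel : IsRelPrime (e a) (e b) := by
      intro d hda hdb
      have h1 : e.symm d ∣ a := by
        have := map_dvd e.symm hda
        rwa [RingEquiv.symm_apply_apply] at this
      have h2 : e.symm d ∣ b := by
        have := map_dvd e.symm hdb
        rwa [RingEquiv.symm_apply_apply] at this
      have h3 := (hab h1 h2).map e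
      rwa [RingEquiv.apply_symm_apply] at h3
    obtain ⟨k, hk⟩ := hM.ht _ _ hrel m n hmn
    exact ⟨k, by rw [hT, hk]⟩
  · intro p hp ⟨i, hi⟩
    have hq : (p.comap (e.symm : S →+* T)).IsPrime := Ideal.comap_isPrime _ _
    obtain ⟨s, hs, m₁, m₂, h1, h2⟩ := hM.lf (p.comap (e.symm : S →+* T)) hq ⟨i, by
      rw [Ideal.mem_comap]
      show e.symm (x i) ∉ p
      rw [← hy i, RingEquiv.symm_apply_apply]
      exact hi⟩
    refine ⟨e.symm s, fun h => hs (by rw [Ideal.mem_comap]; exact h), m₁, m₂, ?_, ?_⟩
    · intro m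
      obtain ⟨a, b, hab⟩ := h1 m
      refine ⟨e.symm a, e.symm b, ?_⟩
      rw [← hS, ← hS, ← hS]
      exact hab
    · intro a b hab
      rw [hT, hT] at hab
      obtain ⟨h3, h4⟩ := h2 _ _ hab
      exact ⟨(map_eq_zero_iff e e.injective).mp h3, (map_eq_zero_iff e e.injective).mp h4⟩

theorem bun_finrank (hx : Coord K x) [Nonempty ι] (hM : Bun x M) : Module.finrank S M = 2 := by
  classical
  have := hx.isDomain
  have := hM.fin
  obtain ⟨i⟩ := (inferInstance : Nonempty ι)
  obtain ⟨s, hs, m₁, m₂, h1, h2⟩ := hM.lf ⊥ Ideal.isPrime_bot ⟨i, fun h =>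
    (hx.prime_x i).ne_zero h⟩
  have hs0 : s ≠ 0 := fun h => hs (by rw [h]; exact Submodule.zero_mem _)
  have hind : LinearIndependent S ![m₁, m₂] := by
    rw [LinearIndependent.pair_iff]
    exact h2
  have hcard : Module.finrank S (Submodule.span S (Set.range ![m₁, m₂])) = 2 := by
    rw [finrank_span_eq_card hind, Fintype.card_fin]
  have hmem : ∀ m : M, s • m ∈ Submodule.span S (Set.range ![m₁, m₂]) := by
    intro m
    obtain ⟨a, b, hab⟩ := h1 m
    rw [hab]
    exact Submodule.add_mem _ (Submodule.smul_mem _ _ (Submodule.subset_span ⟨0, rfl⟩))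
      (Submodule.smul_mem _ _ (Submodule.subset_span ⟨1, rfl⟩))
  have hfs : Module.Finite S (Submodule.span S (Set.range ![m₁, m₂])) :=
    Module.Finite.span_of_finite S (Set.finite_range _)
  refine le_antisymm ?_ ?_
  · rw [← hcard]
    refine LinearMap.finrank_le_finrank_of_injective
      (f := ((LinearMap.lsmul S M) s).codRestrict (Submodule.span S (Set.range ![m₁, m₂])) hmem) ?_
    intro u v huv
    have h3 : s • u = s • v := congrArg Subtype.val huv
    have h4 : s • (u - v) = 0 := by rw [smul_sub, h3, sub_self]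
    rcases hM.tf _ _ h4 with h5 | h5
    · exact absurd h5 hs0
    · exact sub_eq_zero.mp h5
  · conv_lhs => rw [← hcard]
    exact LinearMap.finrank_le_finrank_of_injective
      (f := (Submodule.span S (Set.range ![m₁, m₂])).subtype) Subtype.val_injective

end

end Pool.Agent.Lib.MP_745d3a_ag.PF.GA

end

section

/-!
Reflexivity and local freeness.

* `Bun.isReflexive`: `Module.IsReflexive` means that the evaluation map is bijective: surjective by
  `Bun.reflexive` (PFBun.lean), injective by `Bun.local` at the prime `⊥` (the functionals `θ₁`,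
  `θ₂` separate the points: `hsep` in the proof of `Bun.reflexive`). See also
  `bun_X` / `IsReflexive` in BS/Gr2.lean.
* `Bun.free_loc`: at a prime `p` missing a coordinate let `s, m₁, m₂` be as in `lf`. The images
  of `m₁`, `m₂` in `LocalizedModule p.primeCompl M` are a basis: `Module.Basis.mk`;
  spanning: `m / t = (a / (s t)) m₁ + (b / (s t)) m₂` with `s • m = a • m₁ + b • m₂`; independence:
  clear denominators and use `tf` and the independence of `m₁, m₂`
  (`LinearIndependent.of_isLocalizedModule` or `LinearIndependent.localization`).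
-/

set_option autoImplicit false
set_option linter.unusedSectionVars false
set_option linter.unusedSimpArgs false
set_option linter.unusedVariables false

open MvPolynomial

namespace Pool.Agent.Lib.MP_745d3a_ag.PF.GA

section

variable {K S ι M : Type*} [Field K] [CommRing S] [Algebra K S] {x : ι → S}
  [AddCommGroup M] [Module S M]

theorem bun_isReflexive (hx : Coord K x) (hM : Bun x M) {i₁ i₂ : ι} (h12 : i₁ ≠ i₂) :
    Module.IsReflexive S M := by
  have := hx.isDomain
  refine ⟨⟨?_, fun φ => ?_⟩⟩
  · rw [injective_iff_map_eq_zero]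
    intro m hm
    obtain ⟨s, hs, m₁, m₂, θ₁, θ₂, hθ, -⟩ := Bun.local hx hM (⊥ : Ideal S) Ideal.isPrime_bot
      ⟨i₁, by rw [Ideal.mem_bot]; exact (hx.prime_x i₁).ne_zero⟩
    have h1 : ∀ θ : M →ₗ[S] S, θ m = 0 := fun θ => DFunLike.congr_fun hm θ
    have h2 := hθ m
    rw [h1 θ₁, h1 θ₂, zero_smul, zero_smul, add_zero] at h2
    refine (hM.tf s m h2).resolve_left ?_
    rwa [Ideal.mem_bot] at hs
  · obtain ⟨m, hm⟩ := Bun.reflexive hx hM h12 φ
    exact ⟨m, LinearMap.ext fun θ => (hm θ).symm⟩

theorem bun_free_loc (hx : Coord K x) (hM : Bun x M) (p : Ideal S) [p.IsPrime]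
    (hi : ∃ i, x i ∉ p) :
    Module.Free (Localization.AtPrime p) (LocalizedModule p.primeCompl M) := by
  obtain ⟨s, hs, m₁, m₂, hspan, hind⟩ := hM.lf p inferInstance hi
  have hli : LinearIndependent S ![m₁, m₂] := by
    rw [LinearIndependent.pair_iff]
    exact hind
  have hli' := hli.of_isLocalizedModule (Localization.AtPrime p) p.primeCompl
    (LocalizedModule.mkLinearMap p.primeCompl M)
  refine Module.Free.of_basis (Module.Basis.mk hli' ?_)
  intro y _
  have hu : ∀ t : S, t ∉ p → IsUnit (algebraMap S (Localization.AtPrime p) t) := fun t ht =>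
    IsLocalization.map_units (Localization.AtPrime p) (⟨t, ht⟩ : p.primeCompl)
  have hf : ∀ m : M, LocalizedModule.mkLinearMap p.primeCompl M m ∈
      Submodule.span (Localization.AtPrime p)
        (Set.range (LocalizedModule.mkLinearMap p.primeCompl M ∘ ![m₁, m₂])) := by
    intro m
    obtain ⟨a, b, hab⟩ := hspan m
    rw [← Submodule.smul_mem_iff_of_isUnit _ (hu s hs), algebraMap_smul, ← map_smul, hab, map_add,
      map_smul, map_smul, ← algebraMap_smul (Localization.AtPrime p) a,
      ← algebraMap_smul (Localization.AtPrime p) b]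
    exact add_mem (Submodule.smul_mem _ _ (Submodule.subset_span ⟨0, rfl⟩))
      (Submodule.smul_mem _ _ (Submodule.subset_span ⟨1, rfl⟩))
  obtain ⟨⟨m, t⟩, ht⟩ := IsLocalizedModule.surj p.primeCompl
    (LocalizedModule.mkLinearMap p.primeCompl M) y
  rw [← Submodule.smul_mem_iff_of_isUnit _ (hu t t.2), algebraMap_smul]
  have h3 : (t : S) • y = LocalizedModule.mkLinearMap p.primeCompl M m := ht
  rw [h3]
  exact hf m

end

end Pool.Agent.Lib.MP_745d3a_ag.PF.GA

end

section

/-!
The theorem on multiplicative group actions in terms of operators.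

`M` is a module over `T = MvPolynomial (Fin 5) K` through `hx.equiv : T ≃ₐ[K] S`
(`let : Module T M := Module.compHom M hx.equiv.toRingHom`; keep the instance local to the proof).
`bun_transport`, `bun_isReflexive`, `bun_finrank`, `bun_free_loc` (for the coordinates `X`:
`Coord K X` holds, see `coord_X` in BS/Gr2.lean or prove it: `aeval X = id`) give the hypotheses of
`gm_main`. The grading: `𝓜 (n, l) := {m | ε m = n • m ∧ η m = l • m}` (additive subgroups).
Decomposition: `m = ∑ comp ε n (comp η l m)` (`exists_comp` twice, `comp_comm`), independence: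
`eig_indep` / `comp_unique`; build `DirectSum.Decomposition` with `Decomposition.ofAddHom` or from
`DirectSum.IsInternal` (`DirectSum.IsInternal.chooseDecomposition`). `SetLike.GradedSMul`: for a
weighted homogeneous `p` of weight `(a, b)` one has `E (hx.equiv p) = a • hx.equiv p`,
`H (hx.equiv p) = b • hx.equiv p`: `p` is a sum of monomials `X ^ e` of weight `(a, b)`, and
`E (∏ x i ^ e i) = (∑ e i) • ..` (`Derivation.leibniz_prod`/ induction; or prove it for
`weightedHomogeneousSubmodule` by `weightedHomogeneousSubmodule_eq_finsupp_supported` and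
`Submodule.span_induction`), then `cE`, `cH`. See BS/Gr.lean and `gradOp_conn` (PFFin.lean) for the
opposite translation. At the end translate the basis `b` back: `f1 = b 0`, `f2 = b 1`,
every `m` is `(b.repr m 0) • b 0 + (b.repr m 1) • b 1` (`Fin.sum_univ_two`), apply `hx.equiv`.
-/

set_option autoImplicit false
set_option linter.unusedSectionVars false
set_option linter.unusedSimpArgs false
set_option linter.unusedVariables false

open MvPolynomial

namespace Pool.Agent.Lib.MP_745d3a_ag.PF.GA

section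

variable {K S M : Type*} [Field K] [CommRing S] [Algebra K S]
  {x : Fin 5 → S} {wt : Fin 5 → ℤ} {D : Derivation K S S}

private lemma gmop_pow (hD : ∀ i, D (x i) = (wt i : K) • x i) (i : Fin 5) (n : ℕ) :
    D (x i ^ n) = ((n : K) * wt i) • x i ^ n := by
  induction n with
  | zero => simp
  | succ n ih =>
    rw [pow_succ, Derivation.leibniz, ih, hD i, smul_eq_mul, smul_eq_mul, Nat.cast_add,
      Nat.cast_one, add_mul, one_mul, add_smul, mul_smul_comm, mul_smul_comm,
      mul_comm (x i) (x i ^ n), add_comm]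

private lemma gmop_prod (hD : ∀ i, D (x i) = (wt i : K) • x i) (ν : Fin 5 → ℕ)
    (s : Finset (Fin 5)) :
    D (∏ i ∈ s, x i ^ ν i) = (∑ i ∈ s, (ν i : K) * wt i) • ∏ i ∈ s, x i ^ ν i := by
  classical
  induction s using Finset.induction_on with
  | empty => simp
  | insert a s ha ih =>
    rw [Finset.prod_insert ha, Finset.sum_insert ha, Derivation.leibniz, ih, gmop_pow hD,
      smul_eq_mul, smul_eq_mul, add_smul, mul_smul_comm, mul_smul_comm,
      mul_comm (∏ i ∈ s, x i ^ ν i) (x a ^ ν a), add_comm]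

private lemma gmop_hom (hx : Coord K x) (hD : ∀ i, D (x i) = (wt i : K) • x i) {k : K}
    {p : MvPolynomial (Fin 5) K}
    (hp : ∀ ν, coeff ν p ≠ 0 → ∑ i, (ν i : K) * wt i = k) :
    D (hx.equiv p) = k • hx.equiv p := by
  have h1 : hx.equiv p = ∑ ν ∈ p.support, (coeff ν p) • ∏ i, x i ^ ν i := by
    conv_lhs => rw [p.as_sum]
    rw [map_sum]
    refine Finset.sum_congr rfl fun ν _ => ?_
    show aeval x (monomial ν (coeff ν p)) = _
    rw [aeval_monomial, Algebra.smul_def, Finsupp.prod_fintype _ _ (by intro i; simp)]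
  rw [h1, map_sum, Finset.smul_sum]
  refine Finset.sum_congr rfl fun ν hν => ?_
  rw [Derivation.map_smul, gmop_prod hD, hp ν (mem_support_iff.mp hν), smul_comm]

end

section

variable {K M : Type*} [Field K] [CharZero K] [AddCommGroup M] [Module K M] {ε η : M →ₗ[K] M}

/-- The common eigenspaces. -/
private def gmGr (ε η : M →ₗ[K] M) (g : ℤ × ℤ) : AddSubgroup M where
  carrier := {m | ε m = (g.1 : K) • m ∧ η m = (g.2 : K) • m}
  add_mem' := by
    rintro a b ⟨h1, h2⟩ ⟨h3, h4⟩
    exact ⟨by rw [map_add, h1, h3, smul_add], by rw [map_add, h2, h4, smul_add]⟩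
  zero_mem' := ⟨by rw [map_zero, smul_zero], by rw [map_zero, smul_zero]⟩
  neg_mem' := by
    rintro a ⟨h1, h2⟩
    exact ⟨by rw [map_neg, h1, smul_neg], by rw [map_neg, h2, smul_neg]⟩

private lemma gmGr_mem {g : ℤ × ℤ} {m : M} :
    m ∈ gmGr ε η g ↔ ε m = (g.1 : K) • m ∧ η m = (g.2 : K) • m := Iff.rfl

private lemma gmGr_internal (dE : Diag ε) (dH : Diag η) (hc : ∀ m, ε (η m) = η (ε m)) :
    DirectSum.IsInternal (gmGr ε η) := by
  classical
  constructor
  · rw [injective_iff_map_eq_zero]
    intro z hz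
    have hproj : ∀ (g : ℤ × ℤ) (i : ℤ × ℤ) (y : M), y ∈ gmGr ε η i →
        compL dE g.1 (compL dH g.2 y) = if i = g then y else 0 := by
      intro g i y hy
      show PF.comp ε g.1 (PF.comp η g.2 y) = _
      by_cases h2 : g.2 = i.2
      · rw [h2, comp_of_eig hy.2]
        by_cases h1 : g.1 = i.1
        · rw [h1, comp_of_eig hy.1, if_pos (Prod.ext h1.symm h2.symm)]
        · rw [comp_of_ne hy.1 h1, if_neg]
          intro h3
          exact h1 (by rw [h3])
      · rw [comp_of_ne hy.2 h2, comp_zero, if_neg]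
        intro h3
        exact h2 (by rw [h3])
    ext g
    rw [DirectSum.coeAddMonoidHom_eq_dfinsuppSum, DFinsupp.sum] at hz
    have h1 := congrArg (fun y => compL dE g.1 (compL dH g.2 y)) hz
    simp only [map_sum, map_zero] at h1
    rw [Finset.sum_congr rfl (fun i _ => hproj g i (z i) (z i).2)] at h1
    rw [Finset.sum_ite_eq'] at h1
    by_cases hg : g ∈ DFinsupp.support z
    · rw [if_pos hg] at h1
      rw [h1]
      rfl
    · have h2 : z g = 0 := by simpa using hg
      rw [h2]
      rfl
  · have hof : ∀ (g : ℤ × ℤ) (y : M), y ∈ gmGr ε η g →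
        y ∈ (DirectSum.coeAddMonoidHom (gmGr ε η)).range := by
      intro g y hy
      exact ⟨DirectSum.of (fun g => gmGr ε η g) g ⟨y, hy⟩, DirectSum.coeAddMonoidHom_of _ _ _⟩
    intro m
    have hm : m ∈ (DirectSum.coeAddMonoidHom (gmGr ε η)).range := by
      obtain ⟨s, hs, _⟩ := exists_comp dE m
      rw [hs]
      refine AddSubgroup.sum_mem _ fun n _ => ?_
      obtain ⟨t, ht, _⟩ := exists_comp dH (PF.comp ε n m)
      rw [ht]
      refine AddSubgroup.sum_mem _ fun l _ => ?_
      refine hof (n, l) _ ⟨?_, comp_eig dH l _⟩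
      have h1 := comp_shift (T := η) (T' := η) dH ε.toAddMonoidHom 0 (by
        intro v d hv
        show η (ε v) = _
        rw [← hc, hv, map_smul, add_zero]
        rfl) l (PF.comp ε n m)
      rw [add_zero] at h1
      have h2 : ε (PF.comp η l (PF.comp ε n m)) = PF.comp η l (ε (PF.comp ε n m)) := h1.symm
      show ε (PF.comp η l (PF.comp ε n m)) = (n : K) • PF.comp η l (PF.comp ε n m)
      rw [h2, comp_eig dE, comp_smulK dH]
    obtain ⟨z, hz⟩ := hm
    exact ⟨z, hz⟩

end

section

universe uM

variable {K S : Type*} {M : Type uM} [Field K] [CharZero K] [IsAlgClosed K] [CommRing S] [Algebra K S]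
  {x : Fin 5 → S} {w : Fin 5 → ℤ} {E H : Derivation K S S} [AddCommGroup M] [Module K M]
  [Module S M] [IsScalarTower K S M] {ε η : M →ₗ[K] M}

theorem gm_op (hG : GmThm.{uM} K) (hx : Coord K x) (hE : IsEuler x E) (hH : ∀ i, H (x i) = (w i : K) • x i)
    (hw : ∃ i j, w i ≠ w j) (cE : IsConn E ε) (dE : Diag ε) (cH : IsConn H η) (dH : Diag η)
    (hc : ∀ m, ε (η m) = η (ε m)) (hM : Bun x M) :
    ∃ (f1 f2 : M) (n1 l1 n2 l2 : ℤ), ε f1 = (n1 : K) • f1 ∧ η f1 = (l1 : K) • f1 ∧
      ε f2 = (n2 : K) • f2 ∧ η f2 = (l2 : K) • f2 ∧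
      (∀ m, ∃ a b : S, m = a • f1 + b • f2) ∧
      (∀ a b : S, a • f1 + b • f2 = 0 → a = 0 ∧ b = 0) := by
  classical
  let iT : Module (MvPolynomial (Fin 5) K) M :=
    Module.compHom M ((hx.equiv.toRingEquiv : MvPolynomial (Fin 5) K ≃+* S) :
      MvPolynomial (Fin 5) K →+* S)
  have hT : ∀ (a : MvPolynomial (Fin 5) K) (m : M), a • m = hx.equiv a • m := fun _ _ => rfl
  have hcX : Coord K (X : Fin 5 → MvPolynomial (Fin 5) K) := by
    constructor
    rw [aeval_X_left]
    exact Function.bijective_id
  have hB : Bun (X : Fin 5 → MvPolynomial (Fin 5) K) M :=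
    bun_transport hx.equiv.toRingEquiv hT (fun i => hx.equiv_X i) hM
  have : Module.Finite (MvPolynomial (Fin 5) K) M := hB.fin
  have : Module.IsReflexive (MvPolynomial (Fin 5) K) M :=
    bun_isReflexive hcX hB (i₁ := 0) (i₂ := 1) (by decide)
  have hrank : Module.finrank (MvPolynomial (Fin 5) K) M = 2 := bun_finrank hcX hB
  have hfree : ∀ (p : Ideal (MvPolynomial (Fin 5) K)) [p.IsPrime],
      (∃ i, (X i : MvPolynomial (Fin 5) K) ∉ p) →
        Module.Free (Localization.AtPrime p) (LocalizedModule p.primeCompl M) :=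
    fun p _ hi => bun_free_loc hcX hB p hi
  let iD : DirectSum.Decomposition (gmGr ε η) := (gmGr_internal dE dH hc).chooseDecomposition
  -- weights
  have hwt : ∀ (p : MvPolynomial (Fin 5) K) (g : ℤ × ℤ),
      IsWeightedHomogeneous (fun i : Fin 5 => ((1 : ℤ), w i)) p g →
      E (hx.equiv p) = (g.1 : K) • hx.equiv p ∧ H (hx.equiv p) = (g.2 : K) • hx.equiv p := by
    intro p g hp
    have h1 : ∀ ν, coeff ν p ≠ 0 → (∑ i, (ν i : ℤ), ∑ i, (ν i : ℤ) * w i) = g := by
      intro ν hν
      rw [← hp hν, Finsupp.weight_apply, Finsupp.sum_fintype _ _ (by intro i; simp)]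
      refine Prod.ext ?_ ?_
      · simp [Prod.fst_sum]
      · simp [Prod.snd_sum]
    refine ⟨?_, ?_⟩
    · refine gmop_hom (wt := fun _ => 1) hx (fun i => by rw [hE i]; simp) ?_
      intro ν hν
      rw [← h1 ν hν]
      push_cast
      simp
    · refine gmop_hom (wt := w) hx hH ?_
      intro ν hν
      rw [← h1 ν hν]
      push_cast
      rfl
  have iG : SetLike.GradedSMul
      (weightedHomogeneousSubmodule K (fun i : Fin 5 => ((1 : ℤ), w i))) (gmGr ε η) := by
    constructor
    intro g h p m hp hm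
    obtain ⟨h1, h2⟩ := hwt p g hp
    obtain ⟨h3, h4⟩ := gmGr_mem.1 hm
    rw [vadd_eq_add, hT]
    refine ⟨?_, ?_⟩
    · rw [cE, h1, h3, Prod.fst_add, Int.cast_add, add_smul, smul_assoc,
        smul_comm (hx.equiv p) (h.1 : K) m]
    · rw [cH, h2, h4, Prod.snd_add, Int.cast_add, add_smul, smul_assoc,
        smul_comm (hx.equiv p) (h.2 : K) m]
  obtain ⟨b, d, hb⟩ := hG w hw M hrank hfree (gmGr ε η)
  obtain ⟨h1, h2⟩ := gmGr_mem.1 (hb 0)
  obtain ⟨h3, h4⟩ := gmGr_mem.1 (hb 1)
  refine ⟨b 0, b 1, (d 0).1, (d 0).2, (d 1).1, (d 1).2, h1, h2, h3, h4, ?_, ?_⟩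
  · intro m
    refine ⟨hx.equiv (b.repr m 0), hx.equiv (b.repr m 1), ?_⟩
    have h5 := b.sum_repr m
    rw [Fin.sum_univ_two] at h5
    exact h5.symm
  · intro a c hac
    obtain ⟨a', rfl⟩ := hx.equiv.surjective a
    obtain ⟨c', rfl⟩ := hx.equiv.surjective c
    have h5 : ∑ i, (![a', c'] i) • b i = 0 := by
      rw [Fin.sum_univ_two]
      exact hac
    have h6 := Fintype.linearIndependent_iff.1 b.linearIndependent ![a', c'] h5
    have h7 : a' = 0 := h6 0
    have h8 : c' = 0 := h6 1
    rw [h7, h8, map_zero]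
    exact ⟨rfl, rfl⟩

end

end Pool.Agent.Lib.MP_745d3a_ag.PF.GA

end
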