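import Pool.Agent.Lib.MP_745d3a_ag.NV.Defs
import Pool.Agent.Lib.MP_745d3a_ag.NV.Tr
import Pool.Agent.Lib.MP_745d3a_ag.NV.Alg

section

/-!
Generalised eigenspaces.

* `fd_piece`: as in the proof of `exists_eigenvector` (PFBun.lean): with the same `F`, `G`, `W`, the
  eigenspace is contained in the finite-dimensional space `W` (take `L = ⊤` there).
* `iSup_gen`: `m` is the sum of its `ε`-components (`exists_comp`), so let `ε m = d • m`. The
  eigenspace `V_d` of `ε` is finite-dimensional and stable under `φ` (`hφ`). For the restriction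
  `φ_d` of `φ` to `V_d`: `Module.End.iSup_maxGenEigenspace_eq_top`, and
  `maxGenEigenspace φ_d μ` maps into `maxGenEigenspace φ μ` (`Module.End.maxGenEigenspace` :
  `∃ k, (φ - μ) ^ k m = 0`, `Module.End.mem_maxGenEigenspace`; see also
  `Module.End.genEigenspace_restrict`).
* `gen_smul`: `(δ - (α + μ)) (a • m) = (D a - α a) • m + a • (δ m - μ m)`, so by induction on
  `k + l`: `(D - α) ^ k a = 0` and `(δ - μ) ^ l m = 0` imply `(δ - (α + μ)) ^ (k + l) (a • m) = 0`.
* `eig_add` (`gen_add`): sums: submodule.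
-/

set_option autoImplicit false
set_option linter.unusedSectionVars false
set_option linter.unusedSimpArgs false
set_option linter.unusedVariables false

open MvPolynomial

namespace Pool.Agent.Lib.MP_745d3a_ag.PF.GA

section

variable {K S ι M : Type*} [Field K] [CharZero K] [CommRing S] [Algebra K S] {x : ι → S}
  {E D : Derivation K S S} [AddCommGroup M] [Module K M] [Module S M]
  [IsScalarTower K S M] {ε δ : M →ₗ[K] M}

theorem fd_piece [Finite ι] (hx : Coord K x) (hE : IsEuler x E) (cE : IsConn E ε) (dE : Diag ε)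
    [Module.Finite S M] (d : ℤ) :
    FiniteDimensional K (Module.End.eigenspace (ε : Module.End K M) (d : K)) := by
  classical
  have := hx.noeth
  let F : Submodule S M :=
    { carrier := {m | ∀ k < d, comp ε k m = 0}
      add_mem' := fun {a b} ha hb k hk => by rw [comp_add dE, ha k hk, hb k hk, add_zero]
      zero_mem' := fun k _ => comp_zero k
      smul_mem' := fun a m hm k hk => by
        obtain ⟨t, ht⟩ := comp_smul cE dE (euler_diag hx hE) a k m
        rw [ht]
        refine Finset.sum_eq_zero fun i _ => ?_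
        by_cases hi : i < 0
        · rw [(euler_comp hx hE a).1 i hi, zero_smul]
        · rw [hm (k - i) (by omega), smul_zero] }
  obtain ⟨G, hG⟩ := (isNoetherian_def.mp inferInstance F : F.FG)
  let W : Submodule K M := Submodule.span K (G.image (comp ε d) : Set M)
  have hFW : ∀ m ∈ F, comp ε d m ∈ W := by
    intro m hm
    have hGF : ∀ g ∈ G, g ∈ F := fun g hg => hG ▸ Submodule.subset_span hg
    rw [← hG] at hm
    induction hm using Submodule.span_induction with
    | mem g hg =>
      refine Submodule.subset_span ?_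
      rw [Finset.coe_image]
      exact ⟨g, hg, rfl⟩
    | zero => rw [comp_zero]; exact W.zero_mem
    | add a b _ _ ha hb => rw [comp_add dE]; exact W.add_mem ha hb
    | smul a g hg ihg =>
      rw [hG] at hg
      obtain ⟨t, ht⟩ := comp_smul cE dE (euler_diag hx hE) a d g
      rw [ht]
      refine W.sum_mem fun i _ => ?_
      rcases lt_trichotomy i 0 with hi | hi | hi
      · rw [(euler_comp hx hE a).1 i hi, zero_smul]; exact W.zero_mem
      · subst hi
        obtain ⟨c, hc⟩ := (euler_comp hx hE a).2.1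
        rw [hc, algebraMap_smul, sub_zero]
        exact W.smul_mem _ ihg
      · rw [hg (d - i) (by omega), smul_zero]; exact W.zero_mem
  have hLdW : (Module.End.eigenspace (ε : Module.End K M) (d : K)) ≤ W := by
    intro m hm
    rw [Module.End.mem_eigenspace_iff] at hm
    have h1 : m ∈ F := by
      intro k hk
      exact comp_of_ne hm (ne_of_lt hk)
    have h2 := hFW m h1
    rwa [comp_of_eig hm] at h2
  have : FiniteDimensional K W := FiniteDimensional.span_finset K _
  exact Submodule.finiteDimensional_of_le hLdW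

theorem iSup_gen [IsAlgClosed K] [Finite ι] (hx : Coord K x) (hE : IsEuler x E)
    (cE : IsConn E ε) (dE : Diag ε) [Module.Finite S M] (φ : M →ₗ[K] M)
    (hφ : ∀ m, ε (φ m) = φ (ε m)) :
    ⨆ μ : K, Module.End.maxGenEigenspace (φ : Module.End K M) μ = ⊤ := by
  classical
  rw [eq_top_iff]
  intro m _
  obtain ⟨s, hs, _⟩ := exists_comp dE m
  rw [hs]
  refine Submodule.sum_mem _ fun d _ => ?_
  have hfd := fd_piece hx hE cE dE d
  have hst : ∀ v ∈ Module.End.eigenspace (ε : Module.End K M) (d : K),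
      (φ : Module.End K M) v ∈ Module.End.eigenspace (ε : Module.End K M) (d : K) := by
    intro v hv
    rw [Module.End.mem_eigenspace_iff] at hv ⊢
    rw [hφ, hv, map_smul]
  have htop := Module.End.iSup_maxGenEigenspace_eq_top (LinearMap.restrict (φ : Module.End K M) hst)
  have hmem : comp ε d m ∈ Module.End.eigenspace (ε : Module.End K M) (d : K) := by
    rw [Module.End.mem_eigenspace_iff]
    exact comp_eig dE d m
  have h1 : (⟨comp ε d m, hmem⟩ : Module.End.eigenspace (ε : Module.End K M) (d : K)) ∈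
      (⨆ μ, Module.End.maxGenEigenspace (LinearMap.restrict (φ : Module.End K M) hst) μ) := by
    rw [htop]; trivial
  have h2 := Submodule.mem_map_of_mem
    (f := (Module.End.eigenspace (ε : Module.End K M) (d : K)).subtype) h1
  rw [Submodule.map_iSup] at h2
  have h3 : ∀ μ : K, Submodule.map
      (Module.End.eigenspace (ε : Module.End K M) (d : K)).subtype
      (Module.End.maxGenEigenspace (LinearMap.restrict (φ : Module.End K M) hst) μ) ≤
      Module.End.maxGenEigenspace (φ : Module.End K M) μ := by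
    intro μ
    rintro _ ⟨v, hv, rfl⟩
    rw [SetLike.mem_coe, Module.End.maxGenEigenspace, Module.End.genEigenspace_restrict] at hv
    exact hv
  exact iSup_mono h3 h2

private lemma B1_gen_aux (cD : IsConn D δ) {α μ : K} (n : ℕ) : ∀ (k l : ℕ), k + l = n →
    ∀ (a : S) (m : M),
      ((((D : S →ₗ[K] S) : Module.End K S) - algebraMap K (Module.End K S) α) ^ k) a = 0 →
      (((δ : Module.End K M) - algebraMap K (Module.End K M) μ) ^ l) m = 0 →
      (((δ : Module.End K M) - algebraMap K (Module.End K M) (α + μ)) ^ n) (a • m) = 0 := by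
  induction n with
  | zero =>
    intro k l hkl a m ha hm
    obtain rfl : k = 0 := by omega
    rw [pow_zero, Module.End.one_apply] at ha
    rw [ha, zero_smul, map_zero]
  | succ n ih =>
    intro k l hkl a m ha hm
    rcases Nat.eq_zero_or_pos k with rfl | hk
    · rw [pow_zero, Module.End.one_apply] at ha
      rw [ha, zero_smul, map_zero]
    rcases Nat.eq_zero_or_pos l with rfl | hl
    · rw [pow_zero, Module.End.one_apply] at hm
      rw [hm, smul_zero, map_zero]
    obtain ⟨k, rfl⟩ : ∃ k', k = k' + 1 := ⟨k - 1, by omega⟩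
    obtain ⟨l, rfl⟩ : ∃ l', l = l' + 1 := ⟨l - 1, by omega⟩
    rw [pow_succ, Module.End.mul_apply] at ha hm ⊢
    have h1 : ((δ : Module.End K M) - algebraMap K (Module.End K M) (α + μ)) (a • m) =
        ((((D : S →ₗ[K] S) : Module.End K S) - algebraMap K (Module.End K S) α) a) • m +
          a • (((δ : Module.End K M) - algebraMap K (Module.End K M) μ) m) := by
      rw [LinearMap.sub_apply, LinearMap.sub_apply, LinearMap.sub_apply,
        Module.algebraMap_end_apply, Module.algebraMap_end_apply, Module.algebraMap_end_apply]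
      rw [cD, sub_smul, smul_sub, add_smul, smul_assoc, smul_comm a μ m]
      show D a • m + a • δ m - (α • a • m + μ • a • m) = D a • m - α • a • m +
        (a • δ m - μ • a • m)
      abel
    rw [h1, map_add]
    rw [ih k (l + 1) (by omega) _ m ha (by rw [pow_succ, Module.End.mul_apply]; exact hm),
      ih (k + 1) l (by omega) a _ (by rw [pow_succ, Module.End.mul_apply]; exact ha) hm, add_zero]

theorem gen_smul (cD : IsConn D δ) {a : S} {m : M} {α μ : K}
    (ha : a ∈ Module.End.maxGenEigenspace ((D : S →ₗ[K] S) : Module.End K S) α)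
    (hm : m ∈ Module.End.maxGenEigenspace (δ : Module.End K M) μ) :
    a • m ∈ Module.End.maxGenEigenspace (δ : Module.End K M) (α + μ) := by
  rw [Module.End.mem_maxGenEigenspace] at ha hm ⊢
  obtain ⟨k, hk⟩ := ha
  obtain ⟨l, hl⟩ := hm
  refine ⟨k + l, ?_⟩
  have := B1_gen_aux cD (k + l) k l rfl a m (α := α) (μ := μ)
    (by rw [Algebra.algebraMap_eq_smul_one]; exact hk)
    (by rw [Algebra.algebraMap_eq_smul_one]; exact hl)
  rw [Algebra.algebraMap_eq_smul_one] at this
  exact this

end

end Pool.Agent.Lib.MP_745d3a_ag.PF.GA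

end

section

/-!
The dichotomy for a connection along a locally nilpotent derivation.

`M^μ := maxGenEigenspace δ μ`. Every `a : S` is in `maxGenEigenspace D 0` (`hnil`), so
`a • M^μ ⊆ M^μ` (`gen_smul`). The `M^μ` are independent
(`Module.End.independent_maxGenEigenspace`) and span `M` (`iSup_gen`).
If at most one `M^μ` is nonzero then `M^μ = ⊤` for some `μ`: second alternative
(`Module.End.mem_maxGenEigenspace`; `sh δ μ = δ - μ`). Otherwise there are `μ ≠ μ'` with
`0 ≠ w ∈ M^μ`, `0 ≠ w' ∈ M^μ'`.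
* No third eigenvalue: `0 ≠ w'' ∈ M^μ''`; a nontrivial relation `a • w + b • w' + c • w'' = 0`
  (`d2_dep` in PFBun.lean) splits by independence, so `a = b = c = 0` (`tf`). Hence
  `M = M^μ + M^μ'` (as `⨆ = M^μ ⊔ M^μ'`).
* `M^μ` is a submodule `N_μ` over `S`; it is saturated: `a • m ∈ M^μ`, `a ≠ 0`, `m = u + u'`: `a • u'`
  is in `M^μ ∩ M^μ' = 0`, so `u' = 0`. Any two elements `u, v` of it are dependent: a
  nontrivial relation `a • u + b • v + c • w' = 0` gives `c • w' = 0`, `c = 0`. `d2_cyclic`
  (PFBun.lean): `N_μ` is cyclic, same for `μ'`, so `Gen2 S M`.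
-/

set_option autoImplicit false
set_option linter.unusedSectionVars false
set_option linter.unusedSimpArgs false
set_option linter.unusedVariables false

open MvPolynomial

namespace Pool.Agent.Lib.MP_745d3a_ag.PF.GA

section

variable {K S ι M : Type*} [Field K] [CharZero K] [CommRing S] [Algebra K S] {x : ι → S}
  {E D : Derivation K S S} [AddCommGroup M] [Module K M] [Module S M]
  [IsScalarTower K S M] {ε δ : M →ₗ[K] M}

theorem nil_dich [IsAlgClosed K] [Finite ι] [Nonempty ι] (h : Sys x E D ε δ)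
    (hnil : ∀ a : S, ∃ k : ℕ, (D : S → S)^[k] a = 0) :
    Gen2 S M ∨ ∃ μ : K, ∀ m, ∃ k : ℕ, (sh δ μ : M → M)^[k] m = 0 := by
  classical
  have hfin := h.bun.fin
  have hdom := h.cx.isDomain
  let G : K → Submodule K M := fun μ => Module.End.maxGenEigenspace (δ : Module.End K M) μ
  have ind : iSupIndep G := Module.End.independent_maxGenEigenspace δ
  have sup : ⨆ μ, G μ = ⊤ := iSup_gen h.cx h.eu h.cE h.dg δ h.comm
  have hD : ∀ a : S, a ∈ Module.End.maxGenEigenspace ((D : S →ₗ[K] S) : Module.End K S) 0 := by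
    intro a
    obtain ⟨k, hk⟩ := hnil a
    rw [Module.End.mem_maxGenEigenspace]
    refine ⟨k, ?_⟩
    rw [zero_smul, sub_zero, Module.End.pow_apply]
    exact hk
  have hsm : ∀ (a : S) (μ : K) (m : M), m ∈ G μ → a • m ∈ G μ := by
    intro a μ m hm
    have := gen_smul h.cD (hD a) hm
    rwa [zero_add] at this
  have dj : ∀ (μ : K) (u v : M), u ∈ G μ → (v ∈ ⨆ j, ⨆ (_ : j ≠ μ), G j) → u + v = 0 →
      u = 0 := by
    intro μ u v hu hv huv
    refine Submodule.disjoint_def.mp (ind μ) u hu ?_
    rw [eq_neg_of_add_eq_zero_left huv]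
    exact Submodule.neg_mem _ hv
  have hle : ∀ (μ ν : K), ν ≠ μ → G ν ≤ ⨆ j, ⨆ (_ : j ≠ μ), G j := by
    intro μ ν hn
    exact le_iSup₂_of_le ν hn le_rfl
  by_cases H : ∃ μ, ∀ ν, ν ≠ μ → G ν = ⊥
  · right
    obtain ⟨μ, hμ⟩ := H
    refine ⟨μ, fun m => ?_⟩
    have hm : m ∈ G μ := by
      have h1 : (⊤ : Submodule K M) ≤ G μ := by
        rw [← sup]
        refine iSup_le fun ν => ?_
        by_cases hn : ν = μ
        · rw [hn]
        · rw [hμ ν hn]; exact bot_le
      exact h1 trivial
    obtain ⟨k, hk⟩ := (Module.End.mem_maxGenEigenspace _ _ _).mp hm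
    refine ⟨k, ?_⟩
    rw [← Module.End.pow_apply]
    exact hk
  · left
    push Not at H
    obtain ⟨μ₁, _, h1⟩ := H 0
    obtain ⟨μ₂, h12, h2⟩ := H μ₁
    obtain ⟨w₁, hw₁, hw₁0⟩ := Submodule.exists_mem_ne_zero_of_ne_bot h1
    obtain ⟨w₂, hw₂, hw₂0⟩ := Submodule.exists_mem_ne_zero_of_ne_bot h2
    have tf0 : ∀ (a : S) (m : M), m ≠ 0 → a • m = 0 → a = 0 := by
      intro a m hm ham
      rcases h.bun.tf a m ham with h3 | h3
      · exact h3
      · exact absurd h3 hm
    -- there is no third eigenvalue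
    have h3 : ∀ ν, ν ≠ μ₁ → ν ≠ μ₂ → G ν = ⊥ := by
      intro ν hν1 hν2
      by_contra hne
      obtain ⟨w, hw, hw0⟩ := Submodule.exists_mem_ne_zero_of_ne_bot hne
      obtain ⟨a, b, c, habc, hrel⟩ := d2_dep h.cx h.bun w₁ w₂ w
      have ha : a = 0 := by
        refine tf0 a w₁ hw₁0 (dj μ₁ _ (b • w₂ + c • w) (hsm a _ _ hw₁) ?_ (by rw [← add_assoc]; exact hrel))
        exact Submodule.add_mem _ (hle _ _ h12 (hsm b _ _ hw₂)) (hle _ _ hν1 (hsm c _ _ hw))
      have hb : b = 0 := by
        refine tf0 b w₂ hw₂0 (dj μ₂ _ (a • w₁ + c • w) (hsm b _ _ hw₂) ?_ ?_)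
        · exact Submodule.add_mem _ (hle _ _ (Ne.symm h12) (hsm a _ _ hw₁))
            (hle _ _ hν2 (hsm c _ _ hw))
        · rw [← hrel]; abel
      have hc : c = 0 := by
        rw [ha, hb, zero_smul, zero_smul, zero_add, zero_add] at hrel
        exact tf0 c w hw0 hrel
      rcases habc with h4 | h4 | h4
      · exact h4 ha
      · exact h4 hb
      · exact h4 hc
    have hsum : ∀ m : M, ∃ u ∈ G μ₁, ∃ v ∈ G μ₂, u + v = m := by
      intro m
      have h4 : (⊤ : Submodule K M) ≤ G μ₁ ⊔ G μ₂ := by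
        rw [← sup]
        refine iSup_le fun ν => ?_
        by_cases hn : ν = μ₁
        · rw [hn]; exact le_sup_left
        · by_cases hn' : ν = μ₂
          · rw [hn']; exact le_sup_right
          · rw [h3 ν hn hn']; exact bot_le
      exact Submodule.mem_sup.mp (h4 trivial)
    let N : K → Submodule S M := fun μ =>
      { carrier := {m | m ∈ G μ}
        add_mem' := fun {m n} hm hn => (G μ).add_mem hm hn
        zero_mem' := (G μ).zero_mem
        smul_mem' := fun a m hm => hsm a μ m hm }
    have key : ∀ μ ν : K, μ ≠ ν → (∀ m : M, ∃ u ∈ G μ, ∃ v ∈ G ν, u + v = m) →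
        (∃ w ∈ G ν, w ≠ 0) → ∃ e ∈ N μ, ∀ m ∈ N μ, ∃ c : S, m = c • e := by
      intro μ ν hn hs hw
      obtain ⟨w, hw, hw0⟩ := hw
      refine d2_cyclic h.cx h.bun (N μ) ?_ ?_
      · intro a m ha ham
        obtain ⟨u, hu, v, hv, rfl⟩ := hs m
        have h5 : a • v = 0 := by
          have h6 : a • v ∈ G μ := by
            have h7 : a • (u + v) ∈ G μ := ham
            have h8 := (G μ).sub_mem h7 (hsm a _ _ hu)
            rwa [smul_add, add_sub_cancel_left] at h8
          refine Submodule.disjoint_def.mp (ind μ) _ h6 (hle _ _ (Ne.symm hn) (hsm a _ _ hv))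
        have h9 : v = 0 := (h.bun.tf a v h5).resolve_left ha
        rw [h9, add_zero]
        exact hu
      · intro u hu v hv
        obtain ⟨a, b, c, habc, hrel⟩ := d2_dep h.cx h.bun u v w
        have hc : c = 0 := by
          refine tf0 c w hw0 (dj ν _ (a • u + b • v) (hsm c _ _ hw) ?_ ?_)
          · exact hle _ _ hn ((G μ).add_mem (hsm a _ _ hu) (hsm b _ _ hv))
          · rw [← hrel]; abel
        rw [hc, zero_smul, add_zero] at hrel
        refine ⟨a, -b, ?_, ?_⟩
        · rcases habc with h4 | h4 | h4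
          · exact Or.inl h4
          · exact Or.inr (neg_ne_zero.mpr h4)
          · exact absurd hc h4
        · rw [neg_smul]
          exact eq_neg_of_add_eq_zero_left hrel
    obtain ⟨e₁, _, he₁⟩ := key μ₁ μ₂ (Ne.symm h12) hsum ⟨w₂, hw₂, hw₂0⟩
    obtain ⟨e₂, _, he₂⟩ := key μ₂ μ₁ h12 (fun m => by
      obtain ⟨u, hu, v, hv, huv⟩ := hsum m
      exact ⟨v, hv, u, hu, by rw [add_comm]; exact huv⟩) ⟨w₁, hw₁, hw₁0⟩
    refine ⟨e₁, e₂, fun m => ?_⟩
    obtain ⟨u, hu, v, hv, rfl⟩ := hsum m
    obtain ⟨c₁, hc₁⟩ := he₁ u hu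
    obtain ⟨c₂, hc₂⟩ := he₂ v hv
    exact ⟨c₁, c₂, by rw [← hc₁, ← hc₂]⟩

end

end Pool.Agent.Lib.MP_745d3a_ag.PF.GA

end

section

/-!
Two different eigenvalues on the coordinates.

* `two_eig`: `M^μ := maxGenEigenspace δ μ`. `M` is generated over `S` by finitely many
  `g_k ∈ M^{μ_k}` (`Module.Finite.fg_top`, every generator is a finite sum of elements of the `M^μ` by
  `iSup_gen`). `T := {α i} ∪ {μ_k}`, `χ` from `exists_chi` with two different `α i`, `α j`. Let
  `w i : ℤ` with `χ (α i) = w i`, `H := hx.der (fun i => (w i : K) • x i)`.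
  By independence (`Module.End.independent_maxGenEigenspace`) and `iSup_gen` the `M^μ`
  form an internal direct sum (`DirectSum.isInternal_submodule_iff_iSupIndep_and_iSup_eq_top`),
  so there is a `K`-linear `η : M → M` with `η m = (χ μ : K) • m` for `m ∈ M^μ` (`χ μ : ℚ` cast to `K`)
  (`DirectSum.toModule` composed with the inverse of the isomorphism).
  - `IsConn H η`: for `a = x i` and `m ∈ M^μ`: `x i • m ∈ M^(α i + μ)` (`gen_smul`) and
    `χ (α i + μ) = w i + χ μ`; then for all `m` by `iSup_gen` (`Submodule.iSup_induction`), and for all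
    `a` by `Coord.induction` (as `gradOp_conn` in PFFin.lean).
  - `Diag η`: let `Q := ⨆ {μ | χ μ is an integer} M^μ`. It contains the `g_k` and is stable under the
    `x i`, so under `S` (`Coord.induction`): `Q = ⊤`. Each element of `Q` is a finite sum of
    eigenvectors of `η` with integral eigenvalues; group them by eigenvalue
    (`Diag` for a sum: see `D1P_add`, `D1P_sum` in PFBun.lean, or `Submodule.iSup_induction`).
  - `ε (η m) = η (ε m)`: `M^μ` is stable under `ε` (`h.comm`).
  `gm_op` gives the generators.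
-/

set_option autoImplicit false
set_option linter.unusedSectionVars false
set_option linter.unusedSimpArgs false
set_option linter.unusedVariables false

open MvPolynomial

namespace Pool.Agent.Lib.MP_745d3a_ag.PF.GA

section

variable {K S M : Type*} [Field K] [CharZero K] [IsAlgClosed K] [CommRing S] [Algebra K S]
  {x : Fin 5 → S} {E D : Derivation K S S} [AddCommGroup M] [Module K M]
  [Module S M] [IsScalarTower K S M] {ε δ : M →ₗ[K] M}

private lemma B3_diag_add {V : Type*} [AddCommGroup V] [Module K V] {T : V →ₗ[K] V} {v w : V}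
    (hv : ∃ (s : Finset ℤ) (f : ℤ → V), (∀ d, T (f d) = (d : K) • f d) ∧ v = ∑ d ∈ s, f d)
    (hw : ∃ (s : Finset ℤ) (f : ℤ → V), (∀ d, T (f d) = (d : K) • f d) ∧ w = ∑ d ∈ s, f d) :
    ∃ (s : Finset ℤ) (f : ℤ → V), (∀ d, T (f d) = (d : K) • f d) ∧ v + w = ∑ d ∈ s, f d := by
  classical
  obtain ⟨s, f, hf, rfl⟩ := hv
  obtain ⟨t, g, hg, rfl⟩ := hw
  refine ⟨s ∪ t, fun d => (if d ∈ s then f d else 0) + (if d ∈ t then g d else 0), ?_, ?_⟩
  · intro d
    rw [map_add, smul_add]
    congr 1
    · by_cases hd : d ∈ s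
      · simp only [hd, if_true]; exact hf d
      · simp only [hd, if_false, map_zero, smul_zero]
    · by_cases hd : d ∈ t
      · simp only [hd, if_true]; exact hg d
      · simp only [hd, if_false, map_zero, smul_zero]
  · rw [Finset.sum_add_distrib, Finset.sum_ite_mem, Finset.sum_ite_mem,
      Finset.inter_eq_right.mpr Finset.subset_union_left,
      Finset.inter_eq_right.mpr Finset.subset_union_right]

private lemma B3_diag_zero {V : Type*} [AddCommGroup V] [Module K V] {T : V →ₗ[K] V} :
    ∃ (s : Finset ℤ) (f : ℤ → V), (∀ d, T (f d) = (d : K) • f d) ∧ (0 : V) = ∑ d ∈ s, f d :=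
  ⟨∅, fun _ => 0, fun d => by rw [map_zero, smul_zero], by rw [Finset.sum_empty]⟩

private lemma B3_diag_eig {V : Type*} [AddCommGroup V] [Module K V] {T : V →ₗ[K] V} {v : V}
    {z : ℤ} (hv : T v = (z : K) • v) :
    ∃ (s : Finset ℤ) (f : ℤ → V), (∀ d, T (f d) = (d : K) • f d) ∧ v = ∑ d ∈ s, f d := by
  classical
  refine ⟨{z}, fun d => if d = z then v else 0, ?_, ?_⟩
  · intro d
    by_cases hd : d = z
    · subst hd
      simp only [if_true]
      exact hv
    · simp only [hd, if_false, map_zero, smul_zero]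
  · rw [Finset.sum_singleton, if_pos rfl]

/-- The operator with eigenvalue `c μ` on the generalised eigenspace of `μ`. -/
private lemma B3_exists_op {V : Type*} [AddCommGroup V] [Module K V] (δ : V →ₗ[K] V)
    (htop : ⨆ μ : K, Module.End.maxGenEigenspace (δ : Module.End K V) μ = ⊤) (c : K → K) :
    ∃ η : V →ₗ[K] V, ∀ μ : K, ∀ m ∈ Module.End.maxGenEigenspace (δ : Module.End K V) μ,
      η m = c μ • m := by
  classical
  have hint : DirectSum.IsInternal
      (fun μ : K => Module.End.maxGenEigenspace (δ : Module.End K V) μ) := by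
    rw [DirectSum.isInternal_submodule_iff_iSupIndep_and_iSup_eq_top]
    exact ⟨Module.End.independent_maxGenEigenspace _, htop⟩
  let e := LinearEquiv.ofBijective (DirectSum.coeLinearMap
    (fun μ : K => Module.End.maxGenEigenspace (δ : Module.End K V) μ)) hint
  refine ⟨(DirectSum.toModule K K V (fun μ => c μ •
    (Module.End.maxGenEigenspace (δ : Module.End K V) μ).subtype)) ∘ₗ e.symm.toLinearMap, ?_⟩
  intro μ m hm
  have h1 : e (DirectSum.lof K K
      (fun μ : K => Module.End.maxGenEigenspace (δ : Module.End K V) μ) μ ⟨m, hm⟩) = m := by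
    show DirectSum.coeLinearMap _ _ = m
    rw [DirectSum.coeLinearMap_lof]
  have h2 : e.symm m = DirectSum.lof K K
      (fun μ : K => Module.End.maxGenEigenspace (δ : Module.End K V) μ) μ ⟨m, hm⟩ := by
    rw [LinearEquiv.symm_apply_eq]
    exact h1.symm
  show DirectSum.toModule K K V _ (e.symm m) = _
  rw [h2, DirectSum.toModule_lof]
  rfl

/-- Every element lies in the sum of finitely many generalised eigenspaces. -/
private lemma B3_finite {V : Type*} [AddCommGroup V] [Module K V] (δ : V →ₗ[K] V)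
    (htop : ⨆ μ : K, Module.End.maxGenEigenspace (δ : Module.End K V) μ = ⊤) (m : V) :
    ∃ T : Finset K, m ∈ ⨆ μ ∈ T, Module.End.maxGenEigenspace (δ : Module.End K V) μ := by
  classical
  have hm : m ∈ ⨆ μ : K, Module.End.maxGenEigenspace (δ : Module.End K V) μ := by
    rw [htop]; trivial
  obtain ⟨T, hT⟩ := Submodule.mem_iSup_iff_exists_finset.1 hm
  exact ⟨T, hT⟩

/-- The weight operator. -/
theorem exists_eta (h : Sys x E D ε δ) (α : Fin 5 → K)
    (hα : ∀ i, x i ∈ Module.End.maxGenEigenspace ((D : S →ₗ[K] S) : Module.End K S) (α i))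
    {i j : Fin 5} (hne : α i ≠ α j) :
    ∃ (w : Fin 5 → ℤ) (H : Derivation K S S) (η : M →ₗ[K] M), w i ≠ w j ∧
      (∀ i, H (x i) = (w i : K) • x i) ∧ IsConn H η ∧ Diag η ∧ ∀ m, ε (η m) = η (ε m) := by
  classical
  have hfin : Module.Finite S M := h.bun.fin
  set V : K → Submodule K M := fun μ => Module.End.maxGenEigenspace (δ : Module.End K M) μ
    with hV
  have htop : ⨆ μ : K, V μ = ⊤ := iSup_gen h.cx h.eu h.cE h.dg δ h.comm
  obtain ⟨G, hG⟩ := Module.Finite.fg_top (R := S) (M := M)
  choose T hT using fun m : M => B3_finite δ htop m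
  obtain ⟨χ, hχne, hχT⟩ := exists_chi hne (Finset.univ.image α ∪ G.biUnion T)
  have hχα : ∀ k : Fin 5, ∃ z : ℤ, χ (α k) = z := fun k =>
    hχT _ (Finset.mem_union_left _ (Finset.mem_image_of_mem _ (Finset.mem_univ k)))
  choose w hw using hχα
  obtain ⟨η, hη⟩ := B3_exists_op δ htop (fun μ => ((χ μ : ℚ) : K))
  let H : Derivation K S S := h.cx.der (fun k => (w k : K) • x k)
  have hH : ∀ k, H (x k) = (w k : K) • x k := fun k => h.cx.der_x _ k
  have ind : ∀ {P : M → Prop}, P 0 → (∀ μ, ∀ m ∈ V μ, P m) → (∀ m n, P m → P n → P (m + n)) →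
      ∀ m, P m := by
    intro P h0 h1 h2 m
    have hm : m ∈ ⨆ μ : K, V μ := by rw [htop]; trivial
    exact Submodule.iSup_induction V (motive := P) hm h1 h0 h2
  have hX : ∀ (k : Fin 5) (m : M), η (x k • m) = (w k : K) • (x k • m) + x k • η m := by
    intro k m
    refine ind (P := fun m => η (x k • m) = (w k : K) • (x k • m) + x k • η m) ?_ ?_ ?_ m
    · rw [smul_zero, map_zero, smul_zero, smul_zero, add_zero]
    · intro μ m hm
      have h1 : x k • m ∈ V (α k + μ) := gen_smul h.cD (hα k) hm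
      rw [hη _ _ h1, hη _ _ hm, map_add, Rat.cast_add, add_smul, hw k, Rat.cast_intCast,
        smul_comm (x k) ((χ μ : ℚ) : K) m]
    · intro m n hm hn
      rw [smul_add, map_add, hm, hn, map_add, smul_add, smul_add]
      abel
  have cH : IsConn H η := by
    intro a
    refine h.cx.induction (P := fun a => ∀ m, η (a • m) = H a • m + a • η m) ?_ ?_ ?_ a
    · intro c m
      rw [algebraMap_smul, algebraMap_smul, map_smul, Derivation.map_algebraMap, zero_smul,
        zero_add]
    · intro a b ha hb m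
      rw [add_smul, map_add, ha, hb, map_add, add_smul, add_smul]
      abel
    · intro a k ha m
      rw [mul_smul, ha, hX, Derivation.leibniz, hH, add_smul, smul_add, mul_smul]
      simp only [smul_eq_mul, mul_smul]
      rw [smul_comm (x k) (H a) m, smul_assoc]
      abel
  have hle : ∀ m ∈ (⨆ μ : {μ : K // ∃ z : ℤ, χ μ = z}, V μ.1), ∀ k : Fin 5,
      x k • m ∈ (⨆ μ : {μ : K // ∃ z : ℤ, χ μ = z}, V μ.1) := by
    intro m hm k
    refine Submodule.iSup_induction (fun μ : {μ : K // ∃ z : ℤ, χ μ = z} => V μ.1)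
      (motive := fun m => x k • m ∈ (⨆ μ : {μ : K // ∃ z : ℤ, χ μ = z}, V μ.1)) hm ?_ ?_ ?_
    · rintro ⟨μ, z, hz⟩ m hm
      have h1 : x k • m ∈ V (α k + μ) := gen_smul h.cD (hα k) hm
      exact Submodule.mem_iSup_of_mem (⟨α k + μ, w k + z, by
        rw [map_add, hw k, hz, Int.cast_add]⟩ : {μ : K // ∃ z : ℤ, χ μ = z}) h1
    · rw [smul_zero]
      exact Submodule.zero_mem _
    · intro m n hm hn
      rw [smul_add]
      exact Submodule.add_mem _ hm hn
  have hS : ∀ (a : S), ∀ m ∈ (⨆ μ : {μ : K // ∃ z : ℤ, χ μ = z}, V μ.1),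
      a • m ∈ (⨆ μ : {μ : K // ∃ z : ℤ, χ μ = z}, V μ.1) := by
    intro a
    refine h.cx.induction (P := fun a => ∀ m ∈ (⨆ μ : {μ : K // ∃ z : ℤ, χ μ = z}, V μ.1),
      a • m ∈ (⨆ μ : {μ : K // ∃ z : ℤ, χ μ = z}, V μ.1)) ?_ ?_ ?_ a
    · intro c m hm
      rw [algebraMap_smul]
      exact Submodule.smul_mem _ _ hm
    · intro a b ha hb m hm
      rw [add_smul]
      exact Submodule.add_mem _ (ha m hm) (hb m hm)
    · intro a k ha m hm
      rw [mul_smul]
      exact ha _ (hle m hm k)
  have hall : ∀ m : M, m ∈ (⨆ μ : {μ : K // ∃ z : ℤ, χ μ = z}, V μ.1) := by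
    let Q : Submodule S M :=
      { carrier := {m | m ∈ (⨆ μ : {μ : K // ∃ z : ℤ, χ μ = z}, V μ.1)}
        add_mem' := fun {a b} ha hb => by
          show a + b ∈ (⨆ μ : {μ : K // ∃ z : ℤ, χ μ = z}, V μ.1)
          exact Submodule.add_mem _ ha hb
        zero_mem' := by
          show (0 : M) ∈ (⨆ μ : {μ : K // ∃ z : ℤ, χ μ = z}, V μ.1)
          exact Submodule.zero_mem _
        smul_mem' := fun a m hm => hS a m hm }
    have hQ : Submodule.span S (G : Set M) ≤ Q := by
      rw [Submodule.span_le]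
      intro g hg
      show g ∈ (⨆ μ : {μ : K // ∃ z : ℤ, χ μ = z}, V μ.1)
      refine (?_ : (⨆ μ ∈ T g, V μ) ≤ _) (hT g)
      refine iSup₂_le fun μ hμ => ?_
      exact le_iSup (fun μ : {μ : K // ∃ z : ℤ, χ μ = z} => V μ.1)
        ⟨μ, hχT μ (Finset.mem_union_right _ (Finset.mem_biUnion.2 ⟨g, hg, hμ⟩))⟩
    intro m
    have hm : m ∈ Submodule.span S (G : Set M) := by rw [hG]; trivial
    exact hQ hm
  refine ⟨w, H, η, ?_, hH, cH, ?_, ?_⟩
  · intro hww
    apply hχne
    rw [hw i, hw j, hww]
  · intro m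
    refine Submodule.iSup_induction (fun μ : {μ : K // ∃ z : ℤ, χ μ = z} => V μ.1)
      (motive := fun m => ∃ (s : Finset ℤ) (f : ℤ → M), (∀ d, η (f d) = (d : K) • f d) ∧
        m = ∑ d ∈ s, f d) (hall m) ?_ B3_diag_zero (fun m n hm hn => B3_diag_add hm hn)
    rintro ⟨μ, z, hz⟩ m hm
    refine B3_diag_eig (z := z) ?_
    rw [hη _ _ hm, hz, Rat.cast_intCast]
  · intro m
    refine ind (P := fun m => ε (η m) = η (ε m)) ?_ ?_ ?_ m
    · rw [map_zero, map_zero, map_zero]
    · intro μ m hm
      have h1 : ε m ∈ V μ := by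
        rw [hV, Module.End.mem_maxGenEigenspace] at hm ⊢
        obtain ⟨k, hk⟩ := hm
        refine ⟨k, ?_⟩
        have h2 : Commute (((δ : Module.End K M) - μ • 1) ^ k) (ε : Module.End K M) := by
          refine Commute.pow_left ?_ k
          refine Commute.sub_left ?_ ?_
          · show (δ : Module.End K M) * ε = ε * δ
            ext m
            exact (h.comm m).symm
          · exact (Commute.one_left _).smul_left μ
        have h3 := congrArg (fun f : Module.End K M => f m) h2.eq
        simp only [Module.End.mul_apply] at h3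
        rw [h3, hk, map_zero]
      rw [hη _ _ hm, hη _ _ h1, map_smul]
    · intro m n hm hn
      rw [map_add, map_add, hm, hn, map_add, map_add]

end

section

universe uM

variable {K S : Type*} {M : Type uM} [Field K] [CharZero K] [IsAlgClosed K] [CommRing S]
  [Algebra K S] {x : Fin 5 → S} {E D : Derivation K S S} [AddCommGroup M] [Module K M]
  [Module S M] [IsScalarTower K S M] {ε δ : M →ₗ[K] M}

theorem two_eig (hG : GmThm.{uM} K) (h : Sys x E D ε δ) (α : Fin 5 → K)
    (hα : ∀ i, x i ∈ Module.End.maxGenEigenspace ((D : S →ₗ[K] S) : Module.End K S) (α i))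
    {i j : Fin 5} (hne : α i ≠ α j) : Gen2 S M := by
  obtain ⟨w, H, η, hw, hH, cH, dH, hc⟩ := exists_eta h α hα hne
  obtain ⟨f1, f2, _, _, _, _, _, _, _, _, h5, _⟩ :=
    gm_op hG h.cx h.eu hH ⟨i, j, hw⟩ h.cE h.dg cH dH hc h.bun
  exact ⟨f1, f2, h5⟩

end

end Pool.Agent.Lib.MP_745d3a_ag.PF.GA

end
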