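import Pool.Agent.Lib.MP_745d3a_ag.NV.Main
import Pool.Agent.Lib.MP_745d3a_ag.GM.Main

/-!
The theorem on bundles with a lift of a vector field: the theorem on multiplicative group actions
is put into `main`.
-/

set_option autoImplicit false
set_option linter.unusedSectionVars false

open MvPolynomial

namespace Pool.Agent.Lib.MP_745d3a_ag.PF.GA

/-- The theorem on multiplicative group actions. -/
theorem gmThm.{u} : GmThm.{u, 0} ℂ := by
  intro w hw M _ _ _ _ hrank hfree 𝓜 _ _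
  have hg : SetLike.GradedSMul (weightedHomogeneousSubmodule ℂ (GM.om w)) 𝓜 :=
    inferInstanceAs (SetLike.GradedSMul
      (weightedHomogeneousSubmodule ℂ (fun i : Fin 5 => ((1 : ℤ), w i))) 𝓜)
  have h1 : Module.Free (MvPolynomial (Fin 5) ℂ) M :=
    GM.gm_free w hw hrank (fun p _ hp => hfree p hp) 𝓜
  exact exists_hom_basis (ω := fun i : Fin 5 => ((1 : ℤ), w i)) (δ := AddMonoidHom.fst ℤ ℤ)
    (fun _ => rfl) h1 hrank

/-- A bundle of rank two on projective four-space over the complex numbers to which a nonzero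
vector field lifts is a sum of two line bundles. -/
theorem no_vector_field (A : Matrix (Fin 5) (Fin 5) ℂ)
    (hA : ∀ c : ℂ, A ≠ c • (1 : Matrix (Fin 5) (Fin 5) ℂ))
    (M : Type*) [AddCommGroup M] [Module (MvPolynomial (Fin 5) ℂ) M]
    [Module.Finite (MvPolynomial (Fin 5) ℂ) M] [Module.IsReflexive (MvPolynomial (Fin 5) ℂ) M]
    (hrank : Module.finrank (MvPolynomial (Fin 5) ℂ) M = 2)
    (hfree : ∀ (p : Ideal (MvPolynomial (Fin 5) ℂ)) [p.IsPrime],
      (∃ i, (X i : MvPolynomial (Fin 5) ℂ) ∉ p) →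
        Module.Free (Localization.AtPrime p) (LocalizedModule p.primeCompl M))
    (𝓜 : ℤ → AddSubgroup M) [DirectSum.Decomposition 𝓜]
    [SetLike.GradedSMul (weightedHomogeneousSubmodule ℂ (fun _ : Fin 5 => (1 : ℤ))) 𝓜]
    (D : Derivation ℂ (MvPolynomial (Fin 5) ℂ) (MvPolynomial (Fin 5) ℂ))
    (hD : ∀ i, D (X i) = ∑ j, A i j • (X j : MvPolynomial (Fin 5) ℂ))
    (δ : M →+ M) (hδ : ∀ (f : MvPolynomial (Fin 5) ℂ) (m : M), δ (f • m) = D f • m + f • δ m)
    (hdeg : ∀ d, ∀ m ∈ 𝓜 d, δ m ∈ 𝓜 d) :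
    ∃ (b : Module.Basis (Fin 2) (MvPolynomial (Fin 5) ℂ) M) (d : Fin 2 → ℤ),
      ∀ k, b k ∈ 𝓜 (d k) :=
  main gmThm gmThm A hA M hrank (fun p _ => hfree p) 𝓜 D hD δ hδ hdeg

end Pool.Agent.Lib.MP_745d3a_ag.PF.GA
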