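import Pool.Agent.Lib.MP_745d3a_ag.NV.Pair
import Pool.Agent.Lib.MP_745d3a_ag.NV.Deg

section

/-!
The lattice `N = ph (M)` in `S × S`, its leading forms, and the dual `Fp` of the module of leading
forms.

Write `E' = shp E (d - n₂) (d - n₁)`, `H' = shp H a₁ a₂`, `N = range (ph B e₁ e₂)`,
`u = B e₁ e₂`, `u₀ = comp H 0 u`.

* `ph_eps`: `Pr.hom` and `hom₁`, `hom₂`.
* `ph_inj`: `cramer`: `ph m = 0` gives `u • m = 0`, `u ≠ 0` (`t.u0`, `comp_zero`), `bun.tf`.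
* `ld_iff`: `Fl_shp`, `comp_shp`.
* `ld_dvd`: `ld_iff` and `Gf.val`.
* `ld_mem`: immediate from `ld_dvd`.
* `aI_smul`: for a generator `q = comp H (j + k - a₁ - a₂) (B m n)` let `c`, `c'` be the leading
  forms of `ph m`, `ph n`. `dt c c' = u₀ * q` (`Gf.val`), `dt v c' = u₀ * α`, `dt v c = u₀ * β`
  (`v ∈ Fp`); `dt c c' • v = dt v c' • c - dt v c • c'` (componentwise, `ring`), so
  `q • v = α • c - β • c' ∈ M0` after cancelling `u₀`. For the ideal: span induction.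
-/

set_option autoImplicit false
set_option linter.unusedSectionVars false
set_option linter.unusedSimpArgs false
set_option linter.unusedVariables false

open MvPolynomial

namespace Pool.Agent.Lib.MP_745d3a_ag.PF.GA

/-- The vectors whose determinants with all leading forms of `N` are divisible by `u₀`. -/
def Fp {K S : Type*} [Field K] [CommRing S] [Algebra K S] (u₀ : S)
    (η : (S × S) →ₗ[K] (S × S)) (N : Submodule S (S × S)) : Submodule S (S × S) where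
  carrier := {v | ∀ k y c, Ld η N k y c → u₀ ∣ dt v c}
  add_mem' := by
    intro u v hu hv k y c h
    have h1 := dvd_add (hu k y c h) (hv k y c h)
    rwa [show dt u c + dt v c = dt (u + v) c by
      simp only [dt, Prod.fst_add, Prod.snd_add]; ring] at h1
  zero_mem' := by
    intro k y c _
    simp [dt]
  smul_mem' := by
    intro a v hv k y c h
    rw [show dt (a • v) c = a * dt v c by
      simp only [dt, Prod.smul_fst, Prod.smul_snd, smul_eq_mul]; ring]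
    exact Dvd.dvd.mul_left (hv k y c h) a

lemma mem_Fp {K S : Type*} [Field K] [CommRing S] [Algebra K S] {u₀ : S}
    {η : (S × S) →ₗ[K] (S × S)} {N : Submodule S (S × S)} {v : S × S} :
    v ∈ Fp u₀ η N ↔ ∀ k y c, Ld η N k y c → u₀ ∣ dt v c := Iff.rfl

section

variable {K S ι M : Type*} [Field K] [CharZero K] [CommRing S] [Algebra K S] {x : ι → S}
  {w : ι → ℤ} {E H D : Derivation K S S} [AddCommGroup M] [Module K M] [Module S M]
  [IsScalarTower K S M] {ε δ : M →ₗ[K] M} {d : ℤ} {B : M →ₗ[S] M →ₗ[S] S} {e₁ e₂ : M}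
  {a₁ a₂ n₁ n₂ : ℤ}

private lemma E6_smul (c : K) (m n : M) : B m (c • n) = c • B m n := by
  rw [← algebraMap_smul S c n, map_smul, algebraMap_smul]

private lemma E6_smul' (c : K) (m n : M) : B (c • m) n = c • B m n := by
  rw [← algebraMap_smul S c m, map_smul, LinearMap.smul_apply, algebraMap_smul]

private lemma E6_dt (c c' v : S × S) : dt c c' • v = dt v c' • c - dt v c • c' := by
  ext
  · simp only [dt, Prod.smul_fst, Prod.fst_sub, smul_eq_mul]; ring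
  · simp only [dt, Prod.smul_snd, Prod.snd_sub, smul_eq_mul]; ring

theorem ph_eps (h : S1 x w E H D ε δ d B) (t : Dat H ε δ B e₁ e₂ a₁ a₂ n₁ n₂) (m : M) :
    shp (E : S →ₗ[K] S) (d - n₂) (d - n₁) (ph B e₁ e₂ m) = ph B e₁ e₂ (ε m) := by
  have h1 := h.pr.hom m e₂
  have h2 := h.pr.hom e₁ m
  rw [t.hom₂, E6_smul] at h1
  rw [t.hom₁, E6_smul'] at h2
  rw [shp_apply, ph_apply, ph_apply]
  ext
  · simp only [Derivation.coeFn_coe, h1, Int.cast_sub, sub_smul]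
    abel
  · simp only [Derivation.coeFn_coe, h2, Int.cast_sub, sub_smul]
    abel

theorem ph_inj (h : S1 x w E H D ε δ d B) (t : Dat H ε δ B e₁ e₂ a₁ a₂ n₁ n₂) {m : M}
    (hm : ph B e₁ e₂ m = 0) : m = 0 := by
  rw [ph_apply, Prod.mk_eq_zero] at hm
  have h1 := h.pr.cramer e₁ e₂ m
  rw [hm.1, hm.2, zero_smul, zero_smul, add_zero] at h1
  rcases h.bun.tf _ _ h1 with h2 | h2
  · exact absurd (by rw [h2, comp_zero]) t.u0
  · exact h2

theorem ld_iff (h : S1 x w E H D ε δ d B) (k : ℤ) (y c : S × S) :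
    Ld (shp (H : S →ₗ[K] S) a₁ a₂) (LinearMap.range (ph B e₁ e₂)) k y c ↔
      ∃ m, ph B e₁ e₂ m = y ∧ Gf H B e₁ e₂ a₁ a₂ k m ∧
        (comp (H : S →ₗ[K] S) (k - a₁) (B m e₂), comp (H : S →ₗ[K] S) (k - a₂) (B e₁ m)) = c := by
  have hd := h.base.dH
  constructor
  · rintro ⟨⟨m, hm⟩, h1, h2⟩
    rw [Fl_shp hd] at h1
    rw [comp_shp hd] at h2
    subst hm
    exact ⟨m, rfl, h1, h2⟩
  · rintro ⟨m, hm, h1, h2⟩
    refine ⟨⟨m, hm⟩, ?_, ?_⟩
    · rw [Fl_shp hd, ← hm]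
      exact h1
    · rw [comp_shp hd, ← hm]
      exact h2

theorem ld_dvd (h : S1 x w E H D ε δ d B) (t : Dat H ε δ B e₁ e₂ a₁ a₂ n₁ n₂) {j k : ℤ}
    {y c y' c' : S × S}
    (h1 : Ld (shp (H : S →ₗ[K] S) a₁ a₂) (LinearMap.range (ph B e₁ e₂)) j y c)
    (h2 : Ld (shp (H : S →ₗ[K] S) a₁ a₂) (LinearMap.range (ph B e₁ e₂)) k y' c') :
    comp (H : S →ₗ[K] S) 0 (B e₁ e₂) ∣ dt c c' := by
  obtain ⟨m, _, hm, rfl⟩ := (ld_iff h j y c).1 h1
  obtain ⟨n, _, hn, rfl⟩ := (ld_iff h k y' c').1 h2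
  exact ⟨_, (Gf.val h t hm hn).2.symm⟩

theorem ld_mem (h : S1 x w E H D ε δ d B) (t : Dat H ε δ B e₁ e₂ a₁ a₂ n₁ n₂) {k : ℤ}
    {y c : S × S}
    (h1 : Ld (shp (H : S →ₗ[K] S) a₁ a₂) (LinearMap.range (ph B e₁ e₂)) k y c) :
    c ∈ Fp (comp (H : S →ₗ[K] S) 0 (B e₁ e₂)) (shp (H : S →ₗ[K] S) a₁ a₂)
      (LinearMap.range (ph B e₁ e₂)) := by
  rw [mem_Fp]
  intro j y' c' h2
  exact ld_dvd h t h1 h2

theorem aI_smul (h : S1 x w E H D ε δ d B) (t : Dat H ε δ B e₁ e₂ a₁ a₂ n₁ n₂) {v : S × S}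
    (hv : v ∈ Fp (comp (H : S →ₗ[K] S) 0 (B e₁ e₂)) (shp (H : S →ₗ[K] S) a₁ a₂)
      (LinearMap.range (ph B e₁ e₂))) {p : S} (hp : p ∈ aI H B e₁ e₂ a₁ a₂) :
    p • v ∈ M0 (shp (H : S →ₗ[K] S) a₁ a₂) (LinearMap.range (ph B e₁ e₂)) := by
  have hdom : IsDomain S := h.base.cx.isDomain
  rw [aI] at hp
  induction hp using Submodule.span_induction with
  | mem p hp =>
    obtain ⟨j, k, m, n, hm, hn, rfl⟩ := hp
    have hc := (ld_iff h j (ph B e₁ e₂ m) _).2 ⟨m, rfl, hm, rfl⟩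
    have hc' := (ld_iff h k (ph B e₁ e₂ n) _).2 ⟨n, rfl, hn, rfl⟩
    obtain ⟨α, hα⟩ := mem_Fp.1 hv _ _ _ hc'
    obtain ⟨β, hβ⟩ := mem_Fp.1 hv _ _ _ hc
    have h3 := E6_dt (comp (H : S →ₗ[K] S) (j - a₁) (B m e₂),
      comp (H : S →ₗ[K] S) (j - a₂) (B e₁ m)) (comp (H : S →ₗ[K] S) (k - a₁) (B n e₂),
      comp (H : S →ₗ[K] S) (k - a₂) (B e₁ n)) v
    rw [← (Gf.val h t hm hn).2, hα, hβ, mul_smul, mul_smul, mul_smul, ← smul_sub] at h3
    have h4 : comp (H : S →ₗ[K] S) (j + k - a₁ - a₂) (B m n) • v =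
        α • (comp (H : S →ₗ[K] S) (j - a₁) (B m e₂), comp (H : S →ₗ[K] S) (j - a₂) (B e₁ m))
        - β • (comp (H : S →ₗ[K] S) (k - a₁) (B n e₂), comp (H : S →ₗ[K] S) (k - a₂) (B e₁ n)) := by
      rw [Prod.ext_iff] at h3 ⊢
      exact ⟨mul_left_cancel₀ t.u0 h3.1, mul_left_cancel₀ t.u0 h3.2⟩
    rw [h4]
    exact Submodule.sub_mem _ (Submodule.smul_mem _ _ hc.mem_M0)
      (Submodule.smul_mem _ _ hc'.mem_M0)
  | zero => rw [zero_smul]; exact Submodule.zero_mem _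
  | add p q _ _ h1 h2 => rw [add_smul]; exact Submodule.add_mem _ h1 h2
  | smul a p _ h1 =>
    rw [smul_eq_mul, mul_smul]
    exact Submodule.smul_mem _ _ h1

end

end Pool.Agent.Lib.MP_745d3a_ag.PF.GA

end

section

/-!
The dual lattice is stable under both gradings.

Write `E' = shp E (d - n₂) (d - n₁)`, `H' = shp H a₁ a₂`, `N = range (ph B e₁ e₂)`,
`u = B e₁ e₂`, `u₀ = comp H 0 u`.

* `Fp_E`: let `v ∈ Fp` and `Ld H' N k y c`. `c` is the sum of its `E'`-components, which are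
  again leading forms (`Ld.cmp`: `N` is stable under `E'` by `ph_eps`), so let `E' c = i • c`. Then
  `dt (E' v) c = E (dt v c) + (s₁ + s₂ - i) • dt v c` (`s₁ = d - n₂`, `s₂ = d - n₁`; `leibniz`,
  `E c.1 = (i - s₁) c.1`, `E c.2 = (i - s₂) c.2`), and `E u₀ = (n₁ + n₂ - d) • u₀`
  (`hom_val`, `comp_comm`, `comp_of_eig`), so `u₀ ∣ E (u₀ * q)`.
* `Fp_H`: the same with `H' c = k • c` (`Ld.eta`) and `H u₀ = 0`.
-/

set_option autoImplicit false
set_option linter.unusedSectionVars false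
set_option linter.unusedSimpArgs false
set_option linter.unusedVariables false

open MvPolynomial

namespace Pool.Agent.Lib.MP_745d3a_ag.PF.GA

section

variable {K S ι M : Type*} [Field K] [CharZero K] [CommRing S] [Algebra K S] {x : ι → S}
  {w : ι → ℤ} {E H D : Derivation K S S} [AddCommGroup M] [Module K M] [Module S M]
  [IsScalarTower K S M] {ε δ : M →ₗ[K] M} {d : ℤ} {B : M →ₗ[S] M →ₗ[S] S} {e₁ e₂ : M}
  {a₁ a₂ n₁ n₂ : ℤ}

/-- The value of `E` on the leading coefficient of `B e₁ e₂`. -/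
private lemma E6b_E_u0 (h : S1 x w E H D ε δ d B) (t : Dat H ε δ B e₁ e₂ a₁ a₂ n₁ n₂) :
    E (comp (H : S →ₗ[K] S) 0 (B e₁ e₂)) =
      ((n₁ + n₂ - d : ℤ) : K) • comp (H : S →ₗ[K] S) 0 (B e₁ e₂) := by
  have h1 : (E : S →ₗ[K] S) (B e₁ e₂) = ((n₁ + n₂ - d : ℤ) : K) • B e₁ e₂ :=
    h.pr.hom_val t.hom₁ t.hom₂
  have h3 := comp_comm h.base.dE h.base.dH (fun m => h.base.EH m) (n₁ + n₂ - d) 0 (B e₁ e₂)
  rw [comp_of_eig h1] at h3
  have h4 := comp_eig h.base.dE (n₁ + n₂ - d) (comp (H : S →ₗ[K] S) 0 (B e₁ e₂))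
  rw [h3] at h4
  exact h4

private lemma E6b_H_u0 (h : Base x w E H) (u : S) :
    H (comp (H : S →ₗ[K] S) 0 u) = 0 := by
  have h4 := comp_eig h.dH 0 u
  rw [Int.cast_zero, zero_smul] at h4
  exact h4

private lemma E6b_dvd_smul {u q : S} (c : K) (hq : u ∣ q) : u ∣ c • q := by
  rw [Algebra.smul_def]
  exact Dvd.dvd.mul_left hq _

private lemma E6b_sum (u₀ : S) {v c : S × S} (s : Finset ℤ) (f : ℤ → S × S)
    (hc : c = ∑ i ∈ s, f i) (hf : ∀ i ∈ s, u₀ ∣ dt v (f i)) : u₀ ∣ dt v c := by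
  have h1 : dt v c = ∑ i ∈ s, dt v (f i) := by
    rw [hc]
    simp only [dt, Prod.fst_sum, Prod.snd_sum, Finset.mul_sum, Finset.sum_sub_distrib]
  rw [h1]
  exact Finset.dvd_sum hf

private lemma E6b_dt (A : Derivation K S S) (s₁ s₂ k : ℤ) (v c : S × S)
    (hc : shp (A : S →ₗ[K] S) s₁ s₂ c = (k : K) • c) :
    dt (shp (A : S →ₗ[K] S) s₁ s₂ v) c = A (dt v c) + ((s₁ + s₂ - k : ℤ) : K) • dt v c := by
  have h1 : A c.1 + (s₁ : K) • c.1 = (k : K) • c.1 := congrArg Prod.fst hc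
  have h2 : A c.2 + (s₂ : K) • c.2 = (k : K) • c.2 := congrArg Prod.snd hc
  have h3 : A c.1 = (k : K) • c.1 - (s₁ : K) • c.1 := eq_sub_of_add_eq h1
  have h4 : A c.2 = (k : K) • c.2 - (s₂ : K) • c.2 := eq_sub_of_add_eq h2
  have h5 : A (dt v c) = v.1 * A c.2 + c.2 * A v.1 - (v.2 * A c.1 + c.1 * A v.2) := by
    unfold dt
    rw [map_sub, Derivation.leibniz, Derivation.leibniz]
    simp only [smul_eq_mul]
  rw [h5, h3, h4]
  show (A v.1 + (s₁ : K) • v.1) * c.2 - (A v.2 + (s₂ : K) • v.2) * c.1 = _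
  simp only [dt, Algebra.smul_def, Int.cast_sub, Int.cast_add, map_sub, map_add]
  ring

private lemma E6b_dvd (A : Derivation K S S) {u₀ : S} {b : K} (hu : A u₀ = b • u₀) (s₁ s₂ k : ℤ)
    (v c : S × S) (hc : shp (A : S →ₗ[K] S) s₁ s₂ c = (k : K) • c) (hd : u₀ ∣ dt v c) :
    u₀ ∣ dt (shp (A : S →ₗ[K] S) s₁ s₂ v) c := by
  rw [E6b_dt A s₁ s₂ k v c hc]
  refine dvd_add ?_ (E6b_dvd_smul _ hd)
  obtain ⟨q, hq⟩ := hd
  rw [hq, Derivation.leibniz, hu]
  simp only [smul_eq_mul]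
  refine dvd_add (dvd_mul_right _ _) (Dvd.dvd.mul_left (E6b_dvd_smul _ dvd_rfl) _)

theorem Fp_E (h : S1 x w E H D ε δ d B) (t : Dat H ε δ B e₁ e₂ a₁ a₂ n₁ n₂) :
    ∀ v ∈ Fp (comp (H : S →ₗ[K] S) 0 (B e₁ e₂)) (shp (H : S →ₗ[K] S) a₁ a₂)
      (LinearMap.range (ph B e₁ e₂)),
      shp (E : S →ₗ[K] S) (d - n₂) (d - n₁) v ∈
        Fp (comp (H : S →ₗ[K] S) 0 (B e₁ e₂)) (shp (H : S →ₗ[K] S) a₁ a₂)
          (LinearMap.range (ph B e₁ e₂)) := by
  intro v hv k y c hl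
  have hG := gmod_pair h.base (d - n₂) (d - n₁) a₁ a₂
  have hN : ∀ y ∈ LinearMap.range (ph B e₁ e₂), shp (E : S →ₗ[K] S) (d - n₂) (d - n₁) y ∈
      LinearMap.range (ph B e₁ e₂) := by
    rintro _ ⟨m, rfl⟩
    exact ⟨ε m, (ph_eps h t m).symm⟩
  have hD := diag_shp h.base.dE (d - n₂) (d - n₁)
  obtain ⟨s, hs, -⟩ := exists_comp hD c
  refine E6b_sum _ s _ hs fun i _ => ?_
  exact E6b_dvd E (E6b_E_u0 h t) _ _ i v _ (comp_eig hD i c) (hv k _ _ (hl.cmp hG hN i))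

theorem Fp_H (h : S1 x w E H D ε δ d B) (t : Dat H ε δ B e₁ e₂ a₁ a₂ n₁ n₂) :
    ∀ v ∈ Fp (comp (H : S →ₗ[K] S) 0 (B e₁ e₂)) (shp (H : S →ₗ[K] S) a₁ a₂)
      (LinearMap.range (ph B e₁ e₂)),
      shp (H : S →ₗ[K] S) a₁ a₂ v ∈
        Fp (comp (H : S →ₗ[K] S) 0 (B e₁ e₂)) (shp (H : S →ₗ[K] S) a₁ a₂)
          (LinearMap.range (ph B e₁ e₂)) := by
  intro v hv k y c hl
  have hD := diag_shp h.base.dH a₁ a₂
  have hu : H (comp (H : S →ₗ[K] S) 0 (B e₁ e₂)) = (0 : K) • comp (H : S →ₗ[K] S) 0 (B e₁ e₂) := by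
    rw [E6b_H_u0 h.base, zero_smul]
  exact E6b_dvd H hu _ _ k v c (hl.eta hD) (hv k y c hl)

end

end Pool.Agent.Lib.MP_745d3a_ag.PF.GA

end

section

/-!
The dual of the module of leading forms is a bundle.

`F = Fp u₀ H' N` as a module over `S`.
* `fin`: a submodule of a finite module over a noetherian ring (`cx.noeth`).
* `tf`: `S` is a domain (`cx.isDomain`).
* `ht`: let `a • m = b • n` with `a`, `b` relatively prime, `m, n ∈ F`. If `b = 0` then `a` is a unit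
  and `m = 0`. Otherwise `b ∣ a * m.1` gives `b ∣ m.1` (`IsRelPrime.dvd_of_dvd_mul_left`; `S` is
  factorial, `cx.ufm`), so `m = b • k` with `k : S × S`, and `n = a • k`. For a leading form `c`:
  `u₀ ∣ b * dt k c` and `u₀ ∣ a * dt k c`, hence `u₀ ∣ dt k c`:
  from `a * s = u₀ * p`, `b * s = u₀ * q`: `a * q = b * p` (cancel `u₀ ≠ 0`), so `b ∣ q`. So `k ∈ F`.
* `lf`: let `x i ∉ p`, `x i ^ N ∈ aI` (`hfull`): some generator
  `q = comp H (j + k - a₁ - a₂) (B m n) ∉ p`. With the leading forms `c`, `c'` of `ph m`, `ph n`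
  (in `F` by `ld_mem`): `dt c c' = u₀ * q`; for `v ∈ F`: `q • v = α • c - β • c'` as in `aI_smul`.
  Independence: if `a • c + b • c' = 0` then `a * dt c c' = 0` and `b * dt c c' = 0`.
-/

set_option autoImplicit false
set_option linter.unusedSectionVars false
set_option linter.unusedSimpArgs false
set_option linter.unusedVariables false

open MvPolynomial

namespace Pool.Agent.Lib.MP_745d3a_ag.PF.GA

section

variable {K S ι M : Type*} [Field K] [CharZero K] [CommRing S] [Algebra K S] {x : ι → S}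
  {w : ι → ℤ} {E H D : Derivation K S S} [AddCommGroup M] [Module K M] [Module S M]
  [IsScalarTower K S M] {ε δ : M →ₗ[K] M} {d : ℤ} {B : M →ₗ[S] M →ₗ[S] S} {e₁ e₂ : M}
  {a₁ a₂ n₁ n₂ : ℤ}

private lemma E7_dt_smul {u v c : S × S} (a b : S) :
    dt (a • u + b • v) c = a * dt u c + b * dt v c := by
  simp only [dt, Prod.fst_add, Prod.snd_add, Prod.smul_fst, Prod.smul_snd, smul_eq_mul]
  ring

private lemma E7_dt_self (c : S × S) : dt c c = 0 := by
  simp only [dt]; ring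

private lemma E7_dt_skew (c c' : S × S) : dt c' c = - dt c c' := by
  simp only [dt]; ring

private lemma E7_ht [IsDomain S] [UniqueFactorizationMonoid S] {u₀ : S} (hu : u₀ ≠ 0)
    {η : (S × S) →ₗ[K] (S × S)} {N : Submodule S (S × S)} {a b : S} (hab : IsRelPrime a b)
    {m n : S × S} (hm : m ∈ Fp u₀ η N) (hn : n ∈ Fp u₀ η N) (h : a • m = b • n) :
    ∃ k ∈ Fp u₀ η N, m = b • k := by
  have e1 : a * m.1 = b * n.1 := congrArg Prod.fst h
  have e2 : a * m.2 = b * n.2 := congrArg Prod.snd h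
  have hba : IsRelPrime b a := hab.symm
  obtain ⟨k1, hk1⟩ := hba.dvd_of_dvd_mul_left (Dvd.intro _ e1.symm)
  obtain ⟨k2, hk2⟩ := hba.dvd_of_dvd_mul_left (Dvd.intro _ e2.symm)
  have hmk : m = b • ((k1, k2) : S × S) := by
    ext
    · simpa using hk1
    · simpa using hk2
  by_cases hb : b = 0
  · have h0 : m = 0 := by rw [hmk, hb, zero_smul]
    exact ⟨0, Submodule.zero_mem _, by rw [h0, smul_zero]⟩
  have hnk : n = a • ((k1, k2) : S × S) := by
    ext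
    · show n.1 = a * k1
      apply mul_left_cancel₀ hb
      rw [← e1, hk1]; ring
    · show n.2 = a * k2
      apply mul_left_cancel₀ hb
      rw [← e2, hk2]; ring
  refine ⟨(k1, k2), ?_, hmk⟩
  intro k y c hc
  obtain ⟨p, hp⟩ := hm k y c hc
  obtain ⟨q, hq⟩ := hn k y c hc
  have h1 : b * dt ((k1, k2) : S × S) c = u₀ * p := by
    rw [← hp, hmk]; simp only [dt, Prod.smul_fst, Prod.smul_snd, smul_eq_mul]; ring
  have h2 : a * dt ((k1, k2) : S × S) c = u₀ * q := by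
    rw [← hq, hnk]; simp only [dt, Prod.smul_fst, Prod.smul_snd, smul_eq_mul]; ring
  have h3 : a * p = b * q := by
    apply mul_left_cancel₀ hu
    have : u₀ * (a * p) = a * (u₀ * p) := by ring
    rw [this, ← h1]
    have : u₀ * (b * q) = b * (u₀ * q) := by ring
    rw [this, ← h2]; ring
  obtain ⟨r, hr⟩ := hba.dvd_of_dvd_mul_left (Dvd.intro _ h3.symm)
  refine ⟨r, mul_left_cancel₀ hb ?_⟩
  rw [h1, hr]; ring

private lemma E7_lf [IsDomain S] {u₀ q : S} (hu : u₀ ≠ 0) (hq : q ≠ 0)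
    {η : (S × S) →ₗ[K] (S × S)} {N : Submodule S (S × S)} {j k : ℤ} {y y' c c' : S × S}
    (h1 : Ld η N j y c) (h2 : Ld η N k y' c') (hc : dt c c' = u₀ * q) :
    (∀ v ∈ Fp u₀ η N, ∃ a b : S, q • v = a • c + b • c') ∧
      ∀ a b : S, a • c + b • c' = 0 → a = 0 ∧ b = 0 := by
  constructor
  · intro v hv
    obtain ⟨α, hα⟩ := hv k y' c' h2
    obtain ⟨β, hβ⟩ := hv j y c h1
    refine ⟨α, -β, ?_⟩
    simp only [dt] at hα hβ hc
    ext
    · show q * v.1 = α * c.1 + -β * c'.1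
      apply mul_left_cancel₀ hu
      linear_combination (-v.1) * hc + c.1 * hα - c'.1 * hβ
    · show q * v.2 = α * c.2 + -β * c'.2
      apply mul_left_cancel₀ hu
      linear_combination (-v.2) * hc + c.2 * hα - c'.2 * hβ
  · intro a b hab
    have hne : u₀ * q ≠ 0 := mul_ne_zero hu hq
    have ha : a * dt c c' + b * dt c' c' = 0 := by
      rw [← E7_dt_smul, hab]; simp [dt]
    have hb : a * dt c c + b * dt c' c = 0 := by
      rw [← E7_dt_smul, hab]; simp [dt]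
    rw [E7_dt_self, mul_zero, add_zero, hc] at ha
    rw [E7_dt_self, mul_zero, zero_add, E7_dt_skew, hc, mul_neg, neg_eq_zero] at hb
    exact ⟨(mul_eq_zero.1 ha).resolve_right hne, (mul_eq_zero.1 hb).resolve_right hne⟩

theorem Fp_bun [Finite ι] (h : S1 x w E H D ε δ d B) (t : Dat H ε δ B e₁ e₂ a₁ a₂ n₁ n₂)
    (hfull : ∀ i, ∃ N : ℕ, x i ^ N ∈ aI H B e₁ e₂ a₁ a₂) :
    Bun x (Fp (comp (H : S →ₗ[K] S) 0 (B e₁ e₂)) (shp (H : S →ₗ[K] S) a₁ a₂)
      (LinearMap.range (ph B e₁ e₂))) := by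
  have hdom : IsDomain S := h.base.cx.isDomain
  have hufm : UniqueFactorizationMonoid S := h.base.cx.ufm
  have hnoe : IsNoetherianRing S := h.base.cx.noeth
  have hu := t.u0
  refine ⟨inferInstance, ?_, ?_, ?_⟩
  · intro a m ham
    by_cases ha : a = 0
    · exact Or.inl ha
    right
    have h0 : a • (m : S × S) = 0 := by
      have := congrArg Subtype.val ham
      simpa using this
    have e1 : a * (m : S × S).1 = 0 := congrArg Prod.fst h0
    have e2 : a * (m : S × S).2 = 0 := congrArg Prod.snd h0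
    apply Subtype.ext
    ext
    · exact (mul_eq_zero.1 e1).resolve_left ha
    · exact (mul_eq_zero.1 e2).resolve_left ha
  · intro a b hab m n hmn
    have h0 : a • (m : S × S) = b • (n : S × S) := by
      have := congrArg Subtype.val hmn
      simpa using this
    obtain ⟨k, hk, hmk⟩ := E7_ht hu hab m.2 n.2 h0
    exact ⟨⟨k, hk⟩, Subtype.ext (by simpa using hmk)⟩
  · rintro p hp ⟨i, hi⟩
    obtain ⟨N, hN⟩ := hfull i
    have hgen : ∃ q, (∃ (j k : ℤ) (m n : M), Gf H B e₁ e₂ a₁ a₂ j m ∧ Gf H B e₁ e₂ a₁ a₂ k n ∧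
        comp (H : S →ₗ[K] S) (j + k - a₁ - a₂) (B m n) = q) ∧ q ∉ p := by
      by_contra hcon
      push Not at hcon
      have hle : aI H B e₁ e₂ a₁ a₂ ≤ p := by
        rw [aI, Ideal.span_le]
        intro q hq
        exact hcon q hq
      exact hi (hp.mem_of_pow_mem N (hle hN))
    obtain ⟨q, ⟨j, k, m, n, hm, hn, hq⟩, hqp⟩ := hgen
    have hq0 : q ≠ 0 := by
      rintro rfl
      exact hqp p.zero_mem
    have hv := (Gf.val h t hm hn).2
    rw [hq] at hv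
    have L1 := (ld_iff (x := x) (w := w) (E := E) (D := D) (ε := ε) (δ := δ) (d := d) (B := B)
      (e₁ := e₁) (e₂ := e₂) (a₁ := a₁) (a₂ := a₂) h j (ph B e₁ e₂ m) _).2 ⟨m, rfl, hm, rfl⟩
    have L2 := (ld_iff (x := x) (w := w) (E := E) (D := D) (ε := ε) (δ := δ) (d := d) (B := B)
      (e₁ := e₁) (e₂ := e₂) (a₁ := a₁) (a₂ := a₂) h k (ph B e₁ e₂ n) _).2 ⟨n, rfl, hn, rfl⟩
    obtain ⟨K1, K2⟩ := E7_lf hu hq0 L1 L2 hv.symm
    refine ⟨q, hqp, ⟨_, ld_mem h t L1⟩, ⟨_, ld_mem h t L2⟩, ?_, ?_⟩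
    · intro v
      obtain ⟨a, b, hab⟩ := K1 v v.2
      exact ⟨a, b, Subtype.ext (by simpa using hab)⟩
    · intro a b hab
      apply K2 a b
      have := congrArg Subtype.val hab
      simpa using this

end

end Pool.Agent.Lib.MP_745d3a_ag.PF.GA

end
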