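import Pool.Agent.Lib.MP_745d3a_ag.NV.Pair
import Pool.Agent.Lib.MP_745d3a_ag.NV.Lat
import Pool.Agent.Lib.MP_745d3a_ag.NV.Deg
import Pool.Agent.Lib.MP_745d3a_ag.NV.Tr

/-!
Theorem for the nilpotent types whose coordinates of weight zero are at most two.

`exists_dat` gives the adapted pair; `V = S × S` with the gradings
`ε' = shp E (d - n₂) (d - n₁)`, `η' = shp H a₁ a₂` (`gmod_pair`), `N = range (ph B e₁ e₂)`,
`F = Fp ..`. `gm_op` for the module `F` with the restrictions of `ε'`, `η'` to `F`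
(`Fp_E`, `Fp_H`; `LinearMap.restrict` for `F.restrictScalars K`; `Diag` by `Diag.of_injective` for the
inclusion; connection: componentwise) gives homogeneous generators `f1`, `f2` of `F`, independent.
Then `big` (`hpow`: `aI_smul` with `hfull`), `lift` with three different coordinates `0, 1, 2` of
`Fin 5` (`bd_pair`; `Nε`: `ph_eps`; `Nht`: `y0 = ph m0`, `y1 = ph m1`,
`ph (x1 • m0 - x0 • m1) = 0`, so `x1 • m0 = x0 • m1` (`ph_inj`), and `bun.ht` with
`Coord.relPrime_pow` gives `m0 = x0 • k`, then `m1 = x1 • k` by `tf`; `hLF`: `ld_mem`) gives lifts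
`y1`, `y2` of `f1`, `f2`, and `gen` (`top_pair`) shows that they generate `N`. With
`y1 = ph g1`, `y2 = ph g2`: `ph (m - a • g1 - b • g2) = 0`, so `m = a • g1 + b • g2`: `Gen2 S M`.
-/

set_option autoImplicit false
set_option linter.unusedSectionVars false
set_option linter.unusedSimpArgs false
set_option linter.unusedVariables false

open MvPolynomial

namespace Pool.Agent.Lib.MP_745d3a_ag.PF.GA

section

universe uS

variable {K M : Type*} {S : Type uS} [Field K] [CharZero K] [IsAlgClosed K] [CommRing S] [Algebra K S]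
  {x : Fin 5 → S} {w : Fin 5 → ℤ} {E H D : Derivation K S S} [AddCommGroup M] [Module K M]
  [Module S M] [IsScalarTower K S M] {ε δ : M →ₗ[K] M} {d : ℤ} {B : M →ₗ[S] M →ₗ[S] S}

theorem sec1 (hG : GmThm.{uS} K) (h : S1 x w E H D ε δ d B) (c0 c1 : Fin 5) (h0 : w c0 = 0) (h1 : w c1 = 0)
    (hr : ∀ i, w i = 0 → i = c0 ∨ i = c1) (hne : ∃ i, w i ≠ 0) : Gen2 S M := by
  classical
  have hdom := h.base.cx.isDomain
  obtain ⟨e₁, e₂, a₁, a₂, n₁, n₂, t, hfull⟩ := exists_dat h c0 c1 h0 h1 hr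
  let ε' : (S × S) →ₗ[K] (S × S) := shp (E : S →ₗ[K] S) (d - n₂) (d - n₁)
  let η' : (S × S) →ₗ[K] (S × S) := shp (H : S →ₗ[K] S) a₁ a₂
  let N : Submodule S (S × S) := LinearMap.range (ph B e₁ e₂)
  let F : Submodule S (S × S) := Fp (comp (H : S →ₗ[K] S) 0 (B e₁ e₂)) η' N
  have hV : GMod x w E H ε' η' := gmod_pair h.base _ _ _ _
  have Fε : ∀ v ∈ F, ε' v ∈ F := Fp_E h t
  have Fη : ∀ v ∈ F, η' v ∈ F := Fp_H h t
  have bunF : Bun x F := Fp_bun h t hfull
  let εF : F →ₗ[K] F :=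
    { toFun := fun v => ⟨ε' v, Fε v v.2⟩
      map_add' := fun u v => Subtype.ext (map_add ε' (u : S × S) (v : S × S))
      map_smul' := fun c v => Subtype.ext (map_smul ε' c (v : S × S)) }
  let ηF : F →ₗ[K] F :=
    { toFun := fun v => ⟨η' v, Fη v v.2⟩
      map_add' := fun u v => Subtype.ext (map_add η' (u : S × S) (v : S × S))
      map_smul' := fun c v => Subtype.ext (map_smul η' c (v : S × S)) }
  let A : F →ₗ[K] (S × S) := F.subtype.restrictScalars K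
  have hA : Function.Injective A := Subtype.val_injective
  have cE : IsConn E εF := fun a m => Subtype.ext (hV.cE a (m : S × S))
  have cH : IsConn H ηF := fun a m => Subtype.ext (hV.cH a (m : S × S))
  have dE : Diag εF := Diag.of_injective hV.dE A hA fun _ => rfl
  have dH : Diag ηF := Diag.of_injective hV.dH A hA fun _ => rfl
  have hcomm : ∀ m, εF (ηF m) = ηF (εF m) := fun m => Subtype.ext (hV.comm (m : S × S))
  have hw : ∃ i j, w i ≠ w j := by
    obtain ⟨i, hi⟩ := hne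
    exact ⟨i, c0, by rw [h0]; exact hi⟩
  obtain ⟨f1, f2, m1, l1, m2, l2, e1, g1, e2, g2, hgen, hind⟩ :=
    gm_op hG h.base.cx h.base.eu h.base.wt hw cE dE cH dH hcomm bunF
  have hF : ∀ v, v ∈ F ↔ ∃ a b : S, v = a • (f1 : S × S) + b • (f2 : S × S) := by
    intro v
    constructor
    · intro hv
      obtain ⟨a, b, hab⟩ := hgen ⟨v, hv⟩
      exact ⟨a, b, congrArg Subtype.val hab⟩
    · rintro ⟨a, b, rfl⟩
      exact F.add_mem (F.smul_mem a f1.2) (F.smul_mem b f2.2)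
  have hind' : ∀ a b : S, a • (f1 : S × S) + b • (f2 : S × S) = 0 → a = 0 ∧ b = 0 := by
    intro a b hab
    exact hind a b (Subtype.ext hab)
  have e1' : ε' (f1 : S × S) = (m1 : K) • (f1 : S × S) := congrArg Subtype.val e1
  have e2' : ε' (f2 : S × S) = (m2 : K) • (f2 : S × S) := congrArg Subtype.val e2
  have g1' : η' (f1 : S × S) = (l1 : K) • (f1 : S × S) := congrArg Subtype.val g1
  have g2' : η' (f2 : S × S) = (l2 : K) • (f2 : S × S) := congrArg Subtype.val g2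
  have hpow : ∀ i, ∃ N' : ℕ, x i ^ N' • (f1 : S × S) ∈ M0 η' N ∧
      x i ^ N' • (f2 : S × S) ∈ M0 η' N := by
    intro i
    obtain ⟨N', hN'⟩ := hfull i
    exact ⟨N', aI_smul h t f1.2 hN', aI_smul h t f2.2 hN'⟩
  have hbig := big hV N F (f1 : S × S) (f2 : S × S) hF m1 m2 e1' e2' hpow
  have bd : ∀ n : ℤ, ∃ k0 : ℤ, ∀ v : S × S, ε' v = (n : K) • v → Fl η' k0 v → v = 0 :=
    fun n => bd_pair h.base _ _ _ _ n
  have Nε : ∀ y ∈ N, ε' y ∈ N := by
    rintro _ ⟨m, rfl⟩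
    exact ⟨ε m, (ph_eps h t m).symm⟩
  have Nht : ∀ y0 ∈ N, ∀ y1 ∈ N, x 1 • y0 = x 0 • y1 →
      ∃ y ∈ N, y0 = x 0 • y ∧ y1 = x 1 • y := by
    rintro _ ⟨p0, rfl⟩ _ ⟨p1, rfl⟩ heq
    have h3 : x 1 • p0 = x 0 • p1 := by
      rw [← sub_eq_zero]
      apply ph_inj h t
      rw [map_sub, map_smul, map_smul, heq, sub_self]
    have hrel : IsRelPrime (x 1) (x 0) := by
      have := h.base.cx.relPrime_pow (show (1 : Fin 5) ≠ 0 by decide) 1 1
      rwa [pow_one, pow_one] at this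
    obtain ⟨k, hk⟩ := h.bun.ht _ _ hrel p0 p1 h3
    have h4 : p1 = x 1 • k := by
      have h5 : x 0 • (p1 - x 1 • k) = 0 := by
        rw [smul_sub, ← h3, hk, smul_comm (x 1) (x 0) k, sub_self]
      exact sub_eq_zero.mp ((h.bun.tf _ _ h5).resolve_left (h.base.cx.prime_x 0).ne_zero)
    refine ⟨ph B e₁ e₂ k, ⟨k, rfl⟩, ?_, ?_⟩
    · rw [hk, map_smul]
    · rw [h4, map_smul]
  have hLF : ∀ k y c, Ld η' N k y c → c ∈ F := fun k y c hl => ld_mem h t hl
  have hl := lift hV (i0 := 0) (i1 := 1) (i2 := 2) (by decide) (by decide) (by decide) bd N F Nε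
    Nht hLF Fε Fη (f1 : S × S) (f2 : S × S) hF hind' hbig
  obtain ⟨y1, hy1, k1⟩ := hl m1 l1 (f1 : S × S) f1.2 e1' g1'
  obtain ⟨y2, hy2, k2⟩ := hl m2 l2 (f2 : S × S) f2.2 e2' g2'
  have hg := gen hV bd (top_pair h.base _ _) N F Nε hLF (f1 : S × S) (f2 : S × S) hF m1 l1 m2 l2
    e1' g1' e2' g2' y1 y2 hy1 hy2 k1 k2
  obtain ⟨q1, rfl⟩ := hy1.1
  obtain ⟨q2, rfl⟩ := hy2.1
  refine ⟨q1, q2, fun m => ?_⟩
  obtain ⟨a, b, hab⟩ := hg (ph B e₁ e₂ m) ⟨m, rfl⟩
  refine ⟨a, b, ?_⟩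
  rw [← sub_eq_zero]
  apply ph_inj h t
  rw [map_sub, map_add, map_smul, map_smul, hab, sub_self]

end

end Pool.Agent.Lib.MP_745d3a_ag.PF.GA
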