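import Pool.Agent.Lib.MP_745d3a_ag.NV.Deg

section

/-!
Consequences of the Plücker relation.

* `skew`: `alt` for `m + n`. `cramer`: `plu e₁ e₂ m` and `skew`.
  `plu4`: apply `B · e` to `plu a b c`. `det_ph`: apply `B · n` to `cramer`.
* `comp0_ring`: the component of weight `0` of a sum is the sum (`comp_add`).
* `exists_hom`: `q := {f | comp H 0 f ∈ p}` is a prime ideal (`Base.comp_zero_mul`, `comp_add`;
  `comp H 0 1 = 1` as `H 1 = 0`) and `x c ∉ q`
  (`H (x c) = 0`, so `comp H 0 (x c) = x c`). By `full` some value `B a b ∉ q`. Write `a`, `b` as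
  the sums of their `ε`-components (`exists_comp`); if all `B (comp ε i a) (comp ε j b) ∈ q` then
  `B a b ∈ q`.
-/

set_option autoImplicit false
set_option linter.unusedSectionVars false
set_option linter.unusedSimpArgs false
set_option linter.unusedVariables false

open MvPolynomial

namespace Pool.Agent.Lib.MP_745d3a_ag.PF.GA

section

variable {K S ι M : Type*} [Field K] [CharZero K] [CommRing S] [Algebra K S] {x : ι → S}
  {w : ι → ℤ} {E H D : Derivation K S S} [AddCommGroup M] [Module K M] [Module S M]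
  [IsScalarTower K S M] {ε δ : M →ₗ[K] M} {d : ℤ} {B : M →ₗ[S] M →ₗ[S] S}

theorem Pr.skew (P : Pr x E ε d B) (m n : M) : B m n = -B n m := by
  have h := P.alt (m + n)
  simp only [map_add, LinearMap.add_apply, P.alt m, P.alt n, zero_add, add_zero] at h
  exact eq_neg_of_add_eq_zero_right h

theorem Pr.cramer (P : Pr x E ε d B) (e₁ e₂ m : M) :
    B e₁ e₂ • m = B m e₂ • e₁ + B e₁ m • e₂ := by
  have h := P.plu e₁ e₂ m
  rw [P.skew e₂ m, P.skew m e₁, neg_smul, neg_smul] at h
  rw [← sub_eq_zero, ← h]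
  abel

theorem Pr.plu4 (P : Pr x E ε d B) (a b c e : M) :
    B a b * B c e + B b c * B a e + B c a * B b e = 0 := by
  have h := congrArg (fun m => B m e) (P.plu a b c)
  simpa only [map_add, map_smul, LinearMap.add_apply, LinearMap.smul_apply, smul_eq_mul,
    map_zero, LinearMap.zero_apply] using h

theorem Pr.det_ph (P : Pr x E ε d B) (e₁ e₂ m n : M) :
    B e₁ e₂ * B m n = dt (ph B e₁ e₂ m) (ph B e₁ e₂ n) := by
  have h := congrArg (fun m => B m n) (P.cramer e₁ e₂ m)
  simp only [map_add, map_smul, LinearMap.add_apply, LinearMap.smul_apply, smul_eq_mul] at h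
  rw [dt, ph_apply, ph_apply, h, P.skew e₂ n]
  ring

/-- Values on homogeneous elements are homogeneous. -/
theorem Pr.hom_val (P : Pr x E ε d B) {m n : M} {a b : ℤ} (hm : ε m = (a : K) • m)
    (hn : ε n = (b : K) • n) : E (B m n) = ((a + b - d : ℤ) : K) • B m n := by
  have hk1 : ∀ (c : K) (u v : M), B (c • u) v = c • B u v := by
    intro c u v
    rw [← algebraMap_smul S c u, map_smul, LinearMap.smul_apply, algebraMap_smul]
  have hk2 : ∀ (c : K) (u v : M), B u (c • v) = c • B u v := by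
    intro c u v
    rw [← algebraMap_smul S c v, map_smul, algebraMap_smul]
  rw [P.hom, hm, hn, hk1, hk2, ← add_smul, ← sub_smul]
  push_cast
  rfl

/-- At a prime which does not contain a coordinate of weight zero, some value of weight zero is
not in the prime. -/
theorem exists_hom (h : Base x w E H) (hd : Diag ε) (P : Pr x E ε d B) (p : Ideal S)
    (hp : p.IsPrime) (c : ι) (hc : w c = 0) (hcp : x c ∉ p) :
    ∃ (e₁ e₂ : M) (n₁ n₂ : ℤ), ε e₁ = (n₁ : K) • e₁ ∧ ε e₂ = (n₂ : K) • e₂ ∧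
      comp (H : S →ₗ[K] S) 0 (B e₁ e₂) ∉ p := by
  classical
  have hx0 : comp (H : S →ₗ[K] S) 0 (x c) = x c := by
    refine comp_of_eig ?_
    have := h.wt c
    rw [hc] at this
    exact this
  have h10 : comp (H : S →ₗ[K] S) 0 (1 : S) = 1 := by
    refine comp_of_eig ?_
    show H 1 = _
    rw [Derivation.map_one_eq_zero, Int.cast_zero, zero_smul]
  have hpow : ∀ N : ℕ, comp (H : S →ₗ[K] S) 0 (x c ^ N) = x c ^ N := by
    intro N
    induction N with
    | zero => rw [pow_zero, h10]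
    | succ N ih => rw [pow_succ, h.comp_zero_mul, ih, hx0]
  by_contra hcon
  push Not at hcon
  let q : Ideal S :=
    { carrier := {f | comp (H : S →ₗ[K] S) 0 f ∈ p}
      add_mem' := by
        intro a b ha hb
        show comp (H : S →ₗ[K] S) 0 (a + b) ∈ p
        rw [comp_add h.dH]
        exact p.add_mem ha hb
      zero_mem' := by
        show comp (H : S →ₗ[K] S) 0 0 ∈ p
        rw [comp_zero]
        exact p.zero_mem
      smul_mem' := by
        intro a b hb
        show comp (H : S →ₗ[K] S) 0 (a * b) ∈ p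
        rw [h.comp_zero_mul]
        exact p.mul_mem_left _ hb }
  have hq : ∀ a b, B a b ∈ q := by
    intro a b
    obtain ⟨s, hs, _⟩ := exists_comp hd a
    obtain ⟨t, ht, _⟩ := exists_comp hd b
    rw [hs, ht]
    simp only [map_sum, LinearMap.sum_apply]
    refine q.sum_mem fun i _ => q.sum_mem fun j _ => ?_
    exact hcon _ _ _ _ (comp_eig hd _ _) (comp_eig hd _ _)
  obtain ⟨N, hN⟩ := P.full c
  have h1 : Ideal.span {p : S | ∃ a b, B a b = p} ≤ q := by
    rw [Ideal.span_le]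
    rintro _ ⟨a, b, rfl⟩
    exact hq a b
  have h2 : comp (H : S →ₗ[K] S) 0 (x c ^ N) ∈ p := h1 hN
  rw [hpow] at h2
  exact hcp (hp.mem_of_pow_mem N h2)

end

end Pool.Agent.Lib.MP_745d3a_ag.PF.GA

end

section

/-!
Existence of an adapted pair.

`weight_one`: an element of the form `D a` has weight at least one (`fl_raise`, `Base.fl_zero`).

`dich`: put `b m n := comp H 0 (B (δ m) n)`. It is additive in both arguments, and
`b (a • m) n = comp H 0 a * b m n` (`cD`, `comp_zero_mul`, and `comp H 0 (D a) = 0` by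
`weight_one`), `b m n = b n m`: by `DB` and `weight_one` `comp H 0` of `B (δ m) n + B m (δ n)` is
zero, and `B m (δ n) = -B (δ n) m`. Suppose `b e e = 0` for all homogeneous `e`. For homogeneous
`m`, `n` of degrees `i ≤ j`: `x c ^ (j - i) • m + n` is homogeneous for a coordinate `x c` of weight
zero (there is one: take the smallest weight and `root`; if `ι` is empty then ... the pairing
`full` is void, so `c` is a hypothesis), so `2 * x c ^ (j - i) * b m n = 0` and `b m n = 0` (`S` is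
a domain of characteristic zero). By additivity (`exists_comp`) `b = 0` on all elements, and then
`Fl H 1 (B (δ m) n)` (`Fl.succ`, `Base.fl_zero`).
-/

set_option autoImplicit false
set_option linter.unusedSectionVars false
set_option linter.unusedSimpArgs false
set_option linter.unusedVariables false

open MvPolynomial

namespace Pool.Agent.Lib.MP_745d3a_ag.PF.GA

section

variable {K S ι M : Type*} [Field K] [CharZero K] [CommRing S] [Algebra K S] {x : ι → S}
  {w : ι → ℤ} {E H D : Derivation K S S} [AddCommGroup M] [Module K M] [Module S M]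
  [IsScalarTower K S M] {ε δ : M →ₗ[K] M} {d : ℤ} {B : M →ₗ[S] M →ₗ[S] S}

theorem S1.raise (h : S1 x w E H D ε δ d B) (k : ℤ) (a : S) :
    comp (H : S →ₗ[K] S) (k + 1) (D a) = D (comp (H : S →ₗ[K] S) k a) ∧
      (Fl (H : S →ₗ[K] S) k a → Fl (H : S →ₗ[K] S) (k + 1) (D a)) :=
  fl_raise (η := (H : S →ₗ[K] S)) (η' := (H : S →ₗ[K] S)) h.base.dH
    (D : S →ₗ[K] S).toAddMonoidHom (fun v => h.HD v) k a

theorem S1.weight_one (h : S1 x w E H D ε δ d B) (a : S) : Fl (H : S →ₗ[K] S) 1 (D a) := by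
  have := (h.raise 0 a).2 (h.base.fl_zero a le_rfl)
  rwa [zero_add] at this

private lemma E1_swap (h : S1 x w E H D ε δ d B) (m n : M) :
    comp (H : S →ₗ[K] S) 0 (B (δ m) n) = comp (H : S →ₗ[K] S) 0 (B (δ n) m) := by
  have h1 : comp (H : S →ₗ[K] S) 0 (D (B m n)) = 0 := h.weight_one _ 0 (by norm_num)
  rw [h.DB, comp_add h.base.dH, h.pr.skew m (δ n)] at h1
  have h2 : comp (H : S →ₗ[K] S) 0 (-B (δ n) m) = -comp (H : S →ₗ[K] S) 0 (B (δ n) m) := by
    have := comp_sub h.base.dH 0 (0 : S) (B (δ n) m)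
    rwa [zero_sub, comp_zero, zero_sub] at this
  rw [h2, ← sub_eq_add_neg, sub_eq_zero] at h1
  exact h1

private lemma E1_smul (h : S1 x w E H D ε δ d B) (a : S) (m n : M) :
    comp (H : S →ₗ[K] S) 0 (B (δ (a • m)) n) =
      comp (H : S →ₗ[K] S) 0 a * comp (H : S →ₗ[K] S) 0 (B (δ m) n) := by
  rw [h.cD, map_add, LinearMap.add_apply, map_smul, map_smul, LinearMap.smul_apply,
    LinearMap.smul_apply, smul_eq_mul, smul_eq_mul, comp_add h.base.dH, h.base.comp_zero_mul,
    h.base.comp_zero_mul, h.weight_one a 0 (by norm_num), zero_mul, zero_add]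

private lemma E1_xpow (h : S1 x w E H D ε δ d B) (c : ι) (hc : w c = 0) (N : ℕ) :
    comp (H : S →ₗ[K] S) 0 (x c ^ N) = x c ^ N := by
  have hx0 : comp (H : S →ₗ[K] S) 0 (x c) = x c := by
    refine comp_of_eig ?_
    have := h.base.wt c
    rw [hc] at this
    exact this
  have h10 : comp (H : S →ₗ[K] S) 0 (1 : S) = 1 := by
    refine comp_of_eig ?_
    show H 1 = _
    rw [Derivation.map_one_eq_zero, Int.cast_zero, zero_smul]
  induction N with
  | zero => rw [pow_zero, h10]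
  | succ N ih => rw [pow_succ, h.base.comp_zero_mul, ih, hx0]

private lemma E1_epow (h : S1 x w E H D ε δ d B) (c : ι) (N : ℕ) :
    E (x c ^ N) = ((N : ℤ) : K) • x c ^ N := by
  rw [Derivation.leibniz_pow, h.base.eu c, smul_eq_mul, Int.cast_natCast]
  cases N with
  | zero => simp
  | succ N =>
    rw [Nat.add_sub_cancel, ← pow_succ, nsmul_eq_mul, Algebra.smul_def, map_natCast]

/-- The case of degrees `i ≤ j`. -/
private lemma E1_hom (h : S1 x w E H D ε δ d B) (c : ι) (hc : w c = 0)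
    (h0 : ∀ (e : M) (n : ℤ), ε e = (n : K) • e → comp (H : S →ₗ[K] S) 0 (B (δ e) e) = 0)
    (m n : M) (i j : ℤ) (hij : i ≤ j) (hm : ε m = (i : K) • m) (hn : ε n = (j : K) • n) :
    comp (H : S →ₗ[K] S) 0 (B (δ m) n) = 0 := by
  have hdom := h.base.cx.isDomain
  obtain ⟨N, hN⟩ := Int.eq_ofNat_of_zero_le (sub_nonneg.mpr hij)
  have hdeg : ε (x c ^ N • m) = (j : K) • (x c ^ N • m) := by
    rw [h.cE, E1_epow h, hm, smul_comm (x c ^ N) (i : K) m, smul_assoc, ← add_smul]
    congr 1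
    rw [← Int.cast_add, show (N : ℤ) + i = j by omega]
  have h1 := h0 (x c ^ N • m + n) j (by rw [map_add, hdeg, hn, smul_add])
  have h2 := h0 m i hm
  have h3 := h0 n j hn
  have hxN := E1_xpow h c hc N
  have h4 : comp (H : S →ₗ[K] S) 0 (B (δ (x c ^ N • m)) (x c ^ N • m)) = 0 := by
    rw [E1_smul h, map_smul, smul_eq_mul, h.base.comp_zero_mul, h2, mul_zero, mul_zero]
  have h5 : comp (H : S →ₗ[K] S) 0 (B (δ (x c ^ N • m)) n) =
      x c ^ N * comp (H : S →ₗ[K] S) 0 (B (δ m) n) := by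
    rw [E1_smul h, hxN]
  have h6 : comp (H : S →ₗ[K] S) 0 (B (δ n) (x c ^ N • m)) =
      x c ^ N * comp (H : S →ₗ[K] S) 0 (B (δ m) n) := by
    rw [← E1_swap h, h5]
  simp only [map_add, LinearMap.add_apply] at h1
  simp only [comp_add h.base.dH] at h1
  rw [h4, h5, h6, h3, zero_add, add_zero, ← two_mul, mul_eq_zero] at h1
  rcases h1 with h1 | h1
  · exfalso
    have h7 : algebraMap K S 2 = 0 := by rw [map_ofNat]; exact h1
    rw [FaithfulSMul.algebraMap_eq_zero_iff] at h7
    exact two_ne_zero h7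
  · rcases mul_eq_zero.mp h1 with h8 | h8
    · exfalso
      have h9 := eq_zero_of_pow_eq_zero h8
      have h10 : x c ≠ 0 := by
        have hi := h.base.cx.symm_x c
        intro h11
        rw [h11, map_zero] at hi
        exact MvPolynomial.X_ne_zero c hi.symm
      exact h10 h9
    · exact h8

theorem S1.dich (h : S1 x w E H D ε δ d B) (c : ι) (hc : w c = 0) :
    (∀ m n, Fl (H : S →ₗ[K] S) 1 (B (δ m) n)) ∨
      ∃ (e : M) (n : ℤ), ε e = (n : K) • e ∧ comp (H : S →ₗ[K] S) 0 (B (δ e) e) ≠ 0 := by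
  by_cases h0 : ∃ (e : M) (n : ℤ), ε e = (n : K) • e ∧ comp (H : S →ₗ[K] S) 0 (B (δ e) e) ≠ 0
  · exact Or.inr h0
  · left
    push Not at h0
    intro m n
    have key : comp (H : S →ₗ[K] S) 0 (B (δ m) n) = 0 := by
      obtain ⟨s, hs, _⟩ := exists_comp h.dE m
      obtain ⟨t, ht, _⟩ := exists_comp h.dE n
      rw [hs, ht]
      simp only [map_sum, LinearMap.sum_apply]
      rw [comp_sum h.base.dH]
      refine Finset.sum_eq_zero fun i _ => ?_
      rw [comp_sum h.base.dH]
      refine Finset.sum_eq_zero fun j _ => ?_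
      rcases le_total j i with hij | hij
      · exact E1_hom h c hc h0 _ _ j i hij (comp_eig h.dE _ _) (comp_eig h.dE _ _)
      · rw [E1_swap h]
        exact E1_hom h c hc h0 _ _ i j hij (comp_eig h.dE _ _) (comp_eig h.dE _ _)
    have := Fl.succ (h.base.fl_zero (B (δ m) n) le_rfl) key
    rwa [zero_add] at this

end

end Pool.Agent.Lib.MP_745d3a_ag.PF.GA

end

section

/-!
Existence of an adapted pair.

`dat0`: in the first case take `e₁`, `e₂` from `exists_hom` with the prime `⊥`; `a = (0, 0)`; the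
conditions `G..` are the hypothesis up to `skew`.

`dat1`: in the second case take `e₁ = δ e`, `e₂ = e`, `a = (1, 0)`, `n₁ = n₂ = n` (`comm`).
Put `u = B (δ e) e`. `G11`: `B (δ (δ e)) e = D u` by `DB` and `alt`: `weight_one`.
`G12`: `Base.fl_zero`. `G22`: `B (δ e) (δ e) = 0`. `G21`: we need `Fl H 2 q` for
`q = B (δ e) (δ (δ e))`. Take `f ≠ 0` with `δ f = 0` (`inv`), `p := B f e`, `r := B (δ e) f`.
`u • f = p • δ e + r • e` (`cramer`). `DB` with `δ f = 0`: `D p = B f (δ e) = -r`, and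
`D r = B (δ (δ e)) f`. Apply `B (δ (δ e)) ·` to the formula for `u • f`:
`u * D r = - p * q + r * D u`. So `q * p = u * D (D p) - D u * D p`. `p ≠ 0`: otherwise `r = 0`
and `u • f = 0`. Let `j` be the order of `p` (`exists_order`). The right side has weight at least
`j + 2` (`fl_raise`, `fl_mul`, `weight_one`), so `Fl H 2 q` by `fl_mul_cancel`.
-/

set_option autoImplicit false
set_option linter.unusedSectionVars false
set_option linter.unusedSimpArgs false
set_option linter.unusedVariables false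

open MvPolynomial

namespace Pool.Agent.Lib.MP_745d3a_ag.PF.GA

section

variable {K S ι M : Type*} [Field K] [CharZero K] [CommRing S] [Algebra K S] {x : ι → S}
  {w : ι → ℤ} {E H D : Derivation K S S} [AddCommGroup M] [Module K M] [Module S M]
  [IsScalarTower K S M] {ε δ : M →ₗ[K] M} {d : ℤ} {B : M →ₗ[S] M →ₗ[S] S}

theorem S1.dat0 (h : S1 x w E H D ε δ d B) (c : ι) (hc : w c = 0)
    (h0 : ∀ m n, Fl (H : S →ₗ[K] S) 1 (B (δ m) n)) :
    ∃ (e₁ e₂ : M) (n₁ n₂ : ℤ), Dat H ε δ B e₁ e₂ 0 0 n₁ n₂ := by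
  have := h.base.cx.isDomain
  obtain ⟨e₁, e₂, n₁, n₂, h₁, h₂, hu⟩ := exists_hom h.base h.dE h.pr ⊥ Ideal.isPrime_bot c hc
    (fun hx => (h.base.cx.prime_x c).ne_zero (by simpa using hx))
  have hneg : ∀ m n, Fl (H : S →ₗ[K] S) 1 (B m (δ n)) := by
    intro m n
    have h3 := Fl.smulK h.base.dH (-1 : K) (h0 n m)
    rwa [neg_smul, one_smul, ← h.pr.skew m (δ n)] at h3
  refine ⟨e₁, e₂, n₁, n₂, ⟨fun h3 => hu (by simpa using h3), h₁, h₂, h0 _ _, ?_, ?_, hneg _ _⟩⟩
  · rw [show (1 : ℤ) + 0 - 0 = 1 by norm_num]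
    exact hneg _ _
  · rw [show (1 : ℤ) + 0 - 0 = 1 by norm_num]
    exact h0 _ _

theorem S1.dat1 (h : S1 x w E H D ε δ d B) {e : M} {n : ℤ} (he : ε e = (n : K) • e)
    (hu : comp (H : S →ₗ[K] S) 0 (B (δ e) e) ≠ 0) : Dat H ε δ B (δ e) e 1 0 n n := by
  have := h.base.cx.isDomain
  obtain ⟨f, hf, hδf⟩ := h.inv
  have hDu : D (B (δ e) e) = B (δ (δ e)) e := by
    rw [h.DB, h.pr.alt (δ e), add_zero]
  have hDp : D (B f e) = -B (δ e) f := by
    rw [h.DB, hδf, map_zero, LinearMap.zero_apply, zero_add, h.pr.skew f (δ e)]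
  have hDr : D (B (δ e) f) = B (δ (δ e)) f := by
    rw [h.DB, hδf, map_zero, add_zero]
  have hcr := h.pr.cramer (δ e) e f
  have hq := congrArg (fun m => B (δ (δ e)) m) hcr
  simp only [map_add, map_smul, smul_eq_mul] at hq
  have hsk : B (δ (δ e)) (δ e) = -B (δ e) (δ (δ e)) := h.pr.skew _ _
  have hDDp : D (D (B f e)) = -B (δ (δ e)) f := by
    rw [hDp, map_neg, hDr]
  have hkey : B f e * B (δ e) (δ (δ e)) =
      B (δ e) e * D (D (B f e)) - D (B (δ e) e) * D (B f e) := by
    rw [hDDp, hDu, hDp]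
    rw [hsk] at hq
    linear_combination hq
  have hp : B f e ≠ 0 := by
    intro h0
    have hr : B (δ e) f = 0 := by
      rw [h0, map_zero] at hDp
      exact neg_eq_zero.1 hDp.symm
    rw [h0, hr, zero_smul, zero_smul, add_zero] at hcr
    rcases h.bun.tf _ _ hcr with h1 | h1
    · exact hu (by rw [h1, comp_zero])
    · exact hf h1
  obtain ⟨j, hj, hj0⟩ := exists_order h.base.dH hp
  refine ⟨hu, ?_, he, ?_, ?_, ?_, ?_⟩
  · rw [h.comm, he, map_smul]
  · rw [← hDu]
    exact h.weight_one _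
  · rw [show (1 : ℤ) + 1 - 0 = 2 by norm_num]
    refine h.base.fl_mul_cancel hj hj0 ?_
    rw [hkey]
    refine Fl.sub h.base.dH ?_ ?_
    · have h1 := (h.raise (j + 1) (D (B f e))).2 ((h.raise j (B f e)).2 hj)
      have h2 := (h.base.fl_mul (h.base.fl_zero (B (δ e) e) le_rfl) h1).1
      rwa [show (0 : ℤ) + (j + 1 + 1) = j + 2 by ring] at h2
    · have h1 := (h.base.fl_mul (h.weight_one (B (δ e) e)) ((h.raise j (B f e)).2 hj)).1
      rwa [show (1 : ℤ) + (j + 1) = j + 2 by ring] at h1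
  · rw [show (1 : ℤ) + 0 - 1 = 0 by norm_num]
    exact h.base.fl_zero _ le_rfl
  · rw [h.pr.alt (δ e)]
    exact Fl.zero 1

end

end Pool.Agent.Lib.MP_745d3a_ag.PF.GA

end

section

/-!
The connection raises the filtration by one; the ideal of leading values is stable under `D`.

Let `u = B e₁ e₂`; `Fl H 0 u` and `comp H 0 u ≠ 0` (`u0`), so `fl_mul_cancel` with `a = u`, `j = 0`
removes a factor `u`.

* `Gf.step`: let `φ₁ = B m e₂`, `φ₂ = B e₁ m`, `u • m = φ₁ • e₁ + φ₂ • e₂` (`cramer`). By `DB`: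
  `B (δ m) e₂ = D φ₁ - B m (δ e₂)` and
  `u * B m (δ e₂) = φ₁ * B e₁ (δ e₂) + φ₂ * B e₂ (δ e₂)` has weight at least `k + 1 - a₁`:
  first term `(k - a₁) + 1` (`G22`), second `(k - a₂) + (1 + a₂ - a₁)` (`G12` with `skew`).
  `B e₁ (δ m) = D φ₂ - B (δ e₁) m` and
  `u * B (δ e₁) m = φ₁ * B (δ e₁) e₁ + φ₂ * B (δ e₁) e₂` has weight at least `k + 1 - a₂`:
  first term `(k - a₁) + (1 + a₁ - a₂)` (`G21` with `skew`), second `(k - a₂) + 1` (`G11`).
* `Gf.val`: `det_ph`: `u * B m n = φ₁(m) φ₂(n) - φ₂(m) φ₁(n)` has weight at least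
  `j + k - a₁ - a₂`; cancel `u`; and the component of this weight (`fl_mul`, `comp_sub`).
* `aI_stable`: for a generator `comp H l (B m n)`, `l = j + k - a₁ - a₂`: `D` of it is
  `comp H (l + 1) (D (B m n)) = comp H (l + 1) (B (δ m) n) + comp H (l + 1) (B m (δ n))`
  (`S1.raise`, `DB`), two generators by `Gf.step`. For general elements: span induction,
  `D (a * p) = D a * p + a * D p`.
-/

set_option autoImplicit false
set_option linter.unusedSectionVars false
set_option linter.unusedSimpArgs false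
set_option linter.unusedVariables false

open MvPolynomial

namespace Pool.Agent.Lib.MP_745d3a_ag.PF.GA

section

variable {K S ι M : Type*} [Field K] [CharZero K] [CommRing S] [Algebra K S] {x : ι → S}
  {w : ι → ℤ} {E H D : Derivation K S S} [AddCommGroup M] [Module K M] [Module S M]
  [IsScalarTower K S M] {ε δ : M →ₗ[K] M} {d : ℤ} {B : M →ₗ[S] M →ₗ[S] S} {e₁ e₂ : M}
  {a₁ a₂ n₁ n₂ : ℤ}

private theorem E2_cramerB (P : Pr x E ε d B) (e₁ e₂ m n : M) :
    B e₁ e₂ * B m n = B m e₂ * B e₁ n + B e₁ m * B e₂ n := by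
  have h1 := congrArg (fun z => B z n) (P.cramer e₁ e₂ m)
  simpa only [map_add, map_smul, LinearMap.add_apply, LinearMap.smul_apply, smul_eq_mul] using h1

private theorem E2_cramerB' (P : Pr x E ε d B) (e₁ e₂ m n : M) :
    B e₁ e₂ * B n m = B m e₂ * B n e₁ + B e₁ m * B n e₂ := by
  have h1 := congrArg (fun z => B n z) (P.cramer e₁ e₂ m)
  simpa only [map_add, map_smul, smul_eq_mul] using h1

private theorem E2_cast {V : Type*} [AddCommGroup V] [Module K V] {η : V →ₗ[K] V} {j k : ℤ}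
    (hjk : j = k) {v : V} (h : Fl η j v) : Fl η k v := hjk ▸ h

theorem Gf.step (h : S1 x w E H D ε δ d B) (t : Dat H ε δ B e₁ e₂ a₁ a₂ n₁ n₂) {k : ℤ} {m : M}
    (hm : Gf H B e₁ e₂ a₁ a₂ k m) : Gf H B e₁ e₂ a₁ a₂ (k + 1) (δ m) := by
  have hb := h.base
  have hd : Diag (H : S →ₗ[K] S) := hb.dH
  have hu : Fl (H : S →ₗ[K] S) 0 (B e₁ e₂) := hb.fl_zero _ le_rfl
  obtain ⟨hm1, hm2⟩ := hm
  constructor
  · have h1 : B (δ m) e₂ = D (B m e₂) - B m (δ e₂) := by
      rw [h.DB m e₂, add_sub_cancel_right]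
    rw [h1]
    refine Fl.sub hd (E2_cast (by ring) ((h.raise (k - a₁) (B m e₂)).2 hm1)) ?_
    refine hb.fl_mul_cancel hu t.u0 ?_
    have h2 : B e₁ e₂ * B m (δ e₂)
        = B m e₂ * B e₁ (δ e₂) - B e₁ m * B (δ e₂) e₂ := by
      rw [E2_cramerB h.pr, h.pr.skew e₂ (δ e₂)]
      ring
    rw [h2]
    exact Fl.sub hd (E2_cast (by ring) (hb.fl_mul hm1 t.G22).1)
      (E2_cast (by ring) (hb.fl_mul hm2 t.G12).1)
  · have h1 : B e₁ (δ m) = D (B e₁ m) - B (δ e₁) m := by
      rw [h.DB e₁ m, add_sub_cancel_left]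
    rw [h1]
    refine Fl.sub hd (E2_cast (by ring) ((h.raise (k - a₂) (B e₁ m)).2 hm2)) ?_
    refine hb.fl_mul_cancel hu t.u0 ?_
    have h2 : B e₁ e₂ * B (δ e₁) m
        = B e₁ m * B (δ e₁) e₂ - B m e₂ * B e₁ (δ e₁) := by
      rw [E2_cramerB' h.pr, h.pr.skew (δ e₁) e₁]
      ring
    rw [h2]
    exact Fl.sub hd (E2_cast (by ring) (hb.fl_mul hm2 t.G11).1)
      (E2_cast (by ring) (hb.fl_mul hm1 t.G21).1)

theorem Gf.val (h : S1 x w E H D ε δ d B) (t : Dat H ε δ B e₁ e₂ a₁ a₂ n₁ n₂) {j k : ℤ} {m n : M}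
    (hm : Gf H B e₁ e₂ a₁ a₂ j m) (hn : Gf H B e₁ e₂ a₁ a₂ k n) :
    Fl (H : S →ₗ[K] S) (j + k - a₁ - a₂) (B m n) ∧
    comp (H : S →ₗ[K] S) 0 (B e₁ e₂) * comp (H : S →ₗ[K] S) (j + k - a₁ - a₂) (B m n) =
      dt (comp (H : S →ₗ[K] S) (j - a₁) (B m e₂), comp (H : S →ₗ[K] S) (j - a₂) (B e₁ m))
        (comp (H : S →ₗ[K] S) (k - a₁) (B n e₂), comp (H : S →ₗ[K] S) (k - a₂) (B e₁ n)) := by
  have hb := h.base
  have hd : Diag (H : S →ₗ[K] S) := hb.dH
  have hu : Fl (H : S →ₗ[K] S) 0 (B e₁ e₂) := hb.fl_zero _ le_rfl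
  obtain ⟨hm1, hm2⟩ := hm
  obtain ⟨hn1, hn2⟩ := hn
  have h0 : B e₁ e₂ * B m n = B m e₂ * B e₁ n - B e₁ m * B n e₂ := by
    rw [h.pr.det_ph, dt, ph_apply, ph_apply]
  have hA := hb.fl_mul hm1 hn2
  have hC := hb.fl_mul hm2 hn1
  have e1 : j - a₁ + (k - a₂) = j + k - a₁ - a₂ := by ring
  have e2 : j - a₂ + (k - a₁) = j + k - a₁ - a₂ := by ring
  rw [e1] at hA
  rw [e2] at hC
  have hF : Fl (H : S →ₗ[K] S) (j + k - a₁ - a₂) (B e₁ e₂ * B m n) := by
    rw [h0]
    exact Fl.sub hd hA.1 hC.1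
  have hV : Fl (H : S →ₗ[K] S) (j + k - a₁ - a₂) (B m n) := by
    refine hb.fl_mul_cancel hu t.u0 ?_
    rw [zero_add]
    exact hF
  refine ⟨hV, ?_⟩
  have h3 := (hb.fl_mul hu hV).2
  rw [zero_add] at h3
  rw [← h3, h0, comp_sub hd, hA.2, hC.2, dt]

theorem aI_stable (h : S1 x w E H D ε δ d B) (t : Dat H ε δ B e₁ e₂ a₁ a₂ n₁ n₂) :
    ∀ p ∈ aI H B e₁ e₂ a₁ a₂, D p ∈ aI H B e₁ e₂ a₁ a₂ := by
  have hd : Diag (H : S →ₗ[K] S) := h.base.dH
  intro p hp
  refine Submodule.span_induction (p := fun p _ => D p ∈ aI H B e₁ e₂ a₁ a₂) ?_ ?_ ?_ ?_ hp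
  · rintro p ⟨j, k, m, n, hm, hn, rfl⟩
    have h1 : D (comp (H : S →ₗ[K] S) (j + k - a₁ - a₂) (B m n))
        = comp (H : S →ₗ[K] S) (j + 1 + k - a₁ - a₂) (B (δ m) n)
          + comp (H : S →ₗ[K] S) (j + (k + 1) - a₁ - a₂) (B m (δ n)) := by
      rw [← (h.raise (j + k - a₁ - a₂) (B m n)).1, h.DB m n, comp_add hd]
      congr 2
      · ring
      · ring
    rw [h1]
    exact add_mem (Submodule.subset_span ⟨j + 1, k, δ m, n, Gf.step h t hm, hn, rfl⟩)
      (Submodule.subset_span ⟨j, k + 1, m, δ n, hm, Gf.step h t hn, rfl⟩)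
  · rw [map_zero]
    exact zero_mem _
  · intro p q _ _ hp hq
    rw [map_add]
    exact add_mem hp hq
  · intro a p hp' hp
    rw [smul_eq_mul, Derivation.leibniz]
    refine add_mem (Submodule.smul_mem _ _ hp) ?_
    rw [smul_eq_mul, mul_comm]
    exact Ideal.mul_mem_left _ _ hp'

end

end Pool.Agent.Lib.MP_745d3a_ag.PF.GA

end

section

/-!
Homogeneous polynomials of weight zero in one or two variables.

* `mono_one`: `{a | ∃ P : Polynomial K, a - aeval (x c) P ∈ Ideal.span (x '' {c}ᶜ)}` is everything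
  (`g1phi_sub_mem` in PFHor.lean). Better: by `Coord.induction` every `b : S` has
  `comp H 0 b ∈ Subalgebra K[x c]` (`Algebra.adjoin K {x c}`): for `b * x i`,
  `comp H 0 (b * x i) = comp H (-w i) b * x i` is `0` if `w i > 0` (`H_neg`). So `a = aeval (x c) P`
  for a polynomial `P`; `E a = aeval (x c) (X * P')` (`Derivation.map_aeval` style) and `E a = n a`
  give `(j - n) * P_j = 0` for all `j` (`x c` is transcendental: `g1phi_aeval`), so
  `P = κ X ^ j`, `a = κ x_c ^ j`.
* `mono_two`: the same with two coordinates: `comp H 0 b ∈ Algebra.adjoin K {x c0, x c1}` for all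
  `b`, so `a = aeval ![x c0, x c1] P` for `P : MvPolynomial (Fin 2) K`, and the homogeneous component
  of degree `n` of `P` gives the same value (`E`-eigenvalue). Or: prove by `Coord.induction` that
  every `comp E d (comp H 0 b)` is of this form (`m = d.toNat`): for `b * x c0`, `b * x c1` multiply
  the form by the coordinate.
-/

set_option autoImplicit false
set_option linter.unusedSectionVars false
set_option linter.unusedSimpArgs false
set_option linter.unusedVariables false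

open MvPolynomial

namespace Pool.Agent.Lib.MP_745d3a_ag.PF.GA

section

variable {K S ι : Type*} [Field K] [CharZero K] [CommRing S] [Algebra K S] {x : ι → S}
  {w : ι → ℤ} {E H : Derivation K S S}

private lemma E3_comp_mul {T : Derivation K S S} (hT : Diag (T : S →ₗ[K] S)) {y : S} {k : ℤ}
    (hy : T y = (k : K) • y) (d : ℤ) (b : S) :
    comp (T : S →ₗ[K] S) d (b * y) = comp (T : S →ₗ[K] S) (d - k) b * y := by
  have h1 := comp_shift (T' := (T : S →ₗ[K] S)) hT (AddMonoidHom.mulRight y) k (fun v e hv => by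
    show T (v * y) = ((e + k : ℤ) : K) • (v * y)
    have hv' : T v = (e : K) • v := hv
    rw [Derivation.leibniz, hy, hv', smul_eq_mul, smul_eq_mul, Int.cast_add, add_smul,
      mul_smul_comm, mul_smul_comm, mul_comm y v]
    abel) (d - k) b
  rw [sub_add_cancel] at h1
  exact h1

private lemma E3_key (h : Base x w E H) (Q : ℕ → S → Prop) (h0 : ∀ m, Q m 0)
    (hadd : ∀ m a b, Q m a → Q m b → Q m (a + b)) (hC : ∀ c : K, Q 0 (algebraMap K S c))
    (hX : ∀ m a i, w i = 0 → Q m a → Q (m + 1) (a * x i)) (a : S) (m : ℕ) :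
    Q m (comp (E : S →ₗ[K] S) m (comp (H : S →ₗ[K] S) 0 a)) := by
  refine h.cx.induction (P := fun a => ∀ m : ℕ,
    Q m (comp (E : S →ₗ[K] S) m (comp (H : S →ₗ[K] S) 0 a))) ?_ ?_ ?_ a m
  · intro c m
    have h1 : comp (H : S →ₗ[K] S) 0 (algebraMap K S c) = algebraMap K S c :=
      comp_of_eig (by
        show H (algebraMap K S c) = _
        rw [Derivation.map_algebraMap, Int.cast_zero, zero_smul])
    have h2 : (E : S →ₗ[K] S) (algebraMap K S c) = ((0 : ℤ) : K) • algebraMap K S c := by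
      show E (algebraMap K S c) = _
      rw [Derivation.map_algebraMap, Int.cast_zero, zero_smul]
    rw [h1]
    rcases Nat.eq_zero_or_pos m with rfl | hm
    · rw [Nat.cast_zero, comp_of_eig h2]
      exact hC c
    · rw [comp_of_ne h2 (by omega)]
      exact h0 m
  · intro a b ha hb m
    rw [comp_add h.dH, comp_add h.dE]
    exact hadd _ _ _ (ha m) (hb m)
  · intro a i ha m
    rw [E3_comp_mul h.dH (h.wt i)]
    rcases (h.nn i).eq_or_lt with hw | hw
    · have hE : E (x i) = ((1 : ℤ) : K) • x i := by rw [h.eu i, Int.cast_one, one_smul]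
      rw [E3_comp_mul h.dE hE, ← hw, sub_zero]
      rcases Nat.eq_zero_or_pos m with rfl | hm
      · rw [h.E_neg (by simp), zero_mul]
        exact h0 0
      · obtain ⟨m, rfl⟩ : ∃ m', m = m' + 1 := ⟨m - 1, by omega⟩
        have h1 : ((m + 1 : ℕ) : ℤ) - 1 = (m : ℤ) := by push_cast; ring
        rw [h1]
        exact hX _ _ _ hw.symm (ha m)
    · rw [h.H_neg (by omega), zero_mul, comp_zero]
      exact h0 m

private lemma E3_fin (h : Base x w E H) (Q : ℕ → S → Prop) (h0 : ∀ m, Q m 0)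
    (hadd : ∀ m a b, Q m a → Q m b → Q m (a + b)) (hC : ∀ c : K, Q 0 (algebraMap K S c))
    (hX : ∀ m a i, w i = 0 → Q m a → Q (m + 1) (a * x i)) {a : S}
    (ha : H a = 0) {n : ℤ} (hn : E a = (n : K) • a) : ∃ m, Q m a := by
  rcases lt_or_ge n 0 with hneg | hpos
  · refine ⟨0, ?_⟩
    rw [euler_neg h.cx h.eu hneg hn]
    exact h0 0
  · obtain ⟨m, rfl⟩ := Int.eq_ofNat_of_zero_le hpos
    refine ⟨m, ?_⟩
    have h1 := E3_key h Q h0 hadd hC hX a m
    rw [comp_of_eig (T := (H : S →ₗ[K] S)) (v := a) (d := 0) (by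
      show H a = _
      rw [ha, Int.cast_zero, zero_smul])] at h1
    rw [comp_of_eig (T := (E : S →ₗ[K] S)) (v := a) (d := (m : ℤ)) hn] at h1
    exact h1

theorem mono_one (h : Base x w E H) (c : ι) (hc : w c = 0) (hr : ∀ i, w i = 0 → i = c) {a : S}
    (ha : H a = 0) {n : ℤ} (hn : E a = (n : K) • a) :
    ∃ (κ : K) (j : ℕ), a = κ • x c ^ j := by
  obtain ⟨m, κ, hm⟩ := E3_fin h (fun m a => ∃ κ : K, a = κ • x c ^ m)
    (fun m => ⟨0, by rw [zero_smul]⟩)
    (by
      rintro m a b ⟨κ, rfl⟩ ⟨κ', rfl⟩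
      exact ⟨κ + κ', by rw [add_smul]⟩)
    (fun c => ⟨c, by rw [pow_zero, Algebra.algebraMap_eq_smul_one]⟩)
    (by
      rintro m a i hi ⟨κ, rfl⟩
      obtain rfl := hr i hi
      exact ⟨κ, by rw [pow_succ, smul_mul_assoc]⟩)
    ha hn
  exact ⟨κ, m, hm⟩

theorem mono_two (h : Base x w E H) {c0 c1 : ι} (hne : c0 ≠ c1) (h0 : w c0 = 0) (h1 : w c1 = 0)
    (hr : ∀ i, w i = 0 → i = c0 ∨ i = c1) {a : S} (ha : H a = 0) {n : ℤ}
    (hn : E a = (n : K) • a) :
    ∃ (m : ℕ) (α : ℕ → K), a = ∑ j ∈ Finset.range (m + 1), α j • (x c0 ^ (m - j) * x c1 ^ j) := by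
  refine E3_fin h (fun m a => ∃ α : ℕ → K,
      a = ∑ j ∈ Finset.range (m + 1), α j • (x c0 ^ (m - j) * x c1 ^ j))
    (fun m => ⟨0, by simp⟩)
    (by
      rintro m a b ⟨α, rfl⟩ ⟨β, rfl⟩
      refine ⟨fun j => α j + β j, ?_⟩
      rw [← Finset.sum_add_distrib]
      exact Finset.sum_congr rfl fun j _ => by rw [add_smul])
    (fun c => ⟨fun _ => c, by
      rw [Finset.sum_range_one, Nat.sub_self, pow_zero, pow_zero, mul_one,
        Algebra.algebraMap_eq_smul_one]⟩)
    ?_ ha hn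
  rintro m a i hi ⟨α, rfl⟩
  rcases hr i hi with rfl | rfl
  · refine ⟨fun j => if j ≤ m then α j else 0, ?_⟩
    rw [Finset.sum_range_succ _ (m + 1)]
    beta_reduce
    rw [if_neg (show ¬ (m + 1 ≤ m) by omega), zero_smul, add_zero, Finset.sum_mul]
    refine Finset.sum_congr rfl fun j hj => ?_
    rw [Finset.mem_range] at hj
    rw [if_pos (show j ≤ m by omega), smul_mul_assoc, show m + 1 - j = (m - j) + 1 by omega,
      pow_succ]
    congr 1
    ring
  · refine ⟨fun j => if j = 0 then 0 else α (j - 1), ?_⟩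
    rw [Finset.sum_range_succ' _ (m + 1)]
    beta_reduce
    rw [if_pos rfl, zero_smul, add_zero, Finset.sum_mul]
    refine Finset.sum_congr rfl fun j hj => ?_
    rw [if_neg (show ¬ (j + 1 = 0) by omega), smul_mul_assoc, Nat.add_sub_cancel,
      Nat.add_sub_add_right, pow_succ]
    congr 1
    ring

end

end Pool.Agent.Lib.MP_745d3a_ag.PF.GA

end

section

/-!
Binary forms in a prime ideal.

* `binary`. Notation `X = x c0`, `Y = x c1`. As above `a = F(X, Y)`: the elements of weight zero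
  are in `Algebra.adjoin K {X, Y}`, and being homogeneous of degree `n`, `a` is a sum
  `∑_{j ≤ n} α_j X ^ (n - j) * Y ^ j` (`mono_two`). Put `P = ∑ α_j T ^ j : Polynomial K`; `P ≠ 0`
  as `a ≠ 0`. `P` splits (`IsAlgClosed.splits`), so
  `a = κ * X ^ (n - deg P) * ∏ (Y - t_i X)` over the roots `t_i` of `P`; `a ∈ p`, `p` is prime,
  `κ ≠ 0`, `X ∉ p`: some `ℓ = Y - t X ∈ p`. Instead of the product formula one may argue by
  induction on the degree of `P`, or in the field of fractions of `S ⧸ p`: `Y / X` is a root of `P`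
  mapped to this field, and since `P` splits over `K` it is the image of some `t : K`
  (`Polynomial.Splits`/`IsAlgClosed` : roots of `P.map` are images of roots of `P`).
  `ℓ` is prime: the family `x'` with `x' c1 = Y - t X`, `x' i = x i` else, is again a system of
  coordinates: or: `S ⧸ (ℓ)` is a domain since `(ℓ)` is the kernel of the `K`-algebra map
  `S → S` with `Y ↦ t X`, `x i ↦ x i` (`i ≠ c1`) (as `a1Kill_ker` in PFAlg.lean: `b - θ b ∈ (ℓ)` by
  `Coord.induction`). `¬ ℓ ∣ X`: `θ X = X ≠ 0`.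
  For `b ∈ p` of weight zero, homogeneous of degree `m`: `θ b = β X ^ m` for some `β : K`
  (`mono_two` for `b`, or `b = 0` if `m < 0`) and `b - θ b ∈ (ℓ) ⊆ p`, so `β X ^ m ∈ p`, hence
  `β = 0` and `ℓ ∣ b`.
-/

set_option autoImplicit false
set_option linter.unusedSectionVars false
set_option linter.unusedSimpArgs false
set_option linter.unusedVariables false

open MvPolynomial

namespace Pool.Agent.Lib.MP_745d3a_ag.PF.GA

section

variable {K S ι : Type*} [Field K] [CharZero K] [CommRing S] [Algebra K S] {x : ι → S}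
  {w : ι → ℤ} {E H : Derivation K S S}

/-- The ratio of two elements which satisfy a binary form in a domain over `K` is in `K`. -/
private lemma E3b_ratio [IsAlgClosed K] {A : Type*} [CommRing A] [IsDomain A] [Algebra K A]
    {X Y : A} (hX : X ≠ 0) (m : ℕ) (α : ℕ → K) (hα : ∃ j ∈ Finset.range (m + 1), α j ≠ 0)
    (h : ∑ j ∈ Finset.range (m + 1), α j • (X ^ (m - j) * Y ^ j) = 0) :
    ∃ t : K, Y = t • X := by
  classical
  let F := FractionRing A
  let y : F := algebraMap A F Y / algebraMap A F X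
  have hX' : algebraMap A F X ≠ 0 := by
    intro h0
    exact hX ((IsFractionRing.injective A F) (by rw [h0, map_zero]))
  let P : Polynomial K := ∑ j ∈ Finset.range (m + 1), Polynomial.monomial j (α j)
  have hP : P ≠ 0 := by
    obtain ⟨j, hj, hj0⟩ := hα
    intro h0
    apply hj0
    have h1 : P.coeff j = α j := by
      simp only [P, Polynomial.finsetSum_coeff, Polynomial.coeff_monomial]
      rw [Finset.sum_ite_eq' (Finset.range (m + 1)) j α, if_pos hj]
    rw [← h1, h0, Polynomial.coeff_zero]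
  have hy : Polynomial.aeval y P = 0 := by
    have h1 : algebraMap A F X ^ m * Polynomial.aeval y P = 0 := by
      simp only [P, map_sum, Polynomial.aeval_monomial]
      rw [Finset.mul_sum]
      have h2 := congrArg (algebraMap A F) h
      rw [map_sum, map_zero] at h2
      rw [← h2]
      refine Finset.sum_congr rfl fun j hj => ?_
      have hjm : j ≤ m := by
        have := Finset.mem_range.mp hj
        omega
      rw [Algebra.smul_def, map_mul, map_mul, map_pow, map_pow,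
        ← IsScalarTower.algebraMap_apply K A F]
      have h3 : algebraMap A F X ^ m = algebraMap A F X ^ (m - j) * algebraMap A F X ^ j := by
        rw [← pow_add, Nat.sub_add_cancel hjm]
      have h4 : algebraMap A F X ^ j * y ^ j = algebraMap A F Y ^ j := by
        rw [← mul_pow, mul_div_cancel₀ _ hX']
      rw [h3]
      calc algebraMap A F X ^ (m - j) * algebraMap A F X ^ j * (algebraMap K F (α j) * y ^ j)
          = algebraMap K F (α j) * (algebraMap A F X ^ (m - j) *
              (algebraMap A F X ^ j * y ^ j)) := by ring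
        _ = _ := by rw [h4]
    exact (mul_eq_zero.mp h1).resolve_left (pow_ne_zero _ hX')
  have hint : IsIntegral K y := (isAlgebraic_iff_isIntegral).mp ⟨P, hP, hy⟩
  have hdeg : (minpoly K y).degree = 1 :=
    IsAlgClosed.degree_eq_one_of_irreducible K (minpoly.irreducible hint)
  obtain ⟨t, ht⟩ := minpoly.mem_range_of_degree_eq_one K y hdeg
  refine ⟨t, IsFractionRing.injective A F ?_⟩
  rw [Algebra.smul_def, map_mul, ← IsScalarTower.algebraMap_apply K A F]
  rw [eq_comm]
  have ht' : algebraMap K F t = algebraMap A F Y / algebraMap A F X := ht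
  rw [ht', div_mul_cancel₀ _ hX']

/-- Substitution of `t • x c0` for `x c1`. -/
private noncomputable def E3bSub [DecidableEq ι] (hx : Coord K x) (c0 c1 : ι) (t : K) : S →ₐ[K] S :=
  (aeval (fun i => if i = c1 then t • x c0 else x i)).comp hx.equiv.symm.toAlgHom

private lemma E3bSub_x [DecidableEq ι] (hx : Coord K x) (c0 c1 : ι) (t : K) (i : ι) :
    E3bSub hx c0 c1 t (x i) = if i = c1 then t • x c0 else x i := by
  show (aeval (fun i => if i = c1 then t • x c0 else x i)) (hx.equiv.symm (x i)) = _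
  rw [hx.symm_x, aeval_X]

private lemma E3bSub_dvd [DecidableEq ι] (hx : Coord K x) (c0 c1 : ι) (t : K) (b : S) :
    x c1 - t • x c0 ∣ b - E3bSub hx c0 c1 t b := by
  refine hx.induction (P := fun b => x c1 - t • x c0 ∣ b - E3bSub hx c0 c1 t b) ?_ ?_ ?_ b
  · intro c
    rw [AlgHom.commutes, sub_self]
    exact dvd_zero _
  · intro a b ha hb
    rw [map_add, add_sub_add_comm]
    exact dvd_add ha hb
  · intro a i ha
    rw [map_mul, E3bSub_x]
    have h1 : a * x i - E3bSub hx c0 c1 t a * (if i = c1 then t • x c0 else x i) =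
        (a - E3bSub hx c0 c1 t a) * (if i = c1 then t • x c0 else x i) +
          a * (x i - if i = c1 then t • x c0 else x i) := by ring
    rw [h1]
    refine dvd_add (Dvd.dvd.mul_right ha _) (Dvd.dvd.mul_left ?_ _)
    by_cases hi : i = c1
    · rw [if_pos hi, hi]
    · rw [if_neg hi, sub_self]
      exact dvd_zero _

theorem binary [IsAlgClosed K] (h : Base x w E H) {c0 c1 : ι} (hne : c0 ≠ c1) (h0 : w c0 = 0)
    (h1 : w c1 = 0) (hr : ∀ i, w i = 0 → i = c0 ∨ i = c1) (p : Ideal S) (hp : p.IsPrime)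
    (hcp : x c0 ∉ p) {a : S} (hap : a ∈ p) (ha0 : a ≠ 0) (ha : H a = 0) {n : ℤ}
    (hn : E a = (n : K) • a) :
    ∃ l : S, Prime l ∧ l ∈ p ∧ H l = 0 ∧ ¬ l ∣ x c0 ∧
      ∀ b ∈ p, H b = 0 → ∀ m : ℤ, E b = (m : K) • b → l ∣ b := by
  classical
  have hx := h.cx
  have := hx.isDomain
  obtain ⟨m, α, hα⟩ := mono_two h hne h0 h1 hr ha hn
  have hne' : ∃ j ∈ Finset.range (m + 1), α j ≠ 0 := by
    by_contra hcon
    push Not at hcon
    apply ha0
    rw [hα]
    exact Finset.sum_eq_zero fun j hj => by rw [hcon j hj, zero_smul]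
  have hdom : IsDomain (S ⧸ p) := Ideal.Quotient.isDomain p
  obtain ⟨t, ht⟩ := E3b_ratio (K := K) (A := S ⧸ p) (X := Ideal.Quotient.mk p (x c0))
    (Y := Ideal.Quotient.mk p (x c1))
    (fun h2 => hcp (Ideal.Quotient.eq_zero_iff_mem.mp h2)) m α hne' (by
      have h2 : Ideal.Quotient.mk p a = 0 := Ideal.Quotient.eq_zero_iff_mem.mpr hap
      rw [hα, map_sum] at h2
      rw [← h2]
      refine Finset.sum_congr rfl fun j _ => ?_
      rw [← Ideal.Quotient.mkₐ_eq_mk K p, map_smul, map_mul, map_pow, map_pow])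
  set l : S := x c1 - t • x c0 with hl
  have hlp : l ∈ p := by
    rw [← Ideal.Quotient.eq_zero_iff_mem, hl, map_sub, ht, sub_eq_zero]
    rw [← Ideal.Quotient.mkₐ_eq_mk K p, map_smul]
  have hker : ∀ b, E3bSub hx c0 c1 t b = 0 ↔ l ∣ b := by
    intro b
    constructor
    · intro h2
      have h3 := E3bSub_dvd hx c0 c1 t b
      rwa [h2, sub_zero] at h3
    · rintro ⟨q, rfl⟩
      rw [map_mul, hl, map_sub, map_smul, E3bSub_x, E3bSub_x, if_pos rfl, if_neg hne, sub_self,
        zero_mul]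
  have hlc : ¬ l ∣ x c0 := by
    rw [← hker, E3bSub_x, if_neg hne]
    exact (hx.prime_x c0).ne_zero
  have hl0 : l ≠ 0 := by
    intro h2
    have h3 : x c1 ∈ Ideal.span (x '' {c0}) := by
      rw [Set.image_singleton, Ideal.mem_span_singleton]
      rw [sub_eq_zero.mp h2, Algebra.smul_def]
      exact Dvd.intro_left _ rfl
    rw [hx.mem_span] at h3
    exact hne (Set.mem_singleton_iff.mp h3).symm
  have hlprime : Prime l := by
    refine ⟨hl0, ?_, ?_⟩
    · intro h2
      exact hlc h2.dvd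
    · intro a b hab
      rw [← hker, map_mul, mul_eq_zero, hker, hker] at hab
      exact hab
  refine ⟨l, hlprime, hlp, ?_, hlc, ?_⟩
  · rw [hl, map_sub, Derivation.map_smul, h.wt, h.wt, h0, h1]
    simp
  · intro b hb hHb k hk
    obtain ⟨m', β, hβ⟩ := mono_two h hne h0 h1 hr hHb hk
    rw [← hker]
    have h2 : E3bSub hx c0 c1 t b =
        algebraMap K S (∑ j ∈ Finset.range (m' + 1), β j * t ^ j) * x c0 ^ m' := by
      rw [hβ, map_sum, map_sum, Finset.sum_mul]
      refine Finset.sum_congr rfl fun j hj => ?_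
      have hjm : j ≤ m' := by
        have := Finset.mem_range.mp hj
        omega
      rw [map_smul, map_mul, map_pow, map_pow, E3bSub_x, E3bSub_x, if_neg hne, if_pos rfl,
        Algebra.smul_def, Algebra.smul_def, mul_pow, map_mul, map_pow]
      have h3 : x c0 ^ m' = x c0 ^ (m' - j) * x c0 ^ j := by
        rw [← pow_add, Nat.sub_add_cancel hjm]
      rw [h3]
      ring
    have h3 : E3bSub hx c0 c1 t b ∈ p := by
      have h4 : l ∣ b - E3bSub hx c0 c1 t b := E3bSub_dvd hx c0 c1 t b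
      have h5 : b - E3bSub hx c0 c1 t b ∈ p := p.mem_of_dvd h4 hlp
      have h6 := p.sub_mem hb h5
      rwa [sub_sub_cancel] at h6
    rw [h2] at h3 ⊢
    rcases hp.mem_or_mem h3 with h4 | h4
    · by_cases h5 : (∑ j ∈ Finset.range (m' + 1), β j * t ^ j) = 0
      · rw [h5, map_zero, zero_mul]
      · exfalso
        apply hp.ne_top
        rw [Ideal.eq_top_iff_one]
        have h6 := p.mul_mem_left (algebraMap K S (∑ j ∈ Finset.range (m' + 1), β j * t ^ j)⁻¹) h4
        rwa [← map_mul, inv_mul_cancel₀ h5, map_one] at h6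
    · exact absurd (hp.mem_of_pow_mem _ h4) hcp

end

end Pool.Agent.Lib.MP_745d3a_ag.PF.GA

end

section

/-!
The ideal of leading values is not contained in a prime which misses a coordinate of weight zero.

* `notLe0` (`a = (0, 0)`): every `m` satisfies `Gf .. 0 m` (`Base.fl_zero`), so all
  `comp H 0 (B m n)` are in `aI` (`j = k = 0`); `exists_hom`.

The case `a = (1, 0)`, `e₁ = δ e`, `e₂ = e`. `Gf .. 0 m` for all `m`. Call `g` good if
`Gf .. 1 g`, i.e. `Fl H 0 (B g e)` (always) and `Fl H 1 (B (δ e) g)`; `δ e` is good. For `g` good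
and any `m`: `comp H 0 (B g m) ∈ aI` (`j = 1`, `k = 0`, `1 + 0 - 1 - 0 = 0`).

* `good_cmp`: the `ε`-components of a good element are good: `B (δ e) (comp ε i g)` is the
  component of `B (δ e) g` for `E` of eigenvalue `i + n - d` (`comp_shift` for the additive map
  `B (δ e) ·`, `Pr.hom`), then `Fl.cmp`.
* `good_mem`: see above.
-/

set_option autoImplicit false
set_option linter.unusedSectionVars false
set_option linter.unusedSimpArgs false
set_option linter.unusedVariables false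

open MvPolynomial

namespace Pool.Agent.Lib.MP_745d3a_ag.PF.GA

section

variable {K S ι M : Type*} [Field K] [CharZero K] [CommRing S] [Algebra K S] {x : ι → S}
  {w : ι → ℤ} {E H D : Derivation K S S} [AddCommGroup M] [Module K M] [Module S M]
  [IsScalarTower K S M] {ε δ : M →ₗ[K] M} {d : ℤ} {B : M →ₗ[S] M →ₗ[S] S} {e e₁ e₂ : M}
  {a₁ a₂ n n₁ n₂ : ℤ}

theorem notLe0 (h : S1 x w E H D ε δ d B) (e₁ e₂ : M) (p : Ideal S) (hp : p.IsPrime) (c : ι)
    (hc : w c = 0) (hcp : x c ∉ p) : ¬ aI H B e₁ e₂ 0 0 ≤ p := by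
  intro hle
  obtain ⟨f₁, f₂, _, _, _, _, h3⟩ := exists_hom h.base h.dE h.pr p hp c hc hcp
  refine h3 (hle (Submodule.subset_span ?_))
  have h4 : ∀ a : S, Fl (H : S →ₗ[K] S) (0 - 0) a := fun a => h.base.fl_zero a (by norm_num)
  exact ⟨0, 0, f₁, f₂, ⟨h4 _, h4 _⟩, ⟨h4 _, h4 _⟩, by norm_num⟩

theorem good_mem (h : S1 x w E H D ε δ d B) {g : M} (hg : Gf H B (δ e) e 1 0 1 g) (m : M) :
    comp (H : S →ₗ[K] S) 0 (B g m) ∈ aI H B (δ e) e 1 0 := by
  refine Submodule.subset_span ?_
  exact ⟨1, 0, g, m, hg, ⟨h.base.fl_zero _ (by norm_num), h.base.fl_zero _ (by norm_num)⟩,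
    by norm_num⟩

theorem good_cmp (h : S1 x w E H D ε δ d B) (t : Dat H ε δ B (δ e) e 1 0 n n) {g : M}
    (hg : Gf H B (δ e) e 1 0 1 g) (i : ℤ) : Gf H B (δ e) e 1 0 1 (comp ε i g) := by
  refine ⟨h.base.fl_zero _ (by norm_num), ?_⟩
  have h1 : comp (E : S →ₗ[K] S) (i + (n - d)) (B (δ e) g) = B (δ e) (comp ε i g) := by
    refine comp_shift (T := ε) (T' := (E : S →ₗ[K] S)) h.dE (B (δ e)).toAddMonoidHom (n - d) ?_ i g
    intro v k hv
    have h2 := h.pr.hom_val t.hom₁ hv
    have h3 : n + k - d = k + (n - d) := by ring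
    rw [h3] at h2
    exact h2
  rw [← h1]
  exact Fl.cmp h.base.dE h.base.dH h.base.EH (i + (n - d)) hg.2

end

end Pool.Agent.Lib.MP_745d3a_ag.PF.GA

end

section

/-!
The descent.

Let `a = (1, 0)`, `e₁ = δ e`, `e₂ = e`. Call `g` good if `Gf .. 1 g`, i.e. `Fl H 0 (B g e)` (always)
and `Fl H 1 (B (δ e) g)`; `δ e` is good. (`good_mem`, `good_cmp` in E4.lean.)

* `descent`: let `l` be a prime element with `H l = 0` which divides `comp H 0 (B g m)` for all good
  `g` and all `m`, and `¬ l ∣ x c`. `exists_hom` for the prime `Ideal.span {l}` gives `f₁`, `f₂` with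
  `u' := comp H 0 (B f₁ f₂)` not divisible by `l`. For `g` good put
  `α g := comp H 0 (B g f₂)`, `β g := comp H 0 (B f₁ g)`. Claim by induction on `k : ℕ`: for all good
  `g`: `l ^ k ∣ α g` and `l ^ k ∣ β g`. Step `k + 1`: `α g = l * α'`, `β g = l * β'`, and
  `comp H 0 α' = α'` etc. (cancel `l` in `comp H 0 (l * α') = l * comp H 0 α'`,
  `comp_zero_mul`; `comp H 0 l = l`). Let `g' := α' • f₁ + β' • f₂`. Then `g'` is good:
  `l * comp H 0 (B (δ e) g') = comp H 0 (B g f₂ * B (δ e) f₁ + B f₁ g * B (δ e) f₂)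
   = comp H 0 (B f₁ f₂ * B (δ e) g) = 0` by `plu4 f₁ f₂ g (δ e)` and `skew` (`Fl H 1 (B (δ e) g)`
  gives `comp H 0 (B (δ e) g) = 0`), so `comp H 0 (B (δ e) g') = 0`, `Fl.succ`. Moreover
  `α g' = α' * u'`, `β g' = β' * u'` (`alt`). By induction `l ^ k ∣ α' * u'`, and `l` is prime, not
  dividing `u'`, so `l ^ k ∣ α'` (`Prime.pow_dvd_of_dvd_mul_right`), `l ^ (k + 1) ∣ α g`. Hence
  `α (δ e)`, `β (δ e)` are divisible by all powers of `l`, so zero (`S` is a noetherian domain:
  `FiniteMultiplicity`, `Ideal`.. `multiplicity` finite in a `WfDvdMonoid`). But `plu4` with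
  `f₁ f₂ (δ e) e` and `comp H 0`: `u' * comp H 0 (B (δ e) e)` is a combination of them, and
  `comp H 0 (B (δ e) e) ≠ 0` (`t.u0`): contradiction.
-/

set_option autoImplicit false
set_option linter.unusedSectionVars false
set_option linter.unusedSimpArgs false
set_option linter.unusedVariables false

open MvPolynomial

namespace Pool.Agent.Lib.MP_745d3a_ag.PF.GA

section

variable {K S ι M : Type*} [Field K] [CharZero K] [CommRing S] [Algebra K S] {x : ι → S}
  {w : ι → ℤ} {E H D : Derivation K S S} [AddCommGroup M] [Module K M] [Module S M]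
  [IsScalarTower K S M] {ε δ : M →ₗ[K] M} {d : ℤ} {B : M →ₗ[S] M →ₗ[S] S} {e e₁ e₂ : M}
  {a₁ a₂ n n₁ n₂ : ℤ}

theorem descent [Finite ι] (h : S1 x w E H D ε δ d B) (t : Dat H ε δ B (δ e) e 1 0 n n) (c : ι)
    (hc : w c = 0) (l : S) (hl : Prime l) (hlH : H l = 0) (hlc : ¬ l ∣ x c)
    (hdvd : ∀ g, Gf H B (δ e) e 1 0 1 g → ∀ m, l ∣ comp (H : S →ₗ[K] S) 0 (B g m)) : False := by
  have := h.base.cx.isDomain
  have := h.base.cx.noeth
  have hT : Diag (H : S →ₗ[K] S) := h.base.dH
  have P := h.pr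
  -- the component of weight zero
  obtain ⟨c0, hc0⟩ : ∃ c0 : S → S, ∀ a, comp (H : S →ₗ[K] S) 0 a = c0 a := ⟨_, fun _ => rfl⟩
  have cmul : ∀ a b, c0 (a * b) = c0 a * c0 b := by
    intro a b
    simp only [← hc0]
    exact h.base.comp_zero_mul a b
  have cadd : ∀ a b, c0 (a + b) = c0 a + c0 b := by
    intro a b
    simp only [← hc0]
    exact comp_add hT 0 a b
  have czero : c0 0 = 0 := by
    rw [← hc0]
    exact comp_zero 0
  have cneg : ∀ a, c0 (-a) = -c0 a := by
    intro a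
    have h1 := cadd a (-a)
    rw [add_neg_cancel, czero] at h1
    exact (neg_eq_of_add_eq_zero_right h1.symm).symm
  have cc : ∀ a, c0 (c0 a) = c0 a := by
    intro a
    rw [← hc0 (c0 a)]
    refine comp_of_eig ?_
    rw [← hc0 a]
    exact comp_eig hT 0 a
  have cl : c0 l = l := by
    rw [← hc0]
    refine comp_of_eig ?_
    rw [Int.cast_zero, zero_smul]
    exact hlH
  have hl0 : l ≠ 0 := hl.ne_zero
  obtain ⟨f₁, f₂, k₁, k₂, -, -, hu⟩ := exists_hom h.base h.dE P (Ideal.span {l})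
    ((Ideal.span_singleton_prime hl0).2 hl) c hc
    (fun hx => hlc (Ideal.mem_span_singleton.1 hx))
  rw [Ideal.mem_span_singleton, hc0] at hu
  have skew' : ∀ m n, c0 (B m n) = -c0 (B n m) := by
    intro m n
    rw [P.skew m n, cneg]
  have gd : ∀ g, Gf H B (δ e) e 1 0 1 g ↔ c0 (B (δ e) g) = 0 := by
    intro g
    constructor
    · intro hg
      rw [← hc0]
      exact hg.2 0 (by norm_num)
    · intro hg
      refine ⟨?_, ?_⟩
      · exact h.base.fl_zero _ (by norm_num)
      · have h1 : Fl (H : S →ₗ[K] S) (0 + 1) (B (δ e) g) := by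
          refine Fl.succ (h.base.fl_zero _ le_rfl) ?_
          rw [hc0]
          exact hg
        have h2 : (1 : ℤ) - 0 = 0 + 1 := by norm_num
        rw [h2]
        exact h1
  have dv : ∀ g, c0 (B (δ e) g) = 0 → ∀ m, l ∣ c0 (B g m) := by
    intro g hg m
    rw [← hc0]
    exact hdvd g ((gd g).2 hg) m
  have key : ∀ k : ℕ, ∀ g, c0 (B (δ e) g) = 0 → l ^ k ∣ c0 (B g f₂) ∧ l ^ k ∣ c0 (B f₁ g) := by
    intro k
    induction k with
    | zero =>
      intro g _
      rw [pow_zero]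
      exact ⟨one_dvd _, one_dvd _⟩
    | succ k ih =>
      intro g hg
      obtain ⟨α, hα⟩ := dv g hg f₂
      obtain ⟨β, hβ⟩ : l ∣ c0 (B f₁ g) := by
        rw [skew']
        exact (dvd_neg).2 (dv g hg f₁)
      have hα0 : c0 α = α := by
        have h1 := cc (B g f₂)
        rw [hα, cmul, cl] at h1
        exact mul_left_cancel₀ hl0 h1
      have hβ0 : c0 β = β := by
        have h1 := cc (B f₁ g)
        rw [hβ, cmul, cl] at h1
        exact mul_left_cancel₀ hl0 h1
      have hg' : c0 (B (δ e) (α • f₁ + β • f₂)) = 0 := by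
        refine (mul_eq_zero.1 ?_ : l = 0 ∨ _).resolve_left hl0
        rw [map_add, map_smul, map_smul, smul_eq_mul, smul_eq_mul, cadd, cmul, cmul, hα0, hβ0,
          mul_add, ← mul_assoc, ← mul_assoc, ← hα, ← hβ]
        have h1 := congrArg c0 (P.plu4 f₁ f₂ g (δ e))
        rw [cadd, cadd, cmul, cmul, cmul, czero, skew' f₂ g, skew' f₁ (δ e), skew' g f₁,
          skew' f₂ (δ e), skew' g (δ e), hg] at h1
        linear_combination h1
      obtain ⟨i1, i2⟩ := ih _ hg'
      have j1 : c0 (B (α • f₁ + β • f₂) f₂) = α * c0 (B f₁ f₂) := by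
        rw [map_add, map_smul, map_smul, LinearMap.add_apply, LinearMap.smul_apply,
          LinearMap.smul_apply, P.alt, smul_zero, add_zero, smul_eq_mul, cmul, hα0]
      have j2 : c0 (B f₁ (α • f₁ + β • f₂)) = β * c0 (B f₁ f₂) := by
        rw [map_add, map_smul, map_smul, P.alt, smul_zero, zero_add, smul_eq_mul, cmul, hβ0]
      rw [j1] at i1
      rw [j2] at i2
      have n1 := hl.pow_dvd_of_dvd_mul_right k hu i1
      have n2 := hl.pow_dvd_of_dvd_mul_right k hu i2
      rw [hα, hβ, pow_succ, mul_comm (l ^ k) l]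
      exact ⟨mul_dvd_mul_left l n1, mul_dvd_mul_left l n2⟩
  have hde : c0 (B (δ e) (δ e)) = 0 := by
    rw [P.alt, czero]
  have fin0 : ∀ y : S, (∀ k : ℕ, l ^ k ∣ y) → y = 0 := by
    intro y hy
    by_contra hy0
    obtain ⟨n, hn⟩ := FiniteMultiplicity.of_not_isUnit hl.not_isUnit hy0
    exact hn (hy (n + 1))
  have z1 := fin0 _ (fun k => (key k _ hde).1)
  have z2 := fin0 _ (fun k => (key k _ hde).2)
  have h1 := congrArg c0 (P.plu4 f₁ f₂ (δ e) e)
  rw [cadd, cadd, cmul, cmul, cmul, czero, skew' f₂ (δ e), skew' (δ e) f₁, z1, z2, neg_zero,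
    zero_mul, zero_mul, add_zero, add_zero] at h1
  rcases mul_eq_zero.1 h1 with h2 | h2
  · exact hu (h2 ▸ dvd_zero l)
  · refine t.u0 ?_
    rw [hc0]
    exact h2

end

end Pool.Agent.Lib.MP_745d3a_ag.PF.GA

end

section

/-!
The ideal of leading values contains a power of each coordinate.

* `notLe1`: suppose `aI ≤ p`. `u₀ := comp H 0 (B (δ e) e) ∈ aI ≤ p` (`good_mem` for `g = δ e`, `m = e`;
  `δ e` is good: `B (δ e) (δ e) = 0`) is homogeneous (`hom_val`, `comp_comm`), `H u₀ = 0`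
  (`comp_eig`), `u₀ ≠ 0` (`t.u0`). If `c0 = c1`: `mono_one`: `u₀ = κ • x c0 ^ j ∈ p` with `κ ≠ 0`, so
  `x c0 ∈ p`; but `c = c0`. If `c0 ≠ c1`: `c = c0` or `c = c1`, by symmetry `c = c0`: `binary` gives
  `l`; for `g` good and homogeneous and `m` homogeneous `l ∣ comp H 0 (B g m)` (it is in `p` by
  `good_mem`, of weight zero (`comp_eig`) and homogeneous: `hom_val`, `comp_comm`), so for all good
  `g` and all `m` by `good_cmp` and additivity (`exists_comp`). `descent` (with `c0`, `hlc` from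
  `binary`).
* `full_of_notLe`: `aI` is stable under `D` (`aI_stable`), so is its radical (`rad_der`,
  BS/Rad.lean, imported by Defs.lean). The coordinates of weight zero are in the radical (`hle`,
  `pow_mem_of_prime` in PFAlg.lean); by induction on the weight all are: `x i = D (x j)` with
  `w j + 1 = w i` (`root`; the weights are `≥ 0`).
-/

set_option autoImplicit false
set_option linter.unusedSectionVars false
set_option linter.unusedSimpArgs false
set_option linter.unusedVariables false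

open MvPolynomial

namespace Pool.Agent.Lib.MP_745d3a_ag.PF.GA

section

variable {K S ι M : Type*} [Field K] [CharZero K] [CommRing S] [Algebra K S] {x : ι → S}
  {w : ι → ℤ} {E H D : Derivation K S S} [AddCommGroup M] [Module K M] [Module S M]
  [IsScalarTower K S M] {ε δ : M →ₗ[K] M} {d : ℤ} {B : M →ₗ[S] M →ₗ[S] S} {e e₁ e₂ : M}
  {a₁ a₂ n n₁ n₂ : ℤ}

private lemma E5_comp_hom (h : Base x w E H) {b : S} {m : ℤ} (hb : E b = (m : K) • b) (k : ℤ) :
    E (comp (H : S →ₗ[K] S) k b) = (m : K) • comp (H : S →ₗ[K] S) k b := by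
  have h1 := comp_shift (T' := (H : S →ₗ[K] S)) h.dH ((E : S →ₗ[K] S).toAddMonoidHom) 0
    (fun v d hv => by
      have h2 : H v = (d : K) • v := hv
      have h3 : H (E v) = ((d + 0 : ℤ) : K) • E v := by
        rw [← h.EH, h2, Derivation.map_smul, add_zero]
      exact h3) k b
  have h4 : comp (H : S →ₗ[K] S) k (E b) = E (comp (H : S →ₗ[K] S) k b) := by
    rw [add_zero] at h1
    exact h1
  rw [← h4, hb, comp_smulK h.dH]

private lemma E5_comp_zero (h : Base x w E H) (b : S) :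
    H (comp (H : S →ₗ[K] S) 0 b) = 0 := by
  have h1 : H (comp (H : S →ₗ[K] S) 0 b) = ((0 : ℤ) : K) • comp (H : S →ₗ[K] S) 0 b :=
    comp_eig h.dH 0 b
  rwa [Int.cast_zero, zero_smul] at h1

private lemma E5_good (h : S1 x w E H D ε δ d B) : Gf H B (δ e) e 1 0 1 (δ e) := by
  refine ⟨h.base.fl_zero _ (by norm_num), ?_⟩
  rw [h.pr.alt]
  exact Fl.zero _

private lemma E5_aux [IsAlgClosed K] [Finite ι] (h : S1 x w E H D ε δ d B)
    (t : Dat H ε δ B (δ e) e 1 0 n n) (c0 c1 : ι) (hne : c0 ≠ c1) (h0 : w c0 = 0)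
    (h1 : w c1 = 0) (hr : ∀ i, w i = 0 → i = c0 ∨ i = c1) (p : Ideal S) (hp : p.IsPrime)
    (hcp : x c0 ∉ p) (hle : aI H B (δ e) e 1 0 ≤ p) : False := by
  have hu := hle (good_mem h (E5_good h) e)
  have huE := E5_comp_hom h.base (h.pr.hom_val t.hom₁ t.hom₂) 0
  obtain ⟨l, hl, hlp, hlH, hlc, hdvd⟩ :=
    binary h.base hne h0 h1 hr p hp hcp hu t.u0 (E5_comp_zero h.base _) huE
  refine descent h t c0 h0 l hl hlH hlc ?_
  intro g hg m
  have hh : ∀ i j : ℤ, l ∣ comp (H : S →ₗ[K] S) 0 (B (comp ε i g) (comp ε j m)) := by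
    intro i j
    exact hdvd _ (hle (good_mem h (good_cmp h t hg i) _)) (E5_comp_zero h.base _) _
      (E5_comp_hom h.base (h.pr.hom_val (comp_eig h.dE i g) (comp_eig h.dE j m)) 0)
  obtain ⟨s, hs, -⟩ := exists_comp h.dE g
  obtain ⟨s', hs', -⟩ := exists_comp h.dE m
  have h2 : B g m = ∑ i ∈ s, ∑ j ∈ s', B (comp ε i g) (comp ε j m) := by
    conv_lhs => rw [hs, hs']
    rw [map_sum B, LinearMap.sum_apply]
    exact Finset.sum_congr rfl fun i _ => map_sum _ _ _
  rw [h2, comp_sum h.base.dH]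
  refine Finset.dvd_sum fun i _ => ?_
  rw [comp_sum h.base.dH]
  exact Finset.dvd_sum fun j _ => hh i j

theorem notLe1 [IsAlgClosed K] [Finite ι] (h : S1 x w E H D ε δ d B)
    (t : Dat H ε δ B (δ e) e 1 0 n n) (c0 c1 : ι) (h0 : w c0 = 0) (h1 : w c1 = 0)
    (hr : ∀ i, w i = 0 → i = c0 ∨ i = c1) (p : Ideal S) (hp : p.IsPrime) (c : ι)
    (hc : w c = 0) (hcp : x c ∉ p) : ¬ aI H B (δ e) e 1 0 ≤ p := by
  intro hle
  by_cases hcc : c0 = c1
  · have hr' : ∀ i, w i = 0 → i = c0 := by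
      intro i hi
      rcases hr i hi with r | r
      · exact r
      · rw [r, hcc]
    have hu := hle (good_mem h (E5_good h) e)
    have huE := E5_comp_hom h.base (h.pr.hom_val t.hom₁ t.hom₂) 0
    obtain ⟨κ, j, hκ⟩ := mono_one h.base c0 h0 hr' (E5_comp_zero h.base _) huE
    have hκ0 : κ ≠ 0 := by
      rintro rfl
      rw [zero_smul] at hκ
      exact t.u0 hκ
    rw [hκ] at hu
    have h2 : x c0 ^ j ∈ p := by
      have h3 : x c0 ^ j = algebraMap K S κ⁻¹ * (κ • x c0 ^ j) := by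
        rw [← Algebra.smul_def, smul_smul, inv_mul_cancel₀ hκ0, one_smul]
      rw [h3]
      exact p.mul_mem_left _ hu
    exact hcp (hr' c hc ▸ hp.mem_of_pow_mem j h2)
  · rcases hr c hc with r | r
    · subst r
      exact E5_aux h t c c1 hcc h0 h1 hr p hp hcp hle
    · subst r
      exact E5_aux h t c c0 (Ne.symm hcc) h1 h0 (fun i hi => (hr i hi).symm) p hp hcp hle

/-- Powers of all coordinates are in the ideal once the coordinates of weight zero have this
property. -/
theorem full_of_notLe (h : S1 x w E H D ε δ d B) (t : Dat H ε δ B e₁ e₂ a₁ a₂ n₁ n₂)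
    (hle : ∀ (p : Ideal S), p.IsPrime → ∀ c, w c = 0 → x c ∉ p → ¬ aI H B e₁ e₂ a₁ a₂ ≤ p)
    (i : ι) : ∃ N : ℕ, x i ^ N ∈ aI H B e₁ e₂ a₁ a₂ := by
  have key : ∀ (k : ℕ) (i : ι), w i = (k : ℤ) → x i ∈ (aI H B e₁ e₂ a₁ a₂).radical := by
    intro k
    induction k with
    | zero =>
      intro i hi
      have hi' : w i = 0 := by simpa using hi
      obtain ⟨N, hN⟩ := pow_mem_of_prime (aI H B e₁ e₂ a₁ a₂) (x i)
        (fun p hp hcp => hle p hp i hi' hcp)
      exact ⟨N, hN⟩
    | succ k ih =>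
      intro i hi
      have hne : w i ≠ 0 := by
        rw [hi]
        positivity
      obtain ⟨j, hj, hD⟩ := h.root i hne
      have hj' : w j = (k : ℤ) := by
        push_cast at hi
        omega
      rw [← hD]
      exact rad_der _ (aI_stable h t) (x j) (ih j hj')
  obtain ⟨N, hN⟩ := key (w i).toNat i (Int.toNat_of_nonneg (h.base.nn i)).symm
  exact ⟨N, hN⟩

/-- Existence of adapted pairs with a full ideal of leading values. -/
theorem exists_dat [IsAlgClosed K] [Finite ι] (h : S1 x w E H D ε δ d B) (c0 c1 : ι)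
    (h0 : w c0 = 0) (h1 : w c1 = 0) (hr : ∀ i, w i = 0 → i = c0 ∨ i = c1) :
    ∃ (e₁ e₂ : M) (a₁ a₂ n₁ n₂ : ℤ), Dat H ε δ B e₁ e₂ a₁ a₂ n₁ n₂ ∧
      ∀ i, ∃ N : ℕ, x i ^ N ∈ aI H B e₁ e₂ a₁ a₂ := by
  rcases h.dich c0 h0 with h2 | ⟨e, n, he, hu⟩
  · obtain ⟨e₁, e₂, n₁, n₂, t⟩ := h.dat0 c0 h0 h2
    exact ⟨e₁, e₂, 0, 0, n₁, n₂, t, full_of_notLe h t fun p hp c hc hcp =>
      notLe0 h e₁ e₂ p hp c hc hcp⟩
  · have t := h.dat1 he hu
    exact ⟨δ e, e, 1, 0, n, n, t, full_of_notLe h t fun p hp c hc hcp =>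
      notLe1 h t c0 c1 h0 h1 hr p hp c hc hcp⟩

end

end Pool.Agent.Lib.MP_745d3a_ag.PF.GA

end
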