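import Pool.Agent.Lib.MP_745d3a_ag.NV.Defs
import Pool.Agent.Lib.MP_745d3a_ag.NV.Deg
import Pool.Agent.Lib.MP_745d3a_ag.NV.Pair
import Pool.Agent.Lib.MP_745d3a_ag.NV.Alg

section

/-!
Homogeneous local coordinates at a prime.

`Bun.local` (PFBun.lean) at `p` gives `s₀ ∉ p`, `m₁, m₂` and functionals `θ₁, θ₂`; the map
`(θ₁, θ₂)` is injective (`s₀ ≠ 0`, `tf`). Write `m₁`, `m₂` as sums of their `ε`-components
(`exists_comp`): `θ₁ m₁ * θ₂ m₂ - θ₁ m₂ * θ₂ m₁ = s₀ ^ 2 ∉ p`, so for some components `u₁` of `m₁`,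
`u₂` of `m₂` also `Δ := θ₁ u₁ * θ₂ u₂ - θ₁ u₂ * θ₂ u₁ ∉ p`. Let `ε u₁ = i • u₁`, `ε u₂ = j • u₂`;
multiplying one of them by a power of `x c` (`x c ∉ p`) we may assume `i = j =: n`. For every `m`:
`Δ • m = (θ₁ m * θ₂ u₂ - θ₁ u₂ * θ₂ m) • u₁ + (θ₁ u₁ * θ₂ m - θ₁ m * θ₂ u₁) • u₂` (apply `θ₁`, `θ₂`;
injectivity). The ideal `J` of the `a` with `∀ m, a • m ∈ span {u₁, u₂}` is stable under `E`
(apply `ε` to `a • m = b • u₁ + c • u₂`), so it contains the `E`-components of `Δ`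
(`comp_mem`), one of which is not in `p`; multiply it by `x c` to make its degree positive
(degrees of nonzero elements are `≥ 0`: `euler_neg`). This is `s`, `E s = t • s`. The coordinates
`φ₁ m`, `φ₂ m` of `s • m` with respect to `e₁ = u₁`, `e₂ = u₂` are unique (`u₁`, `u₂` are independent:
apply `θ₁`, `θ₂`, `Δ ≠ 0`), so linear (as in the proof of `Bun.local`), and comparing
`ε (s • m)` computed in two ways gives `E (φ₁ m) + n • φ₁ m = φ₁ (ε m) + t • φ₁ m`.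
-/

set_option autoImplicit false
set_option linter.unusedSectionVars false
set_option linter.unusedSimpArgs false
set_option linter.unusedVariables false

open MvPolynomial

namespace Pool.Agent.Lib.MP_745d3a_ag.PF.GA

/-- Homogeneous local coordinates. -/
structure Lc {K S M : Type*} [Field K] [CommRing S] [Algebra K S] [AddCommGroup M] [Module K M]
    [Module S M] (E : Derivation K S S) (ε : M →ₗ[K] M) (e₁ e₂ : M) (n t : ℤ) (s : S)
    (φ₁ φ₂ : M →ₗ[S] S) : Prop where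
  h1 : ε e₁ = (n : K) • e₁
  h2 : ε e₂ = (n : K) • e₂
  hs : E s = (t : K) • s
  ht : 1 ≤ t
  sp : ∀ m, s • m = φ₁ m • e₁ + φ₂ m • e₂
  p11 : φ₁ e₁ = s
  p12 : φ₁ e₂ = 0
  p21 : φ₂ e₁ = 0
  p22 : φ₂ e₂ = s
  hom₁ : ∀ m, E (φ₁ m) = φ₁ (ε m) + ((t - n : ℤ) : K) • φ₁ m
  hom₂ : ∀ m, E (φ₂ m) = φ₂ (ε m) + ((t - n : ℤ) : K) • φ₂ m

section

variable {K S ι M : Type*} [Field K] [CharZero K] [CommRing S] [Algebra K S] {x : ι → S}
  {E : Derivation K S S} [AddCommGroup M] [Module K M] [Module S M]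
  [IsScalarTower K S M] {ε : M →ₗ[K] M}

omit [CharZero K] in
private lemma P1_pow (hE : IsEuler x E) (cE : IsConn E ε) (c : ι) (k : ℕ) (u : M) (i : ℤ)
    (hu : ε u = (i : K) • u) : ε (x c ^ k • u) = ((i + k : ℤ) : K) • (x c ^ k • u) := by
  induction k with
  | zero => simp [hu]
  | succ k ih =>
    have h1 : x c ^ (k + 1) • u = x c • (x c ^ k • u) := by
      rw [smul_smul, pow_succ, mul_comm]
    rw [h1, cE, hE c, ih, smul_comm (x c) _ (x c ^ k • u)]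
    push_cast
    rw [add_smul, add_smul, add_smul, one_smul]
    abel

/-- The coordinates with respect to two independent elements. -/
private lemma P1_coords (s : S) (e₁ e₂ : M) (hspan : ∀ m, ∃ a b : S, s • m = a • e₁ + b • e₂)
    (hind : ∀ a b : S, a • e₁ + b • e₂ = 0 → a = 0 ∧ b = 0) :
    ∃ φ₁ φ₂ : M →ₗ[S] S, (∀ m, s • m = φ₁ m • e₁ + φ₂ m • e₂) ∧ φ₁ e₁ = s ∧ φ₁ e₂ = 0 ∧
      φ₂ e₁ = 0 ∧ φ₂ e₂ = s := by
  choose A B hAB using hspan
  have huniq : ∀ a b a' b' : S, a • e₁ + b • e₂ = a' • e₁ + b' • e₂ → a = a' ∧ b = b' := by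
    intro a b a' b' h
    have h1 := hind (a - a') (b - b') (by
      rw [sub_smul, sub_smul]
      rw [show a • e₁ - a' • e₁ + (b • e₂ - b' • e₂)
        = (a • e₁ + b • e₂) - (a' • e₁ + b' • e₂) by abel, h, sub_self])
    exact ⟨sub_eq_zero.mp h1.1, sub_eq_zero.mp h1.2⟩
  have hadd : ∀ m n, A (m + n) = A m + A n ∧ B (m + n) = B m + B n := by
    intro m n
    apply huniq
    rw [← hAB, smul_add, hAB m, hAB n, add_smul, add_smul]
    abel
  have hsmul : ∀ (c : S) (m : M), A (c • m) = c * A m ∧ B (c • m) = c * B m := by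
    intro c m
    apply huniq
    rw [← hAB, smul_comm s c m, hAB m, smul_add, smul_smul, smul_smul]
  refine ⟨
    { toFun := A, map_add' := fun m n => (hadd m n).1, map_smul' := fun c m => (hsmul c m).1 },
    { toFun := B, map_add' := fun m n => (hadd m n).2, map_smul' := fun c m => (hsmul c m).2 },
    hAB, ?_, ?_, ?_, ?_⟩
  · exact (huniq (A e₁) (B e₁) s 0 (by rw [← hAB, zero_smul, add_zero])).1
  · exact (huniq (A e₂) (B e₂) 0 s (by rw [← hAB, zero_smul, zero_add])).1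
  · exact (huniq (A e₁) (B e₁) s 0 (by rw [← hAB, zero_smul, add_zero])).2
  · exact (huniq (A e₂) (B e₂) 0 s (by rw [← hAB, zero_smul, zero_add])).2

theorem exists_lc (hx : Coord K x) (hE : IsEuler x E) (cE : IsConn E ε) (dE : Diag ε)
    (hM : Bun x M) (p : Ideal S) (hp : p.IsPrime) (c : ι) (hc : x c ∉ p) :
    ∃ (e₁ e₂ : M) (n t : ℤ) (s : S) (φ₁ φ₂ : M →ₗ[S] S),
      Lc E ε e₁ e₂ n t s φ₁ φ₂ ∧ s ∉ p := by
  have hdom := hx.isDomain
  obtain ⟨s₀, hs₀, m₁, m₂, θ₁, θ₂, hθ, h11, h12, h21, h22, -⟩ := Bun.local hx hM p hp ⟨c, hc⟩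
  have hne : ∀ a : S, a ∉ p → a ≠ 0 := fun a ha h => ha (h ▸ p.zero_mem)
  have hmul : ∀ a b : S, a ∉ p → b ∉ p → a * b ∉ p := fun a b ha hb hab =>
    (hp.mem_or_mem hab).elim ha hb
  have hpow : ∀ k : ℕ, x c ^ k ∉ p := fun k hk => hc (hp.mem_of_pow_mem k hk)
  have hzero : ∀ m : M, θ₁ m = 0 → θ₂ m = 0 → m = 0 := by
    intro m h1 h2
    have h3 := hθ m
    rw [h1, h2, zero_smul, zero_smul, add_zero] at h3
    exact (hM.tf s₀ m h3).resolve_left (hne _ hs₀)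
  -- homogeneous elements with determinant outside `p`
  obtain ⟨u₁, u₂, i, j, hu₁, hu₂, hu⟩ : ∃ (u₁ u₂ : M) (i j : ℤ), ε u₁ = (i : K) • u₁ ∧
      ε u₂ = (j : K) • u₂ ∧ θ₁ u₁ * θ₂ u₂ - θ₁ u₂ * θ₂ u₁ ∉ p := by
    by_contra hcon
    push Not at hcon
    obtain ⟨I, hI, -⟩ := exists_comp dE m₁
    obtain ⟨J, hJ, -⟩ := exists_comp dE m₂
    have h1 : ∀ i j : ℤ, θ₁ (comp ε i m₁) * θ₂ (comp ε j m₂) -
        θ₁ (comp ε j m₂) * θ₂ (comp ε i m₁) ∈ p := fun i j =>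
      hcon _ _ i j (comp_eig dE i m₁) (comp_eig dE j m₂)
    have h2 : θ₁ m₁ * θ₂ m₂ - θ₁ m₂ * θ₂ m₁ = ∑ i ∈ I, ∑ j ∈ J,
        (θ₁ (comp ε i m₁) * θ₂ (comp ε j m₂) - θ₁ (comp ε j m₂) * θ₂ (comp ε i m₁)) := by
      have e1 : θ₁ m₁ = ∑ i ∈ I, θ₁ (comp ε i m₁) := by
        conv_lhs => rw [hI, map_sum]
      have e2 : θ₂ m₁ = ∑ i ∈ I, θ₂ (comp ε i m₁) := by
        conv_lhs => rw [hI, map_sum]
      have e3 : θ₁ m₂ = ∑ j ∈ J, θ₁ (comp ε j m₂) := by
        conv_lhs => rw [hJ, map_sum]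
      have e4 : θ₂ m₂ = ∑ j ∈ J, θ₂ (comp ε j m₂) := by
        conv_lhs => rw [hJ, map_sum]
      rw [e1, e2, e3, e4, Finset.sum_mul_sum, mul_comm (∑ j ∈ J, θ₁ (comp ε j m₂)),
        Finset.sum_mul_sum, ← Finset.sum_sub_distrib]
      refine Finset.sum_congr rfl fun i _ => ?_
      rw [← Finset.sum_sub_distrib]
      refine Finset.sum_congr rfl fun j _ => ?_
      ring
    have h3 : θ₁ m₁ * θ₂ m₂ - θ₁ m₂ * θ₂ m₁ ∈ p := by
      rw [h2]
      exact Ideal.sum_mem _ fun i _ => Ideal.sum_mem _ fun j _ => h1 i j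
    rw [h11, h12, h21, h22, zero_mul, sub_zero] at h3
    exact hmul _ _ hs₀ hs₀ h3
  -- equal degrees
  obtain ⟨e₁, e₂, n, he₁, he₂, he⟩ : ∃ (e₁ e₂ : M) (n : ℤ), ε e₁ = (n : K) • e₁ ∧
      ε e₂ = (n : K) • e₂ ∧ θ₁ e₁ * θ₂ e₂ - θ₁ e₂ * θ₂ e₁ ∉ p := by
    refine ⟨x c ^ (j - i).toNat • u₁, x c ^ (i - j).toNat • u₂, max i j, ?_, ?_, ?_⟩
    · rw [P1_pow hE cE c _ u₁ i hu₁]
      congr 2
      omega
    · rw [P1_pow hE cE c _ u₂ j hu₂]
      congr 2
      omega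
    · have h1 := hmul _ _ (hmul _ _ (hpow (j - i).toNat) (hpow (i - j).toNat)) hu
      intro h2
      apply h1
      rw [map_smul, map_smul, map_smul, map_smul] at h2
      simp only [smul_eq_mul] at h2
      have h3 : x c ^ (j - i).toNat * x c ^ (i - j).toNat * (θ₁ u₁ * θ₂ u₂ - θ₁ u₂ * θ₂ u₁) =
          x c ^ (j - i).toNat * θ₁ u₁ * (x c ^ (i - j).toNat * θ₂ u₂) -
            x c ^ (i - j).toNat * θ₁ u₂ * (x c ^ (j - i).toNat * θ₂ u₁) := by ring
      rw [h3]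
      exact h2
  set Δ : S := θ₁ e₁ * θ₂ e₂ - θ₁ e₂ * θ₂ e₁ with hΔ
  have hind : ∀ a b : S, a • e₁ + b • e₂ = 0 → a = 0 ∧ b = 0 := by
    intro a b h
    have l1 : a * θ₁ e₁ + b * θ₁ e₂ = 0 := by
      have := congrArg θ₁ h
      rwa [map_add, map_smul, map_smul, smul_eq_mul, smul_eq_mul, map_zero] at this
    have l2 : a * θ₂ e₁ + b * θ₂ e₂ = 0 := by
      have := congrArg θ₂ h
      rwa [map_add, map_smul, map_smul, smul_eq_mul, smul_eq_mul, map_zero] at this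
    constructor
    · have : a * Δ = 0 := by
        rw [hΔ]
        linear_combination θ₂ e₂ * l1 - θ₁ e₂ * l2
      exact (mul_eq_zero.mp this).resolve_right (hne _ he)
    · have : b * Δ = 0 := by
        rw [hΔ]
        linear_combination θ₁ e₁ * l2 - θ₂ e₁ * l1
      exact (mul_eq_zero.mp this).resolve_right (hne _ he)
  -- the ideal of denominators
  let J : AddSubgroup S :=
    { carrier := {a | ∀ m : M, ∃ b b' : S, a • m = b • e₁ + b' • e₂}
      add_mem' := by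
        intro a a' ha ha' m
        obtain ⟨b, b', h⟩ := ha m
        obtain ⟨d, d', h'⟩ := ha' m
        exact ⟨b + d, b' + d', by rw [add_smul, h, h', add_smul, add_smul]; abel⟩
      zero_mem' := fun m => ⟨0, 0, by rw [zero_smul, zero_smul, zero_smul, add_zero]⟩
      neg_mem' := by
        intro a ha m
        obtain ⟨b, b', h⟩ := ha m
        exact ⟨-b, -b', by rw [neg_smul, h, neg_smul, neg_smul]; abel⟩ }
  have hJmul : ∀ (a : S) (b : S), b ∈ J → a * b ∈ J := by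
    intro a b hb m
    obtain ⟨d, d', h⟩ := hb m
    exact ⟨a * d, a * d', by rw [mul_smul, h, smul_add, smul_smul, smul_smul]⟩
  have hJΔ : Δ ∈ J := by
    intro m
    refine ⟨θ₁ m * θ₂ e₂ - θ₁ e₂ * θ₂ m, θ₁ e₁ * θ₂ m - θ₁ m * θ₂ e₁, ?_⟩
    rw [← sub_eq_zero]
    apply hzero
    · rw [map_sub, map_add, map_smul, map_smul, map_smul, smul_eq_mul, smul_eq_mul, smul_eq_mul,
        hΔ]
      ring
    · rw [map_sub, map_add, map_smul, map_smul, map_smul, smul_eq_mul, smul_eq_mul, smul_eq_mul,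
        hΔ]
      ring
  have hJE : ∀ a ∈ J, (E : S →ₗ[K] S) a ∈ J := by
    intro a ha m
    obtain ⟨b, b', h⟩ := ha m
    obtain ⟨d, d', h'⟩ := ha (ε m)
    have h1 := cE a m
    rw [h, h', map_add, cE, cE, he₁, he₂] at h1
    refine ⟨E b + (n : K) • b - d, E b' + (n : K) • b' - d', ?_⟩
    have h2 : ((E : S →ₗ[K] S) a) • m = E b • e₁ + b • (n : K) • e₁ +
        (E b' • e₂ + b' • (n : K) • e₂) - (d • e₁ + d' • e₂) := by
      rw [h1]
      exact (add_sub_cancel_right _ _).symm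
    rw [h2, sub_smul, sub_smul, add_smul, add_smul, smul_assoc, smul_assoc,
      smul_comm b (n : K) e₁, smul_comm b' (n : K) e₂]
    abel
  have hJK : ∀ (k : K), ∀ a ∈ J, k • a ∈ J := by
    intro k a ha
    rw [Algebra.smul_def]
    exact hJmul _ _ ha
  have hEd := euler_diag hx hE
  obtain ⟨d, hd⟩ : ∃ d : ℤ, comp (E : S →ₗ[K] S) d Δ ∉ p := by
    by_contra hcon
    push Not at hcon
    obtain ⟨I, hI, -⟩ := exists_comp hEd Δ
    apply he
    rw [hI]
    exact Ideal.sum_mem _ fun d _ => hcon d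
  set s₁ : S := comp (E : S →ₗ[K] S) d Δ with hs₁
  have hs₁E : E s₁ = (d : K) • s₁ := comp_eig hEd d Δ
  have hs₁J : s₁ ∈ J := comp_mem hEd J hJE hJK hJΔ d
  have hd0 : 0 ≤ d := by
    by_contra hcon
    exact hne _ hd (euler_neg hx hE (not_le.mp hcon) hs₁E)
  have hsE : E (x c * s₁) = ((d + 1 : ℤ) : K) • (x c * s₁) := by
    rw [Derivation.leibniz, hE c, hs₁E, smul_eq_mul, smul_eq_mul]
    push_cast
    rw [add_smul, one_smul, mul_smul_comm, mul_comm s₁ (x c)]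
  have hsJ : x c * s₁ ∈ J := hJmul _ _ hs₁J
  obtain ⟨φ₁, φ₂, hφ, p11, p12, p21, p22⟩ := P1_coords (x c * s₁) e₁ e₂ hsJ hind
  have hhom : ∀ m, E (φ₁ m) = φ₁ (ε m) + ((d + 1 - n : ℤ) : K) • φ₁ m ∧
      E (φ₂ m) = φ₂ (ε m) + ((d + 1 - n : ℤ) : K) • φ₂ m := by
    intro m
    have h1 := cE (x c * s₁) m
    rw [hsE, smul_assoc, hφ m, hφ (ε m), map_add, cE, cE, he₁, he₂] at h1
    have h2 := hind (E (φ₁ m) - φ₁ (ε m) - ((d + 1 - n : ℤ) : K) • φ₁ m)
      (E (φ₂ m) - φ₂ (ε m) - ((d + 1 - n : ℤ) : K) • φ₂ m) (by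
        rw [sub_smul, sub_smul, sub_smul, sub_smul, smul_assoc, smul_assoc]
        rw [smul_comm (φ₁ m) (n : K) e₁, smul_comm (φ₂ m) (n : K) e₂, smul_add] at h1
        push_cast at h1 ⊢
        rw [sub_smul, sub_smul]
        rw [← sub_eq_zero] at h1
        rw [← h1]
        abel)
    constructor
    · have := h2.1
      rw [sub_sub, sub_eq_zero] at this
      exact this
    · have := h2.2
      rw [sub_sub, sub_eq_zero] at this
      exact this
  exact ⟨e₁, e₂, n, d + 1, x c * s₁, φ₁, φ₂,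
    { h1 := he₁, h2 := he₂, hs := hsE, ht := by omega, sp := hφ, p11 := p11, p12 := p12,
      p21 := p21, p22 := p22, hom₁ := fun m => (hhom m).1, hom₂ := fun m => (hhom m).2 },
    hmul _ _ hc hd⟩

end

end Pool.Agent.Lib.MP_745d3a_ag.PF.GA

end

section

/-!
The plane with the coordinates `x 0`, `x 1`, `x 2` of weights `0`, `1`, `2` and
`D (x 0) = x 1`, `D (x 1) = x 2`, `D (x 2) = 0`.

* `wt3`: `H := hx.der (fun i => (w3 i : K) • x i)` (`Coord.der_x`).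
* `raise3`: `H ∘ D - D ∘ H - D` is the derivation `⁅H, D⁆ - D`, zero on the coordinates
  (`Coord.der_ext`).
* `mem_p0`: weight zero part: `Ideal.span (x '' {0}ᶜ)` is the set of the elements of positive
  weight: `⊆`: `x 1`, `x 2` have positive weight, `fl_mul`; `⊇`: by `Coord.induction`:
  `a - comp H 0 a ∈ Ideal.span (x '' {0}ᶜ)` for all `a`
  (`comp H 0 (b * x i)` is `comp H 0 b * x 0` for `i = 0` and `0` for `i = 1, 2`).
* `mono_w1`: by `Coord.induction`: for every `b : S` the component `comp H 1 b` is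
  `c * x 1` with `H c = 0` (`comp H 1 (b * x 1) = comp H 0 b * x 1`,
  `comp H 1 (b * x 0) = comp H 1 b * x 0`, `comp H 1 (b * x 2) = 0`). So `a = c * x 1` with
  `H c = 0`, `E c = (t - 1) • c` (cancel `x 1`); `mono_one`.
-/

set_option autoImplicit false
set_option linter.unusedSectionVars false
set_option linter.unusedSimpArgs false
set_option linter.unusedVariables false

open MvPolynomial

namespace Pool.Agent.Lib.MP_745d3a_ag.PF.GA

/-- The weights of the coordinates of the plane. -/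
def w3 : Fin 3 → ℤ := ![0, 1, 2]

/-- `G` applied to a vector. -/
def mv {K S : Type*} [Field K] [CommRing S] [Algebra K S] (G : Matrix (Fin 2) (Fin 2) K)
    (l : S × S) : S × S := (G 0 0 • l.1 + G 0 1 • l.2, G 1 0 • l.1 + G 1 1 • l.2)

section

variable {K S M : Type*} [Field K] [CharZero K] [CommRing S] [Algebra K S] {x : Fin 3 → S}
  {E D H : Derivation K S S} [AddCommGroup M] [Module K M] [Module S M]
  [IsScalarTower K S M] {ε δ : M →ₗ[K] M} {e₁ e₂ : M} {n t : ℤ} {s : S} {φ₁ φ₂ : M →ₗ[S] S}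

theorem wt3 (hx : Coord K x) (hE : IsEuler x E) :
    ∃ H : Derivation K S S, Base x w3 E H := by
  refine ⟨hx.der (fun i => (w3 i : K) • x i), hx, hE, fun i => hx.der_x _ i, ?_⟩
  intro i
  fin_cases i <;> simp [w3]

theorem raise3 (h : Base x w3 E H) (hD0 : D (x 0) = x 1) (hD1 : D (x 1) = x 2)
    (hD2 : D (x 2) = 0) (a : S) : H (D a) = D (H a) + D a := by
  have h1 : ⁅H, D⁆ = D := by
    refine h.cx.der_ext fun i => ?_
    rw [Derivation.commutator_apply, h.wt i, Derivation.map_smul]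
    fin_cases i
    · show H (D (x 0)) - ((w3 0 : ℤ) : K) • D (x 0) = D (x 0)
      rw [hD0, h.wt 1]
      simp [w3]
    · show H (D (x 1)) - ((w3 1 : ℤ) : K) • D (x 1) = D (x 1)
      rw [hD1, h.wt 2]
      simp only [w3, Matrix.cons_val_one, Matrix.cons_val_zero, Matrix.cons_val]
      push_cast
      rw [← sub_smul]
      norm_num
    · show H (D (x 2)) - ((w3 2 : ℤ) : K) • D (x 2) = D (x 2)
      rw [hD2, map_zero, smul_zero, sub_zero]
  have h2 := congrArg (fun F : Derivation K S S => F a) h1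
  simp only [Derivation.commutator_apply] at h2
  rw [sub_eq_iff_eq_add] at h2
  rw [h2, add_comm]

theorem mem_p0 (h : Base x w3 E H) (a : S) :
    a ∈ Ideal.span (x '' {0}ᶜ) ↔ Fl (H : S →ₗ[K] S) 1 a := by
  have hd : Diag (H : S →ₗ[K] S) := h.dH
  constructor
  · intro ha
    refine Submodule.span_induction (p := fun a _ => Fl (H : S →ₗ[K] S) 1 a) ?_ ?_ ?_ ?_ ha
    · rintro y ⟨i, hi, rfl⟩
      intro j hj
      have hw : (1 : ℤ) ≤ w3 i := by
        fin_cases i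
        · exact absurd rfl hi
        · simp [w3]
        · simp [w3]
      exact comp_of_ne (T := (H : S →ₗ[K] S)) (h.wt i) (by omega)
    · exact Fl.zero 1
    · intro u v _ _ hu hv
      exact Fl.add hd hu hv
    · intro u v _ hv
      have h1 := (h.fl_mul (h.fl_zero u le_rfl) hv).1
      rwa [zero_add] at h1
  · intro ha
    have key : a - comp (H : S →ₗ[K] S) 0 a ∈ Ideal.span (x '' {0}ᶜ) := by
      refine h.cx.induction
        (P := fun a => a - comp (H : S →ₗ[K] S) 0 a ∈ Ideal.span (x '' {0}ᶜ)) ?_ ?_ ?_ a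
      · intro c
        have h1 : comp (H : S →ₗ[K] S) 0 (algebraMap K S c) = algebraMap K S c := by
          refine comp_of_eig (T := (H : S →ₗ[K] S)) ?_
          show H (algebraMap K S c) = _
          rw [Derivation.map_algebraMap, Int.cast_zero, zero_smul]
        rw [h1, sub_self]
        exact zero_mem _
      · intro u v hu hv
        rw [comp_add hd, add_sub_add_comm]
        exact add_mem hu hv
      · intro u i hu
        rw [h.comp_zero_mul]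
        by_cases hi : i = 0
        · subst hi
          have h1 : comp (H : S →ₗ[K] S) 0 (x 0) = x 0 := by
            refine comp_of_eig (T := (H : S →ₗ[K] S)) ?_
            exact h.wt 0
          rw [h1, ← sub_mul]
          exact Ideal.mul_mem_right _ _ hu
        · have h1 : comp (H : S →ₗ[K] S) 0 (x i) = 0 := by
            refine comp_of_ne (T := (H : S →ₗ[K] S)) (h.wt i) ?_
            fin_cases i
            · exact absurd rfl hi
            · simp [w3]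
            · simp [w3]
          rw [h1, mul_zero, sub_zero]
          exact Ideal.mul_mem_left _ _ (Ideal.subset_span ⟨i, hi, rfl⟩)
    rwa [ha 0 (by norm_num), sub_zero] at key

theorem mono_w1 (h : Base x w3 E H) {a : S} (ha : H a = a) {t : ℤ} (ht : E a = (t : K) • a) :
    ∃ (κ : K) (j : ℕ), a = κ • (x 0 ^ j * x 1) := by
  have hd : Diag (H : S →ₗ[K] S) := h.dH
  have key : ∀ b : S, ∃ c : S, H c = 0 ∧ comp (H : S →ₗ[K] S) 1 b = c * x 1 := by
    intro b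
    refine h.cx.induction
      (P := fun b => ∃ c : S, H c = 0 ∧ comp (H : S →ₗ[K] S) 1 b = c * x 1) ?_ ?_ ?_ b
    · intro c
      refine ⟨0, map_zero H, ?_⟩
      rw [zero_mul]
      refine comp_of_ne (T := (H : S →ₗ[K] S)) (d := 0) ?_ one_ne_zero
      show H (algebraMap K S c) = _
      rw [Derivation.map_algebraMap, Int.cast_zero, zero_smul]
    · rintro u v ⟨c, hc, hu⟩ ⟨c', hc', hv⟩
      refine ⟨c + c', by rw [map_add, hc, hc', add_zero], ?_⟩
      rw [comp_add hd, hu, hv, add_mul]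
    · rintro u i ⟨c, hc, hu⟩
      have h1 := comp_hsmul (h.gmod.cH) hd (h.wt i) (1 - w3 i) u
      rw [sub_add_cancel, smul_eq_mul, smul_eq_mul, mul_comm (x i) u] at h1
      fin_cases i
      · refine ⟨x 0 * c, ?_, ?_⟩
        · rw [Derivation.leibniz, hc, smul_zero, zero_add, h.wt 0]
          simp [w3]
        · refine Eq.trans h1 ?_
          show x 0 * comp (H : S →ₗ[K] S) (1 - 0) u = _
          rw [sub_zero, hu]
          ring
      · refine ⟨comp (H : S →ₗ[K] S) 0 u, ?_, ?_⟩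
        · have h2 := comp_eig (T := (H : S →ₗ[K] S)) hd 0 u
          rw [Int.cast_zero, zero_smul] at h2
          exact h2
        · refine Eq.trans h1 ?_
          show x 1 * comp (H : S →ₗ[K] S) (1 - 1) u = _
          rw [sub_self]
          ring
      · refine ⟨0, map_zero H, ?_⟩
        refine Eq.trans h1 ?_
        show x 2 * comp (H : S →ₗ[K] S) (1 - 2) u = _
        rw [h.H_neg (by norm_num), mul_zero, zero_mul]
  obtain ⟨c, hc, hac⟩ := key a
  have h1 : comp (H : S →ₗ[K] S) 1 a = a := by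
    refine comp_of_eig (T := (H : S →ₗ[K] S)) ?_
    rw [Int.cast_one, one_smul]
    exact ha
  rw [h1] at hac
  have := h.cx.isDomain
  have hx1 : x 1 ≠ 0 := by
    intro h0
    have h2 := h.cx.symm_x 1
    rw [h0, map_zero] at h2
    exact X_ne_zero 1 h2.symm
  have h3 : E c = ((t - 1 : ℤ) : K) • c := by
    refine mul_left_cancel₀ hx1 ?_
    have h4 : E a = c * x 1 + x 1 * E c := by
      rw [hac, Derivation.leibniz, h.eu 1, smul_eq_mul, smul_eq_mul]
    have h5 : x 1 * E c = (t : K) • (c * x 1) - c * x 1 := by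
      rw [← hac, ← ht, h4, hac]
      ring
    rw [h5, Int.cast_sub, Int.cast_one, sub_smul, one_smul, mul_sub, mul_smul_comm, mul_comm c]
  obtain ⟨κ, j, hκ⟩ := mono_one h 0 (by simp [w3]) (fun i hi => by
    fin_cases i
    · rfl
    · simp [w3] at hi
    · simp [w3] at hi) hc h3
  refine ⟨κ, j, ?_⟩
  rw [hac, hκ, smul_mul_assoc]

end

end Pool.Agent.Lib.MP_745d3a_ag.PF.GA

end

section

/-!
The connection on leading forms on the plane.

* `delta_lead`: let `l = (l₁, l₂)` be the leading form of weight `k` of `(φ₁ m, φ₂ m)`. Apply `δ` to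
  `s • m = φ₁ m • e₁ + φ₂ m • e₂`, multiply by `s` and use `s • δ e_i = ∑_l φ_l (δ e_i) • e_l`,
  `s • δ m = ∑ φ_l (δ m) • e_l`; comparing coefficients (apply `φ_l` and cancel `s`):
  `s * φ_l (δ m) = s * D (φ_l m) + ∑_i φ_l (δ e_i) * φ_i m - D s * φ_l m`.
  `comp H 0 s = κ • x 0 ^ j` with `κ ≠ 0`, `j ≥ 1` (`mono_one`; `s ∉ p0`, `mem_p0`; `j = t`).
  `φ_l (δ e_i) ∈ p0` (`hv`) is homogeneous of degree `t` (`hom₁`, `comm`), and
  `comp H 1 (φ_l (δ e_i)) = γ_li • (x 0 ^ (j - 1) * x 1)` (`mono_w1`; compare the degrees, or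
  `γ = 0`). `comp H 1 (D s) = D (κ • x 0 ^ j) = (κ * j) • (x 0 ^ (j - 1) * x 1)`. The components of
  weight `k + 1` give
  `κ x0 ^ j * l'_l = κ x0 ^ j * D l_l + x0 ^ (j-1) * x1 * (∑ γ_li • l_i - (κ * j) • l_l)`; cancel
  `κ x0 ^ (j - 1)`. So `G l i = κ⁻¹ * γ_li - (if l = i then j else 0)`.
* `start_lead`: `(s, 0) = (φ₁ e₁, φ₂ e₁)` has the component `(κ x0 ^ j, 0)` of weight `0`, similarly
  `(0, s)`.
-/

set_option autoImplicit false
set_option linter.unusedSectionVars false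
set_option linter.unusedSimpArgs false
set_option linter.unusedVariables false

open MvPolynomial

namespace Pool.Agent.Lib.MP_745d3a_ag.PF.GA

section

variable {K S M : Type*} [Field K] [CharZero K] [CommRing S] [Algebra K S] {x : Fin 3 → S}
  {E D H : Derivation K S S} [AddCommGroup M] [Module K M] [Module S M]
  [IsScalarTower K S M] {ε δ : M →ₗ[K] M} {e₁ e₂ : M} {n t : ℤ} {s : S} {φ₁ φ₂ : M →ₗ[S] S}

theorem P2b_Ecomp (h : Base x w3 E H) (k : ℤ) (a : S) :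
    E (comp (H : S →ₗ[K] S) k a) = comp (H : S →ₗ[K] S) k (E a) := by
  have h1 := comp_shift (T := (H : S →ₗ[K] S)) (T' := (H : S →ₗ[K] S)) h.dH
    ((E : S →ₗ[K] S) : S →+ S) 0 (by
      intro v d hv
      show H (E v) = ((d + 0 : ℤ) : K) • E v
      have hv' : H v = (d : K) • v := hv
      rw [← h.EH, hv', add_zero, Derivation.map_smul]) k a
  rw [add_zero] at h1
  exact h1.symm

theorem P2b_raise (h : Base x w3 E H) (hD0 : D (x 0) = x 1) (hD1 : D (x 1) = x 2)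
    (hD2 : D (x 2) = 0) (k : ℤ) (a : S) :
    comp (H : S →ₗ[K] S) (k + 1) (D a) = D (comp (H : S →ₗ[K] S) k a) ∧
      (Fl (H : S →ₗ[K] S) k a → Fl (H : S →ₗ[K] S) (k + 1) (D a)) :=
  fl_raise (η' := (H : S →ₗ[K] S)) h.dH ((D : S →ₗ[K] S) : S →+ S)
    (fun v => raise3 h hD0 hD1 hD2 v) k a

theorem P2b_Epow (h : Base x w3 E H) (i : Fin 3) (j : ℕ) :
    E (x i ^ j) = (j : K) • x i ^ j := by
  induction j with
  | zero => rw [pow_zero, Derivation.map_one_eq_zero, Nat.cast_zero, zero_smul]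
  | succ j ih =>
    rw [pow_succ, Derivation.leibniz, ih, h.eu i, smul_eq_mul, smul_eq_mul, Nat.cast_succ, add_smul,
      one_smul, Algebra.smul_def, Algebra.smul_def]
    ring

theorem P2b_zero (h : Base x w3 E H) (L : Lc E ε e₁ e₂ n t s φ₁ φ₂)
    (hs : s ∉ Ideal.span (x '' {0}ᶜ)) :
    ∃ (κ : K) (j : ℕ), κ ≠ 0 ∧ comp (H : S →ₗ[K] S) 0 s = κ • x 0 ^ j ∧
      comp (H : S →ₗ[K] S) 0 s ≠ 0 ∧ (j : ℤ) = t := by
  have h0 : comp (H : S →ₗ[K] S) 0 s ≠ 0 := by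
    intro h0
    apply hs
    rw [mem_p0 h]
    exact Fl.succ (h.fl_zero s le_rfl) h0
  have hH : H (comp (H : S →ₗ[K] S) 0 s) = 0 := by
    have h1 := comp_eig h.dH 0 s
    rw [Int.cast_zero, zero_smul] at h1
    exact h1
  have hE : E (comp (H : S →ₗ[K] S) 0 s) = (t : K) • comp (H : S →ₗ[K] S) 0 s := by
    rw [P2b_Ecomp h, L.hs, comp_smulK h.dH]
  obtain ⟨κ, j, hκ⟩ := mono_one h 0 (by rfl) (by
    intro i hi
    fin_cases i
    · rfl
    · exact absurd hi (by decide)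
    · exact absurd hi (by decide)) hH hE
  have hκ0 : κ ≠ 0 := by
    rintro rfl
    rw [zero_smul] at hκ
    exact h0 hκ
  refine ⟨κ, j, hκ0, hκ, h0, ?_⟩
  have h2 : (j : K) • comp (H : S →ₗ[K] S) 0 s = (t : K) • comp (H : S →ₗ[K] S) 0 s := by
    rw [← hE, hκ, Derivation.map_smul, P2b_Epow h, smul_comm]
  have h3 : ((j : K) - t) • comp (H : S →ₗ[K] S) 0 s = 0 := by rw [sub_smul, h2, sub_self]
  rcases smul_eq_zero.mp h3 with h4 | h4
  · have h5 : ((j : ℤ) : K) = (t : K) := by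
      rw [Int.cast_natCast]
      exact sub_eq_zero.mp h4
    exact_mod_cast h5
  · exact absurd h4 h0

theorem P2b_gamma (h : Base x w3 E H) {j : ℕ} (hj : (j : ℤ) = t) (ht : 1 ≤ t) {a : S}
    (hE : E a = (t : K) • a) (ha : a ∈ Ideal.span (x '' {0}ᶜ)) :
    ∃ γ : K, comp (H : S →ₗ[K] S) 1 a = γ • (x 0 ^ (j - 1) * x 1) := by
  have hH : H (comp (H : S →ₗ[K] S) 1 a) = comp (H : S →ₗ[K] S) 1 a := by
    have h1 := comp_eig h.dH 1 a
    rw [Int.cast_one, one_smul] at h1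
    exact h1
  have hE1 : E (comp (H : S →ₗ[K] S) 1 a) = (t : K) • comp (H : S →ₗ[K] S) 1 a := by
    rw [P2b_Ecomp h, hE, comp_smulK h.dH]
  obtain ⟨κ, i, hκ⟩ := mono_w1 h hH hE1
  by_cases h0 : comp (H : S →ₗ[K] S) 1 a = 0
  · exact ⟨0, by rw [h0, zero_smul]⟩
  · have h2 : E (x 0 ^ i * x 1) = ((i : K) + 1) • (x 0 ^ i * x 1) := by
      rw [Derivation.leibniz, P2b_Epow h, h.eu 1, smul_eq_mul, smul_eq_mul, add_smul, one_smul,
        Algebra.smul_def, Algebra.smul_def]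
      ring
    have h3 : ((i : K) + 1 - t) • comp (H : S →ₗ[K] S) 1 a = 0 := by
      rw [sub_smul, ← hE1, hκ, Derivation.map_smul, h2, smul_comm, sub_self]
    rcases smul_eq_zero.mp h3 with h4 | h4
    · have h5 : (((i : ℤ) + 1 : ℤ) : K) = (t : K) := by
        rw [Int.cast_add, Int.cast_natCast, Int.cast_one]
        exact sub_eq_zero.mp h4
      have h6 : (i : ℤ) + 1 = t := by exact_mod_cast h5
      have h7 : j - 1 = i := by omega
      exact ⟨κ, by rw [h7]; exact hκ⟩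
    · exact absurd h4 h0

theorem P2b_hom (comm : ∀ m, ε (δ m) = δ (ε m)) {e : M} (he : ε e = (n : K) • e)
    {φ : M →ₗ[S] S} (hφ : ∀ m, E (φ m) = φ (ε m) + ((t - n : ℤ) : K) • φ m) :
    E (φ (δ e)) = (t : K) • φ (δ e) := by
  rw [hφ, comm, he, map_smul δ, Int.cast_sub, sub_smul]
  have h1 : φ ((n : K) • δ e) = (n : K) • φ (δ e) := by
    rw [← algebraMap_smul S (n : K) (δ e), map_smul, algebraMap_smul]
  rw [h1]
  abel

/-- One coordinate of `delta_lead`. -/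
theorem P2b_key (h : Base x w3 E H) (hD0 : D (x 0) = x 1) (hD1 : D (x 1) = x 2)
    (hD2 : D (x 2) = 0) {κ : K} {j : ℕ} (hκ0 : κ ≠ 0)
    (hκ : comp (H : S →ₗ[K] S) 0 s = κ • x 0 ^ j) (h0 : comp (H : S →ₗ[K] S) 0 s ≠ 0)
    (hj : 1 ≤ j) {A B₁ B₂ a₁ a₂ u : S} {γ₁ γ₂ : K}
    (hA : D s * u + s * A = s * D u + B₁ * a₁ + B₂ * a₂)
    (hB₁ : Fl (H : S →ₗ[K] S) 1 B₁) (hB₂ : Fl (H : S →ₗ[K] S) 1 B₂)
    (g₁ : comp (H : S →ₗ[K] S) 1 B₁ = γ₁ • (x 0 ^ (j - 1) * x 1))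
    (g₂ : comp (H : S →ₗ[K] S) 1 B₂ = γ₂ • (x 0 ^ (j - 1) * x 1)) (k : ℤ)
    (hu : Fl (H : S →ₗ[K] S) k u) (h₁ : Fl (H : S →ₗ[K] S) k a₁)
    (h₂ : Fl (H : S →ₗ[K] S) k a₂) :
    Fl (H : S →ₗ[K] S) (k + 1) A ∧
      x 0 * comp (H : S →ₗ[K] S) (k + 1) A = x 0 * D (comp (H : S →ₗ[K] S) k u) +
        x 1 * ((κ⁻¹ * γ₁) • comp (H : S →ₗ[K] S) k a₁ + (κ⁻¹ * γ₂) • comp (H : S →ₗ[K] S) k a₂ -
          (j : K) • comp (H : S →ₗ[K] S) k u) := by
  have hs0 : Fl (H : S →ₗ[K] S) 0 s := h.fl_zero s le_rfl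
  have hDs := P2b_raise h hD0 hD1 hD2 0 s
  have hDu := P2b_raise h hD0 hD1 hD2 k u
  have f1 := h.fl_mul hs0 (hDu.2 hu)
  have f2 := h.fl_mul hB₁ h₁
  have f3 := h.fl_mul hB₂ h₂
  have hDs1 : Fl (H : S →ₗ[K] S) 1 (D s) := by
    have := hDs.2 hs0
    rwa [zero_add] at this
  have f4 := h.fl_mul hDs1 hu
  rw [zero_add] at f1
  rw [add_comm (1 : ℤ) k] at f2 f3 f4
  have hsA : s * A = s * D u + B₁ * a₁ + B₂ * a₂ - D s * u := by
    rw [← hA]
    ring
  have f5 : Fl (H : S →ₗ[K] S) (k + 1) (s * A) := by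
    rw [hsA]
    exact Fl.sub h.dH (Fl.add h.dH (Fl.add h.dH f1.1 f2.1) f3.1) f4.1
  have f6 : Fl (H : S →ₗ[K] S) (k + 1) A := by
    refine h.fl_mul_cancel hs0 h0 ?_
    rw [zero_add]
    exact f5
  refine ⟨f6, ?_⟩
  have f7 := (h.fl_mul hs0 f6).2
  rw [zero_add] at f7
  have c1 : comp (H : S →ₗ[K] S) (k + 1) (s * A) =
      comp (H : S →ₗ[K] S) 0 s * D (comp (H : S →ₗ[K] S) k u) +
        comp (H : S →ₗ[K] S) 1 B₁ * comp (H : S →ₗ[K] S) k a₁ +
        comp (H : S →ₗ[K] S) 1 B₂ * comp (H : S →ₗ[K] S) k a₂ -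
        comp (H : S →ₗ[K] S) 1 (D s) * comp (H : S →ₗ[K] S) k u := by
    rw [hsA, comp_sub h.dH, comp_add h.dH, comp_add h.dH, f1.2, f2.2, f3.2, f4.2, hDu.1]
  have c2 : comp (H : S →ₗ[K] S) 1 (D s) = (κ * j) • (x 0 ^ (j - 1) * x 1) := by
    have c3 := hDs.1
    rw [zero_add] at c3
    rw [c3, hκ, Derivation.map_smul, Derivation.leibniz_pow, hD0, smul_eq_mul, mul_smul]
    congr 1
    rw [Nat.cast_smul_eq_nsmul]
  rw [f7, c2, g₁, g₂, hκ] at c1
  have : IsDomain S := h.cx.isDomain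
  have hx0 : x 0 ^ (j - 1) ≠ 0 := by
    intro hx
    apply h0
    rw [hκ, show j = (j - 1) + 1 by omega, pow_succ, hx, zero_mul, smul_zero]
  have hx1 : x 0 ^ j = x 0 ^ (j - 1) * x 0 := by
    rw [← pow_succ]
    congr 1
    omega
  have hK : algebraMap K S κ ≠ 0 := by
    intro hK
    apply h0
    rw [hκ, Algebra.smul_def, hK, zero_mul]
  have hinv : algebraMap K S κ * algebraMap K S κ⁻¹ = 1 := by
    rw [← map_mul, mul_inv_cancel₀ hκ0, map_one]
  refine mul_left_cancel₀ (mul_ne_zero hK hx0) ?_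
  rw [hx1] at c1
  simp only [Algebra.smul_def, map_mul] at c1 ⊢
  linear_combination c1 + (x 0 ^ (j - 1) * x 1 * (algebraMap K S γ₁ * comp (H : S →ₗ[K] S) k a₁ +
    algebraMap K S γ₂ * comp (H : S →ₗ[K] S) k a₂)) * (-hinv)

theorem delta_lead (h : Base x w3 E H) (hD0 : D (x 0) = x 1) (hD1 : D (x 1) = x 2)
    (hD2 : D (x 2) = 0) (tf : ∀ (a : S) (m : M), a • m = 0 → a = 0 ∨ m = 0)
    (cD : IsConn D δ) (comm : ∀ m, ε (δ m) = δ (ε m))
    (L : Lc E ε e₁ e₂ n t s φ₁ φ₂) (hs : s ∉ Ideal.span (x '' {0}ᶜ))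
    (hv : ∀ (θ : M →ₗ[S] S) (m : M), θ (δ m) ∈ Ideal.span (x '' {0}ᶜ)) :
    ∃ G : Matrix (Fin 2) (Fin 2) K, ∀ (k : ℤ) (m : M),
      Fl (shp (H : S →ₗ[K] S) 0 0) k (φ₁ m, φ₂ m) →
      Fl (shp (H : S →ₗ[K] S) 0 0) (k + 1) (φ₁ (δ m), φ₂ (δ m)) ∧
      x 0 • comp (shp (H : S →ₗ[K] S) 0 0) (k + 1) (φ₁ (δ m), φ₂ (δ m)) =
        x 0 • (D (comp (shp (H : S →ₗ[K] S) 0 0) k (φ₁ m, φ₂ m)).1,
          D (comp (shp (H : S →ₗ[K] S) 0 0) k (φ₁ m, φ₂ m)).2) +
        x 1 • mv G (comp (shp (H : S →ₗ[K] S) 0 0) k (φ₁ m, φ₂ m)) := by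
  obtain ⟨κ, j, hκ0, hκ, h0, hj⟩ := P2b_zero h L hs
  have hj1 : 1 ≤ j := by
    have := L.ht
    omega
  have hfl : ∀ (θ : M →ₗ[S] S) (m : M), Fl (H : S →ₗ[K] S) 1 (θ (δ m)) :=
    fun θ m => (mem_p0 h _).mp (hv θ m)
  obtain ⟨γ₁₁, g₁₁⟩ := P2b_gamma h hj L.ht (P2b_hom comm L.h1 L.hom₁) (hv φ₁ e₁)
  obtain ⟨γ₁₂, g₁₂⟩ := P2b_gamma h hj L.ht (P2b_hom comm L.h2 L.hom₁) (hv φ₁ e₂)
  obtain ⟨γ₂₁, g₂₁⟩ := P2b_gamma h hj L.ht (P2b_hom comm L.h1 L.hom₂) (hv φ₂ e₁)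
  obtain ⟨γ₂₂, g₂₂⟩ := P2b_gamma h hj L.ht (P2b_hom comm L.h2 L.hom₂) (hv φ₂ e₂)
  have key : ∀ m, D s • m + s • δ m =
      D (φ₁ m) • e₁ + φ₁ m • δ e₁ + (D (φ₂ m) • e₂ + φ₂ m • δ e₂) := by
    intro m
    rw [← cD, ← cD, ← cD, ← map_add, ← L.sp]
  refine ⟨!![κ⁻¹ * γ₁₁ - j, κ⁻¹ * γ₁₂; κ⁻¹ * γ₂₁, κ⁻¹ * γ₂₂ - j], ?_⟩
  intro k m hm
  rw [Fl_shp h.dH, sub_zero] at hm
  have k₁ : D s * φ₁ m + s * φ₁ (δ m) =
      s * D (φ₁ m) + φ₁ (δ e₁) * φ₁ m + φ₁ (δ e₂) * φ₂ m := by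
    have h1 := congrArg φ₁ (key m)
    simp only [map_add, map_smul, smul_eq_mul, L.p11, L.p12] at h1
    rw [h1]
    ring
  have k₂ : D s * φ₂ m + s * φ₂ (δ m) =
      s * D (φ₂ m) + φ₂ (δ e₁) * φ₁ m + φ₂ (δ e₂) * φ₂ m := by
    have h1 := congrArg φ₂ (key m)
    simp only [map_add, map_smul, smul_eq_mul, L.p21, L.p22] at h1
    rw [h1]
    ring
  have r₁ := P2b_key h hD0 hD1 hD2 hκ0 hκ h0 hj1 k₁ (hfl φ₁ e₁) (hfl φ₁ e₂) g₁₁ g₁₂ k hm.1 hm.1 hm.2
  have r₂ := P2b_key h hD0 hD1 hD2 hκ0 hκ h0 hj1 k₂ (hfl φ₂ e₁) (hfl φ₂ e₂) g₂₁ g₂₂ k hm.2 hm.1 hm.2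
  refine ⟨?_, ?_⟩
  · rw [Fl_shp h.dH, sub_zero]
    exact ⟨r₁.1, r₂.1⟩
  · rw [comp_shp h.dH, comp_shp h.dH, sub_zero, sub_zero]
    refine Prod.ext ?_ ?_
    · show x 0 * comp (H : S →ₗ[K] S) (k + 1) (φ₁ (δ m)) =
        x 0 * D (comp (H : S →ₗ[K] S) k (φ₁ m)) +
          x 1 * ((κ⁻¹ * γ₁₁ - j) • comp (H : S →ₗ[K] S) k (φ₁ m) +
            (κ⁻¹ * γ₁₂) • comp (H : S →ₗ[K] S) k (φ₂ m))
      rw [r₁.2, sub_smul]
      ring
    · show x 0 * comp (H : S →ₗ[K] S) (k + 1) (φ₂ (δ m)) =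
        x 0 * D (comp (H : S →ₗ[K] S) k (φ₂ m)) +
          x 1 * ((κ⁻¹ * γ₂₁) • comp (H : S →ₗ[K] S) k (φ₁ m) +
            (κ⁻¹ * γ₂₂ - j) • comp (H : S →ₗ[K] S) k (φ₂ m))
      rw [r₂.2, sub_smul]
      ring

theorem start_lead (h : Base x w3 E H) (L : Lc E ε e₁ e₂ n t s φ₁ φ₂)
    (hs : s ∉ Ideal.span (x '' {0}ᶜ)) :
    ∃ N : ℕ, ∀ v : S × S,
      x 0 ^ N • v ∈ M0 (shp (H : S →ₗ[K] S) 0 0) (LinearMap.range (φ₁.prod φ₂)) := by
  obtain ⟨κ, j, hκ0, hκ, h0, hj⟩ := P2b_zero h L hs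
  refine ⟨j, ?_⟩
  have m₁ : ((κ • x 0 ^ j, 0) : S × S) ∈
      M0 (shp (H : S →ₗ[K] S) 0 0) (LinearMap.range (φ₁.prod φ₂)) := by
    refine Ld.mem_M0 (k := 0) (y := (s, 0)) ⟨⟨e₁, ?_⟩, ?_, ?_⟩
    · show (φ₁ e₁, φ₂ e₁) = (s, 0)
      rw [L.p11, L.p21]
    · rw [Fl_shp h.dH, sub_zero]
      exact ⟨h.fl_zero s le_rfl, Fl.zero 0⟩
    · rw [comp_shp h.dH, sub_zero, hκ, comp_zero]
  have m₂ : ((0, κ • x 0 ^ j) : S × S) ∈
      M0 (shp (H : S →ₗ[K] S) 0 0) (LinearMap.range (φ₁.prod φ₂)) := by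
    refine Ld.mem_M0 (k := 0) (y := (0, s)) ⟨⟨e₂, ?_⟩, ?_, ?_⟩
    · show (φ₁ e₂, φ₂ e₂) = (0, s)
      rw [L.p12, L.p22]
    · rw [Fl_shp h.dH, sub_zero]
      exact ⟨Fl.zero 0, h.fl_zero s le_rfl⟩
    · rw [comp_shp h.dH, sub_zero, hκ, comp_zero]
  intro v
  have h3 : x 0 ^ j • v = (κ⁻¹ • v.1) • ((κ • x 0 ^ j, 0) : S × S) +
      (κ⁻¹ • v.2) • ((0, κ • x 0 ^ j) : S × S) := by
    have h4 : ∀ a : S, (κ⁻¹ • a) * (κ • x 0 ^ j) = x 0 ^ j * a := by
      intro a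
      rw [smul_mul_smul_comm, inv_mul_cancel₀ hκ0, one_smul, mul_comm]
    refine Prod.ext ?_ ?_
    · show x 0 ^ j * v.1 = (κ⁻¹ • v.1) * (κ • x 0 ^ j) + (κ⁻¹ • v.2) * 0
      rw [h4, mul_zero, add_zero]
    · show x 0 ^ j * v.2 = (κ⁻¹ • v.1) * 0 + (κ⁻¹ • v.2) * (κ • x 0 ^ j)
      rw [h4, mul_zero, zero_add]
  rw [h3]
  exact Submodule.add_mem _ (Submodule.smul_mem _ _ m₁) (Submodule.smul_mem _ _ m₂)

end

end Pool.Agent.Lib.MP_745d3a_ag.PF.GA

end

section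

/-!
The frame of the module of leading forms on the plane: pure algebra.

Write `δ₀ l = l'` for an `l' ∈ L` with `x0 • l' = x0 • D l + x1 • G l` (unique, since `S` is a
domain).

* `prod_G`: let `v : K × K`, `l₀ = x0 ^ N • v ∈ L`, `l_{i+1} = δ₀ l_i`, `w_0 = v`,
  `w_{i+1} = (N - i + G) w_i`. By induction there are `z_i : S × S` with
  `x0 ^ i • l_i = (x0 ^ N * x1 ^ i) • w_i + x2 • z_i`:
  `x0 ^ (i+1) • l_{i+1} = x0 • D (x0 ^ i • l_i) + x1 • (G - i) (x0 ^ i • l_i)` and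
  `D (x0 ^ N * x1 ^ i) = N x0 ^ (N-1) x1 ^ (i+1) + i x0 ^ N x1 ^ (i-1) x2`. For `i = N + 1`:
  `x0 ^ N * x1 ^ (N+1) • w_{N+1} ∈ x0 ^ (N+1) S² + x2 S²`; as `x0, x2` and `x1` are coordinates
  (`Coord.koszul` with exponents, or work in `MvPolynomial`) `w_{N+1} = 0`: e.g.
  `x0 ^ N * (x1 ^ (N+1) * c - x0 * p) = x2 * q` gives `x2 ∣ x1 ^ (N+1) * c - x0 * p`, so
  `x1 ^ (N+1) * c ∈ (x0, x2)`, a prime ideal not containing `x1` (`isPrime_span`, `mem_span`),
  `c ∈ (x0, x2)` is a constant, so zero (`one_notMem`). So the product of the commuting matrices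
  `G + i`, `0 ≤ i ≤ N`, is zero on `K × K` (`N - i` runs through `0..N`,
  `Finset.prod_range_reflect`); it is `Polynomial.aeval G` of the product.
-/

set_option autoImplicit false
set_option linter.unusedSectionVars false
set_option linter.unusedSimpArgs false
set_option linter.unusedVariables false

open MvPolynomial

namespace Pool.Agent.Lib.MP_745d3a_ag.PF.GA

section

variable {K S : Type*} [Field K] [CharZero K] [CommRing S] [Algebra K S] {x : Fin 3 → S}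
  {D : Derivation K S S}

omit [CharZero K] in
private lemma P3_pow0 (hD0 : D (x 0) = x 1) (i : ℕ) :
    x 0 * D (x 0 ^ i) = (i : S) * x 0 ^ i * x 1 := by
  induction i with
  | zero => simp
  | succ i ih =>
    rw [pow_succ, Derivation.leibniz, hD0, smul_eq_mul, smul_eq_mul]
    push_cast
    linear_combination x 0 * ih

omit [CharZero K] in
private lemma P3_pow1 (hD1 : D (x 1) = x 2) (i : ℕ) :
    ∃ Q : S, D (x 1 ^ i) = x 2 * Q := by
  induction i with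
  | zero => exact ⟨0, by simp⟩
  | succ i ih =>
    obtain ⟨Q, hQ⟩ := ih
    refine ⟨x 1 ^ i + x 1 * Q, ?_⟩
    rw [pow_succ, Derivation.leibniz, hD1, smul_eq_mul, smul_eq_mul, hQ]
    ring

omit [CharZero K] in
private lemma P3_comp (hD0 : D (x 0) = x 1) (hD1 : D (x 1) = x 2) (hD2 : D (x 2) = 0)
    (a b c1 c2 : K) (N i : ℕ) (l1 l2 l1' z1 z2 : S)
    (h1 : x 0 * l1' = x 0 * D l1 + x 1 * (algebraMap K S a * l1 + algebraMap K S b * l2))
    (e1 : x 0 ^ i * l1 = x 0 ^ N * x 1 ^ i * algebraMap K S c1 + x 2 * z1)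
    (e2 : x 0 ^ i * l2 = x 0 ^ N * x 1 ^ i * algebraMap K S c2 + x 2 * z2) :
    ∃ z : S, x 0 ^ (i + 1) * l1' =
      x 0 ^ N * x 1 ^ (i + 1) * algebraMap K S (a * c1 + b * c2 + ((N : K) - i) * c1) + x 2 * z := by
  obtain ⟨Q, q⟩ := P3_pow1 (x := x) hD1 i
  have p := P3_pow0 (x := x) hD0 i
  have pN := P3_pow0 (x := x) hD0 N
  have hD := congrArg D e1
  rw [Derivation.leibniz, map_add, Derivation.leibniz, Derivation.leibniz, Derivation.leibniz,
    Derivation.map_algebraMap, hD2] at hD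
  simp only [smul_eq_mul, mul_zero, zero_add, add_zero] at hD
  refine ⟨x 0 * D z1 + Q * x 0 ^ (N + 1) * algebraMap K S c1
    + x 1 * ((algebraMap K S a - (i : S)) * z1 + algebraMap K S b * z2), ?_⟩
  simp only [map_add, map_mul, map_sub, map_natCast]
  linear_combination x 0 ^ i * h1 + x 0 * hD - l1 * p + x 1 * algebraMap K S a * e1
    + x 1 * algebraMap K S b * e2 - (i : S) * x 1 * e1 + algebraMap K S c1 * x 1 ^ i * pN
    + x 0 ^ (N + 1) * algebraMap K S c1 * q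

omit [CharZero K] in
private lemma P3_iter (hD0 : D (x 0) = x 1) (hD1 : D (x 1) = x 2) (hD2 : D (x 2) = 0)
    (G : Matrix (Fin 2) (Fin 2) K) (L : Submodule S (S × S))
    (hL : ∀ l ∈ L, ∃ l' ∈ L, x 0 • l' = x 0 • (D l.1, D l.2) + x 1 • mv G l)
    (N : ℕ) (hN : ∀ v : S × S, x 0 ^ N • v ∈ L) (v : Fin 2 → K) (i : ℕ) :
    ∃ (l z : S × S), l ∈ L ∧
      x 0 ^ i * l.1 = x 0 ^ N * x 1 ^ i * algebraMap K S (((Polynomial.aeval G
        (∏ j ∈ Finset.range i, (Polynomial.X + Polynomial.C ((N : K) - j)))).mulVec v) 0)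
          + x 2 * z.1 ∧
      x 0 ^ i * l.2 = x 0 ^ N * x 1 ^ i * algebraMap K S (((Polynomial.aeval G
        (∏ j ∈ Finset.range i, (Polynomial.X + Polynomial.C ((N : K) - j)))).mulVec v) 1)
          + x 2 * z.2 := by
  induction i with
  | zero =>
    refine ⟨x 0 ^ N • (algebraMap K S (v 0), algebraMap K S (v 1)), 0, hN _, ?_, ?_⟩
    · simp
    · simp
  | succ i ih =>
    obtain ⟨l, z, hl, e1, e2⟩ := ih
    obtain ⟨l', hl', h⟩ := hL l hl
    have h1 : x 0 * l'.1 = x 0 * D l.1 + x 1 * (G 0 0 • l.1 + G 0 1 • l.2) :=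
      congrArg Prod.fst h
    have h2 : x 0 * l'.2 = x 0 * D l.2 + x 1 * (G 1 0 • l.1 + G 1 1 • l.2) :=
      congrArg Prod.snd h
    rw [Algebra.smul_def, Algebra.smul_def] at h1 h2
    have hP : Polynomial.aeval G (∏ j ∈ Finset.range (i + 1),
        (Polynomial.X + Polynomial.C ((N : K) - j)))
        = (G + ((N : K) - i) • (1 : Matrix (Fin 2) (Fin 2) K)) * Polynomial.aeval G
          (∏ j ∈ Finset.range i, (Polynomial.X + Polynomial.C ((N : K) - j))) := by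
      rw [Finset.prod_range_succ, mul_comm, map_mul, map_add, Polynomial.aeval_X,
        Polynomial.aeval_C, Algebra.algebraMap_eq_smul_one]
    obtain ⟨w, hw⟩ : ∃ w : Fin 2 → K, w = (Polynomial.aeval G
        (∏ j ∈ Finset.range i, (Polynomial.X + Polynomial.C ((N : K) - j)))).mulVec v := ⟨_, rfl⟩
    rw [← hw] at e1 e2
    have hw' : (Polynomial.aeval G (∏ j ∈ Finset.range (i + 1),
        (Polynomial.X + Polynomial.C ((N : K) - j)))).mulVec v
        = G.mulVec w + ((N : K) - i) • w := by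
      rw [hP, ← Matrix.mulVec_mulVec, ← hw, Matrix.add_mulVec, Matrix.smul_mulVec,
        Matrix.one_mulVec]
    obtain ⟨y1, hy1⟩ := P3_comp hD0 hD1 hD2 (G 0 0) (G 0 1) (w 0) (w 1) N i l.1 l.2 l'.1
      z.1 z.2 h1 e1 e2
    obtain ⟨y2, hy2⟩ := P3_comp hD0 hD1 hD2 (G 1 1) (G 1 0) (w 1) (w 0) N i l.2 l.1 l'.2
      z.2 z.1 (by rw [h2]; ring) e2 e1
    refine ⟨l', (y1, y2), hl', ?_, ?_⟩
    · rw [hw', hy1]
      congr 4
      simp [Matrix.mulVec, dotProduct, Fin.sum_univ_two]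
    · rw [hw', hy2]
      congr 4
      simp [Matrix.mulVec, dotProduct, Fin.sum_univ_two]
      ring

omit [CharZero K] in
private lemma P3_zero (hx : Coord K x) (N : ℕ) (c : K) (l z : S)
    (h : x 0 ^ (N + 1) * l = x 0 ^ N * x 1 ^ (N + 1) * algebraMap K S c + x 2 * z) : c = 0 := by
  have := hx.isDomain
  by_contra hc
  have hp := hx.prime_x 2
  have h02 : ¬ x 2 ∣ x 0 := by
    rw [← Ideal.mem_span_singleton, ← Set.image_singleton, hx.mem_span {2} 0,
      Set.mem_singleton_iff]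
    decide
  have h1 : x 2 ∣ x 0 ^ N * (x 0 * l - x 1 ^ (N + 1) * algebraMap K S c) :=
    ⟨z, by linear_combination h⟩
  rcases hp.dvd_or_dvd h1 with h2 | h2
  · exact h02 (hp.dvd_of_dvd_pow h2)
  · obtain ⟨y, hy⟩ := h2
    have hP := hx.isPrime_span {0, 2}
    have h3 : x 1 ^ (N + 1) * algebraMap K S c ∈ Ideal.span (x '' {0, 2}) := by
      have : x 1 ^ (N + 1) * algebraMap K S c = l * x 0 - y * x 2 := by linear_combination - hy
      rw [this]
      exact Ideal.sub_mem _ (Ideal.mul_mem_left _ _ ((hx.mem_span _ _).2 (by simp)))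
        (Ideal.mul_mem_left _ _ ((hx.mem_span _ _).2 (by simp)))
    rcases hP.mem_or_mem h3 with h4 | h4
    · have h5 := (hx.mem_span _ _).1 (hP.mem_of_pow_mem _ h4)
      revert h5
      simp
    · apply hP.ne_top
      exact Ideal.eq_top_of_isUnit_mem _ h4 ((IsUnit.mk0 c hc).map (algebraMap K S))

theorem prod_G (hx : Coord K x) (hD0 : D (x 0) = x 1) (hD1 : D (x 1) = x 2)
    (hD2 : D (x 2) = 0) (G : Matrix (Fin 2) (Fin 2) K) (L : Submodule S (S × S))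
    (hL : ∀ l ∈ L, ∃ l' ∈ L, x 0 • l' = x 0 • (D l.1, D l.2) + x 1 • mv G l)
    (N : ℕ) (hN : ∀ v : S × S, x 0 ^ N • v ∈ L) :
    Polynomial.aeval G (∏ i ∈ Finset.range (N + 1),
      (Polynomial.X + Polynomial.C (i : K) : Polynomial K)) = 0 := by
  have hrefl : (∏ i ∈ Finset.range (N + 1), (Polynomial.X + Polynomial.C (i : K) : Polynomial K))
      = ∏ j ∈ Finset.range (N + 1), (Polynomial.X + Polynomial.C ((N : K) - j)) := by
    rw [← Finset.prod_range_reflect]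
    apply Finset.prod_congr rfl
    intro j hj
    have hj' : j ≤ N := by
      have := Finset.mem_range.1 hj
      omega
    have : N + 1 - 1 - j = N - j := by omega
    rw [this, Nat.cast_sub hj']
  rw [hrefl]
  have hzero : ∀ v : Fin 2 → K, (Polynomial.aeval G
      (∏ j ∈ Finset.range (N + 1), (Polynomial.X + Polynomial.C ((N : K) - j)))).mulVec v = 0 := by
    intro v
    obtain ⟨l, z, hl, e1, e2⟩ := P3_iter hD0 hD1 hD2 G L hL N hN v (N + 1)
    ext k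
    fin_cases k
    · exact P3_zero hx N _ _ _ e1
    · exact P3_zero hx N _ _ _ e2
  apply Matrix.mulVec_injective
  funext v
  rw [hzero v, Matrix.zero_mulVec]

end

end Pool.Agent.Lib.MP_745d3a_ag.PF.GA

end

section

/-!
The frame of the module of leading forms on the plane.

* `frame_sub`: in the basis `v₁ = (p, q)`, `v₂ = (p', q')` of eigenvectors every `l : S × S` is
  `α • v₁ + β • v₂`, and for `l ∈ L` there is `l' ∈ L` with `x0 * α' = x0 * D α - r₁ • x1 * α`,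
  same for `β`. Claim `∀ i ≤ r₁, ∀ l ∈ L, x0 ^ i ∣ α l` by induction on `i`: let `α = x0 ^ i * g`,
  `i < r₁`. Then `x0 * α' = x0 ^ i * ((i - r₁) • x1 * g + x0 * D g)` and `α' = x0 ^ i * g'` (induction
  hypothesis for `l'`), so `x0 ∣ (i - r₁) • x1 * g`, and `x0 ∣ g` (`prime_x`). With `i = r₁`:
  `l = a • (x0 ^ r₁ • v₁) + b • (x0 ^ r₂ • v₂)`.
* `frame_pow`: `I := {s | s • (x0 ^ r₁ • v₁) ∈ L}` is an ideal stable under `D`: the `l'` of
  `l = s • x0 ^ r₁ • v₁` is `D s • x0 ^ r₁ • v₁` since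
  `x0 * D (s * x0 ^ r₁) - r₁ x1 * s * x0 ^ r₁ = x0 * D s * x0 ^ r₁`. `x0 ^ N ∈ I`. The radical of `I`
  is stable under `D` (`rad_der`, BS/Rad.lean), so it contains `x0`, `x1 = D x0`, `x2 = D x1`.
-/

set_option autoImplicit false
set_option linter.unusedSectionVars false
set_option linter.unusedSimpArgs false
set_option linter.unusedVariables false

open MvPolynomial

namespace Pool.Agent.Lib.MP_745d3a_ag.PF.GA

section

variable {K S : Type*} [Field K] [CharZero K] [CommRing S] [Algebra K S] {x : Fin 3 → S}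
  {D : Derivation K S S}

theorem P3c_pow (hD0 : D (x 0) = x 1) (i : ℕ) :
    x 0 * D (x 0 ^ i) = (i : S) * (x 0 ^ i * x 1) := by
  rw [Derivation.leibniz_pow, hD0]
  cases i with
  | zero => simp
  | succ i =>
    rw [Nat.add_sub_cancel, nsmul_eq_mul, smul_eq_mul, pow_succ]
    ring

theorem P3c_dvd (hx : Coord K x) (hD0 : D (x 0) = x 1)
    (G : Matrix (Fin 2) (Fin 2) K) (L : Submodule S (S × S))
    (hL : ∀ l ∈ L, ∃ l' ∈ L, x 0 • l' = x 0 • (D l.1, D l.2) + x 1 • mv G l)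
    (r : ℕ) (c₁ c₂ : K) (k1 : c₁ * G 0 0 + c₂ * G 1 0 = -(r : K) * c₁)
    (k2 : c₁ * G 0 1 + c₂ * G 1 1 = -(r : K) * c₂) (i : ℕ) (hi : i ≤ r) :
    ∀ l ∈ L, x 0 ^ i ∣ c₁ • l.1 + c₂ • l.2 := by
  have := hx.isDomain
  induction i with
  | zero =>
    intro l _
    rw [pow_zero]
    exact one_dvd _
  | succ i ih =>
    intro l hl
    obtain ⟨l', hl', he⟩ := hL l hl
    obtain ⟨g, hg⟩ := ih (by omega) l hl
    obtain ⟨g', hg'⟩ := ih (by omega) l' hl'
    have e1 : x 0 * l'.1 = x 0 * D l.1 + x 1 * (G 0 0 • l.1 + G 0 1 • l.2) := by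
      have := congrArg Prod.fst he
      simpa [mv, smul_eq_mul] using this
    have e2 : x 0 * l'.2 = x 0 * D l.2 + x 1 * (G 1 0 • l.1 + G 1 1 • l.2) := by
      have := congrArg Prod.snd he
      simpa [mv, smul_eq_mul] using this
    -- the equation for the functional
    have e3 : x 0 * (c₁ • l'.1 + c₂ • l'.2) =
        x 0 * D (c₁ • l.1 + c₂ • l.2) - (r : S) * x 1 * (c₁ • l.1 + c₂ • l.2) := by
      have a1 : x 0 * (c₁ • l'.1 + c₂ • l'.2) = c₁ • (x 0 * l'.1) + c₂ • (x 0 * l'.2) := by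
        rw [mul_add, mul_smul_comm, mul_smul_comm]
      rw [a1, e1, e2, map_add, Derivation.map_smul, Derivation.map_smul]
      have b1 : (r : S) = algebraMap K S (r : K) := (map_natCast _ _).symm
      rw [b1]
      simp only [Algebra.smul_def]
      have d1 := congrArg (algebraMap K S) k1
      have d2 := congrArg (algebraMap K S) k2
      simp only [map_add, map_mul, map_neg] at d1 d2
      linear_combination (x 1 * l.1) * d1 + (x 1 * l.2) * d2
    rw [hg, hg', Derivation.leibniz, smul_eq_mul, smul_eq_mul] at e3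
    have e4 : x 0 ^ i * (x 0 * g') =
        x 0 ^ i * (x 0 * D g + ((i : S) - (r : S)) * (x 1 * g)) := by
      have a2 := P3c_pow (D := D) hD0 i
      linear_combination e3 + g * a2
    have e5 := mul_left_cancel₀ (pow_ne_zero i (a1_ne_zero hx 0)) e4
    have e6 : x 0 ∣ ((i : S) - (r : S)) * (x 1 * g) := by
      refine ⟨g' - D g, ?_⟩
      linear_combination -e5
    have e7 : x 0 ∣ x 1 * g := by
      have hne : ((i : K) - (r : K)) ≠ 0 := by
        rw [sub_ne_zero]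
        intro h
        have : i = r := by exact_mod_cast h
        omega
      have h1 : ((i : S) - (r : S)) = algebraMap K S ((i : K) - (r : K)) := by
        rw [map_sub, map_natCast, map_natCast]
      rw [h1] at e6
      have h2 : x 1 * g = algebraMap K S ((i : K) - (r : K))⁻¹ *
          (algebraMap K S ((i : K) - (r : K)) * (x 1 * g)) := by
        rw [← mul_assoc, ← map_mul, inv_mul_cancel₀ hne, map_one, one_mul]
      rw [h2]
      exact Dvd.dvd.mul_left e6 _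
    have e8 : x 0 ∣ g := by
      rcases (hx.prime_x 0).dvd_or_dvd e7 with h | h
      · exfalso
        have h3 : x 1 ∈ Ideal.span (x '' {0}) := by
          rw [Set.image_singleton, Ideal.mem_span_singleton]
          exact h
        rw [hx.mem_span {0} 1, Set.mem_singleton_iff] at h3
        exact absurd h3 (by decide)
      · exact h
    rw [hg, pow_succ]
    exact mul_dvd_mul_left _ e8

theorem frame_sub (hx : Coord K x) (hD0 : D (x 0) = x 1) (hD1 : D (x 1) = x 2)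
    (hD2 : D (x 2) = 0) (G : Matrix (Fin 2) (Fin 2) K) (L : Submodule S (S × S))
    (hL : ∀ l ∈ L, ∃ l' ∈ L, x 0 • l' = x 0 • (D l.1, D l.2) + x 1 • mv G l)
    (r₁ r₂ : ℕ) (p q p' q' : K) (hdet : p * q' - q * p' ≠ 0)
    (g1 : G 0 0 * p + G 0 1 * q = -(r₁ : K) * p) (g2 : G 1 0 * p + G 1 1 * q = -(r₁ : K) * q)
    (g3 : G 0 0 * p' + G 0 1 * q' = -(r₂ : K) * p')
    (g4 : G 1 0 * p' + G 1 1 * q' = -(r₂ : K) * q') :
    ∀ l ∈ L, ∃ a b : S, l = a • (p • x 0 ^ r₁, q • x 0 ^ r₁) + b • (p' • x 0 ^ r₂, q' • x 0 ^ r₂) := by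
  intro l hl
  obtain ⟨t, ht⟩ : ∃ t : K, t * (p * q' - q * p') = 1 := ⟨_, inv_mul_cancel₀ hdet⟩
  have m1 : q' * G 0 0 + (-p') * G 1 0 = -(r₁ : K) * q' := by
    refine mul_left_cancel₀ hdet ?_
    linear_combination q' * (q' * g1 - q * g3) - p' * (q' * g2 - q * g4)
  have m2 : q' * G 0 1 + (-p') * G 1 1 = -(r₁ : K) * (-p') := by
    refine mul_left_cancel₀ hdet ?_
    linear_combination q' * (p * g3 - p' * g1) - p' * (p * g4 - p' * g2)
  have m3 : (-q) * G 0 0 + p * G 1 0 = -(r₂ : K) * (-q) := by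
    refine mul_left_cancel₀ hdet ?_
    linear_combination (-q) * (q' * g1 - q * g3) + p * (q' * g2 - q * g4)
  have m4 : (-q) * G 0 1 + p * G 1 1 = -(r₂ : K) * p := by
    refine mul_left_cancel₀ hdet ?_
    linear_combination (-q) * (p * g3 - p' * g1) + p * (p * g4 - p' * g2)
  obtain ⟨a, ha⟩ := P3c_dvd hx hD0 G L hL r₁ q' (-p') m1 m2 r₁ le_rfl l hl
  obtain ⟨b, hb⟩ := P3c_dvd hx hD0 G L hL r₂ (-q) p m3 m4 r₂ le_rfl l hl
  refine ⟨t • a, t • b, ?_⟩
  have ht' := congrArg (algebraMap K S) ht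
  simp only [map_mul, map_sub, map_one] at ht'
  simp only [Algebra.smul_def, map_neg] at ha hb
  refine Prod.ext ?_ ?_
  · show l.1 = (t • a) * (p • x 0 ^ r₁) + (t • b) * (p' • x 0 ^ r₂)
    simp only [Algebra.smul_def]
    linear_combination (-l.1) * ht' + (algebraMap K S t * algebraMap K S p) * ha +
      (algebraMap K S t * algebraMap K S p') * hb
  · show l.2 = (t • a) * (q • x 0 ^ r₁) + (t • b) * (q' • x 0 ^ r₂)
    simp only [Algebra.smul_def]
    linear_combination (-l.2) * ht' + (algebraMap K S t * algebraMap K S q) * ha +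
      (algebraMap K S t * algebraMap K S q') * hb

theorem frame_pow (hx : Coord K x) (hD0 : D (x 0) = x 1) (hD1 : D (x 1) = x 2)
    (hD2 : D (x 2) = 0) (G : Matrix (Fin 2) (Fin 2) K) (L : Submodule S (S × S))
    (hL : ∀ l ∈ L, ∃ l' ∈ L, x 0 • l' = x 0 • (D l.1, D l.2) + x 1 • mv G l)
    (N : ℕ) (hN : ∀ v : S × S, x 0 ^ N • v ∈ L) (r : ℕ) (p q : K)
    (g1 : G 0 0 * p + G 0 1 * q = -(r : K) * p) (g2 : G 1 0 * p + G 1 1 * q = -(r : K) * q)
    (i : Fin 3) : ∃ N' : ℕ, x i ^ N' • (p • x 0 ^ r, q • x 0 ^ r) ∈ L := by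
  have := hx.isDomain
  obtain ⟨v, hv⟩ : ∃ v : S × S, v = (p • x 0 ^ r, q • x 0 ^ r) := ⟨_, rfl⟩
  rw [← hv]
  let I : Ideal S := L.comap (LinearMap.toSpanSingleton S (S × S) v)
  have hI : ∀ s, s ∈ I ↔ s • v ∈ L := fun s => Iff.rfl
  have hID : ∀ s ∈ I, D s ∈ I := by
    intro s hs
    rw [hI] at hs ⊢
    obtain ⟨l', hl', he⟩ := hL _ hs
    have hpw := P3c_pow (D := D) hD0 r
    have e1 : l' = D s • v := by
      have h1 : x 0 * l'.1 = x 0 * (D s • v).1 := by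
        rw [hv] at he ⊢
        have this : x 0 * l'.1 = x 0 * D (s * (p • x 0 ^ r)) +
            x 1 * (G 0 0 • (s * (p • x 0 ^ r)) + G 0 1 • (s * (q • x 0 ^ r))) :=
          congrArg Prod.fst he
        show x 0 * l'.1 = x 0 * (D s * (p • x 0 ^ r))
        simp only [Derivation.leibniz, Derivation.map_algebraMap, smul_eq_mul, mul_zero, add_zero,
          Algebra.smul_def] at this ⊢
        have d1 := congrArg (algebraMap K S) g1
        simp only [map_add, map_mul, map_neg, map_natCast] at d1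
        rw [this]
        linear_combination (s * algebraMap K S p) * hpw + (s * x 1 * x 0 ^ r) * d1
      have h2 : x 0 * l'.2 = x 0 * (D s • v).2 := by
        rw [hv] at he ⊢
        have this : x 0 * l'.2 = x 0 * D (s * (q • x 0 ^ r)) +
            x 1 * (G 1 0 • (s * (p • x 0 ^ r)) + G 1 1 • (s * (q • x 0 ^ r))) :=
          congrArg Prod.snd he
        show x 0 * l'.2 = x 0 * (D s * (q • x 0 ^ r))
        simp only [Derivation.leibniz, Derivation.map_algebraMap, smul_eq_mul, mul_zero, add_zero,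
          Algebra.smul_def] at this ⊢
        have d1 := congrArg (algebraMap K S) g2
        simp only [map_add, map_mul, map_neg, map_natCast] at d1
        rw [this]
        linear_combination (s * algebraMap K S q) * hpw + (s * x 1 * x 0 ^ r) * d1
      exact Prod.ext (mul_left_cancel₀ (a1_ne_zero hx 0) h1)
        (mul_left_cancel₀ (a1_ne_zero hx 0) h2)
    rw [← e1]
    exact hl'
  have h0 : x 0 ∈ I.radical := ⟨N, hN v⟩
  have h1 : x 1 ∈ I.radical := by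
    rw [← hD0]
    exact rad_der I hID _ h0
  have h2 : x 2 ∈ I.radical := by
    rw [← hD1]
    exact rad_der I hID _ h1
  have hi : x i ∈ I.radical := by
    fin_cases i
    · exact h0
    · exact h1
    · exact h2
  obtain ⟨N', hN'⟩ := hi
  exact ⟨N', hN'⟩

end

end Pool.Agent.Lib.MP_745d3a_ag.PF.GA

end

section

/-!
The plane theorem.

`wt3` gives `H`. `exists_lc` for the prime `p0 = Ideal.span (x '' {0}ᶜ)` (`isPrime_span`,
`mem_span`), `c = 0`. `delta_lead` gives `G`. Put `η = shp H 0 0`, `ε' = shp E (n - t) (n - t)`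
(then `ε' (φ₁ m, φ₂ m) = (φ₁ (ε m), φ₂ (ε m))` by `hom₁`, `hom₂`), `N = range (φ₁.prod φ₂)`,
`L = M0 η N`. `hL` of `frame_sub`: for `l ∈ L` every component `comp η k l` is a leading form
(`M0_comp`), so `delta_lead` gives `l'_k` (a leading form, so in `L`) for it; `l` is the sum of its
components (`exists_comp`) and everything is additive. `start_lead` gives `N`. With `prod_G`,
`eig_G`: `f1 = (p • x 0 ^ r₁, q • x 0 ^ r₁)`, `f2` similarly, `F = span {f1, f2}`;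
`ε' f1 = (r₁ + n - t) • f1`, `η f1 = 0`; `F` is stable under `ε'`, `η` (`conn_shp`). `hLF`:
`frame_sub`; independence of `f1`, `f2`: the determinant is `(p q' - q p') x0 ^ (r₁ + r₂) ≠ 0`.
`big` (`hpow` from `frame_pow`, common exponent), `lift` with the coordinates `0, 1, 2`
(`Nht`: the map `(φ₁, φ₂)` is injective by `sp` and `bun.tf` (`s ≠ 0`), so from
`x1 • (φ m0) = x0 • (φ m1)` one gets `x1 • m0 = x0 • m1`, and `bun.ht`), `gen`: `N` is generated by
`y1 = φ g1`, `y2 = φ g2`, so `M` is generated by `g1`, `g2`.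
-/

set_option autoImplicit false
set_option linter.unusedSectionVars false
set_option linter.unusedSimpArgs false
set_option linter.unusedVariables false

open MvPolynomial

namespace Pool.Agent.Lib.MP_745d3a_ag.PF.GA

section

variable {K S M : Type*} [Field K] [CharZero K] [CommRing S] [Algebra K S] {x : Fin 3 → S}
  {E D : Derivation K S S} [AddCommGroup M] [Module K M] [Module S M]
  [IsScalarTower K S M] {ε δ : M →ₗ[K] M}

omit [CharZero K] in
private lemma P4_mv_sum (G : Matrix (Fin 2) (Fin 2) K) {α : Type*} (s : Finset α)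
    (f : α → S × S) : mv G (∑ a ∈ s, f a) = ∑ a ∈ s, mv G (f a) := by
  classical
  induction s using Finset.induction_on with
  | empty => simp [mv]
  | insert a s ha ih =>
    rw [Finset.sum_insert ha, Finset.sum_insert ha, ← ih]
    simp only [mv, Prod.fst_add, Prod.snd_add, smul_add, Prod.mk_add_mk]
    ext
    · simp only; abel
    · simp only; abel

omit [CharZero K] in
private lemma P4_D_sum (D : Derivation K S S) {α : Type*} (s : Finset α)
    (f : α → S × S) : (D (∑ a ∈ s, f a).1, D (∑ a ∈ s, f a).2) =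
      ∑ a ∈ s, (D (f a).1, D (f a).2) := by
  classical
  induction s using Finset.induction_on with
  | empty => simp
  | insert a s ha ih =>
    rw [Finset.sum_insert ha, Finset.sum_insert ha, ← ih]
    simp only [Prod.fst_add, Prod.snd_add, map_add, Prod.mk_add_mk]

omit [CharZero K] in
private lemma P4_pow {A : Derivation K S S} {y : S} {c : ℤ} (hy : A y = (c : K) • y) (r : ℕ) :
    A (y ^ r) = (((r : ℤ) * c : ℤ) : K) • y ^ r := by
  induction r with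
  | zero => simp
  | succ r ih =>
    rw [pow_succ, Derivation.leibniz, hy, ih]
    simp only [smul_eq_mul, Algebra.smul_def, map_intCast]
    push_cast
    ring

omit [CharZero K] in
private lemma P4_eig {A : Derivation K S S} {y : S} {c : ℤ} (hy : A y = (c : K) • y) (r : ℕ)
    (l : ℤ) (p q : K) : shp (A : S →ₗ[K] S) l l (p • y ^ r, q • y ^ r) =
      (((r : ℤ) * c + l : ℤ) : K) • (p • y ^ r, q • y ^ r) := by
  have h := P4_pow hy r
  rw [shp_apply]
  ext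
  · show A (p • y ^ r) + (l : K) • p • y ^ r = (((r : ℤ) * c + l : ℤ) : K) • p • y ^ r
    rw [A.map_smul, h]
    simp only [Algebra.smul_def, map_intCast]
    push_cast
    ring
  · show A (q • y ^ r) + (l : K) • q • y ^ r = (((r : ℤ) * c + l : ℤ) : K) • q • y ^ r
    rw [A.map_smul, h]
    simp only [Algebra.smul_def, map_intCast]
    push_cast
    ring

theorem plane (h : Sys x E D ε δ) (hD0 : D (x 0) = x 1) (hD1 : D (x 1) = x 2)
    (hD2 : D (x 2) = 0)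
    (hv : ∀ (θ : M →ₗ[S] S) (m : M), θ (δ m) ∈ Ideal.span (x '' {0}ᶜ)) : Gen2 S M := by
  classical
  have dom := h.cx.isDomain
  obtain ⟨H, hb⟩ := wt3 h.cx h.eu
  have hp0 : (Ideal.span (x '' ({0}ᶜ : Set (Fin 3)))).IsPrime := h.cx.isPrime_span _
  have hx0 : x 0 ∉ Ideal.span (x '' ({0}ᶜ : Set (Fin 3))) := by
    rw [h.cx.mem_span]; simp
  obtain ⟨e₁, e₂, n, t, s, φ₁, φ₂, L, hs⟩ := exists_lc h.cx h.eu h.cE h.dg h.bun _ hp0 0 hx0
  obtain ⟨G, hG⟩ := delta_lead hb hD0 hD1 hD2 h.bun.tf h.cD h.comm L hs hv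
  obtain ⟨N0, hN0⟩ := start_lead hb L hs
  have hs0 : s ≠ 0 := fun h0 => hs (h0 ▸ Ideal.zero_mem _)
  have hV : GMod x w3 E H (shp (E : S →ₗ[K] S) (n - t) (n - t)) (shp (H : S →ₗ[K] S) 0 0) :=
    gmod_pair hb (n - t) (n - t) 0 0
  have hφ : ∀ m, (φ₁.prod φ₂) m = (φ₁ m, φ₂ m) := fun m => rfl
  have hεφ : ∀ m, shp (E : S →ₗ[K] S) (n - t) (n - t) ((φ₁.prod φ₂) m) = (φ₁.prod φ₂) (ε m) := by
    intro m
    rw [hφ, hφ, shp_apply]
    ext
    · show E (φ₁ m) + ((n - t : ℤ) : K) • φ₁ m = φ₁ (ε m)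
      rw [L.hom₁, add_assoc, ← add_smul]
      push_cast
      rw [show ((t : K) - n + (n - t)) = 0 by ring, zero_smul, add_zero]
    · show E (φ₂ m) + ((n - t : ℤ) : K) • φ₂ m = φ₂ (ε m)
      rw [L.hom₂, add_assoc, ← add_smul]
      push_cast
      rw [show ((t : K) - n + (n - t)) = 0 by ring, zero_smul, add_zero]
  have hinj : Function.Injective (φ₁.prod φ₂) := by
    rw [← LinearMap.ker_eq_bot, LinearMap.ker_eq_bot']
    intro m hm
    rw [hφ, Prod.mk_eq_zero] at hm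
    have h1 := L.sp m
    rw [hm.1, hm.2, zero_smul, zero_smul, add_zero] at h1
    exact (h.bun.tf s m h1).resolve_left hs0
  -- the frame
  have hL : ∀ l ∈ M0 (shp (H : S →ₗ[K] S) 0 0) (LinearMap.range (φ₁.prod φ₂)),
      ∃ l' ∈ M0 (shp (H : S →ₗ[K] S) 0 0) (LinearMap.range (φ₁.prod φ₂)),
        x 0 • l' = x 0 • (D l.1, D l.2) + x 1 • mv G l := by
    intro l hl
    have key : ∀ k : ℤ, ∃ l' ∈ M0 (shp (H : S →ₗ[K] S) 0 0) (LinearMap.range (φ₁.prod φ₂)),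
        x 0 • l' = x 0 • (D (comp (shp (H : S →ₗ[K] S) 0 0) k l).1,
          D (comp (shp (H : S →ₗ[K] S) 0 0) k l).2) +
          x 1 • mv G (comp (shp (H : S →ₗ[K] S) 0 0) k l) := by
      intro k
      obtain ⟨y, ⟨m, rfl⟩, hfl, hc⟩ := M0_comp hV hl k
      rw [hφ] at hfl hc
      obtain ⟨h1, h2⟩ := hG k m hfl
      rw [hc] at h2
      exact ⟨_, Ld.mem_M0 (y := (φ₁ (δ m), φ₂ (δ m))) ⟨⟨δ m, rfl⟩, h1, rfl⟩, h2⟩
    choose l' hl' hl'' using key
    obtain ⟨T, hT, _⟩ := exists_comp hV.dH l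
    refine ⟨∑ k ∈ T, l' k, Submodule.sum_mem _ fun k _ => hl' k, ?_⟩
    rw [Finset.smul_sum, Finset.sum_congr rfl fun k _ => hl'' k, Finset.sum_add_distrib,
      ← Finset.smul_sum, ← Finset.smul_sum, ← P4_D_sum D T, ← P4_mv_sum G T, ← hT]
  have hprod := prod_G h.cx hD0 hD1 hD2 G _ hL N0 hN0
  obtain ⟨r₁, r₂, p, q, p', q', hdet, g1, g2, g3, g4⟩ := eig_G G N0 hprod
  have hsub := frame_sub h.cx hD0 hD1 hD2 G _ hL r₁ r₂ p q p' q' hdet g1 g2 g3 g4
  have hpw1 := fun i => frame_pow h.cx hD0 hD1 hD2 G _ hL N0 hN0 r₁ p q g1 g2 i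
  have hpw2 := fun i => frame_pow h.cx hD0 hD1 hD2 G _ hL N0 hN0 r₂ p' q' g3 g4 i
  have hE0 : E (x 0) = ((1 : ℤ) : K) • x 0 := by rw [h.eu 0, Int.cast_one, one_smul]
  have hH0 : H (x 0) = ((0 : ℤ) : K) • x 0 := by
    rw [hb.wt 0]; rfl
  have e1 := P4_eig hE0 r₁ (n - t) p q
  have e2 := P4_eig hE0 r₂ (n - t) p' q'
  have k1 : shp (H : S →ₗ[K] S) 0 0 (p • x 0 ^ r₁, q • x 0 ^ r₁) =
      ((0 : ℤ) : K) • (p • x 0 ^ r₁, q • x 0 ^ r₁) := by
    have := P4_eig hH0 r₁ 0 p q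
    rwa [mul_zero, add_zero] at this
  have k2 : shp (H : S →ₗ[K] S) 0 0 (p' • x 0 ^ r₂, q' • x 0 ^ r₂) =
      ((0 : ℤ) : K) • (p' • x 0 ^ r₂, q' • x 0 ^ r₂) := by
    have := P4_eig hH0 r₂ 0 p' q'
    rwa [mul_zero, add_zero] at this
  generalize hn1 : ((r₁ : ℤ) * 1 + (n - t) : ℤ) = n1 at e1
  generalize hn2 : ((r₂ : ℤ) * 1 + (n - t) : ℤ) = n2 at e2
  have hind : ∀ a b : S, a • (p • x 0 ^ r₁, q • x 0 ^ r₁) + b • (p' • x 0 ^ r₂, q' • x 0 ^ r₂) = 0 →
      a = 0 ∧ b = 0 := by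
    intro a b hab
    have h1 : a * (p • x 0 ^ r₁) + b * (p' • x 0 ^ r₂) = 0 := congrArg Prod.fst hab
    have h2 : a * (q • x 0 ^ r₁) + b * (q' • x 0 ^ r₂) = 0 := congrArg Prod.snd hab
    have hd0 : algebraMap K S (p * q' - q * p') ≠ 0 := by
      rw [Ne, map_eq_zero_iff _ (algebraMap K S).injective]
      exact hdet
    have hpw : ∀ r : ℕ, x 0 ^ r ≠ 0 := fun r => pow_ne_zero _ (h.cx.prime_x 0).ne_zero
    rw [Algebra.smul_def, Algebra.smul_def] at h1 h2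
    have h3 : a * (algebraMap K S (p * q' - q * p') * x 0 ^ r₁) = 0 := by
      rw [map_sub, map_mul, map_mul]
      linear_combination algebraMap K S q' * h1 - algebraMap K S p' * h2
    have h4 : b * (algebraMap K S (p * q' - q * p') * x 0 ^ r₂) = 0 := by
      rw [map_sub, map_mul, map_mul]
      linear_combination algebraMap K S p * h2 - algebraMap K S q * h1
    exact ⟨(mul_eq_zero.mp h3).resolve_right (mul_ne_zero hd0 (hpw _)),
      (mul_eq_zero.mp h4).resolve_right (mul_ne_zero hd0 (hpw _))⟩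
  generalize (p • x 0 ^ r₁, q • x 0 ^ r₁) = f1 at hsub hpw1 e1 k1 hind
  generalize (p' • x 0 ^ r₂, q' • x 0 ^ r₂) = f2 at hsub hpw2 e2 k2 hind
  have hF : ∀ v : S × S, v ∈ Submodule.span S ({f1, f2} : Set (S × S)) ↔
      ∃ a b : S, v = a • f1 + b • f2 := by
    intro v
    rw [Submodule.mem_span_pair]
    constructor
    · rintro ⟨a, b, hab⟩; exact ⟨a, b, hab.symm⟩
    · rintro ⟨a, b, hab⟩; exact ⟨a, b, hab.symm⟩
  have hF1 : f1 ∈ Submodule.span S ({f1, f2} : Set (S × S)) :=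
    Submodule.subset_span (by simp)
  have hF2 : f2 ∈ Submodule.span S ({f1, f2} : Set (S × S)) :=
    Submodule.subset_span (by simp)
  have hKF : ∀ (c : K) (v : S × S), v ∈ Submodule.span S ({f1, f2} : Set (S × S)) →
      c • v ∈ Submodule.span S ({f1, f2} : Set (S × S)) := by
    intro c v hv'
    rw [← algebraMap_smul S c v]
    exact Submodule.smul_mem _ _ hv'
  have Fst : ∀ {A : Derivation K S S} {T : (S × S) →ₗ[K] (S × S)}, IsConn A T →
      ∀ {l l' : ℤ}, T f1 = (l : K) • f1 → T f2 = (l' : K) • f2 →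
      ∀ v ∈ Submodule.span S ({f1, f2} : Set (S × S)),
        T v ∈ Submodule.span S ({f1, f2} : Set (S × S)) := by
    intro A T hT l l' h1 h2 v hv'
    obtain ⟨a, b, rfl⟩ := (hF v).mp hv'
    rw [map_add, hT, hT, h1, h2]
    exact Submodule.add_mem _
      (Submodule.add_mem _ (Submodule.smul_mem _ _ hF1) (Submodule.smul_mem _ _ (hKF _ _ hF1)))
      (Submodule.add_mem _ (Submodule.smul_mem _ _ hF2) (Submodule.smul_mem _ _ (hKF _ _ hF2)))
  have Fε := Fst hV.cE e1 e2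
  have Fη := Fst hV.cH k1 k2
  have hLF : ∀ k y c, Ld (shp (H : S →ₗ[K] S) 0 0) (LinearMap.range (φ₁.prod φ₂)) k y c →
      c ∈ Submodule.span S ({f1, f2} : Set (S × S)) := fun k y c hc =>
    (hF c).mpr (hsub c hc.mem_M0)
  have hpow : ∀ i, ∃ N' : ℕ,
      x i ^ N' • f1 ∈ M0 (shp (H : S →ₗ[K] S) 0 0) (LinearMap.range (φ₁.prod φ₂)) ∧
      x i ^ N' • f2 ∈ M0 (shp (H : S →ₗ[K] S) 0 0) (LinearMap.range (φ₁.prod φ₂)) := by
    intro i
    obtain ⟨N1, hN1⟩ := hpw1 i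
    obtain ⟨N2, hN2⟩ := hpw2 i
    refine ⟨N1 + N2, ?_, ?_⟩
    · rw [add_comm, pow_add, mul_smul]; exact Submodule.smul_mem _ _ hN1
    · rw [pow_add, mul_smul]; exact Submodule.smul_mem _ _ hN2
  have Nε : ∀ y ∈ LinearMap.range (φ₁.prod φ₂),
      shp (E : S →ₗ[K] S) (n - t) (n - t) y ∈ LinearMap.range (φ₁.prod φ₂) := by
    rintro _ ⟨m, rfl⟩
    rw [hεφ]
    exact ⟨_, rfl⟩
  have Nht : ∀ y0 ∈ LinearMap.range (φ₁.prod φ₂), ∀ y1 ∈ LinearMap.range (φ₁.prod φ₂),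
      x 1 • y0 = x 0 • y1 →
      ∃ y ∈ LinearMap.range (φ₁.prod φ₂), y0 = x 0 • y ∧ y1 = x 1 • y := by
    rintro _ ⟨m0, rfl⟩ _ ⟨m1, rfl⟩ hm
    rw [← map_smul, ← map_smul] at hm
    have hm' := hinj hm
    have hrel : IsRelPrime (x 1) (x 0) := by
      have := h.cx.relPrime_pow (show (1 : Fin 3) ≠ 0 by decide) 1 1
      rwa [pow_one, pow_one] at this
    obtain ⟨k, hk⟩ := h.bun.ht _ _ hrel _ _ hm'
    refine ⟨(φ₁.prod φ₂) k, ⟨k, rfl⟩, by rw [hk, map_smul], ?_⟩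
    rw [← map_smul]
    congr 1
    have h3 : x 0 • (m1 - x 1 • k) = 0 := by
      rw [smul_sub, ← hm', hk, smul_comm, sub_self]
    exact sub_eq_zero.mp ((h.bun.tf _ _ h3).resolve_left (h.cx.prime_x 0).ne_zero)
  have bd := bd_pair hb (n - t) (n - t) 0 0
  have hbig := big hV (LinearMap.range (φ₁.prod φ₂)) _ f1 f2 hF n1 n2 e1 e2 hpow
  obtain ⟨y1, hy1, hy1'⟩ := lift hV (show (0 : Fin 3) ≠ 1 by decide) (show (0 : Fin 3) ≠ 2 by decide)
    (show (1 : Fin 3) ≠ 2 by decide) bd _ _ Nε Nht hLF Fε Fη f1 f2 hF hind hbig n1 0 f1 hF1 e1 k1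
  obtain ⟨y2, hy2, hy2'⟩ := lift hV (show (0 : Fin 3) ≠ 1 by decide) (show (0 : Fin 3) ≠ 2 by decide)
    (show (1 : Fin 3) ≠ 2 by decide) bd _ _ Nε Nht hLF Fε Fη f1 f2 hF hind hbig n2 0 f2 hF2 e2 k2
  have hgen := gen hV bd (top_pair hb 0 0) _ _ Nε hLF f1 f2 hF n1 0 n2 0 e1 k1 e2 k2 y1 y2 hy1 hy2
    hy1' hy2'
  obtain ⟨⟨m1, hm1⟩, -, -⟩ := hy1
  obtain ⟨⟨m2, hm2⟩, -, -⟩ := hy2
  refine ⟨m1, m2, fun m => ?_⟩
  obtain ⟨a, b, hab⟩ := hgen _ ⟨m, rfl⟩
  refine ⟨a, b, hinj ?_⟩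
  rw [hab, map_add, map_smul, map_smul, hm1, hm2]

end

end Pool.Agent.Lib.MP_745d3a_ag.PF.GA

end
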