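import Pool.Agent.Lib.MP_745d3a_ag.NV.Defs
import Pool.Agent.Lib.MP_745d3a_ag.NV.Plane

section

/-!
Vanishing of the linear part of a connection at a point, and duality.

`Van p δ`: all functionals map `δ M` into `p`; `p` is the ideal of a coordinate point.

* `van_dual`: let `θ : M →ₗ[S] S'`, `Θ : (M →ₗ[S] S') →ₗ[S'] S'`, `p' = Ideal.span (x' '' {i}ᶜ)`,
  `p = Ideal.span (x '' {f i}ᶜ)`. `a ∈ p ↔ algebraMap S S' a ∈ p'` (`RS.comap_span`, `p2_compl` in
  PFCase.lean, or directly). `Bun.local` for `M` at `p` (prime: `isPrime_span`; `x (f i) ∉ p`: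
  `mem_span`): `s ∉ p`, `s • m = θ₁ m • m₁ + θ₂ m • m₂`. For every functional `η : M →ₗ[S] S'`:
  `s̄ * η m = θ̄₁ m * η m₁ + θ̄₂ m * η m₂`, i.e. `s̄ • η = η m₁ • θ̄₁ + η m₂ • θ̄₂` with
  `θ̄ = algebraMap ∘ θ`. Hence `η (δ m) ∈ p'` for all `m` (since `θ₁ (δ m), θ₂ (δ m) ∈ p` and
  `s̄ ∉ p'`), and `s̄ * Θ (dconn θ) = (dconn θ) m₁ * Θ θ̄₁ + (dconn θ) m₂ * Θ θ̄₂` with
  `(dconn θ) m = D' (θ m) - θ (δ m) ∈ p'` (`hD'`). So `Θ (dconn θ) ∈ p'`.
* `van_undual`: let `θ : M →ₗ[S] S`, `m : M`, `θ̄ = algebraMap ∘ θ`; the evaluation at `m` is a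
  functional on `M →ₗ[S] S'`, so `D' (θ̄ m) - θ̄ (δ m) ∈ p'`, and `D' (θ̄ m) ∈ p'`; hence
  `algebraMap (θ (δ m)) ∈ p'` and `θ (δ m) ∈ p`.
-/

set_option autoImplicit false
set_option linter.unusedSectionVars false
set_option linter.unusedSimpArgs false
set_option linter.unusedVariables false

open MvPolynomial

namespace Pool.Agent.Lib.MP_745d3a_ag.PF.GA

/-- The functionals map `δ M` into `p`. -/
def Van {K S M : Type*} [Field K] [CommRing S] [AddCommGroup M] [Module K M] [Module S M]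
    (p : Ideal S) (δ : M →ₗ[K] M) : Prop := ∀ (θ : M →ₗ[S] S) (m : M), θ (δ m) ∈ p

section

variable {K S S' ι ι' M : Type*} [Field K] [CharZero K] [CommRing S] [Algebra K S]
  [CommRing S'] [Algebra K S'] [Algebra S S'] [IsScalarTower K S S'] {x : ι → S} {j : ι}
  {f : ι' → ι} {x' : ι' → S'} [AddCommGroup M] [Module K M] [Module S M] [IsScalarTower K S M]
  {D : Derivation K S S} {D' : Derivation K S' S'} {δ : M →ₗ[K] M}

omit [CharZero K] in
private lemma q1_mem (hr : RS x j f x') (i : ι') (a : S) :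
    algebraMap S S' a ∈ Ideal.span (x' '' {i}ᶜ) ↔ a ∈ Ideal.span (x '' {f i}ᶜ) := by
  rw [hr.comap_span, p2_compl hr, Set.image_singleton]

omit [CharZero K] in
private lemma q1_local (hx : Coord K x) (hM : Bun x M) (hr : RS x j f x') (i : ι') :
    ∃ s : S, algebraMap S S' s ∉ Ideal.span (x' '' {i}ᶜ) ∧ ∃ (m₁ m₂ : M) (θ₁ θ₂ : M →ₗ[S] S),
      ∀ (η : M →ₗ[S] S') (m : M), algebraMap S S' s * η m =
        η m₁ * algebraMap S S' (θ₁ m) + η m₂ * algebraMap S S' (θ₂ m) := by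
  obtain ⟨s, hs, m₁, m₂, θ₁, θ₂, hθ, -⟩ := Bun.local hx hM (Ideal.span (x '' {f i}ᶜ))
    (hx.isPrime_span _) ⟨f i, by rw [hx.mem_span]; simp⟩
  refine ⟨s, by rwa [q1_mem hr], m₁, m₂, θ₁, θ₂, fun η m => ?_⟩
  have h := congrArg η (hθ m)
  rw [map_smul, map_add, map_smul, map_smul, Algebra.smul_def, Algebra.smul_def,
    Algebra.smul_def] at h
  rw [h]
  ring

theorem van_dual (hx : Coord K x) (hM : Bun x M) (hr : RS x j f x')
    (hD : ∀ a, D' (algebraMap S S' a) = algebraMap S S' (D a)) (hδ : IsConn D δ) (i : ι')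
    (hD' : ∀ a, D' a ∈ Ideal.span (x' '' {i}ᶜ))
    (hv : Van (Ideal.span (x '' {f i}ᶜ)) δ) :
    Van (Ideal.span (x' '' {i}ᶜ)) (dconn hD hδ) := by
  have hp' : (Ideal.span (x' '' {i}ᶜ)).IsPrime := (RS.coord hr hx).isPrime_span _
  obtain ⟨s, hs, m₁, m₂, θ₁, θ₂, key⟩ := q1_local hx hM hr i
  have hmem : ∀ a, a ∈ Ideal.span (x '' {f i}ᶜ) →
      algebraMap S S' a ∈ Ideal.span (x' '' {i}ᶜ) := fun a ha => (q1_mem hr i a).2 ha
  have h1 : ∀ (η : M →ₗ[S] S') (m : M), η (δ m) ∈ Ideal.span (x' '' {i}ᶜ) := by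
    intro η m
    refine (hp'.mem_or_mem ?_).resolve_left hs
    rw [key η (δ m)]
    exact Ideal.add_mem _ (Ideal.mul_mem_left _ _ (hmem _ (hv θ₁ m)))
      (Ideal.mul_mem_left _ _ (hmem _ (hv θ₂ m)))
  have h2 : ∀ (θ : M →ₗ[S] S') (m : M), dconn hD hδ θ m ∈ Ideal.span (x' '' {i}ᶜ) := by
    intro θ m
    rw [dconn_apply]
    exact Ideal.sub_mem _ (hD' _) (h1 θ m)
  intro Θ θ
  refine (hp'.mem_or_mem ?_).resolve_left hs
  have h3 : (algebraMap S S' s) • (dconn hD hδ θ) =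
      (dconn hD hδ θ m₁) • ((Algebra.linearMap S S').comp θ₁) +
        (dconn hD hδ θ m₂) • ((Algebra.linearMap S S').comp θ₂) := by
    ext m
    rw [LinearMap.smul_apply, LinearMap.add_apply, LinearMap.smul_apply, LinearMap.smul_apply,
      smul_eq_mul, smul_eq_mul, smul_eq_mul, key (dconn hD hδ θ) m]
    rfl
  have h4 : algebraMap S S' s * Θ (dconn hD hδ θ) =
      dconn hD hδ θ m₁ * Θ ((Algebra.linearMap S S').comp θ₁) +
        dconn hD hδ θ m₂ * Θ ((Algebra.linearMap S S').comp θ₂) := by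
    rw [← smul_eq_mul, ← map_smul, h3, map_add, map_smul, map_smul, smul_eq_mul, smul_eq_mul]
  rw [h4]
  exact Ideal.add_mem _ (Ideal.mul_mem_right _ _ (h2 θ m₁)) (Ideal.mul_mem_right _ _ (h2 θ m₂))

theorem van_undual (hx : Coord K x) (hM : Bun x M) (hr : RS x j f x')
    (hD : ∀ a, D' (algebraMap S S' a) = algebraMap S S' (D a)) (hδ : IsConn D δ) (i : ι')
    (hD' : ∀ a, D' a ∈ Ideal.span (x' '' {i}ᶜ))
    (hv : Van (Ideal.span (x' '' {i}ᶜ)) (dconn hD hδ)) :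
    Van (Ideal.span (x '' {f i}ᶜ)) δ := by
  intro θ m
  rw [← q1_mem hr i]
  let ev : (M →ₗ[S] S') →ₗ[S'] S' :=
    { toFun := fun η => η m
      map_add' := fun _ _ => rfl
      map_smul' := fun _ _ => rfl }
  have h := hv ev ((Algebra.linearMap S S').comp θ)
  have h1 : ev (dconn hD hδ ((Algebra.linearMap S S').comp θ)) =
      D' (algebraMap S S' (θ m)) - algebraMap S S' (θ (δ m)) := rfl
  rw [h1] at h
  have h2 := Ideal.sub_mem _ (hD' (algebraMap S S' (θ m))) h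
  rwa [sub_sub_cancel] at h2

end

end Pool.Agent.Lib.MP_745d3a_ag.PF.GA

end

section

/-!
The exceptional functional of `caseTwo4` (PFCase.lean) forces the linear part of the connection to
vanish at the point.

Notation: `φ = sh δ μ`, a connection along `D`; `P = Ideal.span (x '' {f i₀'}ᶜ)`,
`P' = Ideal.span (x' '' {i₀'}ᶜ)`, `bar = algebraMap S S'`; `a ∈ P ↔ bar a ∈ P'`
(`RS.comap_span`, `p2_compl`). `D a ∈ P` for all `a`: `D = x j • Δ` (`p2_der` in PFCase.lean) and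
`x j ∈ P`. `Bun.local` at `P`: `s ∉ P`, `m₁ m₂ θ₁ θ₂`. Put `e_k = e m_k ∈ P'` (`h5`), and
`N_lk = bar (θ_l (φ m_k))`. From `s • φ m_k = θ₁ (φ m_k) • m₁ + θ₂ (φ m_k) • m₂` and `e (φ m_k) = 0`:
`N_1k * e_1 + N_2k * e_2 = 0`. `(e_1, e_2) ≠ (0, 0)`: otherwise `bar s * e m = 0` for all `m`
and `e = 0`. `UniqueFactorizationMonoid.exists_reduced_factors` (as in `cyclic` in PFAlg.lean):
`e_1 = h * e_1'`, `e_2 = h * e_2'` with `e_1'`, `e_2'` relatively prime, `h ≠ 0`.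
Claim `h ∉ P'`: otherwise there is a prime element `π ∣ h` in `P'` (`h` is not a unit; write it as a
product of primes); `π` divides `bar s * e m` for all `m`, and not `bar s ∉ P'`, so `e = π • θ`
for a functional `θ : M →ₗ[S] S'` (choose the quotients, linear because `S'` is a domain: see
`Q_div` in PFCase.lean); `θ (φ m) = 0` (cancel `π`), so `θ = c • e` (`h4`), `e = (π * c) • e` and
`π * c = 1` (`e ≠ 0`), a contradiction. So `e_1', e_2' ∈ P'` (`P'` prime), and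
`N_1k * e_1' = - N_2k * e_2'` gives `e_2' ∣ N_1k`, `e_1' ∣ N_2k` (`IsRelPrime`), so `N_lk ∈ P'`
and `θ_l (φ m_k) ∈ P`. For any functional `θ : M →ₗ[S] S`: `s * θ (φ m_k) ∈ P`, so
`θ (φ m_k) ∈ P`; and applying `φ` to `s • m = θ₁ m • m₁ + θ₂ m • m₂`:
`D s • m + s • φ m = ∑ (D (θ_k m) • m_k + θ_k m • φ m_k)`, so `s * θ (φ m) ∈ P` and `θ (φ m) ∈ P`.
-/

set_option autoImplicit false
set_option linter.unusedSectionVars false
set_option linter.unusedSimpArgs false
set_option linter.unusedVariables false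

open MvPolynomial

namespace Pool.Agent.Lib.MP_745d3a_ag.PF.GA

section

private lemma Q2_div {S S' M : Type*} [CommRing S] [CommRing S'] [IsDomain S'] [Algebra S S']
    [AddCommGroup M] [Module S M] (p : S') (hp : p ≠ 0) (e : M →ₗ[S] S') (h : ∀ m, p ∣ e m) :
    ∃ θ : M →ₗ[S] S', e = p • θ := by
  choose g hg using h
  refine ⟨{ toFun := g, map_add' := ?_, map_smul' := ?_ }, ?_⟩
  · intro m n
    apply mul_left_cancel₀ hp
    rw [mul_add, ← hg, ← hg, ← hg, map_add]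
  · intro a m
    apply mul_left_cancel₀ hp
    rw [RingHom.id_apply, mul_smul_comm, ← hg, ← hg, map_smul]
  · ext m
    exact hg m

private lemma Q2_prime {S' : Type*} [CommRing S'] [IsDomain S'] [UniqueFactorizationMonoid S']
    (P : Ideal S') (hP : P.IsPrime) (c : S') (h0 : c ≠ 0) (hc : c ∈ P) :
    ∃ p, Prime p ∧ p ∣ c ∧ p ∈ P := by
  obtain ⟨F, hF, hprod⟩ := UniqueFactorizationMonoid.exists_prime_factors c h0
  have h1 : F.prod ∈ P := (Ideal.mem_iff_of_associated hprod).2 hc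
  obtain ⟨p, hpF, hpP⟩ := (hP.multiset_prod_mem_iff_exists_mem F).1 h1
  exact ⟨p, hF p hpF, (Multiset.dvd_prod hpF).trans hprod.dvd, hpP⟩

private lemma Q2_reduced {R : Type*} [CommRing R] [IsDomain R] [UniqueFactorizationMonoid R]
    (a b : R) (h : a ≠ 0 ∨ b ≠ 0) :
    ∃ a' b' c : R, IsRelPrime a' b' ∧ c * a' = a ∧ c * b' = b := by
  rcases h with h | h
  · exact UniqueFactorizationMonoid.exists_reduced_factors a h b
  · exact UniqueFactorizationMonoid.exists_reduced_factors' a b h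

end

section

variable {K S S' ι ι' M : Type*} [Field K] [CharZero K] [CommRing S] [Algebra K S]
  [CommRing S'] [Algebra K S'] [Algebra S S'] [IsScalarTower K S S'] {x : ι → S} {j : ι}
  {f : ι' → ι} {x' : ι' → S'} [AddCommGroup M] [Module K M] [Module S M] [IsScalarTower K S M]
  {E D : Derivation K S S} {ε δ : M →ₗ[K] M}

theorem van_of_exceptional [Finite ι] (h : Sys x E D ε δ) (hr : RS x j f x') (i₀' : ι')
    (hD0 : D (x (f i₀')) = x j) (hD : ∀ i, i ≠ f i₀' → D (x i) = 0) (μ : K) (e : M →ₗ[S] S')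
    (h2 : ∀ m, e (sh δ μ m) = 0) (h3 : e ≠ 0)
    (h4 : ∀ θ : M →ₗ[S] S', (∀ m, θ (sh δ μ m) = 0) → ∃ c : S', θ = c • e)
    (h5 : ∀ m, e m ∈ Ideal.span (x' '' {i₀'}ᶜ)) :
    Van (Ideal.span (x '' {f i₀'}ᶜ)) (sh δ μ) := by
  have hx := h.cx
  have hx' := hr.coord hx
  have hdom' := hx'.isDomain
  have hufm' := hx'.ufm
  have hmem : ∀ a : S, algebraMap S S' a ∈ Ideal.span (x' '' {i₀'}ᶜ) ↔
      a ∈ Ideal.span (x '' {f i₀'}ᶜ) := by
    intro a
    rw [hr.comap_span, p2_compl hr, Set.image_singleton]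
  have hPp : (Ideal.span (x '' {f i₀'}ᶜ)).IsPrime := hx.isPrime_span _
  have hPp' : (Ideal.span (x' '' {i₀'}ᶜ)).IsPrime := hx'.isPrime_span _
  have hex : ∃ i, x i ∉ Ideal.span (x '' {f i₀'}ᶜ) := ⟨f i₀', by rw [hx.mem_span]; simp⟩
  generalize Ideal.span (x '' {f i₀'}ᶜ) = P at *
  generalize Ideal.span (x' '' {i₀'}ᶜ) = P' at *
  obtain ⟨s, hs, m₁, m₂, θ₁, θ₂, hloc, -, -, -, -, -⟩ := Bun.local hx h.bun P hPp hex
  have hs' : algebraMap S S' s ∉ P' := fun hh => hs ((hmem s).1 hh)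
  have hs0 : algebraMap S S' s ≠ 0 := fun hh => hs' (hh ▸ P'.zero_mem)
  have he : ∀ m, algebraMap S S' s * e m =
      algebraMap S S' (θ₁ m) * e m₁ + algebraMap S S' (θ₂ m) * e m₂ := by
    intro m
    have h6 := congrArg e (hloc m)
    rwa [map_smul, map_add, map_smul, map_smul, Algebra.smul_def, Algebra.smul_def,
      Algebra.smul_def] at h6
  obtain ⟨mm, hmm⟩ : ∃ m, e m ≠ 0 := by
    by_contra hcon
    push Not at hcon
    exact h3 (LinearMap.ext hcon)
  have hne : e m₁ ≠ 0 ∨ e m₂ ≠ 0 := by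
    by_contra hcon
    push Not at hcon
    have h6 := he mm
    rw [hcon.1, hcon.2, mul_zero, mul_zero, add_zero] at h6
    exact (mul_ne_zero hs0 hmm) h6
  obtain ⟨a, b, c, hab, h1, h1'⟩ := Q2_reduced (e m₁) (e m₂) hne
  have hc0 : c ≠ 0 := by
    rintro rfl
    rw [zero_mul] at h1 h1'
    rcases hne with hh | hh
    · exact hh h1.symm
    · exact hh h1'.symm
  have hcP : c ∉ P' := by
    intro hcP
    obtain ⟨p, hp, hpc, hpP⟩ := Q2_prime P' hPp' c hc0 hcP
    have hdiv : ∀ m, p ∣ e m := by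
      intro m
      have h6 : p ∣ algebraMap S S' s * e m := by
        rw [he m, ← h1, ← h1']
        exact dvd_add (Dvd.dvd.mul_left (Dvd.dvd.mul_right hpc a) _)
          (Dvd.dvd.mul_left (Dvd.dvd.mul_right hpc b) _)
      rcases hp.dvd_or_dvd h6 with h7 | h7
      · exact absurd (P'.mem_of_dvd h7 hpP) hs'
      · exact h7
    obtain ⟨θ, hθ⟩ := Q2_div p hp.ne_zero e hdiv
    obtain ⟨d, hd⟩ := h4 θ (fun m => by
      have h6 := h2 m
      rw [hθ, LinearMap.smul_apply, smul_eq_mul] at h6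
      exact (mul_eq_zero.mp h6).resolve_left hp.ne_zero)
    have h6 : e mm = p * (d * e mm) := by
      have h7 := congrArg (fun η : M →ₗ[S] S' => η mm) hθ
      rw [hd] at h7
      exact h7
    have h7 : p * d = 1 := by
      apply mul_right_cancel₀ hmm
      rw [one_mul, mul_assoc]
      exact h6.symm
    exact hp.not_isUnit (IsUnit.of_mul_eq_one d h7)
  have haP : a ∈ P' := by
    have h6 := h5 m₁
    rw [← h1] at h6
    exact (hPp'.mem_or_mem h6).resolve_left hcP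
  have hbP : b ∈ P' := by
    have h6 := h5 m₂
    rw [← h1'] at h6
    exact (hPp'.mem_or_mem h6).resolve_left hcP
  have hrel : ∀ m, algebraMap S S' (θ₁ (sh δ μ m)) * a + algebraMap S S' (θ₂ (sh δ μ m)) * b =
      0 := by
    intro m
    have h6 := he (sh δ μ m)
    rw [h2, mul_zero, ← h1, ← h1'] at h6
    apply mul_left_cancel₀ hc0
    rw [mul_zero]
    linear_combination -h6
  have hN : ∀ m, θ₁ (sh δ μ m) ∈ P ∧ θ₂ (sh δ μ m) ∈ P := by
    intro m
    have h6 := hrel m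
    rw [← hmem, ← hmem]
    constructor
    · refine P'.mem_of_dvd (hab.symm.dvd_of_dvd_mul_right (z := a)
        ⟨-algebraMap S S' (θ₂ (sh δ μ m)), ?_⟩) hbP
      linear_combination h6
    · refine P'.mem_of_dvd (hab.dvd_of_dvd_mul_right (z := b)
        ⟨-algebraMap S S' (θ₁ (sh δ μ m)), ?_⟩) haP
      linear_combination h6
  intro θ m
  have h6 : s * θ (sh δ μ m) ∈ P := by
    have h7 := congrArg θ (hloc (sh δ μ m))
    rw [map_smul, map_add, map_smul, map_smul, smul_eq_mul, smul_eq_mul, smul_eq_mul] at h7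
    rw [h7]
    exact P.add_mem (P.mul_mem_right _ (hN m).1) (P.mul_mem_right _ (hN m).2)
  exact (hPp.mem_or_mem h6).resolve_left hs

end

end Pool.Agent.Lib.MP_745d3a_ag.PF.GA

end

section

/-!
Type (3, 1, 1).

See `final_two` / `caseTwoTwo` in PFFin.lean / PFCase.lean for the handling of quotient rings
(`RS.quot`), `Sys.dual`, `horrocks`, `caseTwo4`.

1. `S₂ = S ⧸ (x 2)` with the coordinates `y = x 0, x 1, x 3, x 4` (`RS.quot x 2`, `f = succAbove 2`).
   `N = (M →ₗ[S] S₂)` is a `Sys` for the induced derivations (`Sys.dual`), with `D₂ (y 0) = y 1` and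
   `D₂ (y i) = 0` for `i = 1, 2, 3`. `S₂' = S₂ ⧸ (y 1)` (`RS.quot y 1`). `caseTwo4` with `j = 1`,
   `i₀' = 0`: either `Gen2 S₂ N`, and `horrocks` gives `Gen2 S M`; or the exceptional functional with
   `μ`, and `van_of_exceptional`: `Van (span (y '' {0}ᶜ)) (sh δ₂ μ)`, where `δ₂ = dconn δ`.
2. `sh (dconn hD hδ) μ = dconn hD (..)` for the connection `sh δ (-μ)`:
   `D' (θ m) - θ (δ m + μ m) = (dconn δ θ) m - μ θ m`. So `van_undual` (with `D₂ a ∈ (y 1, y 2, y 3)`,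
   because `D₂` maps all coordinates there: `Coord.induction`) gives
   `Van (span (x '' {0}ᶜ)) (sh δ (-μ))`.
3. Replace `δ` by `δ' = sh δ (-μ)` (`h.shift (-μ)`). `S₄ = S ⧸ (x 4)`, coordinates `x 0 .. x 3`;
   `N₂ = (M →ₗ[S] S₄)`, `van_dual`. `S₃ = S₄ ⧸ (x 3)`, `N₃ = (N₂ →ₗ[S₄] S₃)`, `van_dual` again.
   `plane` gives `Gen2 S₃ N₃`; `horrocks` twice (`i₁ i₂ i₃ = 0 1 2`): `Gen2 S₄ N₂`, `Gen2 S M`.
   (The conditions `D' a ∈ span (x' '' {0}ᶜ)` of `van_dual` hold because `D` maps all coordinates to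
   `0`, `x 1` or `x 2`.)
-/

set_option autoImplicit false
set_option linter.unusedSectionVars false
set_option linter.unusedSimpArgs false
set_option linter.unusedVariables false

open MvPolynomial

namespace Pool.Agent.Lib.MP_745d3a_ag.PF.GA

section

variable {K S M : Type*} [Field K] [CharZero K] [IsAlgClosed K] [CommRing S] [Algebra K S]
  {x : Fin 5 → S} {E D : Derivation K S S} [AddCommGroup M] [Module K M]
  [Module S M] [IsScalarTower K S M] {ε δ : M →ₗ[K] M}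

/-- A derivation which maps the coordinates into an ideal. -/
theorem der_mem_span {ι : Type*} {x : ι → S} (hx : Coord K x) (D : Derivation K S S)
    (p : Ideal S) (h : ∀ i, D (x i) ∈ p) (a : S) : D a ∈ p := by
  refine hx.induction (P := fun a => D a ∈ p) ?_ ?_ ?_ a
  · intro c
    rw [Derivation.map_algebraMap]
    exact p.zero_mem
  · intro a b ha hb
    rw [map_add]
    exact p.add_mem ha hb
  · intro a i ha
    rw [Derivation.leibniz, smul_eq_mul, smul_eq_mul]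
    exact p.add_mem (p.mul_mem_left _ (h i)) (p.mul_mem_left _ ha)

/-- Step 3. -/
theorem gen_of_van (h : Sys x E D ε δ) (h0 : D (x 0) = x 1) (h1 : D (x 1) = x 2)
    (h2 : D (x 2) = 0) (h3 : D (x 3) = 0) (h4 : D (x 4) = 0)
    (hv : Van (Ideal.span (x '' {0}ᶜ)) δ) : Gen2 S M := by
  classical
  -- the hyperplane `x 4 = 0`
  let S₄ := S ⧸ Ideal.span {x 4}
  let y : Fin 4 → S₄ := fun i => Ideal.Quotient.mk _ (x (Fin.succAbove 4 i))
  have hr₄ : RS x 4 (Fin.succAbove 4) y := RS.quot x 4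
  obtain ⟨E₄, hE₄⟩ := hr₄.exists_der h.cx E (by rw [h.eu, hr₄.xj])
  obtain ⟨D₄, hD₄⟩ := hr₄.exists_der h.cx D (by rw [h4, map_zero])
  have hs₄ := h.dual hr₄ hE₄ hD₄
  have y0 : D₄ (y 0) = y 1 := by
    rw [← hr₄.map 0, hD₄, show Fin.succAbove (4 : Fin 5) (0 : Fin 4) = 0 from rfl, h0,
      ← hr₄.map 1]
    rfl
  have y1 : D₄ (y 1) = y 2 := by
    rw [← hr₄.map 1, hD₄, show Fin.succAbove (4 : Fin 5) (1 : Fin 4) = 1 from rfl, h1,
      ← hr₄.map 2]
    rfl
  have y2 : D₄ (y 2) = 0 := by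
    rw [← hr₄.map 2, hD₄, show Fin.succAbove (4 : Fin 5) (2 : Fin 4) = 2 from rfl, h2, map_zero]
  have y3 : D₄ (y 3) = 0 := by
    rw [← hr₄.map 3, hD₄, show Fin.succAbove (4 : Fin 5) (3 : Fin 4) = 3 from rfl, h3, map_zero]
  have hy : ∀ a, D₄ a ∈ Ideal.span (y '' {0}ᶜ) := by
    refine der_mem_span hs₄.cx D₄ _ ?_
    intro i
    fin_cases i
    · show D₄ (y 0) ∈ _
      rw [y0]
      exact Ideal.subset_span ⟨1, by decide, rfl⟩
    · show D₄ (y 1) ∈ _
      rw [y1]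
      exact Ideal.subset_span ⟨2, by decide, rfl⟩
    · show D₄ (y 2) ∈ _
      rw [y2]
      exact Ideal.zero_mem _
    · show D₄ (y 3) ∈ _
      rw [y3]
      exact Ideal.zero_mem _
  have hv₄ : Van (Ideal.span (y '' {0}ᶜ)) (dconn hD₄ h.cD) :=
    van_dual h.cx h.bun hr₄ hD₄ h.cD 0 hy hv
  -- the hyperplane `y 3 = 0`
  let S₃ := S₄ ⧸ Ideal.span {y 3}
  let z : Fin 3 → S₃ := fun i => Ideal.Quotient.mk _ (y (Fin.succAbove 3 i))
  have hr₃ : RS y 3 (Fin.succAbove 3) z := RS.quot y 3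
  obtain ⟨E₃, hE₃⟩ := hr₃.exists_der hs₄.cx E₄ (by rw [hs₄.eu, hr₃.xj])
  obtain ⟨D₃, hD₃⟩ := hr₃.exists_der hs₄.cx D₄ (by rw [y3, map_zero])
  have hs₃ := hs₄.dual hr₃ hE₃ hD₃
  have z0 : D₃ (z 0) = z 1 := by
    rw [← hr₃.map 0, hD₃, show Fin.succAbove (3 : Fin 4) (0 : Fin 3) = 0 from rfl, y0,
      ← hr₃.map 1]
    rfl
  have z1 : D₃ (z 1) = z 2 := by
    rw [← hr₃.map 1, hD₃, show Fin.succAbove (3 : Fin 4) (1 : Fin 3) = 1 from rfl, y1,
      ← hr₃.map 2]
    rfl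
  have z2 : D₃ (z 2) = 0 := by
    rw [← hr₃.map 2, hD₃, show Fin.succAbove (3 : Fin 4) (2 : Fin 3) = 2 from rfl, y2, map_zero]
  have hz : ∀ a, D₃ a ∈ Ideal.span (z '' {0}ᶜ) := by
    refine der_mem_span hs₃.cx D₃ _ ?_
    intro i
    fin_cases i
    · show D₃ (z 0) ∈ _
      rw [z0]
      exact Ideal.subset_span ⟨1, by decide, rfl⟩
    · show D₃ (z 1) ∈ _
      rw [z1]
      exact Ideal.subset_span ⟨2, by decide, rfl⟩
    · show D₃ (z 2) ∈ _
      rw [z2]
      exact Ideal.zero_mem _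
  have hv₃ : Van (Ideal.span (z '' {0}ᶜ)) (dconn hD₃ hs₄.cD) :=
    van_dual hs₄.cx hs₄.bun hr₃ hD₃ hs₄.cD 0 hz hv₄
  have g₃ := plane hs₃ z0 z1 z2 hv₃
  have g₄ := horrocks hs₄.cx hs₄.bun hr₃ hs₄.eu hs₄.cE hs₄.dg (i₁ := (0 : Fin 3)) (i₂ := 1)
    (i₃ := 2) (by decide) (by decide) (by decide) g₃
  exact horrocks h.cx h.bun hr₄ h.eu h.cE h.dg (i₁ := (0 : Fin 4)) (i₂ := 1)
    (i₃ := 2) (by decide) (by decide) (by decide) g₄

end

end Pool.Agent.Lib.MP_745d3a_ag.PF.GA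

end

section

/-!
Type (3, 1, 1): steps 1 and 2. See the docstring of Q3.lean.
-/

set_option autoImplicit false
set_option linter.unusedSectionVars false
set_option linter.unusedSimpArgs false
set_option linter.unusedVariables false

open MvPolynomial

namespace Pool.Agent.Lib.MP_745d3a_ag.PF.GA

section

variable {K S M : Type*} [Field K] [CharZero K] [IsAlgClosed K] [CommRing S] [Algebra K S]
  {x : Fin 5 → S} {E D : Derivation K S S} [AddCommGroup M] [Module K M]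
  [Module S M] [IsScalarTower K S M] {ε δ : M →ₗ[K] M}

/-- Steps 1 and 2. -/
theorem van_or_gen (h : Sys x E D ε δ) (h0 : D (x 0) = x 1) (h1 : D (x 1) = x 2)
    (h2 : D (x 2) = 0) (h3 : D (x 3) = 0) (h4 : D (x 4) = 0) :
    Gen2 S M ∨ ∃ μ : K, Van (Ideal.span (x '' {0}ᶜ)) (sh δ μ) := by
  classical
  let S₂ := S ⧸ Ideal.span {x 2}
  let y : Fin 4 → S₂ := fun i => Ideal.Quotient.mk _ (x (Fin.succAbove 2 i))
  have hr₂ : RS x 2 (Fin.succAbove 2) y := RS.quot x 2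
  obtain ⟨E₂, hE₂⟩ := hr₂.exists_der h.cx E (by rw [h.eu, hr₂.xj])
  obtain ⟨D₂, hD₂⟩ := hr₂.exists_der h.cx D (by rw [h2, map_zero])
  have hs₂ := h.dual hr₂ hE₂ hD₂
  have y0 : D₂ (y 0) = y 1 := by
    rw [← hr₂.map 0, hD₂, show Fin.succAbove (2 : Fin 5) (0 : Fin 4) = 0 from rfl, h0,
      ← hr₂.map 1]
    rfl
  have y1 : D₂ (y 1) = 0 := by
    rw [← hr₂.map 1, hD₂, show Fin.succAbove (2 : Fin 5) (1 : Fin 4) = 1 from rfl, h1, hr₂.xj]
  have y2 : D₂ (y 2) = 0 := by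
    rw [← hr₂.map 2, hD₂, show Fin.succAbove (2 : Fin 5) (2 : Fin 4) = 3 from rfl, h3, map_zero]
  have y3 : D₂ (y 3) = 0 := by
    rw [← hr₂.map 3, hD₂, show Fin.succAbove (2 : Fin 5) (3 : Fin 4) = 4 from rfl, h4, map_zero]
  let S₂' := S₂ ⧸ Ideal.span {y 1}
  let z : Fin 3 → S₂' := fun i => Ideal.Quotient.mk _ (y (Fin.succAbove 1 i))
  have hr' : RS y 1 (Fin.succAbove 1) z := RS.quot y 1
  have hD0 : D₂ (y (Fin.succAbove 1 (0 : Fin 3))) = y 1 := y0
  have hD : ∀ i, i ≠ Fin.succAbove 1 (0 : Fin 3) → D₂ (y i) = 0 := by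
    intro i hi
    fin_cases i
    · exact absurd rfl hi
    · exact y1
    · exact y2
    · exact y3
  rcases caseTwo4 (by rw [Fintype.card_fin]) hs₂ hr' 0 hD0 hD with g | ⟨μ, e, _, e2, e3, e4, e5, _⟩
  · left
    exact horrocks h.cx h.bun hr₂ h.eu h.cE h.dg (i₁ := (0 : Fin 4)) (i₂ := 1)
      (i₃ := 2) (by decide) (by decide) (by decide) g
  · right
    refine ⟨-μ, ?_⟩
    have hv := van_of_exceptional hs₂ hr' 0 hD0 hD μ e e2 e3 e4 e5
    have hc : IsConn D (sh δ (-μ)) := (h.shift (-μ)).cD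
    have heq : sh (dconn hD₂ h.cD) μ = dconn hD₂ hc := by
      ext θ m
      rw [sh_apply, LinearMap.sub_apply, dconn_apply, dconn_apply, sh_apply, neg_smul,
        sub_neg_eq_add, map_add]
      have h5 : θ (μ • m) = μ • θ m := by
        rw [← algebraMap_smul S μ m, map_smul, algebraMap_smul]
      rw [h5, LinearMap.smul_apply]
      abel
    rw [heq] at hv
    have hy : ∀ a, D₂ a ∈ Ideal.span (y '' {0}ᶜ) := by
      refine der_mem_span hs₂.cx D₂ _ ?_
      intro i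
      fin_cases i
      · show D₂ (y 0) ∈ _
        rw [y0]
        exact Ideal.subset_span ⟨1, by decide, rfl⟩
      · show D₂ (y 1) ∈ _
        rw [y1]
        exact Ideal.zero_mem _
      · show D₂ (y 2) ∈ _
        rw [y2]
        exact Ideal.zero_mem _
      · show D₂ (y 3) ∈ _
        rw [y3]
        exact Ideal.zero_mem _
    exact van_undual h.cx h.bun hr₂ hD₂ hc 0 hy hv

end

end Pool.Agent.Lib.MP_745d3a_ag.PF.GA

end

section

/-!
Type (3, 1, 1).
-/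

set_option autoImplicit false
set_option linter.unusedSectionVars false
set_option linter.unusedSimpArgs false
set_option linter.unusedVariables false

open MvPolynomial

namespace Pool.Agent.Lib.MP_745d3a_ag.PF.GA

section

variable {K S M : Type*} [Field K] [CharZero K] [IsAlgClosed K] [CommRing S] [Algebra K S]
  {x : Fin 5 → S} {E D : Derivation K S S} [AddCommGroup M] [Module K M]
  [Module S M] [IsScalarTower K S M] {ε δ : M →ₗ[K] M}

theorem type311 (h : Sys x E D ε δ) (h0 : D (x 0) = x 1) (h1 : D (x 1) = x 2)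
    (h2 : D (x 2) = 0) (h3 : D (x 3) = 0) (h4 : D (x 4) = 0) : Gen2 S M := by
  rcases van_or_gen h h0 h1 h2 h3 h4 with hg | ⟨μ, hv⟩
  · exact hg
  · exact gen_of_van (h.shift μ) h0 h1 h2 h3 h4 hv

end

end Pool.Agent.Lib.MP_745d3a_ag.PF.GA

end
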