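import Pool.Agent.Lib.MP_745d3a_ag.NV.Pair
import Pool.Agent.Lib.MP_745d3a_ag.NV.Tr
import Pool.Agent.Lib.MP_745d3a_ag.NV.Defs
import Pool.Agent.Lib.MP_745d3a_ag.NV.Eig
import Pool.Agent.Lib.MP_745d3a_ag.NV.Sec
import Pool.Agent.Lib.MP_745d3a_ag.NV.Alg
import Pool.Agent.Lib.MP_745d3a_ag.NV.Type

section

/-!
The pairing is compatible with a locally nilpotent connection; invariant elements.

`pair_scalar`: put `C m n := D (B m n) - B (δ m) n - B m (δ n)`. It is additive in both arguments
and `C (a • m) n = a * C m n = C m (a • n)` (`cD`, Leibniz), `C m m = 0` (`alt`, `skew`), so `C` is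
alternating. For all `m₁ m₂ m n`: `B m₁ m₂ * C m n = C m₁ m₂ * B m n`: by `cramer`
`B m₁ m₂ • m = B m m₂ • m₁ + B m₁ m • m₂` and the same for `n`, so
`(B m₁ m₂) ^ 2 * C m n = (B m m₂ * B m₁ n - B m₁ m * B n m₂) * C m₁ m₂
 = B m₁ m₂ * B m n * C m₁ m₂` (`det_ph`). Cancel `B m₁ m₂` if it is not zero; if `B m₁ m₂ = 0` we need
`C m₁ m₂ * B m n = 0`: exchange the roles (if `B m n ≠ 0` then
`B m n * C m₁ m₂ = C m n * B m₁ m₂ = 0`).
Now by `full` `x i ^ N = ∑ s_k * B u_k v_k` (`Submodule.span_induction` or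
`Ideal.mem_span`.. gives: `∃ y, ∀ m n, x i ^ N * C m n = y * B m n`). Do this for two different
coordinates `i ≠ j`: `x i ^ N * C m n = y * B m n`, `x j ^ N' * C m n = y' * B m n`. For some `m n`
`B m n ≠ 0`, so `x j ^ N' * y = x i ^ N * y'`; `relPrime_pow`: `y = x i ^ N * t`, and
`C m n = t * B m n` for all `m`, `n`.
`DB_of_nil`: `t = 0`: take homogeneous `m`, `n` with `B m n ≠ 0` (`exists_comp`); then by induction
`(D - t) ^ k (B m n) = ∑ binom k i * B (δ ^ i m) (δ ^ (k - i) n)`, which is zero for large `k` (`hδ`):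
more simply, put `V m n := {k | ..}`: show that the set of values is killed: define
`T a := D a - t * a`; `T (B m n) = B (δ m) n + B m (δ n)`, so by induction on `i + j`, where
`δ^[i] m = 0`, `δ^[j] n = 0`: `T^[i + j] (B m n) = 0`. So there is `g ≠ 0` with `D g = t * g`
(last nonzero iterate). `D` is locally nilpotent (`hD`) on the domain `S`: let `k` be the largest
number with `D^[k] g ≠ 0`, `l` the same for `t` (if `t ≠ 0`); then
`D^[k + l] (t * g) = binom (k + l) k * D^[l] t * D^[k] g ≠ 0` (Leibniz), but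
`D^[k + l] (D g) = D^[k + l + 1] g = 0`. So `t = 0`.
`inv_of_nil`: take `m ≠ 0` (`B ≠ 0`) and the last nonzero iterate.
-/

set_option autoImplicit false
set_option linter.unusedSectionVars false
set_option linter.unusedSimpArgs false
set_option linter.unusedVariables false

open MvPolynomial

namespace Pool.Agent.Lib.MP_745d3a_ag.PF.GA

section

variable {K S ι M : Type*} [Field K] [CharZero K] [CommRing S] [Algebra K S] {x : ι → S}
  {E D : Derivation K S S} [AddCommGroup M] [Module K M] [Module S M]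
  [IsScalarTower K S M] {ε δ : M →ₗ[K] M} {d : ℤ} {B : M →ₗ[S] M →ₗ[S] S}

omit [CharZero K] in
private lemma C1_last {V : Type*} [AddCommGroup V] [Module K V] (T : V →ₗ[K] V) (k : ℕ) :
    ∀ v : V, v ≠ 0 → (T : V → V)^[k] v = 0 → ∃ g, g ≠ 0 ∧ T g = 0 := by
  induction k with
  | zero => intro v hv h0; exact absurd h0 hv
  | succ k ih =>
    intro v hv h0
    by_cases h1 : T v = 0
    · exact ⟨v, hv, h1⟩
    · exact ih (T v) h1 (by rwa [Function.iterate_succ_apply] at h0)

omit [CharZero K] in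
private lemma C1_choose (D : Derivation K S S) : ∀ (n k l : ℕ), k + l = n → ∀ a b : S,
    (D : S → S)^[k + 1] a = 0 → (D : S → S)^[l + 1] b = 0 →
      (D : S → S)^[n] (a * b) = (n.choose k) • ((D : S → S)^[k] a * (D : S → S)^[l] b) := by
  intro n
  induction n with
  | zero =>
    intro k l hkl a b _ _
    obtain ⟨rfl, rfl⟩ : k = 0 ∧ l = 0 := by omega
    simp
  | succ n ih =>
    intro k l hkl a b ha hb
    have hD : (D : S → S)^[n + 1] (a * b) = (D : S → S)^[n] (a * D b) + (D : S → S)^[n] (D a * b) := by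
      rw [Function.iterate_succ_apply, D.leibniz, smul_eq_mul, smul_eq_mul, mul_comm b (D a),
        iterate_map_add]
    rw [hD]
    rcases Nat.eq_zero_or_pos k with hk | hk
    · subst hk
      obtain rfl : l = n + 1 := by omega
      have ha' : D a = 0 := by simpa using ha
      rw [ha', zero_mul, iterate_map_zero, add_zero,
        ih 0 n (by omega) a (D b) ha (by rwa [← Function.iterate_succ_apply])]
      simp [Function.iterate_succ_apply]
    · rcases Nat.eq_zero_or_pos l with hl | hl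
      · subst hl
        obtain rfl : k = n + 1 := by omega
        have hb' : D b = 0 := by simpa using hb
        rw [hb', mul_zero, iterate_map_zero, zero_add,
          ih n 0 (by omega) (D a) b (by rwa [← Function.iterate_succ_apply]) hb]
        simp [Function.iterate_succ_apply]
      · obtain ⟨k, rfl⟩ : ∃ k', k = k' + 1 := ⟨k - 1, by omega⟩
        obtain ⟨l, rfl⟩ : ∃ l', l = l' + 1 := ⟨l - 1, by omega⟩
        rw [ih (k + 1) l (by omega) a (D b) ha (by rwa [← Function.iterate_succ_apply]),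
          ih k (l + 1) (by omega) (D a) b (by rwa [← Function.iterate_succ_apply]) hb,
          ← Function.iterate_succ_apply, ← Function.iterate_succ_apply, Nat.choose_succ_succ,
          add_smul, add_comm]

private lemma C1_der (hx : Coord K x) (D : Derivation K S S)
    (hD : ∀ a : S, ∃ k : ℕ, (D : S → S)^[k] a = 0) {g t : S} (hg : g ≠ 0) (h : D g = t * g) :
    t = 0 := by
  classical
  have := hx.isDomain
  by_contra ht
  have hlast : ∀ a : S, a ≠ 0 → ∃ k : ℕ, (D : S → S)^[k] a ≠ 0 ∧ (D : S → S)^[k + 1] a = 0 := by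
    intro a ha
    have h1 := hD a
    refine ⟨Nat.find h1 - 1, ?_, ?_⟩
    · have h2 : Nat.find h1 ≠ 0 := by
        intro h3
        have h4 := Nat.find_spec h1
        rw [h3] at h4
        exact ha h4
      exact Nat.find_min h1 (by omega)
    · have h2 : Nat.find h1 ≠ 0 := by
        intro h3
        have h4 := Nat.find_spec h1
        rw [h3] at h4
        exact ha h4
      rw [Nat.sub_add_cancel (by omega)]
      exact Nat.find_spec h1
  obtain ⟨k, hk, hk1⟩ := hlast g hg
  obtain ⟨l, hl, hl1⟩ := hlast t ht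
  have h1 := C1_choose D (l + k) l k rfl t g hl1 hk1
  have h2 : (D : S → S)^[l + k] (t * g) = 0 := by
    rw [← h, ← Function.iterate_succ_apply, Nat.succ_eq_add_one, add_assoc, Function.iterate_add_apply,
      hk1, iterate_map_zero]
  rw [h2] at h1
  have h3 : ((l + k).choose l : S) * ((D : S → S)^[l] t * (D : S → S)^[k] g) = 0 := by
    rw [← nsmul_eq_mul]; exact h1.symm
  rcases mul_eq_zero.mp h3 with h4 | h4
  · have h5 : (((l + k).choose l : ℕ) : K) = 0 := by
      have h6 : algebraMap K S (((l + k).choose l : ℕ) : K) = 0 := by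
        rw [map_natCast]; exact h4
      exact (map_eq_zero_iff _ (FaithfulSMul.algebraMap_injective K S)).mp h6
    exact (Nat.choose_pos (Nat.le_add_right l k)).ne' (Nat.cast_eq_zero.mp h5)
  · exact mul_ne_zero hl hk h4

private lemma C1_exists (hx : Coord K x) (P : Pr x E ε d B) (i : ι) : ∃ m n, B m n ≠ 0 := by
  have := hx.isDomain
  by_contra hcon
  push Not at hcon
  obtain ⟨N, hN⟩ := P.full i
  have h1 : Ideal.span {p : S | ∃ a b, B a b = p} ≤ ⊥ := by
    rw [Ideal.span_le]
    rintro _ ⟨a, b, rfl⟩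
    exact hcon a b
  exact pow_ne_zero N (a1_ne_zero hx i) ((Ideal.mem_bot).mp (h1 hN))

theorem pair_scalar (hx : Coord K x) (P : Pr x E ε d B) (cD : IsConn D δ) {i j : ι}
    (hij : i ≠ j) : ∃ t : S, ∀ m n, D (B m n) = B (δ m) n + B m (δ n) + t * B m n := by
  have := hx.isDomain
  have := hx.ufm
  obtain ⟨C, hC⟩ : ∃ C : M → M → S, ∀ m n, C m n = D (B m n) - B (δ m) n - B m (δ n) :=
    ⟨_, fun _ _ => rfl⟩
  have hCadd : ∀ m m' n, C (m + m') n = C m n + C m' n := by
    intro m m' n
    simp only [hC, map_add, LinearMap.add_apply]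
    ring
  have hCsmul : ∀ (a : S) m n, C (a • m) n = a * C m n := by
    intro a m n
    simp only [hC, cD a m, map_add, map_smul, LinearMap.add_apply, LinearMap.smul_apply,
      smul_eq_mul, Derivation.leibniz]
    ring
  have hCsymm : ∀ m n, C m n = - C n m := by
    intro m n
    rw [hC, hC, P.skew m n, P.skew (δ m) n, P.skew m (δ n), map_neg]
    ring
  have hCself : ∀ m, C m m = 0 := by
    intro m
    rw [hC, P.alt m, map_zero, P.skew (δ m) m]
    ring
  have hCadd' : ∀ m n n', C m (n + n') = C m n + C m n' := by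
    intro m n n'
    rw [hCsymm m, hCadd, hCsymm m n, hCsymm m n']
    ring
  have hCsmul' : ∀ (a : S) m n, C m (a • n) = a * C m n := by
    intro a m n
    rw [hCsymm m, hCsmul, hCsymm m n]
    ring
  have key0 : ∀ m₁ m₂ m n, B m₁ m₂ ≠ 0 → B m₁ m₂ * C m n = C m₁ m₂ * B m n := by
    intro m₁ m₂ m n hu
    have e1 : B m₁ m₂ * C m n = B m m₂ * C m₁ n + B m₁ m * C m₂ n := by
      rw [← hCsmul, P.cramer m₁ m₂ m, hCadd, hCsmul, hCsmul]
    have e2 : B m₁ m₂ * C m₁ n = B m₁ n * C m₁ m₂ := by
      rw [← hCsmul', P.cramer m₁ m₂ n, hCadd', hCsmul', hCsmul', hCself]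
      ring
    have e3 : B m₁ m₂ * C m₂ n = - (B n m₂ * C m₁ m₂) := by
      rw [← hCsmul', P.cramer m₁ m₂ n, hCadd', hCsmul', hCsmul', hCself, hCsymm m₂ m₁]
      ring
    have e4 : B m₁ m₂ * B m n = B m m₂ * B m₁ n - B m₁ m * B n m₂ := by
      rw [P.det_ph m₁ m₂ m n]
      simp only [dt, ph_apply]
    have e5 : B m₁ m₂ * (B m₁ m₂ * C m n) = B m₁ m₂ * (C m₁ m₂ * B m n) := by
      calc B m₁ m₂ * (B m₁ m₂ * C m n)
          = B m m₂ * (B m₁ m₂ * C m₁ n) + B m₁ m * (B m₁ m₂ * C m₂ n) := by rw [e1]; ring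
        _ = (B m m₂ * B m₁ n - B m₁ m * B n m₂) * C m₁ m₂ := by rw [e2, e3]; ring
        _ = B m₁ m₂ * (C m₁ m₂ * B m n) := by rw [← e4]; ring
    exact mul_left_cancel₀ hu e5
  have key : ∀ m₁ m₂ m n, B m₁ m₂ * C m n = C m₁ m₂ * B m n := by
    intro m₁ m₂ m n
    by_cases hu : B m₁ m₂ = 0
    · by_cases hv : B m n = 0
      · rw [hu, hv]; ring
      · have := key0 m n m₁ m₂ hv
        linear_combination -this
    · exact key0 m₁ m₂ m n hu
  have hpow : ∀ i : ι, ∃ (N : ℕ) (y : S), ∀ m n, x i ^ N * C m n = y * B m n := by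
    intro i
    obtain ⟨N, hN⟩ := P.full i
    refine ⟨N, ?_⟩
    refine Submodule.span_induction (p := fun s _ => ∃ y : S, ∀ m n, s * C m n = y * B m n)
      ?_ ?_ ?_ ?_ hN
    · rintro _ ⟨a, b, rfl⟩
      exact ⟨C a b, fun m n => key a b m n⟩
    · exact ⟨0, fun m n => by ring⟩
    · rintro s s' _ _ ⟨y, hy⟩ ⟨y', hy'⟩
      exact ⟨y + y', fun m n => by rw [add_mul, hy, hy']; ring⟩
    · rintro a s _ ⟨y, hy⟩
      exact ⟨a * y, fun m n => by rw [smul_eq_mul, mul_assoc, hy]; ring⟩
  obtain ⟨m₀, n₀, h0⟩ := C1_exists hx P i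
  obtain ⟨N, y, hy⟩ := hpow i
  obtain ⟨N', y', hy'⟩ := hpow j
  have h1 : x j ^ N' * y = x i ^ N * y' := by
    apply mul_right_cancel₀ h0
    calc x j ^ N' * y * B m₀ n₀ = x j ^ N' * (y * B m₀ n₀) := by ring
      _ = x i ^ N * (x j ^ N' * C m₀ n₀) := by rw [← hy]; ring
      _ = x i ^ N * y' * B m₀ n₀ := by rw [hy']; ring
  have h2 : x i ^ N ∣ y := by
    have h3 : x i ^ N ∣ x j ^ N' * y := ⟨y', h1⟩
    exact (hx.relPrime_pow hij N N').dvd_of_dvd_mul_left h3
  obtain ⟨t, rfl⟩ := h2
  refine ⟨t, fun m n => ?_⟩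
  have h4 : C m n = t * B m n := by
    apply mul_left_cancel₀ (pow_ne_zero N (a1_ne_zero hx i))
    rw [hy]; ring
  rw [hC] at h4
  linear_combination h4

theorem DB_of_nil (hx : Coord K x) (P : Pr x E ε d B) (cD : IsConn D δ) {i j : ι}
    (hij : i ≠ j) (hD : ∀ a : S, ∃ k : ℕ, (D : S → S)^[k] a = 0)
    (hδ : ∀ m, ∃ k : ℕ, (δ : M → M)^[k] m = 0) :
    ∀ m n, D (B m n) = B (δ m) n + B m (δ n) := by
  have := hx.isDomain
  obtain ⟨t, ht⟩ := pair_scalar hx P cD hij
  obtain ⟨m₀, n₀, h0⟩ := C1_exists hx P i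
  obtain ⟨T, hT⟩ : ∃ T : S →ₗ[K] S, ∀ a, T a = D a - t * a :=
    ⟨(D : S →ₗ[K] S) - LinearMap.mulLeft K t, fun a => rfl⟩
  have hTB : ∀ m n, T (B m n) = B (δ m) n + B m (δ n) := by
    intro m n
    rw [hT, ht]; ring
  have hkill : ∀ (N a b : ℕ), a + b = N → ∀ m n, (δ : M → M)^[a] m = 0 →
      (δ : M → M)^[b] n = 0 → (T : S → S)^[N] (B m n) = 0 := by
    intro N
    induction N with
    | zero =>
      intro a b hab m n hm hn
      obtain ⟨rfl, rfl⟩ : a = 0 ∧ b = 0 := by omega
      have hm' : m = 0 := hm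
      rw [hm', map_zero, LinearMap.zero_apply]
      rfl
    | succ N ih =>
      intro a b hab m n hm hn
      rw [Function.iterate_succ_apply, hTB, iterate_map_add]
      have e1 : (T : S → S)^[N] (B (δ m) n) = 0 := by
        rcases Nat.eq_zero_or_pos a with ha | ha
        · subst ha
          have hm' : m = 0 := hm
          rw [hm', map_zero, map_zero, LinearMap.zero_apply, iterate_map_zero]
        · obtain ⟨a, rfl⟩ : ∃ a', a = a' + 1 := ⟨a - 1, by omega⟩
          exact ih a b (by omega) (δ m) n (by rwa [Function.iterate_succ_apply] at hm) hn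
      have e2 : (T : S → S)^[N] (B m (δ n)) = 0 := by
        rcases Nat.eq_zero_or_pos b with hb | hb
        · subst hb
          have hn' : n = 0 := hn
          rw [hn', map_zero, map_zero, iterate_map_zero]
        · obtain ⟨b, rfl⟩ : ∃ b', b = b' + 1 := ⟨b - 1, by omega⟩
          exact ih a b (by omega) m (δ n) hm (by rwa [Function.iterate_succ_apply] at hn)
      rw [e1, e2, add_zero]
  obtain ⟨a, ha⟩ := hδ m₀
  obtain ⟨b, hb⟩ := hδ n₀
  obtain ⟨g, hg, hTg⟩ := C1_last T (a + b) (B m₀ n₀) h0 (hkill (a + b) a b rfl m₀ n₀ ha hb)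
  have h1 : D g = t * g := by
    rw [hT] at hTg
    exact sub_eq_zero.mp hTg
  have h2 : t = 0 := C1_der hx D hD hg h1
  intro m n
  rw [ht, h2, zero_mul, add_zero]

theorem inv_of_nil (hx : Coord K x) [Nonempty ι] (P : Pr x E ε d B)
    (hδ : ∀ m, ∃ k : ℕ, (δ : M → M)^[k] m = 0) : ∃ f : M, f ≠ 0 ∧ δ f = 0 := by
  obtain ⟨m, n, h0⟩ := C1_exists hx P (Classical.arbitrary ι)
  have hm : m ≠ 0 := by
    rintro rfl
    rw [map_zero, LinearMap.zero_apply] at h0
    exact h0 rfl
  obtain ⟨k, hk⟩ := hδ m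
  exact C1_last δ k m hm hk

end

end Pool.Agent.Lib.MP_745d3a_ag.PF.GA

end

section

/-!
The pairing in terms of operators.

Let `𝓜 : ℤ → AddSubgroup M` be the grading. Define `𝓜' : ℤ × ℤ → AddSubgroup M`,
`𝓜' (n, l) = if l = 0 then 𝓜 n else ⊥`. It is a grading for the weights `w = 0`:
`GradedSMul`: a weighted homogeneous polynomial of weight `(a, b)` for `(1, 0)` is homogeneous of
degree `a`, and zero if `b ≠ 0`; `Decomposition`: `m = ∑ n, comp 𝓜 n m` placed in degree `(n, 0)`:
`DirectSum.Decomposition.ofAddHom` or `DirectSum.IsInternal`; the map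
`DirectSum ℤ 𝓜 → DirectSum (ℤ × ℤ) 𝓜'` is `DirectSum.toAddMonoid` of the inclusions.
`pairing_main` gives `d`, `br`. Put `B = br`, `d.1` for `d`. `hom`: both sides are additive in `m` and
`n`, so let `m ∈ 𝓜 a`, `n ∈ 𝓜 b` (`hom_induction` in Graded.lean, used as in `gradOp_comm`,
PFFin.lean); then `ε m = a • m`, `ε n = b • n`, and `E (br m n) = (a + b - d.1) • br m n` because
`br m n` is homogeneous of degree `a + b - d.1` (sum of monomials; `E = mkDerivation K X` on the
coordinates `X`: `hE`).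
`full`: `X c ^ N ∈ I` for all `c`, so `X c ∈ I.radical`; `linForm K (b i)` is a combination of the
`X c`, so it is in the radical, too (`linForm_apply`, PFFin.lean).
-/

set_option autoImplicit false
set_option linter.unusedSectionVars false
set_option linter.unusedSimpArgs false
set_option linter.unusedVariables false

open MvPolynomial

namespace Pool.Agent.Lib.MP_745d3a_ag.PF.GA

section c2

open Pool.Agent.Lib.MP_745d3a_ag (hom_induction map_weight)

private lemma C2_monomial {K : Type*} [Field K]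
    {E : Derivation K (MvPolynomial (Fin 5) K) (MvPolynomial (Fin 5) K)}
    (hE : ∀ i, E (X i) = X i) (e : Fin 5 →₀ ℕ) :
    E (monomial e (1 : K)) = ((∑ i, (e i : ℤ) : ℤ) : K) • monomial e (1 : K) := by
  induction e using Finsupp.induction_linear with
  | zero =>
    have h1 : (monomial (0 : Fin 5 →₀ ℕ) (1 : K)) = 1 := rfl
    rw [h1, Derivation.map_one_eq_zero]
    simp
  | add f g hf hg =>
    have h1 : (monomial (f + g) (1 : K)) = monomial f 1 * monomial g 1 := by
      rw [monomial_mul, one_mul]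
    have h2 : (∑ i, ((f + g) i : ℤ)) = ∑ i, (f i : ℤ) + ∑ i, (g i : ℤ) := by
      rw [← Finset.sum_add_distrib]
      refine Finset.sum_congr rfl fun i _ => ?_
      rw [Finsupp.add_apply]
      push_cast
      ring
    rw [h1, Derivation.leibniz, hf, hg, h2, Int.cast_add, add_smul, smul_eq_mul, smul_eq_mul,
      mul_smul_comm, mul_smul_comm, mul_comm (monomial g (1 : K))]
    abel
  | single i n =>
    have h1 : (monomial (Finsupp.single i n) (1 : K)) = X i ^ n := by
      rw [X_pow_eq_monomial]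
    have h2 : (∑ j, ((Finsupp.single i n) j : ℤ)) = n := by
      rw [Finset.sum_eq_single i]
      · simp
      · intro j _ hj
        rw [Finsupp.single_apply, if_neg (Ne.symm hj)]
        rfl
      · intro h
        exact absurd (Finset.mem_univ i) h
    rw [h1, h2, Derivation.leibniz_pow, hE]
    rcases Nat.eq_zero_or_pos n with h3 | h3
    · subst h3
      simp
    · rw [smul_eq_mul, ← pow_succ, Nat.sub_add_cancel h3, Int.cast_natCast, Nat.cast_smul_eq_nsmul]

private lemma C2_euler {K : Type*} [Field K]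
    {E : Derivation K (MvPolynomial (Fin 5) K) (MvPolynomial (Fin 5) K)}
    (hE : ∀ i, E (X i) = X i) {p : MvPolynomial (Fin 5) K} {g : ℤ × ℤ}
    (hp : IsWeightedHomogeneous (fun _ : Fin 5 => ((1 : ℤ), (0 : ℤ))) p g) :
    E p = ((g.1 : ℤ) : K) • p := by
  have h1 : ∀ e ∈ p.support, E (monomial e (coeff e p)) = ((g.1 : ℤ) : K) • monomial e (coeff e p) := by
    intro e he
    have h2 := hp (mem_support_iff.1 he)
    have h3 : (∑ i, (e i : ℤ)) = g.1 := by
      rw [← h2]
      have := map_weight (AddMonoidHom.fst ℤ ℤ) (fun _ : Fin 5 => ((1 : ℤ), (0 : ℤ))) e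
      simp only [AddMonoidHom.coe_fst, mul_one] at this
      exact this.symm
    have h4 : monomial e (coeff e p) = coeff e p • monomial e (1 : K) := by
      rw [smul_monomial, smul_eq_mul, mul_one]
    rw [h4, Derivation.map_smul, C2_monomial hE e, h3, smul_comm]
  conv_lhs => rw [← support_sum_monomial_coeff p]
  rw [map_sum, Finset.sum_congr rfl h1, ← Finset.smul_sum, support_sum_monomial_coeff]

/-- the regraded pieces -/
private def C2_gr {M : Type*} [AddCommGroup M] (𝓜 : ℤ → AddSubgroup M) : ℤ × ℤ → AddSubgroup M :=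
  fun g => if g.2 = 0 then 𝓜 g.1 else ⊥

private lemma C2_le {M : Type*} [AddCommGroup M] (𝓜 : ℤ → AddSubgroup M) (n : ℤ) :
    𝓜 n ≤ C2_gr 𝓜 (n, 0) := by
  intro m hm
  show m ∈ (if (0 : ℤ) = 0 then 𝓜 n else ⊥)
  rw [if_pos rfl]
  exact hm

private lemma C2_decomp {M : Type*} [AddCommGroup M] (𝓜 : ℤ → AddSubgroup M)
    [DirectSum.Decomposition 𝓜] : Nonempty (DirectSum.Decomposition (C2_gr 𝓜)) := by
  classical
  let φ : ∀ n : ℤ, 𝓜 n →+ DirectSum (ℤ × ℤ) (fun g => C2_gr 𝓜 g) := fun n =>
    (DirectSum.of (fun g => C2_gr 𝓜 g) (n, 0)).comp (AddSubgroup.inclusion (C2_le 𝓜 n))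
  let dec : M →+ DirectSum (ℤ × ℤ) (fun g => C2_gr 𝓜 g) :=
    (DirectSum.toAddMonoid φ).comp (DirectSum.decomposeAddEquiv 𝓜).toAddMonoidHom
  have hdec : ∀ n (m : M) (hm : m ∈ 𝓜 n), dec m =
      DirectSum.of (fun g => C2_gr 𝓜 g) (n, 0) ⟨m, C2_le 𝓜 n hm⟩ := by
    intro n m hm
    show DirectSum.toAddMonoid φ (DirectSum.decompose 𝓜 m) = _
    rw [DirectSum.decompose_of_mem 𝓜 hm, DirectSum.toAddMonoid_of]
    rfl
  refine ⟨DirectSum.Decomposition.ofAddHom (C2_gr 𝓜) dec ?_ ?_⟩
  · ext m
    show DirectSum.coeAddMonoidHom (C2_gr 𝓜) (dec m) = m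
    refine hom_induction 𝓜 (P := fun m => DirectSum.coeAddMonoidHom (C2_gr 𝓜) (dec m) = m) ?_ ?_ ?_ m
    · rw [map_zero, map_zero]
    · intro n m hm
      rw [hdec n m hm, DirectSum.coeAddMonoidHom_of]
    · intro m n hm hn
      rw [map_add, map_add, hm, hn]
  · refine DirectSum.addHom_ext fun g y => ?_
    show dec (DirectSum.coeAddMonoidHom (C2_gr 𝓜) (DirectSum.of (fun g => C2_gr 𝓜 g) g y)) = _
    rw [DirectSum.coeAddMonoidHom_of]
    obtain ⟨n, l⟩ := g
    obtain ⟨y, hy⟩ := y
    by_cases hl : l = 0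
    · subst hl
      have hy' : y ∈ 𝓜 n := by
        have : y ∈ (if (0 : ℤ) = 0 then 𝓜 n else ⊥) := hy
        rwa [if_pos rfl] at this
      exact hdec n y hy'
    · have hy' : y = 0 := by
        have : y ∈ (if l = 0 then 𝓜 n else ⊥) := hy
        rw [if_neg hl] at this
        exact (AddSubgroup.mem_bot).1 this
      subst hy'
      rw [map_zero]
      have h2 : (⟨0, hy⟩ : C2_gr 𝓜 (n, l)) = 0 := rfl
      rw [h2, map_zero]
      rfl

private lemma C2_smul {K M : Type*} [Field K] [AddCommGroup M] [Module (MvPolynomial (Fin 5) K) M]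
    (𝓜 : ℤ → AddSubgroup M)
    [SetLike.GradedSMul (weightedHomogeneousSubmodule K (fun _ : Fin 5 => (1 : ℤ))) 𝓜] :
    SetLike.GradedSMul (weightedHomogeneousSubmodule K (fun _ : Fin 5 => ((1 : ℤ), (0 : ℤ))))
      (C2_gr 𝓜) := by
  refine ⟨?_⟩
  rintro ⟨a, c⟩ ⟨n, l⟩ p m hp hm
  rw [mem_weightedHomogeneousSubmodule] at hp
  by_cases hp0 : p = 0
  · rw [hp0, zero_smul]
    exact zero_mem _
  have hsnd : ∀ e, coeff e p ≠ 0 → (∑ i, (e i : ℤ)) = a ∧ c = 0 := by
    intro e he
    have h2 := hp he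
    have h3 := map_weight (AddMonoidHom.fst ℤ ℤ) (fun _ : Fin 5 => ((1 : ℤ), (0 : ℤ))) e
    have h4 := map_weight (AddMonoidHom.snd ℤ ℤ) (fun _ : Fin 5 => ((1 : ℤ), (0 : ℤ))) e
    rw [h2] at h3 h4
    simp only [AddMonoidHom.coe_fst, AddMonoidHom.coe_snd, mul_one, mul_zero,
      Finset.sum_const_zero] at h3 h4
    exact ⟨h3.symm, h4⟩
  obtain ⟨e, he⟩ := ne_zero_iff.1 hp0
  have hc := (hsnd e he).2
  subst hc
  by_cases hl : l = 0
  · subst hl
    have hm' : m ∈ 𝓜 n := by
      have : m ∈ (if (0 : ℤ) = 0 then 𝓜 n else ⊥) := hm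
      rwa [if_pos rfl] at this
    have hp' : p ∈ weightedHomogeneousSubmodule K (fun _ : Fin 5 => (1 : ℤ)) a := by
      rw [mem_weightedHomogeneousSubmodule]
      intro f hf
      have h3 := map_weight (AddMonoidHom.id ℤ) (fun _ : Fin 5 => (1 : ℤ)) f
      simp only [AddMonoidHom.id_apply, mul_one] at h3
      rw [h3]
      exact (hsnd f hf).1
    have h5 := SetLike.GradedSMul.smul_mem (A := weightedHomogeneousSubmodule K
      (fun _ : Fin 5 => (1 : ℤ))) (B := 𝓜) hp' hm'
    exact C2_le 𝓜 (a + n) h5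
  · have hm' : m = 0 := by
      have : m ∈ (if l = 0 then 𝓜 n else ⊥) := hm
      rw [if_neg hl] at this
      exact (AddSubgroup.mem_bot).1 this
    rw [hm', smul_zero]
    exact zero_mem _

end c2

section

variable {K M : Type*} [Field K] [CharZero K] [AddCommGroup M]
  [Module (MvPolynomial (Fin 5) K) M] [Module K M] [IsScalarTower K (MvPolynomial (Fin 5) K) M]
  [Module.Finite (MvPolynomial (Fin 5) K) M] [Module.IsReflexive (MvPolynomial (Fin 5) K) M]
  (𝓜 : ℤ → AddSubgroup M) [DirectSum.Decomposition 𝓜]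
  [SetLike.GradedSMul (weightedHomogeneousSubmodule K (fun _ : Fin 5 => (1 : ℤ))) 𝓜]

theorem pairing_op
    (hrank : Module.finrank (MvPolynomial (Fin 5) K) M = 2)
    (hfree : ∀ (p : Ideal (MvPolynomial (Fin 5) K)) [p.IsPrime],
      (∃ i, (X i : MvPolynomial (Fin 5) K) ∉ p) →
        Module.Free (Localization.AtPrime p) (LocalizedModule p.primeCompl M))
    {ε : M →ₗ[K] M} (hε : ∀ d, ∀ m ∈ 𝓜 d, ε m = (d : K) • m)
    {E : Derivation K (MvPolynomial (Fin 5) K) (MvPolynomial (Fin 5) K)}
    (hE : ∀ i, E (X i) = X i) (b : Fin 5 → Fin 5 → K) :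
    ∃ (d : ℤ)
      (B : M →ₗ[MvPolynomial (Fin 5) K] M →ₗ[MvPolynomial (Fin 5) K] MvPolynomial (Fin 5) K),
      Pr (fun i => linForm K (b i)) E ε d B := by
  obtain ⟨hdec⟩ := C2_decomp 𝓜
  have hgs := C2_smul (K := K) 𝓜
  obtain ⟨d, B, halt, hplu, hhom, hfull⟩ := pairing_main M hrank hfree (fun _ => 0) (C2_gr 𝓜)
  refine ⟨d.1, B, halt, hplu, ?_, ?_⟩
  · have hB1 : ∀ (c : K) (m n : M), B (c • m) n = c • B m n := by
      intro c m n
      rw [← algebraMap_smul (MvPolynomial (Fin 5) K) c m, map_smul, LinearMap.smul_apply,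
        algebraMap_smul]
    have hB2 : ∀ (c : K) (m n : M), B m (c • n) = c • B m n := by
      intro c m n
      rw [← algebraMap_smul (MvPolynomial (Fin 5) K) c n, map_smul, algebraMap_smul]
    intro m n
    refine Pool.Agent.Lib.MP_745d3a_ag.hom_induction 𝓜 (P := fun m =>
      E (B m n) = B (ε m) n + B m (ε n) - (d.1 : K) • B m n) ?_ ?_ ?_ m
    · simp
    · intro a m hm
      refine Pool.Agent.Lib.MP_745d3a_ag.hom_induction 𝓜 (P := fun n =>
        E (B m n) = B (ε m) n + B m (ε n) - (d.1 : K) • B m n) ?_ ?_ ?_ n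
      · simp
      · intro c n hn
        have h1 := C2_euler hE (hhom _ _ _ (C2_le 𝓜 a hm) _ (C2_le 𝓜 c hn))
        rw [h1, hε a m hm, hε c n hn, hB1, hB2]
        show ((a + c - d.1 : ℤ) : K) • B m n = _
        push_cast
        rw [sub_smul, add_smul]
      · intro n n' h1 h2
        rw [map_add, map_add, h1, h2, map_add, map_add, map_add, smul_add]
        abel
    · intro m m' h1 h2
      rw [map_add, LinearMap.add_apply, map_add, h1, h2, map_add, map_add, LinearMap.add_apply,
        LinearMap.add_apply, smul_add]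
      abel
  · intro i
    have h1 : linForm K (b i) ∈ (Ideal.span {p : MvPolynomial (Fin 5) K | ∃ a b, B a b = p}).radical := by
      rw [linForm_apply]
      refine sum_mem fun j _ => ?_
      rw [← algebraMap_smul (MvPolynomial (Fin 5) K) (b i j) (X j : MvPolynomial (Fin 5) K), smul_eq_mul]
      refine Ideal.mul_mem_left _ _ ?_
      obtain ⟨N, hN⟩ := hfull j
      exact ⟨N, hN⟩
    obtain ⟨N, hN⟩ := h1
    exact ⟨N, hN⟩

end

end Pool.Agent.Lib.MP_745d3a_ag.PF.GA

end

section

/-!
Locally nilpotent derivations.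

* `locnil`: `{a | ∃ k, D^[k] a = 0}` is closed under sums and products
  (`D^[k + l] (a * b) = ∑ binom D^[i] a * D^[k + l - i] b`; or by induction on `k + l`:
  `D (a * b) = D a * b + a * D b`, and sums of two elements killed by iterates are killed by an
  iterate) and contains the constants: `Coord.induction`.
* `locnil_w`: by descending induction on the weight every coordinate is killed by an iterate of `D`
  (`hz`: `D (x j)` is a coordinate of weight `w j + 1` or zero; the weights are bounded).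
-/

set_option autoImplicit false
set_option linter.unusedSectionVars false
set_option linter.unusedSimpArgs false
set_option linter.unusedVariables false

open MvPolynomial

namespace Pool.Agent.Lib.MP_745d3a_ag.PF.GA

section

private lemma M1a_mono {K S : Type*} [Field K] [CommRing S] [Algebra K S]
    (D : Derivation K S S) {k m : ℕ} (hkm : k ≤ m) {a : S} (h : (D : S → S)^[k] a = 0) :
    (D : S → S)^[m] a = 0 := by
  obtain ⟨j, rfl⟩ := Nat.exists_eq_add_of_le hkm
  rw [add_comm, Function.iterate_add_apply, h]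
  exact iterate_map_zero D j

private lemma M1a_add {K S : Type*} [Field K] [CommRing S] [Algebra K S]
    (D : Derivation K S S) {a b : S} (ha : ∃ k : ℕ, (D : S → S)^[k] a = 0)
    (hb : ∃ k : ℕ, (D : S → S)^[k] b = 0) : ∃ k : ℕ, (D : S → S)^[k] (a + b) = 0 := by
  obtain ⟨k, hk⟩ := ha
  obtain ⟨l, hl⟩ := hb
  refine ⟨max k l, ?_⟩
  rw [iterate_map_add D, M1a_mono D (le_max_left k l) hk, M1a_mono D (le_max_right k l) hl,
    add_zero]

private lemma M1a_mul {K S : Type*} [Field K] [CommRing S] [Algebra K S]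
    (D : Derivation K S S) (n : ℕ) : ∀ (k l : ℕ) (a b : S), k + l ≤ n →
      (D : S → S)^[k] a = 0 → (D : S → S)^[l] b = 0 → ∃ m : ℕ, (D : S → S)^[m] (a * b) = 0 := by
  induction n with
  | zero =>
    intro k l a b hkl ha hb
    have hk : k = 0 := by omega
    subst hk
    have ha' : a = 0 := ha
    exact ⟨0, by rw [ha', zero_mul]; rfl⟩
  | succ n ih =>
    intro k l a b hkl ha hb
    rcases k with _ | k
    · have ha' : a = 0 := ha
      exact ⟨0, by rw [ha', zero_mul]; rfl⟩
    rcases l with _ | l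
    · have hb' : b = 0 := hb
      exact ⟨0, by rw [hb', mul_zero]; rfl⟩
    have h1 : ∃ m : ℕ, (D : S → S)^[m] (a * D b) = 0 :=
      ih (k + 1) l a (D b) (by omega) ha (by rw [← Function.iterate_succ_apply]; exact hb)
    have h2 : ∃ m : ℕ, (D : S → S)^[m] (D a * b) = 0 :=
      ih k (l + 1) (D a) b (by omega) (by rw [← Function.iterate_succ_apply]; exact ha) hb
    obtain ⟨m, hm⟩ := M1a_add D h1 h2
    refine ⟨m + 1, ?_⟩
    rw [Function.iterate_succ_apply, Derivation.leibniz, smul_eq_mul, smul_eq_mul,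
      mul_comm b (D a)]
    exact hm

theorem locnil {K S ι : Type*} [Field K] [CommRing S] [Algebra K S] {x : ι → S}
    (hx : Coord K x) (D : Derivation K S S) (h : ∀ i, ∃ k : ℕ, (D : S → S)^[k] (x i) = 0) (a : S) :
    ∃ k : ℕ, (D : S → S)^[k] a = 0 := by
  refine hx.induction (P := fun a => ∃ k : ℕ, (D : S → S)^[k] a = 0) ?_ ?_ ?_ a
  · intro c
    exact ⟨1, by rw [Function.iterate_one, Derivation.map_algebraMap]⟩
  · intro a b ha hb
    exact M1a_add D ha hb
  · intro a i ⟨k, hk⟩
    obtain ⟨l, hl⟩ := h i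
    exact M1a_mul D (k + l) k l a (x i) le_rfl hk hl

theorem locnil_w {K S ι : Type*} [Field K] [CommRing S] [Algebra K S] {x : ι → S} [Finite ι]
    (hx : Coord K x) (D : Derivation K S S) (w : ι → ℤ)
    (hz : ∀ j, (∃ i, w j + 1 = w i ∧ D (x j) = x i) ∨ D (x j) = 0) (a : S) :
    ∃ k : ℕ, (D : S → S)^[k] a = 0 := by
  refine locnil hx D (fun j => ?_) a
  obtain ⟨W, hW⟩ := (Set.finite_range w).bddAbove
  have hW' : ∀ i, w i ≤ W := fun i => hW ⟨i, rfl⟩
  have key : ∀ (n : ℕ) (j : ι), W - w j < n → ∃ k : ℕ, (D : S → S)^[k] (x j) = 0 := by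
    intro n
    induction n with
    | zero =>
      intro j hj
      have := hW' j
      push_cast at hj
      omega
    | succ n ih =>
      intro j hj
      rcases hz j with ⟨i, hi, hDi⟩ | hD
      · obtain ⟨k, hk⟩ := ih i (by push_cast at hj ⊢; omega)
        exact ⟨k + 1, by rw [Function.iterate_succ_apply, hDi, hk]⟩
      · exact ⟨1, by rw [Function.iterate_one, hD]⟩
  exact key ((W - w j).toNat + 1) j (by have := hW' j; omega)

end

end Pool.Agent.Lib.MP_745d3a_ag.PF.GA

end

section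

/-!
Nilpotent fields whose coordinates of weight zero are at most two.

* `nil_types`: `nil_dich` gives `Gen2` or `μ` with `sh δ μ` locally nilpotent; put
  `δ' = sh δ μ` (`h.shift μ`). `H := hx.der (fun i => (w i : K) • x i)`, `Base`. `HD`: both sides are
  derivations in `a`; check on the coordinates with `hz` (`Coord.der_ext` for `⁅H, D⁆ - D`).
  `DB_of_nil` (with `0 ≠ 1`), `inv_of_nil` give the last fields of `S1`; `sec1`.
-/

set_option autoImplicit false
set_option linter.unusedSectionVars false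
set_option linter.unusedSimpArgs false
set_option linter.unusedVariables false

open MvPolynomial

namespace Pool.Agent.Lib.MP_745d3a_ag.PF.GA

section

universe uS

variable {K M : Type*} {S : Type uS} [Field K] [CharZero K] [IsAlgClosed K] [CommRing S] [Algebra K S]
  {x : Fin 5 → S} {E D : Derivation K S S} [AddCommGroup M] [Module K M]
  [Module S M] [IsScalarTower K S M] {ε δ : M →ₗ[K] M} {d : ℤ} {B : M →ₗ[S] M →ₗ[S] S}

theorem nil_types (hG : GmThm.{uS} K) (h : Sys x E D ε δ) (P : Pr x E ε d B) (w : Fin 5 → ℤ) (hw : ∀ i, 0 ≤ w i)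
    (root : ∀ i, w i ≠ 0 → ∃ j, w j + 1 = w i ∧ D (x j) = x i)
    (hz : ∀ j, (∃ i, w j + 1 = w i ∧ D (x j) = x i) ∨ D (x j) = 0) (c0 c1 : Fin 5)
    (h0 : w c0 = 0) (h1 : w c1 = 0) (hr : ∀ i, w i = 0 → i = c0 ∨ i = c1)
    (hne : ∃ i, w i ≠ 0) : Gen2 S M := by
  have hnil : ∀ a : S, ∃ k : ℕ, (D : S → S)^[k] a = 0 := locnil_w h.cx D w hz
  rcases nil_dich h hnil with hg | ⟨μ, hμ⟩
  · exact hg
  have h' := h.shift μ
  have hij : (0 : Fin 5) ≠ 1 := by decide
  have hH : ∀ i, h.cx.der (fun i => (w i : K) • x i) (x i) = (w i : K) • x i :=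
    fun i => h.cx.der_x _ i
  have hb : ⁅h.cx.der (fun i => (w i : K) • x i), D⁆ = D := by
    refine h.cx.der_ext fun j => ?_
    rw [Derivation.commutator_apply, hH, Derivation.map_smul]
    rcases hz j with ⟨i, hi, hj⟩ | hj
    · rw [hj, hH, ← hi, Int.cast_add, Int.cast_one, add_smul, one_smul, add_sub_cancel_left]
    · rw [hj, map_zero, smul_zero, sub_zero]
  have HD : ∀ a, h.cx.der (fun i => (w i : K) • x i) (D a) =
      D (h.cx.der (fun i => (w i : K) • x i) a) + D a := by
    intro a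
    have h2 := DFunLike.congr_fun hb a
    rw [Derivation.commutator_apply, sub_eq_iff_eq_add'] at h2
    exact h2
  exact sec1 hG (H := h.cx.der (fun i => (w i : K) • x i))
    { base := ⟨h.cx, h.eu, hH, hw⟩
      ED := h.ED
      HD := HD
      root := root
      cE := h.cE
      dE := h.dg
      cD := h'.cD
      comm := h'.comm
      bun := h.bun
      pr := P
      DB := DB_of_nil h.cx P h'.cD hij hnil hμ
      inv := inv_of_nil h.cx P hμ } c0 c1 h0 h1 hr hne

end

end Pool.Agent.Lib.MP_745d3a_ag.PF.GA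

end

section

/-!
The system of a vector field.

* `sys_shift`: as in the proof of `PF.main` (PFFin.lean): `D' = D - c • E`, `δ' = δ - c • ε`.
-/

set_option autoImplicit false
set_option linter.unusedSectionVars false
set_option linter.unusedSimpArgs false
set_option linter.unusedVariables false

open MvPolynomial

namespace Pool.Agent.Lib.MP_745d3a_ag.PF.GA

section

variable {K : Type*} [Field K] [CharZero K] [IsAlgClosed K]
  {M : Type*} [AddCommGroup M] [Module (MvPolynomial (Fin 5) K) M] [Module K M]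
  [IsScalarTower K (MvPolynomial (Fin 5) K) M]
  [Module.Finite (MvPolynomial (Fin 5) K) M] [Module.IsReflexive (MvPolynomial (Fin 5) K) M]
  (𝓜 : ℤ → AddSubgroup M) [DirectSum.Decomposition 𝓜]
  [SetLike.GradedSMul (weightedHomogeneousSubmodule K (fun _ : Fin 5 => (1 : ℤ))) 𝓜]

/-- The system of a field and its shifts. -/
theorem sys_shift
    (hrank : Module.finrank (MvPolynomial (Fin 5) K) M = 2)
    (hfree : ∀ (p : Ideal (MvPolynomial (Fin 5) K)) [p.IsPrime],
      (∃ i, (X i : MvPolynomial (Fin 5) K) ∉ p) →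
        Module.Free (Localization.AtPrime p) (LocalizedModule p.primeCompl M))
    {ε : M →ₗ[K] M} (hε : ∀ d, ∀ m ∈ 𝓜 d, ε m = (d : K) • m)
    {E D : Derivation K (MvPolynomial (Fin 5) K) (MvPolynomial (Fin 5) K)}
    (hE : ∀ i, E (X i) = X i) (L : (Fin 5 → K) →ₗ[K] (Fin 5 → K))
    (hDL : ∀ v, D (linForm K v) = linForm K (L v))
    {δ : M →ₗ[K] M} (hδ : IsConn D δ) (hdeg : ∀ d, ∀ m ∈ 𝓜 d, δ m ∈ 𝓜 d)
    (b : Module.Basis (Fin 5) K (Fin 5 → K)) (c : K) :
    Sys (fun i => linForm K (b i)) E (D - c • E) ε (δ - c • ε) := by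
  have hEL : ∀ v, E (linForm K v) = linForm K v := by
    intro v
    rw [linForm_apply, map_sum]
    simp only [Derivation.map_smul, hE]
  have hx : Coord K (fun i => linForm K (b i)) := coord_basis b
  have hcE : IsConn E ε := gradOp_conn hε hE
  refine
    { cx := hx
      eu := fun i => hEL _
      ED := ?_
      cE := hcE
      dg := gradOp_diag hε
      cD := ?_
      comm := ?_
      bun := bun_of_reflexive hrank hfree _ }
  · have hD' : ∀ v, (D - c • E) (linForm K v) = linForm K (L v - c • v) := by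
      intro v
      show D (linForm K v) - c • E (linForm K v) = _
      rw [hDL, hEL, map_sub, map_smul]
    have h1 : ⁅E, D - c • E⁆ = 0 := by
      refine hx.der_ext fun i => ?_
      rw [Derivation.commutator_apply, hD', hEL, hEL, hD', sub_self]
      rfl
    intro a
    have h2 := congrArg (fun Z : Derivation K (MvPolynomial (Fin 5) K)
      (MvPolynomial (Fin 5) K) => Z a) h1
    simp only [Derivation.commutator_apply] at h2
    exact sub_eq_zero.mp h2
  · intro a m
    show δ (a • m) - c • ε (a • m) = (D a - c • E a) • m + a • (δ m - c • ε m)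
    rw [hδ, hcE, smul_add, sub_smul, smul_sub, smul_assoc, smul_comm a c (ε m)]
    abel
  · refine gradOp_comm hε (δ - c • ε) ?_
    intro d m hm
    show δ m - c • ε m ∈ 𝓜 d
    refine AddSubgroup.sub_mem _ (hdeg d m hm) (smulK_mem 𝓜 c ?_)
    rw [hε d m hm]
    exact smulK_mem 𝓜 _ hm

end

end Pool.Agent.Lib.MP_745d3a_ag.PF.GA

end

section

/-!
The nilpotent types.

* `main_nil`: `L (b i)` determines `D' (linForm (b i)) = linForm (L (b i))`. Types: weights
  `![0,1,2,3,4]` (`c0 = c1 = 0`), `![0,1,2,3,0]` (`0, 4`), `![0,1,2,0,1]` (`0, 3`):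
  `nil_types`; last type: `type311`.
-/

set_option autoImplicit false
set_option linter.unusedSectionVars false
set_option linter.unusedSimpArgs false
set_option linter.unusedVariables false

open MvPolynomial

namespace Pool.Agent.Lib.MP_745d3a_ag.PF.GA

section

universe uK

variable {K : Type uK} [Field K] [CharZero K] [IsAlgClosed K]
  {M : Type*} [AddCommGroup M] [Module (MvPolynomial (Fin 5) K) M] [Module K M]
  [IsScalarTower K (MvPolynomial (Fin 5) K) M]
  [Module.Finite (MvPolynomial (Fin 5) K) M] [Module.IsReflexive (MvPolynomial (Fin 5) K) M]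
  (𝓜 : ℤ → AddSubgroup M) [DirectSum.Decomposition 𝓜]
  [SetLike.GradedSMul (weightedHomogeneousSubmodule K (fun _ : Fin 5 => (1 : ℤ))) 𝓜]

/-- The nilpotent types. -/
theorem main_nil (hG : GmThm.{uK} K)
    (hrank : Module.finrank (MvPolynomial (Fin 5) K) M = 2)
    (hfree : ∀ (p : Ideal (MvPolynomial (Fin 5) K)) [p.IsPrime],
      (∃ i, (X i : MvPolynomial (Fin 5) K) ∉ p) →
        Module.Free (Localization.AtPrime p) (LocalizedModule p.primeCompl M))
    {ε : M →ₗ[K] M} (hε : ∀ d, ∀ m ∈ 𝓜 d, ε m = (d : K) • m)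
    {E D : Derivation K (MvPolynomial (Fin 5) K) (MvPolynomial (Fin 5) K)}
    (hE : ∀ i, E (X i) = X i) (L : (Fin 5 → K) →ₗ[K] (Fin 5 → K))
    (hDL : ∀ v, D (linForm K v) = linForm K (L v))
    {δ : M →ₗ[K] M} (hδ : IsConn D δ) (hdeg : ∀ d, ∀ m ∈ 𝓜 d, δ m ∈ 𝓜 d) (c : K)
    (hnil : IsNilpotent (L - c • LinearMap.id)) (h2 : (L - c • LinearMap.id) ^ 2 ≠ 0) :
    Gen2 (MvPolynomial (Fin 5) K) M := by
  have h5 : Module.finrank K (Fin 5 → K) = 5 := by rw [Module.finrank_fin_fun]
  obtain ⟨b, hb⟩ := nil5 h5 (L - c • LinearMap.id) hnil h2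
  let L' : (Fin 5 → K) →ₗ[K] (Fin 5 → K) := L - c • LinearMap.id
  have hsys := sys_shift 𝓜 hrank hfree hε hE L hDL hδ hdeg b c
  obtain ⟨d, B, P⟩ := pairing_op 𝓜 hrank hfree hε hE (fun i => b i)
  have hEL : ∀ v, E (linForm K v) = linForm K v := by
    intro v
    rw [linForm_apply, map_sum]
    simp only [Derivation.map_smul, hE]
  have hD' : ∀ v, (D - c • E) (linForm K v) = linForm K (L' v) := by
    intro v
    show D (linForm K v) - c • E (linForm K v) = _
    rw [hDL, hEL]
    simp [L']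
  have hto : ∀ i j, L' (b i) = b j →
      (D - c • E) (linForm K (b i)) = linForm K (b j) := fun i j h => by rw [hD', h]
  have hz0 : ∀ i, L' (b i) = 0 →
      (D - c • E) (linForm K (b i)) = 0 := fun i h => by rw [hD', h, map_zero]
  rcases hb with ⟨k0, k1, k2, k3, k4⟩ | ⟨k0, k1, k2, k3, k4⟩ | ⟨k0, k1, k2, k3, k4⟩ |
    ⟨k0, k1, k2, k3, k4⟩
  · refine nil_types hG hsys P ![0, 1, 2, 3, 4] ?_ ?_ ?_ 0 0 rfl rfl ?_ ⟨1, by decide⟩
    · intro i
      fin_cases i <;> decide
    · intro i hi
      fin_cases i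
      · exact absurd rfl hi
      · exact ⟨0, by decide, hto 0 1 k0⟩
      · exact ⟨1, by decide, hto 1 2 k1⟩
      · exact ⟨2, by decide, hto 2 3 k2⟩
      · exact ⟨3, by decide, hto 3 4 k3⟩
    · intro j
      fin_cases j
      · exact Or.inl ⟨1, by decide, hto 0 1 k0⟩
      · exact Or.inl ⟨2, by decide, hto 1 2 k1⟩
      · exact Or.inl ⟨3, by decide, hto 2 3 k2⟩
      · exact Or.inl ⟨4, by decide, hto 3 4 k3⟩
      · exact Or.inr (hz0 4 k4)
    · decide
  · refine nil_types hG hsys P ![0, 1, 2, 3, 0] ?_ ?_ ?_ 0 4 rfl rfl ?_ ⟨1, by decide⟩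
    · intro i
      fin_cases i <;> decide
    · intro i hi
      fin_cases i
      · exact absurd rfl hi
      · exact ⟨0, by decide, hto 0 1 k0⟩
      · exact ⟨1, by decide, hto 1 2 k1⟩
      · exact ⟨2, by decide, hto 2 3 k2⟩
      · exact absurd rfl hi
    · intro j
      fin_cases j
      · exact Or.inl ⟨1, by decide, hto 0 1 k0⟩
      · exact Or.inl ⟨2, by decide, hto 1 2 k1⟩
      · exact Or.inl ⟨3, by decide, hto 2 3 k2⟩
      · exact Or.inr (hz0 3 k3)
      · exact Or.inr (hz0 4 k4)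
    · decide
  · refine nil_types hG hsys P ![0, 1, 2, 0, 1] ?_ ?_ ?_ 0 3 rfl rfl ?_ ⟨1, by decide⟩
    · intro i
      fin_cases i <;> decide
    · intro i hi
      fin_cases i
      · exact absurd rfl hi
      · exact ⟨0, by decide, hto 0 1 k0⟩
      · exact ⟨1, by decide, hto 1 2 k1⟩
      · exact absurd rfl hi
      · exact ⟨3, by decide, hto 3 4 k3⟩
    · intro j
      fin_cases j
      · exact Or.inl ⟨1, by decide, hto 0 1 k0⟩
      · exact Or.inl ⟨2, by decide, hto 1 2 k1⟩
      · exact Or.inr (hz0 2 k2)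
      · exact Or.inl ⟨4, by decide, hto 3 4 k3⟩
      · exact Or.inr (hz0 4 k4)
    · decide
  · exact type311 hsys (hto 0 1 k0) (hto 1 2 k1) (hz0 2 k2) (hz0 3 k3) (hz0 4 k4)

end

end Pool.Agent.Lib.MP_745d3a_ag.PF.GA

end

section

/-!
Rank two bundles on projective four-space to which a vector field lifts.

* `main`: as `PF.main`: `L v = Matrix.vecMul v A` (`B.transpose.mulVecLin` there). `gen_basis` gives
  `b`, `α`. If `α i ≠ α j` for some `i j`: the system with the coordinates `linForm K (b i)`, `D`, `δ`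
  (`sys_shift` with `c = 0`) and `two_eig`:
  `((D - α) ^ k) (linForm v) = linForm (((L - α) ^ k) v)` by induction on `k`. Otherwise
  `L - c` is nilpotent (`nil_of_const`), not zero (`hA`). If `(L - c) ^ 2 = 0` then `PF.main`
  (`rank_le_two`; the matrix `A - c • 1` has square zero, rank at most two). Otherwise `nil5` for
  `L - c` and `main_nil`. `Gen2` gives the homogeneous basis as at the end of `PF.main`
  (`exists_hom_basis`).
-/

set_option autoImplicit false
set_option linter.unusedSectionVars false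
set_option linter.unusedSimpArgs false
set_option linter.unusedVariables false

open MvPolynomial

namespace Pool.Agent.Lib.MP_745d3a_ag.PF.GA

section

universe uK uM

variable {K : Type uK} [Field K] [CharZero K] [IsAlgClosed K]

/-- **Main theorem.** -/
theorem main (hG : GmThm.{uK} K) (hG2 : GmThm.{uM} K) (A : Matrix (Fin 5) (Fin 5) K) (hA : ∀ c : K, A ≠ c • (1 : Matrix (Fin 5) (Fin 5) K))
    (M : Type uM) [AddCommGroup M] [Module (MvPolynomial (Fin 5) K) M]
    [Module.Finite (MvPolynomial (Fin 5) K) M] [Module.IsReflexive (MvPolynomial (Fin 5) K) M]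
    (hrank : Module.finrank (MvPolynomial (Fin 5) K) M = 2)
    (hfree : ∀ (p : Ideal (MvPolynomial (Fin 5) K)) [p.IsPrime],
      (∃ i, (X i : MvPolynomial (Fin 5) K) ∉ p) →
        Module.Free (Localization.AtPrime p) (LocalizedModule p.primeCompl M))
    (𝓜 : ℤ → AddSubgroup M) [DirectSum.Decomposition 𝓜]
    [SetLike.GradedSMul (weightedHomogeneousSubmodule K (fun _ : Fin 5 => (1 : ℤ))) 𝓜]
    (D : Derivation K (MvPolynomial (Fin 5) K) (MvPolynomial (Fin 5) K))
    (hD : ∀ i, D (X i) = ∑ j, A i j • (X j : MvPolynomial (Fin 5) K))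
    (δ : M →+ M) (hδ : ∀ (a : MvPolynomial (Fin 5) K) (m : M), δ (a • m) = D a • m + a • δ m)
    (hdeg : ∀ d, ∀ m ∈ 𝓜 d, δ m ∈ 𝓜 d) :
    ∃ (b : Module.Basis (Fin 2) (MvPolynomial (Fin 5) K) M) (d : Fin 2 → ℤ),
      ∀ k, b k ∈ 𝓜 (d k) := by
  classical
  let _j : Module K M := Module.compHom M (algebraMap K (MvPolynomial (Fin 5) K))
  have _i : IsScalarTower K (MvPolynomial (Fin 5) K) M := ⟨fun a p m => by
    rw [Algebra.smul_def, mul_smul]; rfl⟩
  obtain ⟨ε, hε⟩ := exists_gradOp (K := K) 𝓜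
  let E : Derivation K (MvPolynomial (Fin 5) K) (MvPolynomial (Fin 5) K) := mkDerivation K X
  have hE : ∀ i, E (X i) = X i := fun i => mkDerivation_X K _ i
  -- the `K`-linear connection
  let δ₀ : M →ₗ[K] M :=
    { δ with
      map_smul' := fun k m => by
        show δ (k • m) = k • δ m
        have h1 : k • m = (algebraMap K (MvPolynomial (Fin 5) K) k) • m := rfl
        rw [h1, hδ, Derivation.map_algebraMap, zero_smul, zero_add]
        rfl }
  have hcD : IsConn D δ₀ := fun a m => hδ a m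
  have hdeg₀ : ∀ d, ∀ m ∈ 𝓜 d, δ₀ m ∈ 𝓜 d := fun d m hm => hdeg d m hm
  let L : (Fin 5 → K) →ₗ[K] (Fin 5 → K) := A.transpose.mulVecLin
  have hL : ∀ v, L v = Matrix.vecMul v A := by
    intro v
    simp [L]
  have hDL : ∀ v, D (linForm K v) = linForm K (L v) := by
    intro v
    rw [der_linForm A D hD, hL]
  have h5 : Module.finrank K (Fin 5 → K) = 5 := by rw [Module.finrank_fin_fun]
  obtain ⟨b, α, hb⟩ := gen_basis h5 L
  have hsys := sys_shift 𝓜 hrank hfree hε hE L hDL hcD hdeg₀ b
  -- from two generators to a homogeneous basis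
  have hfin : Gen2 (MvPolynomial (Fin 5) K) M →
      ∃ (b : Module.Basis (Fin 2) (MvPolynomial (Fin 5) K) M) (d : Fin 2 → ℤ),
        ∀ k, b k ∈ 𝓜 (d k) := by
    intro hgen
    refine exists_hom_basis (ω := fun _ => (1 : ℤ)) (δ := AddMonoidHom.id ℤ) (fun _ => rfl) ?_
      hrank
    obtain ⟨m₁, m₂, hm⟩ := hgen
    have hind := (hsys 0).bun.gen2_indep (hsys 0).cx m₁ m₂ hm
    have hli : LinearIndependent (MvPolynomial (Fin 5) K) ![m₁, m₂] := by
      rw [LinearIndependent.pair_iff]
      exact hind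
    have hsp : ⊤ ≤ Submodule.span (MvPolynomial (Fin 5) K) (Set.range ![m₁, m₂]) := by
      intro m _
      rw [Matrix.range_cons, Matrix.range_cons, Matrix.range_empty, Set.union_empty,
        ← Set.insert_eq]
      obtain ⟨a, e, he⟩ := hm m
      exact Submodule.mem_span_pair.mpr ⟨a, e, he.symm⟩
    exact Module.Free.of_basis (Module.Basis.mk hli hsp)
  by_cases hne : ∃ i j, α i ≠ α j
  · obtain ⟨i, j, hij⟩ := hne
    refine hfin (two_eig hG2 (hsys 0) α ?_ hij)
    intro i
    have h1 := hb i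
    rw [Module.End.mem_maxGenEigenspace] at h1 ⊢
    obtain ⟨k, hk⟩ := h1
    refine ⟨k, ?_⟩
    have key : ∀ (n : ℕ) (v : Fin 5 → K),
        (((((D - (0 : K) • E : Derivation K (MvPolynomial (Fin 5) K) (MvPolynomial (Fin 5) K)) :
          MvPolynomial (Fin 5) K →ₗ[K] MvPolynomial (Fin 5) K) :
            Module.End K (MvPolynomial (Fin 5) K)) - α i • 1) ^ n) (linForm K v) =
        linForm K (((L : Module.End K (Fin 5 → K)) - α i • 1) ^ n • v) := by
      intro n
      induction n with
      | zero => intro v; simp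
      | succ n ih =>
        intro v
        rw [pow_succ, Module.End.mul_apply]
        have h2 : (((D - (0 : K) • E : Derivation K (MvPolynomial (Fin 5) K)
            (MvPolynomial (Fin 5) K)) : MvPolynomial (Fin 5) K →ₗ[K] MvPolynomial (Fin 5) K) :
            Module.End K (MvPolynomial (Fin 5) K)) (linForm K v) = linForm K (L v) := by
          rw [zero_smul, sub_zero]
          exact hDL v
        have h3 : ((((D - (0 : K) • E : Derivation K (MvPolynomial (Fin 5) K)
            (MvPolynomial (Fin 5) K)) : MvPolynomial (Fin 5) K →ₗ[K] MvPolynomial (Fin 5) K) :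
            Module.End K (MvPolynomial (Fin 5) K)) - α i • 1) (linForm K v) =
            linForm K (((L : Module.End K (Fin 5 → K)) - α i • 1) v) := by
          rw [LinearMap.sub_apply, LinearMap.sub_apply, h2, map_sub]
          simp
        rw [h3, ih, pow_succ]
        rfl
    rw [key]
    have h4 : ((L : Module.End K (Fin 5 → K)) - α i • 1) ^ k • b i =
        (((L : Module.End K (Fin 5 → K)) - α i • 1) ^ k) (b i) := rfl
    rw [h4, hk, map_zero]
  · push Not at hne
    have hnil : IsNilpotent (L - α 0 • LinearMap.id) :=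
      nil_of_const h5 L b (α 0) (fun i => by rw [← hne i 0]; exact hb i)
    by_cases h2 : (L - α 0 • LinearMap.id) ^ 2 = 0
    · have hB : Matrix.toLin' ((A - α 0 • (1 : Matrix (Fin 5) (Fin 5) K)).transpose) =
          L - α 0 • LinearMap.id := by
        rw [Matrix.transpose_sub, Matrix.transpose_smul, Matrix.transpose_one, map_sub, map_smul,
          Matrix.toLin'_one]
        rfl
      have hsq : (A - α 0 • (1 : Matrix (Fin 5) (Fin 5) K)) ^ 2 = 0 := by
        have h3 : Matrix.toLin' (((A - α 0 • (1 : Matrix (Fin 5) (Fin 5) K)) ^ 2).transpose) =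
            0 := by
          rw [pow_two, Matrix.transpose_mul, Matrix.toLin'_mul, hB, ← Module.End.mul_eq_comp,
            ← pow_two]
          exact h2
        have h4 : ((A - α 0 • (1 : Matrix (Fin 5) (Fin 5) K)) ^ 2).transpose = 0 :=
          (Matrix.toLin' (R := K) (m := Fin 5) (n := Fin 5)).injective (by rw [h3, map_zero])
        rw [← Matrix.transpose_transpose ((A - α 0 • (1 : Matrix (Fin 5) (Fin 5) K)) ^ 2), h4,
          Matrix.transpose_zero]
      refine PF.main A (α 0) (hA _) ?_ (fun _ => hsq) M hrank hfree 𝓜 D hD δ hδ hdeg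
      have h6 := rank_le_two h5 (L - α 0 • LinearMap.id) h2
      rw [← hB] at h6
      have h7 : (A - α 0 • (1 : Matrix (Fin 5) (Fin 5) K)).transpose.rank =
          Module.finrank K (LinearMap.range (Matrix.toLin'
            ((A - α 0 • (1 : Matrix (Fin 5) (Fin 5) K)).transpose))) := rfl
      rw [← Matrix.rank_transpose, h7]
      exact h6
    · exact hfin (main_nil 𝓜 hG hrank hfree hε hE L hDL hcD hdeg₀ (α 0) hnil h2)

end

end Pool.Agent.Lib.MP_745d3a_ag.PF.GA

end
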